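import Pool.Agent.H42.PCM.G1

set_option autoImplicit false

section DDefs
/-! Local data: a valuation with its inertia group; polynomials in good position. -/


namespace Pool.Agent.H42.PC

open Polynomial WithZero

/-- A valuation of `L` together with its inertia group `I ≤ G`. -/
structure Loc (G L : Type) [Group G] [Field L] [MulSemiringAction G L] where
  /-- the valuation -/
  V : Valuation L ℤᵐ⁰
  /-- the inertia group -/
  I : Subgroup G
  inv : ∀ g ∈ I, ∀ x, V (g • x) = V x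
  inert : ∀ g ∈ I, ∀ x, V x ≤ 1 → V (g • x - x) < 1
  div : ∀ H ≤ I, ∀ z, z ≠ 0 → (∀ g ∈ H, g • z = z) → ∃ k : ℤ, V z = exp (k * (Nat.card H : ℤ))
  unif : ∀ H ≤ I, ∃ z, (∀ g ∈ H, g • z = z) ∧ V z = exp (-(Nat.card H : ℤ))

/-- The polynomial map. -/
noncomputable def ev {L : Type} [Field L] (f : L[X]) (x : L) : L := f.eval x

/-- `f` and `b` are in good position at the valuation `Λ.V`; `W` is the set of wandering critical
points, `J` the number of iterates which are controlled. -/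
structure Good {G L : Type} [Group G] [Field L] [MulSemiringAction G L] (Λ : Loc G L)
    (f : L[X]) (b : L) (W : Finset L) (J : ℕ) : Prop where
  coef : ∀ (g : G) (i : ℕ), g • f.coeff i = f.coeff i
  fixb : ∀ g : G, g • b = b
  deg : 2 ≤ f.natDegree
  int : ∀ i, Λ.V (f.coeff i) ≤ 1
  lead : Λ.V f.leadingCoeff = 1
  two : Λ.V 2 = 1
  dd : Λ.V (f.natDegree : L) = 1
  spl : f.derivative.Splits
  bint : Λ.V b ≤ 1
  bW : b ∈ W
  Wroot : ∀ c ∈ W, f.derivative.eval c = 0
  Wsimple : ∀ c ∈ W, f.derivative.derivative.eval c ≠ 0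
  G1 : ∀ c c', f.derivative.eval c = 0 → f.derivative.eval c' = 0 → c ≠ c' → Λ.V (c - c') = 1
  G2 : ∀ c ∈ W, ∀ c' ∈ W, ∀ i ≤ J, ∀ j ≤ J, Λ.V ((ev f)^[i] c - (ev f)^[j] c') < 1 →
    c = c' ∧ i = j
  G3 : ∀ c, f.derivative.eval c = 0 → c ∉ W → ∀ t, ¬ Λ.V ((ev f)^[t] c - b) < 1

end Pool.Agent.H42.PC

end DDefs

section DPol
namespace Pool.Agent.H42.PC

open Polynomial WithZero

variable {L : Type} [Field L] {V : Valuation L ℤᵐ⁰}

theorem lift_int {p : L[X]} (hp : ∀ i, V (p.coeff i) ≤ 1) :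
    ∃ q : (V.integer)[X], q.map V.integer.subtype = p := by
  have h : (↑p.coeffs : Set L) ⊆ (V.integer : Set L) := by
    intro x hx
    have hx' : x ∈ p.coeffs := hx
    rw [Polynomial.mem_coeffs_iff] at hx'
    obtain ⟨n, -, rfl⟩ := hx'
    exact hp n
  exact ⟨p.toSubring V.integer h, Polynomial.map_toSubring _ _ _⟩

theorem ev_lift (q : (V.integer)[X]) (x : V.integer) :
    (q.map V.integer.subtype).eval (x : L) = ((q.eval x : V.integer) : L) := by
  rw [eval_map]
  exact eval₂_at_apply V.integer.subtype x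

theorem eval_int {p : L[X]} (hp : ∀ i, V (p.coeff i) ≤ 1) {x : L} (hx : V x ≤ 1) :
    V (p.eval x) ≤ 1 := by
  obtain ⟨q, rfl⟩ := lift_int hp
  have := ev_lift q ⟨x, hx⟩
  simp only at this
  rw [this]
  exact (q.eval ⟨x, hx⟩).2

theorem root_int {p : L[X]} (hp : ∀ i, V (p.coeff i) ≤ 1) (hl : V p.leadingCoeff = 1)
    (hd : 1 ≤ p.natDegree) {x : L} (hx : V (p.eval x) ≤ 1) : V x ≤ 1 := by
  by_contra hcon
  have h1 : 1 < V x := not_le.mp hcon
  obtain ⟨e, he⟩ : ∃ e, p.natDegree = e + 1 := ⟨p.natDegree - 1, by omega⟩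
  have h2 : p.leadingCoeff * x ^ (e + 1) =
      p.eval x - ∑ i ∈ Finset.range (e + 1), p.coeff i * x ^ i := by
    rw [eval_eq_sum_range, he, Finset.sum_range_succ, Polynomial.leadingCoeff, he]
    ring
  have h3 : V (p.leadingCoeff * x ^ (e + 1)) = V x ^ (e + 1) := by
    rw [map_mul, hl, one_mul, map_pow]
  have hone : (1 : ℤᵐ⁰) ≤ V x ^ e := one_le_pow₀ h1.le
  have h4 : V (p.eval x - ∑ i ∈ Finset.range (e + 1), p.coeff i * x ^ i) ≤ V x ^ e := by
    refine Valuation.map_sub_le _ (hx.trans hone) ?_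
    refine Valuation.map_sum_le _ ?_
    intro i hi
    have hi' : i ≤ e := by have := Finset.mem_range.mp hi; omega
    rw [map_mul, map_pow]
    calc V (p.coeff i) * V x ^ i ≤ 1 * V x ^ i := by
          exact mul_le_mul_left (hp i) _
      _ = V x ^ i := one_mul _
      _ ≤ V x ^ e := pow_le_pow_right₀ h1.le hi'
  rw [← h2, h3] at h4
  exact absurd h4 (not_le.mpr (pow_lt_pow_right₀ h1 (Nat.lt_succ_self e)))

theorem eval_sub {p : L[X]} (hp : ∀ i, V (p.coeff i) ≤ 1) {x y : L} (hx : V x ≤ 1)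
    (hy : V y ≤ 1) : ∃ ρ, V ρ ≤ 1 ∧
      p.eval x - p.eval y = (x - y) * (p.derivative.eval y + (x - y) * ρ) := by
  obtain ⟨q, rfl⟩ := lift_int hp
  let x0 : V.integer := ⟨x, hx⟩
  let y0 : V.integer := ⟨y, hy⟩
  obtain ⟨k, hk⟩ := Polynomial.binomExpansion q y0 (x0 - y0)
  refine ⟨(k : L), k.2, ?_⟩
  have e1 : (q.map V.integer.subtype).eval x = ((q.eval x0 : V.integer) : L) := ev_lift q x0
  have e2 : (q.map V.integer.subtype).eval y = ((q.eval y0 : V.integer) : L) := ev_lift q y0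
  have e3 : (q.map V.integer.subtype).derivative.eval y =
      ((q.derivative.eval y0 : V.integer) : L) := by
    rw [derivative_map]
    exact ev_lift q.derivative y0
  rw [e1, e2, e3]
  have hk2 : q.eval x0 = q.eval y0 + q.derivative.eval y0 * (x0 - y0) + k * (x0 - y0) ^ 2 := by
    rw [← hk]; congr 1; ring
  rw [hk2]
  have hx0 : (x0 : L) = x := rfl
  have hy0 : (y0 : L) = y := rfl
  push_cast
  rw [hx0, hy0]
  ring

theorem eval_sub_le {p : L[X]} (hp : ∀ i, V (p.coeff i) ≤ 1) {x y : L} (hx : V x ≤ 1)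
    (hy : V y ≤ 1) : V (p.eval x - p.eval y) ≤ V (x - y) := by
  obtain ⟨ρ, hρ, h⟩ := eval_sub hp hx hy
  have hd : V (p.derivative.eval y) ≤ 1 := by
    obtain ⟨q, rfl⟩ := lift_int hp
    rw [derivative_map]
    have := ev_lift q.derivative ⟨y, hy⟩
    simp only at this
    rw [this]
    exact (q.derivative.eval ⟨y, hy⟩).2
  rw [h, map_mul]
  have h2 : V (p.derivative.eval y + (x - y) * ρ) ≤ 1 := by
    refine Valuation.map_add_le _ hd ?_
    rw [map_mul]
    exact mul_le_one' (Valuation.map_sub_le _ hx hy) hρ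
  calc V (x - y) * V (p.derivative.eval y + (x - y) * ρ) ≤ V (x - y) * 1 :=
        mul_le_mul_right h2 _
    _ = V (x - y) := mul_one _

variable {G : Type} [Group G] [MulSemiringAction G L] {Λ : Loc G L} {f : L[X]} {b : L}
  {W : Finset L} {J : ℕ}

theorem der_coef_int {p : L[X]} (hp : ∀ i, V (p.coeff i) ≤ 1) (i : ℕ) :
    V (p.derivative.coeff i) ≤ 1 := by
  obtain ⟨q, rfl⟩ := lift_int hp
  rw [derivative_map, coeff_map]
  exact (q.derivative.coeff i).2

theorem natCast_ne (hG : Good Λ f b W J) : (f.natDegree : L) ≠ 0 := by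
  intro h
  have := hG.dd
  rw [h, map_zero] at this
  exact zero_ne_one this

theorem natDegree_der (hG : Good Λ f b W J) : f.derivative.natDegree = f.natDegree - 1 := by
  have hd := hG.deg
  have h0 : f.derivative.coeff (f.natDegree - 1) ≠ 0 := by
    rw [coeff_derivative]
    have e : f.natDegree - 1 + 1 = f.natDegree := by omega
    rw [e]
    have e2 : ((f.natDegree - 1 : ℕ) : L) + 1 = (f.natDegree : L) := by
      have : ((f.natDegree - 1 + 1 : ℕ) : L) = (f.natDegree : L) := by rw [e]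
      push_cast at this
      exact this
    rw [e2]
    refine mul_ne_zero ?_ (natCast_ne hG)
    intro h
    have := hG.lead
    rw [Polynomial.leadingCoeff, h, map_zero] at this
    exact zero_ne_one this
  refine le_antisymm (natDegree_derivative_le f) (le_natDegree_of_ne_zero h0)

theorem lead_der (hG : Good Λ f b W J) : Λ.V f.derivative.leadingCoeff = 1 := by
  have hd := hG.deg
  rw [Polynomial.leadingCoeff, natDegree_der hG, coeff_derivative]
  have e : f.natDegree - 1 + 1 = f.natDegree := by omega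
  rw [e]
  have e2 : ((f.natDegree - 1 : ℕ) : L) + 1 = (f.natDegree : L) := by
    have : ((f.natDegree - 1 + 1 : ℕ) : L) = (f.natDegree : L) := by rw [e]
    push_cast at this
    exact this
  rw [e2, map_mul, hG.dd, mul_one]
  exact hG.lead

theorem near_crit (hG : Good Λ f b W J) {x : L} (hx : Λ.V x ≤ 1)
    (h : Λ.V (f.derivative.eval x) < 1) : ∃ c, f.derivative.eval c = 0 ∧ Λ.V (x - c) < 1 := by
  by_contra hcon
  push Not at hcon
  rw [hG.spl.eval_eq_prod_roots, map_mul, lead_der hG, one_mul, map_multiset_prod] at h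
  refine absurd h (not_lt.mpr ?_)
  refine Multiset.one_le_prod_of_one_le ?_
  intro y hy
  rw [Multiset.mem_map] at hy
  obtain ⟨z, hz, rfl⟩ := hy
  rw [Multiset.mem_map] at hz
  obtain ⟨c, hc, rfl⟩ := hz
  exact hcon c (isRoot_of_mem_roots hc)

theorem crit_int (hG : Good Λ f b W J) {c : L} (hc : f.derivative.eval c = 0) : Λ.V c ≤ 1 := by
  refine root_int (p := f.derivative) (der_coef_int hG.int) (lead_der hG) ?_ ?_
  · rw [natDegree_der hG]
    have := hG.deg
    omega
  · rw [hc, map_zero]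
    exact zero_le_one

theorem der2_unit (hG : Good Λ f b W J) {c : L} (hc : c ∈ W) :
    Λ.V (f.derivative.derivative.eval c) = 1 := by
  classical
  have hne : f.derivative ≠ 0 := by
    intro h0
    have := lead_der hG
    rw [h0, leadingCoeff_zero, map_zero] at this
    exact zero_ne_one this
  have hr : c ∈ f.derivative.roots := by
    rw [mem_roots hne]
    exact hG.Wroot c hc
  have h1 : f.derivative.derivative.eval c =
      f.derivative.leadingCoeff * ((f.derivative.roots.erase c).map (c - ·)).prod := by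
    conv_lhs => rw [hG.spl.eq_prod_roots]
    rw [derivative_C_mul, eval_C_mul, eval_multiset_prod_X_sub_C_derivative hr]
  have hs := hG.Wsimple c hc
  rw [h1] at hs ⊢
  rw [map_mul, lead_der hG, one_mul, map_multiset_prod, Multiset.map_map]
  refine Multiset.prod_eq_one ?_
  intro y hy
  rw [Multiset.mem_map] at hy
  obtain ⟨c', hc', rfl⟩ := hy
  simp only [Function.comp_apply]
  refine hG.G1 c c' (hG.Wroot c hc) (isRoot_of_mem_roots (Multiset.mem_of_mem_erase hc')) ?_
  rintro rfl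
  apply hs
  have : (0 : L) ∈ (f.derivative.roots.erase c).map (c - ·) := by
    rw [Multiset.mem_map]
    exact ⟨c, hc', sub_self c⟩
  rw [Multiset.prod_eq_zero this, mul_zero]

theorem crit_form (hG : Good Λ f b W J) {c : L} (hc : c ∈ W) :
    ∃ g : L[X], (∀ i, Λ.V (g.coeff i) ≤ 1) ∧ f = C (f.eval c) + (X - C c) ^ 2 * g ∧
      Λ.V (g.eval c) = 1 := by
  obtain ⟨q, hq⟩ := lift_int hG.int
  have hci : Λ.V c ≤ 1 := crit_int hG (hG.Wroot c hc)
  let c0 : Λ.V.integer := ⟨c, hci⟩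
  have hc0 : (c0 : L) = c := rfl
  obtain ⟨h0, hh0⟩ : (X - C c0) ∣ q - C (q.eval c0) := by
    rw [dvd_iff_isRoot]
    simp [IsRoot]
  have hder : h0.eval c0 = 0 := by
    have h1 : q.derivative.eval c0 = h0.eval c0 := by
      have := congrArg (fun r => (derivative r).eval c0) hh0
      simpa using this
    rw [← h1]
    apply Subtype.ext
    rw [← ev_lift q.derivative c0, ← derivative_map, hq, hc0]
    exact hG.Wroot c hc
  obtain ⟨g0, hg0⟩ : (X - C c0) ∣ h0 := by
    rw [dvd_iff_isRoot]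
    exact hder
  have hform : f = C (f.eval c) + (X - C c) ^ 2 * g0.map Λ.V.integer.subtype := by
    have e1 : q = C (q.eval c0) + (X - C c0) ^ 2 * g0 := by
      rw [hg0] at hh0
      linear_combination hh0
    have e2 := congrArg (Polynomial.map Λ.V.integer.subtype) e1
    rw [hq] at e2
    rw [Polynomial.map_add, Polynomial.map_mul, Polynomial.map_pow, Polynomial.map_sub, map_X,
      map_C, map_C] at e2
    have e3 : f.eval c = Λ.V.integer.subtype (q.eval c0) := by
      rw [← hq]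
      exact ev_lift q c0
    rw [e3]
    exact e2
  refine ⟨g0.map Λ.V.integer.subtype, ?_, hform, ?_⟩
  · intro i
    rw [coeff_map]
    exact (g0.coeff i).2
  · set g := g0.map Λ.V.integer.subtype with hg
    have h2 : f.derivative.derivative.eval c = 2 * g.eval c := by
      rw [hform]
      simp [derivative_mul, derivative_pow]
    have h3 := der2_unit hG hc
    rw [h2, map_mul, hG.two, one_mul] at h3
    exact h3

theorem noncrit (hG : Good Λ f b W J) {x y : L} (hx : Λ.V x ≤ 1) (hy : Λ.V y ≤ 1)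
    (hxy : Λ.V (x - y) < 1) (h : Λ.V (f.derivative.eval y) = 1) :
    Λ.V (f.eval x - f.eval y) = Λ.V (x - y) := by
  obtain ⟨ρ, hρ, he⟩ := eval_sub hG.int hx hy
  rw [he, map_mul]
  have h1 : Λ.V ((x - y) * ρ) < Λ.V (f.derivative.eval y) := by
    rw [h, map_mul]
    calc Λ.V (x - y) * Λ.V ρ ≤ Λ.V (x - y) * 1 := mul_le_mul_right hρ _
      _ = Λ.V (x - y) := mul_one _
      _ < 1 := hxy
  rw [Valuation.map_add_eq_of_lt_left _ h1, h, mul_one]

theorem crit_diff (hG : Good Λ f b W J) {c : L} (hc : c ∈ W) {x x' : L}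
    (hx : Λ.V (x - c) < 1) (hx' : Λ.V (x' - c) < 1) :
    ∃ u h, Λ.V u = 1 ∧ Λ.V h ≤ 1 ∧
      f.eval x - f.eval x' = (x - x') * ((x + x' - 2 * c) * u + (x' - c) ^ 2 * h) := by
  obtain ⟨g, hgi, hform, hgc⟩ := crit_form hG hc
  have hci : Λ.V c ≤ 1 := crit_int hG (hG.Wroot c hc)
  have hxi : Λ.V x ≤ 1 := by
    have : x = (x - c) + c := by ring
    rw [this]
    exact Valuation.map_add_le _ hx.le hci
  have hxi' : Λ.V x' ≤ 1 := by
    have : x' = (x' - c) + c := by ring
    rw [this]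
    exact Valuation.map_add_le _ hx'.le hci
  have hu : Λ.V (g.eval x) = 1 := by
    have h1 : Λ.V (g.eval x - g.eval c) < Λ.V (g.eval c) := by
      rw [hgc]
      exact lt_of_le_of_lt (eval_sub_le hgi hxi hci) hx
    have : g.eval x = g.eval c + (g.eval x - g.eval c) := by ring
    rw [this, Valuation.map_add_eq_of_lt_left _ h1, hgc]
  obtain ⟨ρ, hρ, he⟩ := eval_sub hgi hxi hxi'
  refine ⟨g.eval x, g.derivative.eval x' + (x - x') * ρ, hu, ?_, ?_⟩
  · refine Valuation.map_add_le _ (eval_int (der_coef_int hgi) hxi') ?_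
    rw [map_mul]
    exact mul_le_one' (Valuation.map_sub_le _ hxi hxi') hρ
  · have e1 : f.eval x = f.eval c + (x - c) ^ 2 * g.eval x := by
      conv_lhs => rw [hform]
      simp
    have e2 : f.eval x' = f.eval c + (x' - c) ^ 2 * g.eval x' := by
      conv_lhs => rw [hform]
      simp
    rw [e1, e2]
    linear_combination ((x' - c) ^ 2) * he

theorem crit_sub_le (hG : Good Λ f b W J) {c : L} (hc : c ∈ W) {x x' : L}
    (hx : Λ.V (x - c) < 1) (hx' : Λ.V (x' - c) < 1) :
    Λ.V (f.eval x - f.eval x') ≤ Λ.V (x - x') * max (Λ.V (x - c)) (Λ.V (x' - c)) := by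
  obtain ⟨u, h, hu, hh, he⟩ := crit_diff hG hc hx hx'
  rw [he, map_mul]
  refine mul_le_mul_right ?_ _
  refine Valuation.map_add_le _ ?_ ?_
  · rw [map_mul, hu, mul_one]
    have : x + x' - 2 * c = (x - c) + (x' - c) := by ring
    rw [this]
    exact Valuation.map_add _ _ _
  · rw [map_mul, map_pow]
    calc Λ.V (x' - c) ^ 2 * Λ.V h ≤ Λ.V (x' - c) ^ 2 * 1 := mul_le_mul_right hh _
      _ = Λ.V (x' - c) * Λ.V (x' - c) := by rw [mul_one, sq]
      _ ≤ Λ.V (x' - c) * 1 := mul_le_mul_right hx'.le _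
      _ = Λ.V (x' - c) := mul_one _
      _ ≤ _ := le_max_right _ _

theorem crit_pair (hG : Good Λ f b W J) {c : L} (hc : c ∈ W) {x x' : L}
    (hx : Λ.V (x - c) < 1) (hx' : Λ.V (x' - c) < 1) (he : f.eval x = f.eval x') (hne : x ≠ x') :
    Λ.V (x + x' - 2 * c) ≤ Λ.V (x' - c) ^ 2 := by
  obtain ⟨u, h, hu, hh, hd⟩ := crit_diff hG hc hx hx'
  rw [he, sub_self] at hd
  have h0 : (x + x' - 2 * c) * u + (x' - c) ^ 2 * h = 0 := by
    rcases mul_eq_zero.mp hd.symm with h1 | h1
    · exact absurd (sub_eq_zero.mp h1) hne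
    · exact h1
  have h1 : (x + x' - 2 * c) * u = -((x' - c) ^ 2 * h) := by linear_combination h0
  have h2 := congrArg Λ.V h1
  rw [map_mul, hu, mul_one, Valuation.map_neg, map_mul, map_pow] at h2
  rw [h2]
  calc Λ.V (x' - c) ^ 2 * Λ.V h ≤ Λ.V (x' - c) ^ 2 * 1 := mul_le_mul_right hh _
    _ = Λ.V (x' - c) ^ 2 := mul_one _

theorem crit_dbl (hG : Good Λ f b W J) {c : L} (hc : c ∈ W) {x : L} (hx : Λ.V (x - c) < 1) :
    Λ.V (f.eval x - f.eval c) = Λ.V (x - c) ^ 2 := by
  have hcc : Λ.V (c - c) < 1 := by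
    rw [sub_self, map_zero]
    exact zero_lt_one
  obtain ⟨u, h, hu, hh, hd⟩ := crit_diff hG hc hx hcc
  have : f.eval x - f.eval c = (x - c) ^ 2 * u := by
    rw [hd]; ring
  rw [this, map_mul, hu, mul_one, map_pow]

theorem eval_smul_of_fix {p : L[X]} {g : G} (hp : ∀ i, g • p.coeff i = p.coeff i) (x : L) :
    p.eval (g • x) = g • p.eval x := by
  rw [eval_eq_sum_range, eval_eq_sum_range, Finset.smul_sum]
  refine Finset.sum_congr rfl fun i _ => ?_
  rw [smul_mul', smul_pow', hp]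

theorem crit_fixed (hG : Good Λ f b W J) {c : L} (hc : f.derivative.eval c = 0) {g : G}
    (hg : g ∈ Λ.I) : g • c = c := by
  by_contra hne
  have hfix : ∀ i, g • f.derivative.coeff i = f.derivative.coeff i := by
    intro i
    rw [coeff_derivative, smul_mul', hG.coef]
    congr 1
    have := map_natCast (MulSemiringAction.toRingHom G L g) (i + 1)
    rw [MulSemiringAction.toRingHom_apply] at this
    push_cast at this
    exact this
  have h0 : f.derivative.eval (g • c) = 0 := by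
    rw [eval_smul_of_fix hfix, hc, smul_zero]
  have h1 := hG.G1 (g • c) c h0 hc hne
  have h2 := Λ.inert g hg c (crit_int hG hc)
  rw [h1] at h2
  exact lt_irrefl _ h2

theorem ev_smul (hG : Good Λ f b W J) (g : G) (x : L) : ev f (g • x) = g • ev f x :=
  eval_smul_of_fix (fun i => hG.coef g i) x

end Pool.Agent.H42.PC

end DPol

section DPl
namespace Pool.Agent.H42.PC

open Polynomial WithZero

variable {G L : Type} [Group G] [Field L] [MulSemiringAction G L] {Λ : Loc G L} {f : L[X]}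
  {b : L} {W : Finset L} {J : ℕ}

/-- open ball of radius one -/
def ball (Λ : Loc G L) (x : L) : Set L := {z | Λ.V (z - x) < 1}

/-- the reduced map on balls -/
def FRm (Λ : Loc G L) (f : L[X]) (B : Set L) : Set L := {z | ∃ x ∈ B, Λ.V (z - ev f x) < 1}

theorem ball_eq {x y : L} : ball Λ x = ball Λ y ↔ Λ.V (x - y) < 1 := by
  constructor
  · intro h
    have h1 : x ∈ ball Λ x := by
      change Λ.V (x - x) < 1
      rw [sub_self, map_zero]
      exact zero_lt_one
    rw [h] at h1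
    exact h1
  · intro h
    have h' : Λ.V (y - x) < 1 := by rwa [Valuation.map_sub_swap]
    ext z
    constructor
    · intro hz
      have hz' : Λ.V (z - x) < 1 := hz
      change Λ.V (z - y) < 1
      rw [show z - y = (z - x) + (x - y) by ring]
      exact Λ.V.map_add_lt hz' h
    · intro hz
      have hz' : Λ.V (z - y) < 1 := hz
      change Λ.V (z - x) < 1
      rw [show z - x = (z - y) + (y - x) by ring]
      exact Λ.V.map_add_lt hz' h'

theorem int_of_near {x y : L} (hx : Λ.V x ≤ 1) (h : Λ.V (y - x) < 1) : Λ.V y ≤ 1 := by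
  rw [show y = (y - x) + x by ring]
  exact Λ.V.map_add_le h.le hx

theorem FR_ball (hG : Good Λ f b W J) {x : L} (hx : Λ.V x ≤ 1) :
    FRm Λ f (ball Λ x) = ball Λ (ev f x) := by
  ext z
  constructor
  · rintro ⟨x', hx', hz⟩
    have hx'' : Λ.V (x' - x) < 1 := hx'
    change Λ.V (z - ev f x) < 1
    rw [show z - ev f x = (z - ev f x') + (ev f x' - ev f x) by ring]
    refine Λ.V.map_add_lt hz (lt_of_le_of_lt ?_ hx'')
    exact eval_sub_le hG.int (int_of_near hx hx'') hx
  · intro hz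
    refine ⟨x, ?_, hz⟩
    change Λ.V (x - x) < 1
    rw [sub_self, map_zero]
    exact zero_lt_one

theorem iter_int (hG : Good Λ f b W J) {x : L} (hx : Λ.V x ≤ 1) (i : ℕ) :
    Λ.V ((ev f)^[i] x) ≤ 1 := by
  induction i with
  | zero => exact hx
  | succ i ih =>
    rw [Function.iterate_succ_apply']
    exact eval_int hG.int ih

theorem FR_iter (hG : Good Λ f b W J) {x : L} (hx : Λ.V x ≤ 1) (i : ℕ) :
    (FRm Λ f)^[i] (ball Λ x) = ball Λ ((ev f)^[i] x) := by
  induction i with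
  | zero => rfl
  | succ i ih =>
    rw [Function.iterate_succ_apply', Function.iterate_succ_apply', ih, FR_ball hG (iter_int hG hx i)]

theorem iter_sub (hG : Good Λ f b W J) {x y : L} (hx : Λ.V x ≤ 1) (hy : Λ.V y ≤ 1) (i : ℕ) :
    Λ.V ((ev f)^[i] x - (ev f)^[i] y) ≤ Λ.V (x - y) := by
  induction i with
  | zero => exact le_rfl
  | succ i ih =>
    rw [Function.iterate_succ_apply', Function.iterate_succ_apply']
    exact (eval_sub_le hG.int (iter_int hG hx i) (iter_int hG hy i)).trans ih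

theorem lev_int (hG : Good Λ f b W J) {t : ℕ} {x : L} (hx : x ∈ lev (ev f) b t) :
    Λ.V x ≤ 1 := by
  induction t generalizing x with
  | zero =>
    have h : x = b := hx
    rw [h]
    exact hG.bint
  | succ t ih =>
    have h : ev f x ∈ lev (ev f) b t := by
      have h1 : (ev f)^[t + 1] x = b := hx
      rw [Function.iterate_succ_apply] at h1
      exact h1
    exact root_int hG.int hG.lead (le_trans (by norm_num) hG.deg) (ih h)

theorem near_wand (hG : Good Λ f b W J) {t : ℕ} {x : L} (hx : x ∈ lev (ev f) b t) {c : L}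
    (hc : f.derivative.eval c = 0) (h : Λ.V (x - c) < 1) : c ∈ W := by
  by_contra hcW
  have h1 := hG.G3 c hc hcW t
  have h2 := iter_sub hG (lev_int hG hx) (crit_int hG hc) t
  have h3 : (ev f)^[t] x = b := hx
  rw [h3] at h2
  apply h1
  rw [Valuation.map_sub_swap]
  exact lt_of_le_of_lt h2 h

/-- two different points over the same point with the same residue are near a critical point -/
theorem pair_crit (hG : Good Λ f b W J) {t : ℕ} {x x' : L} (hx : x ∈ lev (ev f) b t)
    (hx' : x' ∈ lev (ev f) b t) (he : ev f x = ev f x') (hb : ball Λ x = ball Λ x')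
    (hne : x ≠ x') : ∃ c ∈ W, Λ.V (x - c) < 1 ∧ Λ.V (x' - c) < 1 := by
  obtain ⟨ρ, hρ, h1⟩ := eval_sub hG.int (lev_int hG hx) (lev_int hG hx')
  have h2 : Λ.V (x - x') < 1 := ball_eq.1 hb
  have h3 : f.eval x - f.eval x' = 0 := sub_eq_zero.2 he
  rw [h3] at h1
  have h4 : f.derivative.eval x' + (x - x') * ρ = 0 := by
    rcases mul_eq_zero.1 h1.symm with h5 | h5
    · exact absurd (sub_eq_zero.1 h5) hne
    · exact h5
  have h5 : f.derivative.eval x' = -((x - x') * ρ) := eq_neg_of_add_eq_zero_left h4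
  have h6 : Λ.V (f.derivative.eval x') < 1 := by
    rw [h5, Valuation.map_neg, map_mul]
    exact lt_of_le_of_lt (mul_le_of_le_one_right' hρ) h2
  obtain ⟨c, hc, hxc⟩ := near_crit hG (lev_int hG hx') h6
  refine ⟨c, near_wand hG hx' hc hxc, ?_, hxc⟩
  rw [show x - c = (x - x') + (x' - c) by ring]
  exact Λ.V.map_add_lt h2 hxc

theorem two_mul_val (hG : Good Λ f b W J) (y : L) : Λ.V (2 * y) = Λ.V y := by
  rw [map_mul, hG.two, one_mul]

/-- three points near a critical point over the same point are not distinct -/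
theorem three_crit (hG : Good Λ f b W J) {c x₁ x₂ x₃ : L} (hc : c ∈ W) (h1 : Λ.V (x₁ - c) < 1)
    (h2 : Λ.V (x₂ - c) < 1) (h3 : Λ.V (x₃ - c) < 1) (h12 : f.eval x₁ = f.eval x₂)
    (h13 : f.eval x₁ = f.eval x₃) (h23 : f.eval x₂ = f.eval x₃) (n12 : x₁ ≠ x₂) (n13 : x₁ ≠ x₃)
    (n23 : x₂ ≠ x₃) : False := by
  set ν := max (Λ.V (x₁ - c)) (max (Λ.V (x₂ - c)) (Λ.V (x₃ - c))) with hν
  have v1 : Λ.V (x₁ - c) ≤ ν := le_max_left _ _
  have v2 : Λ.V (x₂ - c) ≤ ν := (le_max_left _ _).trans (le_max_right _ _)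
  have v3 : Λ.V (x₃ - c) ≤ ν := (le_max_right _ _).trans (le_max_right _ _)
  have hν1 : ν < 1 := max_lt h1 (max_lt h2 h3)
  have p12 : Λ.V (x₁ + x₂ - 2 * c) ≤ ν ^ 2 :=
    (crit_pair hG hc h1 h2 h12 n12).trans (pow_le_pow_left' v2 2)
  have p13 : Λ.V (x₁ + x₃ - 2 * c) ≤ ν ^ 2 :=
    (crit_pair hG hc h1 h3 h13 n13).trans (pow_le_pow_left' v3 2)
  have p23 : Λ.V (x₂ + x₃ - 2 * c) ≤ ν ^ 2 :=
    (crit_pair hG hc h2 h3 h23 n23).trans (pow_le_pow_left' v3 2)
  have q1 : Λ.V (x₁ - c) ≤ ν ^ 2 := by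
    rw [← two_mul_val hG, show 2 * (x₁ - c) =
      ((x₁ + x₂ - 2 * c) + (x₁ + x₃ - 2 * c)) - (x₂ + x₃ - 2 * c) by ring]
    exact Λ.V.map_sub_le (Λ.V.map_add_le p12 p13) p23
  have q2 : Λ.V (x₂ - c) ≤ ν ^ 2 := by
    rw [← two_mul_val hG, show 2 * (x₂ - c) =
      ((x₁ + x₂ - 2 * c) + (x₂ + x₃ - 2 * c)) - (x₁ + x₃ - 2 * c) by ring]
    exact Λ.V.map_sub_le (Λ.V.map_add_le p12 p23) p13
  have q3 : Λ.V (x₃ - c) ≤ ν ^ 2 := by
    rw [← two_mul_val hG, show 2 * (x₃ - c) =
      ((x₁ + x₃ - 2 * c) + (x₂ + x₃ - 2 * c)) - (x₁ + x₂ - 2 * c) by ring]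
    exact Λ.V.map_sub_le (Λ.V.map_add_le p13 p23) p12
  have q : ν ≤ ν ^ 2 := max_le q1 (max_le q2 q3)
  have hν0 : ν = 0 := by
    by_contra h0
    have h0' : 0 < ν := zero_lt_iff.2 h0
    have h4 : ν ^ 2 < ν := by
      rw [sq]
      calc ν * ν < ν * 1 := mul_lt_mul_of_pos_left hν1 h0'
        _ = ν := mul_one ν
    exact absurd (lt_of_le_of_lt q h4) (lt_irrefl _)
  have z1 : x₁ = c := by
    have : Λ.V (x₁ - c) = 0 := le_antisymm (hν0 ▸ v1) zero_le
    exact sub_eq_zero.1 ((map_eq_zero Λ.V).1 this)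
  have z2 : x₂ = c := by
    have : Λ.V (x₂ - c) = 0 := le_antisymm (hν0 ▸ v2) zero_le
    exact sub_eq_zero.1 ((map_eq_zero Λ.V).1 this)
  exact n12 (z1.trans z2.symm)

/-- The place of a good valuation. -/
def mkPlace (hG : Good Λ f b W J) (s N : ℕ) (hs : W.card ≤ s) : Place G (ev f) b s J N where
  R := Set L
  FR := FRm Λ f
  red := ball Λ
  I := Λ.I
  A := (ball Λ) '' W
  hAfin := W.finite_toSet.image _
  hA := by
    refine (Set.ncard_image_le W.finite_toSet).trans ?_
    rw [Set.ncard_coe_finset]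
    exact hs
  hred := by
    intro t _ x hx
    exact (FR_ball hG (lev_int hG hx)).symm
  hI := by
    intro g hg t _ x hx
    exact ball_eq.2 (Λ.inert g hg x (lev_int hG hx))
  hone := by
    intro t _ x hx x' hx' he hr hA
    by_contra hne
    obtain ⟨c, hc, h1, _⟩ := pair_crit hG hx hx' he hr hne
    exact hA ⟨c, hc, (ball_eq.2 h1).symm⟩
  htwo := by
    intro t _ x₁ hx₁ x₂ hx₂ x₃ hx₃ h12 h23 r12 r23
    by_contra hne
    push Not at hne
    obtain ⟨n12, n13, n23⟩ := hne
    obtain ⟨c, hc, h1, h2⟩ := pair_crit hG hx₁ hx₂ h12 r12 n12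
    have h3 : Λ.V (x₃ - c) < 1 := by
      have h4 : Λ.V (x₃ - x₂) < 1 := ball_eq.1 r23.symm
      rw [show x₃ - c = (x₃ - x₂) + (x₂ - c) by ring]
      exact Λ.V.map_add_lt h4 h2
    exact three_crit hG hc h1 h2 h3 h12 (h12.trans h23) h23 n12 n13 n23
  hJ := by
    rintro r ⟨c, hc, rfl⟩ r' ⟨c', hc', rfl⟩ i hi j hj h
    have ic : Λ.V c ≤ 1 := crit_int hG (hG.Wroot c hc)
    have ic' : Λ.V c' ≤ 1 := crit_int hG (hG.Wroot c' hc')
    rw [FR_iter hG ic, FR_iter hG ic'] at h
    obtain ⟨h1, h2⟩ := hG.G2 c hc c' hc' i hi j hj (ball_eq.1 h)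
    exact ⟨by rw [h1], h2⟩

theorem nat_val (V : Valuation L ℤᵐ⁰) (n : ℕ) : V (n : L) ≤ 1 := by
  induction n with
  | zero => simp
  | succ n ih =>
    rw [Nat.cast_succ]
    exact V.map_add_le ih (by rw [map_one])

theorem der_unit (hG : Good Λ f b W J) {t : ℕ} {x : L} (hx : x ∈ lev (ev f) b t)
    (h : ball Λ x ∉ (ball Λ) '' (W : Set L)) : Λ.V (f.derivative.eval x) = 1 := by
  have h1 : Λ.V (f.derivative.eval x) ≤ 1 := by
    refine eval_int (fun i => ?_) (lev_int hG hx)
    rw [coeff_derivative, map_mul]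
    refine mul_le_one' (hG.int _) ?_
    have := nat_val Λ.V (i + 1)
    rwa [Nat.cast_succ] at this
  rcases h1.lt_or_eq with h2 | h2
  · exfalso
    obtain ⟨c, hc, hxc⟩ := near_crit hG (lev_int hG hx) h2
    exact h ⟨c, near_wand hG hx hc hxc, (ball_eq.2 hxc).symm⟩
  · exact h2

end Pool.Agent.H42.PC

end DPl

section DEx
namespace Pool.Agent.H42.PC

open Polynomial WithZero

variable {G L : Type} [Group G] [Field L] [MulSemiringAction G L] {Λ : Loc G L} {f : L[X]}
  {b : L} {W : Finset L} {J s N : ℕ}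

theorem onC_iff (hG : Good Λ f b W J) (hs : W.card ≤ s) (x : L) :
    (mkPlace hG s N hs).OnC x ↔ ∃ k : ℕ, Λ.V (x - (ev f)^[k] b) < 1 := by
  have key : ∀ k : ℕ, ball Λ x = (FRm Λ f)^[k] (ball Λ b) ↔ Λ.V (x - (ev f)^[k] b) < 1 := by
    intro k
    rw [FR_iter hG hG.bint k, ball_eq]
  constructor
  · rintro ⟨k, hk⟩
    exact ⟨k, (key k).1 hk⟩
  · rintro ⟨k, hk⟩
    exact ⟨k, (key k).2 hk⟩

private theorem dExMul (V : Valuation L ℤᵐ⁰) (y : L) (m : Multiset L)
    (h : ∀ a ∈ m, 1 ≤ V (y - a)) : 1 ≤ V ((m.map fun a => y - a).prod) := by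
  induction m using Multiset.induction_on with
  | empty => simp
  | cons a m ih =>
    rw [Multiset.map_cons, Multiset.prod_cons, map_mul]
    exact one_le_mul (h a (Multiset.mem_cons_self a m))
      (ih fun c hc => h c (Multiset.mem_cons_of_mem hc))

theorem dEx_root (hG : Good Λ f b W J) {w y : L}
    (hcard : {z | ev f z = w}.ncard = f.natDegree) (hw : Λ.V (ev f y - w) < 1) :
    ∃ z, ev f z = w ∧ Λ.V (y - z) < 1 := by
  classical
  have hd : 2 ≤ f.natDegree := hG.deg
  have hgd : (f - C w).natDegree = f.natDegree := natDegree_sub_C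
  have hg0 : f - C w ≠ 0 := by
    intro h
    rw [h, natDegree_zero] at hgd
    omega
  have hlead : (f - C w).leadingCoeff = f.leadingCoeff := by
    refine leadingCoeff_sub_of_degree_lt ?_
    refine lt_of_le_of_lt degree_C_le ?_
    rw [← natDegree_pos_iff_degree_pos]
    omega
  have hset : {z | ev f z = w} = ((f - C w).roots.toFinset : Set L) := by
    ext z
    rw [Finset.mem_coe, Multiset.mem_toFinset, mem_roots hg0, IsRoot.def, Polynomial.eval_sub, eval_C,
      sub_eq_zero]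
    rfl
  rw [hset, Set.ncard_coe_finset] at hcard
  have h1 : (f - C w).roots.toFinset.card ≤ Multiset.card (f - C w).roots :=
    Multiset.toFinset_card_le _
  have h2 : Multiset.card (f - C w).roots ≤ (f - C w).natDegree := card_roots' _
  have h3 : Multiset.card (f - C w).roots = (f - C w).natDegree := by omega
  have h4 := C_leadingCoeff_mul_prod_multiset_X_sub_C h3
  have h5 : Λ.V ((f - C w).eval y) < 1 := by
    rw [Polynomial.eval_sub, eval_C]
    exact hw
  rw [← h4, eval_mul, eval_C, map_mul, hlead, hG.lead, one_mul, eval_multiset_prod,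
    Multiset.map_map] at h5
  have h6 : ((fun p : L[X] => eval y p) ∘ fun a : L => X - C a) = fun a : L => y - a := by
    funext a
    simp
  by_contra hcon
  push Not at hcon
  have h7 : 1 ≤ Λ.V (((f - C w).roots.map fun a => y - a).prod) := by
    refine dExMul Λ.V y _ fun a ha => hcon a ?_
    have ha' : a ∈ ((f - C w).roots.toFinset : Set L) := by
      rw [Finset.mem_coe, Multiset.mem_toFinset]
      exact ha
    rw [← hset] at ha'
    exact ha'
  have h8 : Λ.V (((f - C w).roots.map fun a => y - a).prod) < 1 := by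
    rw [← h6]
    exact h5
  exact absurd h8 (not_lt.2 h7)

theorem weak_cyc (hG : Good Λ f b W J) (hs : W.card ≤ s)
    (hT : Tree G (ev f) b f.natDegree N) {n : ℕ} (hn : 1 ≤ n)
    (hb : Λ.V ((ev f)^[n] b - b) < 1) : Cyc (mkPlace hG s N hs) n N where
  hn := hn
  hb := ⟨b, hG.bW, rfl⟩
  hcyc := by
    show (FRm Λ f)^[n] (ball Λ b) = ball Λ b
    rw [FR_iter hG hG.bint n, ball_eq]
    exact hb
  hex := by
    intro t ht w hw hon
    obtain ⟨k, hk⟩ := (onC_iff hG hs w).1 hon
    have h1 : Λ.V ((ev f)^[k] ((ev f)^[n] b) - (ev f)^[k] b) < 1 :=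
      lt_of_le_of_lt (iter_sub hG (iter_int hG hG.bint n) hG.bint k) hb
    have h2 : Λ.V (ev f ((ev f)^[k + n - 1] b) - w) < 1 := by
      have e : ev f ((ev f)^[k + n - 1] b) = (ev f)^[k] ((ev f)^[n] b) := by
        rw [← Function.iterate_succ_apply' (ev f), ← Function.iterate_add_apply]
        rw [show (k + n - 1).succ = k + n by omega]
      rw [e, show (ev f)^[k] ((ev f)^[n] b) - w =
        ((ev f)^[k] ((ev f)^[n] b) - (ev f)^[k] b) + ((ev f)^[k] b - w) by ring]
      refine Λ.V.map_add_lt h1 ?_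
      rw [Valuation.map_sub_swap]
      exact hk
    obtain ⟨z, hz, hyz⟩ := dEx_root hG (hT.fib t ht w hw) h2
    refine ⟨z, hz, (onC_iff hG hs z).2 ⟨k + n - 1, ?_⟩⟩
    rw [Valuation.map_sub_swap]
    exact hyz
  hdig := by
    intro m h1 h2
    exact absurd h2 (by omega)

end Pool.Agent.H42.PC

end DEx

section DRig
namespace Pool.Agent.H42.PC

open Polynomial WithZero

variable {G L : Type} [Group G] [Field L] [MulSemiringAction G L] [Finite G] {Λ : Loc G L}
  {f : L[X]} {b : L} {W : Finset L} {J s N : ℕ}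

theorem card_pos (Λ : Loc G L) : (1 : ℤ) ≤ (Nat.card Λ.I : ℤ) := by
  have : 0 < Nat.card Λ.I := Nat.card_pos
  exact_mod_cast this

theorem fixed_small (Λ : Loc G L) {z : L} (hz : ∀ g ∈ Λ.I, g • z = z) (h : Λ.V z < 1) :
    Λ.V z ≤ exp (-(Nat.card Λ.I : ℤ)) := by
  by_cases h0 : z = 0
  · rw [h0, map_zero]
    exact zero_le
  · obtain ⟨k, hk⟩ := Λ.div Λ.I le_rfl z h0 hz
    rw [hk] at h ⊢
    rw [← exp_zero, exp_lt_exp] at h
    rw [exp_le_exp]
    have hE := card_pos Λ
    have hk0 : k < 0 := by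
      by_contra hcon
      have : 0 ≤ k := not_lt.1 hcon
      have := mul_nonneg this (by linarith : (0 : ℤ) ≤ (Nat.card Λ.I : ℤ))
      linarith
    nlinarith

omit [Finite G] in
theorem iter_fixed (hG : Good Λ f b W J) (i : ℕ) (g : G) : g • (ev f)^[i] b = (ev f)^[i] b := by
  induction i with
  | zero => exact hG.fixb g
  | succ i ih =>
    rw [Function.iterate_succ_apply', ← ev_smul hG, ih]

omit [Finite G] in
theorem crit_iter_fixed (hG : Good Λ f b W J) {c : L} (hc : f.derivative.eval c = 0) (i : ℕ)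
    {g : G} (hg : g ∈ Λ.I) : g • (ev f)^[i] c = (ev f)^[i] c := by
  induction i with
  | zero => exact crit_fixed hG hc hg
  | succ i ih =>
    rw [Function.iterate_succ_apply', ← ev_smul hG, ih]

omit [Finite G] in
theorem iter_crit_le (hG : Good Λ f b W J) {n : ℕ} (hn : 1 ≤ n) {x x' : L}
    (hx : Λ.V (x - b) < 1) (hx' : Λ.V (x' - b) < 1) :
    Λ.V ((ev f)^[n] x - (ev f)^[n] x') ≤
      Λ.V (x - x') * max (Λ.V (x - b)) (Λ.V (x' - b)) := by
  obtain ⟨m, rfl⟩ : ∃ m, n = m + 1 := ⟨n - 1, by omega⟩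
  rw [Function.iterate_succ_apply, Function.iterate_succ_apply]
  have hxi : Λ.V x ≤ 1 := int_of_near hG.bint hx
  have hxi' : Λ.V x' ≤ 1 := int_of_near hG.bint hx'
  refine (iter_sub hG (eval_int hG.int hxi) (eval_int hG.int hxi') m).trans ?_
  exact crit_sub_le hG hG.bW hx hx'

theorem exp_small {E v : ℤ} (hE : 1 ≤ E) (hv : 1 ≤ v) : (exp (-(v * E)) : ℤᵐ⁰) < 1 := by
  rw [← exp_zero, exp_lt_exp]
  nlinarith

theorem ret_small (hG : Good Λ f b W J) {n v0 : ℕ} (hv : 1 ≤ v0)
    (hb : Λ.V ((ev f)^[n] b - b) = exp (-((v0 : ℤ) * (Nat.card Λ.I : ℤ)))) (j : ℕ) :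
    Λ.V ((ev f)^[j * n] b - b) ≤ exp (-(Nat.card Λ.I : ℤ)) := by
  have hE := card_pos Λ
  have hv' : (1 : ℤ) ≤ (v0 : ℤ) := by exact_mod_cast hv
  induction j with
  | zero =>
    rw [Nat.zero_mul, Function.iterate_zero, id, sub_self, map_zero]
    exact zero_le
  | succ j ih =>
    refine fixed_small Λ (fun g _ => ?_) ?_
    · rw [smul_sub, iter_fixed hG, hG.fixb]
    · have e1 : (ev f)^[(j + 1) * n] b = (ev f)^[n] ((ev f)^[j * n] b) := by
        rw [← Function.iterate_add_apply]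
        congr 2
        ring
      have h1 : Λ.V ((ev f)^[n] ((ev f)^[j * n] b) - (ev f)^[n] b) < 1 := by
        refine lt_of_le_of_lt (iter_sub hG (iter_int hG hG.bint _) hG.bint n) ?_
        refine lt_of_le_of_lt ih ?_
        have := exp_small hE (le_refl (1 : ℤ))
        rwa [one_mul] at this
      have h2 : Λ.V ((ev f)^[n] b - b) < 1 := by
        rw [hb]
        exact exp_small hE hv'
      rw [e1, show (ev f)^[n] ((ev f)^[j * n] b) - b =
        ((ev f)^[n] ((ev f)^[j * n] b) - (ev f)^[n] b) + ((ev f)^[n] b - b) by ring]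
      exact Λ.V.map_add_lt h1 h2

theorem exp_E_lt (Λ : Loc G L) : (exp (-(Nat.card Λ.I : ℤ)) : ℤᵐ⁰) < 1 := by
  have := exp_small (card_pos Λ) (le_refl (1 : ℤ))
  rwa [one_mul] at this

theorem ret_step (hG : Good Λ f b W J) {n v0 : ℕ} (hn : 1 ≤ n) (hv : 1 ≤ v0)
    (hb : Λ.V ((ev f)^[n] b - b) = exp (-((v0 : ℤ) * (Nat.card Λ.I : ℤ)))) (j : ℕ) :
    Λ.V ((ev f)^[(j + 1) * n] b - (ev f)^[j * n] b) ≤
      exp (-(((v0 : ℤ) + j) * (Nat.card Λ.I : ℤ))) := by
  induction j with
  | zero =>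
    rw [Nat.zero_mul, Function.iterate_zero, id, zero_add, one_mul, hb, Nat.cast_zero, add_zero]
  | succ j ih =>
    have e1 : (ev f)^[(j + 1 + 1) * n] b = (ev f)^[n] ((ev f)^[(j + 1) * n] b) := by
      rw [← Function.iterate_add_apply]
      congr 2
      ring
    have e2 : (ev f)^[(j + 1) * n] b = (ev f)^[n] ((ev f)^[j * n] b) := by
      rw [← Function.iterate_add_apply]
      congr 2
      ring
    have s1 := ret_small hG hv hb (j + 1)
    have s2 := ret_small hG hv hb j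
    have h1 := iter_crit_le hG hn (lt_of_le_of_lt s1 (exp_E_lt Λ)) (lt_of_le_of_lt s2 (exp_E_lt Λ))
    rw [e1]
    conv_lhs => rw [e2]
    rw [← e2]
    have h2 : Λ.V ((ev f)^[n] ((ev f)^[(j + 1) * n] b) - (ev f)^[n] ((ev f)^[j * n] b)) ≤
        exp (-(((v0 : ℤ) + j) * (Nat.card Λ.I : ℤ))) * exp (-(Nat.card Λ.I : ℤ)) :=
      h1.trans (mul_le_mul' ih (max_le s1 s2))
    rw [← exp_add] at h2
    rw [← e2] at h2
    refine h2.trans (le_of_eq ?_)
    congr 1
    push_cast
    ring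

theorem rigid (hG : Good Λ f b W J) {n v0 : ℕ} (hn : 1 ≤ n) (hv : 1 ≤ v0)
    (hb : Λ.V ((ev f)^[n] b - b) = exp (-((v0 : ℤ) * (Nat.card Λ.I : ℤ)))) {j : ℕ} (hj : 1 ≤ j) :
    Λ.V ((ev f)^[j * n] b - b) = exp (-((v0 : ℤ) * (Nat.card Λ.I : ℤ))) := by
  have hE := card_pos Λ
  induction j, hj using Nat.le_induction with
  | base => rw [one_mul]; exact hb
  | succ j hj ih =>
    have h1 := ret_step hG hn hv hb j
    have h2 : Λ.V ((ev f)^[(j + 1) * n] b - (ev f)^[j * n] b) < Λ.V ((ev f)^[j * n] b - b) := by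
      rw [ih]
      refine lt_of_le_of_lt h1 ?_
      rw [exp_lt_exp]
      have : (1 : ℤ) ≤ (j : ℤ) := by exact_mod_cast hj
      nlinarith
    rw [show (ev f)^[(j + 1) * n] b - b =
      ((ev f)^[j * n] b - b) + ((ev f)^[(j + 1) * n] b - (ev f)^[j * n] b) by ring]
    rw [Valuation.map_add_eq_of_lt_left _ h2, ih]

theorem shallow (hG : Good Λ f b W J) (hs : W.card ≤ s) (hT : Tree G (ev f) b f.natDegree N)
    {n v0 : ℕ} (hn : 1 ≤ n) (hv : 1 ≤ v0)
    (hb : Λ.V ((ev f)^[n] b - b) = exp (-((v0 : ℤ) * (Nat.card Λ.I : ℤ))))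
    {t : ℕ} (ht : t ≤ N) {y : L} (hy : y ∈ lev (ev f) b t) (hon : (mkPlace hG s N hs).OnC y)
    {c : L} (hc : c ∈ W) (h : Λ.V (y - c) ≤ exp (-(Nat.card Λ.I : ℤ))) : t < n * v0 := by
  have hE := card_pos Λ
  have hE1 := exp_E_lt Λ
  have hv' : (1 : ℤ) ≤ (v0 : ℤ) := by exact_mod_cast hv
  have hb1 : Λ.V ((ev f)^[n] b - b) < 1 := by
    rw [hb]
    exact exp_small hE hv'
  have hC := weak_cyc hG hs hT hn hb1
  obtain ⟨a, ha⟩ : ∃ a, a = t % n := ⟨_, rfl⟩
  obtain ⟨q, hq⟩ : ∃ q, q = t / n := ⟨_, rfl⟩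
  have htq : a + n * q = t := by rw [ha, hq]; exact Nat.mod_add_div t n
  have han : a < n := by rw [ha]; exact Nat.mod_lt _ hn
  have hat : a ≤ t := by omega
  have htan : t - a = n * q := by omega
  have hyi : Λ.V y ≤ 1 := lev_int hG hy
  have hci : Λ.V c ≤ 1 := crit_int hG (hG.Wroot c hc)
  obtain ⟨Y, hY⟩ : ∃ Y, Y = (ev f)^[a] y := ⟨_, rfl⟩
  have hYl : Y ∈ lev (ev f) b (n * q) := by
    rw [hY, ← htan]
    exact lev_iter hy hat
  have hYon : (mkPlace hG s N hs).OnC Y := by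
    rw [hY]
    exact onC_iter _ hat ht hy hon
  have hYb : Λ.V (Y - b) < 1 := by
    have h1 := onC_eq hC (t := n * q) (by omega) (Dvd.intro _ rfl) hYl hYon
    exact ball_eq.1 h1
  have hYc : Λ.V (Y - (ev f)^[a] c) ≤ exp (-(Nat.card Λ.I : ℤ)) := by
    rw [hY]
    exact (iter_sub hG hyi hci a).trans h
  have hcb1 : Λ.V ((ev f)^[a] c - b) < 1 := by
    rw [show (ev f)^[a] c - b = ((ev f)^[a] c - Y) + (Y - b) by ring]
    refine Λ.V.map_add_lt ?_ hYb
    rw [Valuation.map_sub_swap]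
    exact lt_of_le_of_lt hYc hE1
  have hcb : Λ.V ((ev f)^[a] c - b) ≤ exp (-(Nat.card Λ.I : ℤ)) := by
    refine fixed_small Λ (fun g hg => ?_) hcb1
    rw [smul_sub, crit_iter_fixed hG (hG.Wroot c hc) a hg, hG.fixb]
  have hYb' : Λ.V (Y - b) ≤ exp (-(Nat.card Λ.I : ℤ)) := by
    rw [show Y - b = (Y - (ev f)^[a] c) + ((ev f)^[a] c - b) by ring]
    exact Λ.V.map_add_le hYc hcb
  have claim : ∀ i : ℕ, Λ.V ((ev f)^[i * n] Y - (ev f)^[i * n] b) ≤
      exp (-(((i : ℤ) + 1) * (Nat.card Λ.I : ℤ))) := by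
    intro i
    induction i with
    | zero =>
      rw [Nat.zero_mul, Function.iterate_zero, id, id, Nat.cast_zero, zero_add, one_mul]
      exact hYb'
    | succ i ih =>
      have e1 : ∀ z : L, (ev f)^[(i + 1) * n] z = (ev f)^[n] ((ev f)^[i * n] z) := by
        intro z
        rw [← Function.iterate_add_apply]
        congr 2
        ring
      have s2 := ret_small hG hv hb i
      have s0 : Λ.V ((ev f)^[i * n] Y - (ev f)^[i * n] b) ≤ exp (-(Nat.card Λ.I : ℤ)) := by
        refine ih.trans ?_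
        rw [exp_le_exp]
        have : (0 : ℤ) ≤ (i : ℤ) := Int.natCast_nonneg i
        nlinarith
      have s1 : Λ.V ((ev f)^[i * n] Y - b) ≤ exp (-(Nat.card Λ.I : ℤ)) := by
        rw [show (ev f)^[i * n] Y - b = ((ev f)^[i * n] Y - (ev f)^[i * n] b) +
          ((ev f)^[i * n] b - b) by ring]
        exact Λ.V.map_add_le s0 s2
      have h1 := iter_crit_le hG hn (lt_of_le_of_lt s1 hE1) (lt_of_le_of_lt s2 hE1)
      rw [e1, e1]
      have h2 := h1.trans (mul_le_mul' ih (max_le s1 s2))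
      rw [← exp_add] at h2
      refine h2.trans (le_of_eq ?_)
      congr 1
      push_cast
      ring
  have hfin := claim q
  have hYq : (ev f)^[q * n] Y = b := by
    rw [mul_comm]
    exact hYl
  rw [hYq, Valuation.map_sub_swap] at hfin
  by_cases hq0 : q = 0
  · subst hq0
    have : t = a := by omega
    rw [this]
    calc a < n := han
      _ = n * 1 := (mul_one n).symm
      _ ≤ n * v0 := Nat.mul_le_mul_left n hv
  · have hq1 : 1 ≤ q := Nat.one_le_iff_ne_zero.2 hq0
    rw [rigid hG hn hv hb hq1, exp_le_exp] at hfin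
    have hqv : q + 1 ≤ v0 := by
      by_contra hcon
      have h1 : v0 < q + 1 := not_le.1 hcon
      have h2 : (v0 : ℤ) + 1 ≤ (q : ℤ) + 1 := by exact_mod_cast h1
      nlinarith
    calc t = a + n * q := htq.symm
      _ < n + n * q := by omega
      _ = n * (q + 1) := by ring
      _ ≤ n * v0 := Nat.mul_le_mul_left n hqv

end Pool.Agent.H42.PC

end DRig
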