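import Mathlib
import Pool.Agent.H42.PCM.D1

set_option autoImplicit false

section DPar
namespace Pool.Agent.H42.PC

open Polynomial WithZero

variable {G L : Type} [Group G] [Field L] [MulSemiringAction G L] [Finite G] {Λ : Loc G L}
  {f : L[X]} {b : L} {W : Finset L} {J s N : ℕ}

theorem par_sq (hG : Good Λ f b W J) {t j : ℕ} {x' : L}
    (hx' : x' ∈ lev (ev f) b (t + j)) {c' : L} (hc' : c' ∈ W) (h' : Λ.V (x' - c') < 1)
    (hno : ∀ i, 1 ≤ i → i < j → ball Λ ((ev f)^[i] x') ∉ (ball Λ) '' (W : Set L))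
    (i : ℕ) (hi : 1 ≤ i) : i ≤ j →
    Λ.V ((ev f)^[i] x' - (ev f)^[i] c') = Λ.V (x' - c') ^ 2 := by
  have hxi : Λ.V x' ≤ 1 := lev_int hG hx'
  have hci : Λ.V c' ≤ 1 := crit_int hG (hG.Wroot c' hc')
  have hsq : Λ.V (x' - c') ^ 2 < 1 := pow_lt_one' h' (by norm_num)
  induction i, hi using Nat.le_induction with
  | base =>
    intro _
    rw [Function.iterate_one]
    exact crit_dbl hG hc' h'
  | succ i hi ih =>
    intro hij
    have h1 := ih (by omega)
    rw [Function.iterate_succ_apply', Function.iterate_succ_apply', Valuation.map_sub_swap]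
    rw [Valuation.map_sub_swap] at h1
    have h2 : (ev f)^[i] x' ∈ lev (ev f) b (t + j - i) := lev_iter hx' (by omega)
    rw [← h1]
    refine noncrit hG (iter_int hG hci i) (iter_int hG hxi i) ?_
      (der_unit hG h2 (hno i hi (by omega)))
    rw [h1]
    exact hsq

theorem relIndex_pos' (H K : Subgroup G) : H.relIndex K ≠ 0 :=
  Subgroup.index_ne_zero_of_finite

theorem div_pos (Λ : Loc G L) (H : Subgroup G) (hH : H ≤ Λ.I) (z : L) (hz : z ≠ 0)
    (hf : ∀ g ∈ H, g • z = z) (h : Λ.V z < 1) :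
    ∃ N1 : ℕ, 1 ≤ N1 ∧ Λ.V z = exp (-((N1 : ℤ) * (Nat.card H : ℤ))) := by
  obtain ⟨k, hk⟩ := Λ.div H hH z hz hf
  have hc : (0 : ℤ) < (Nat.card H : ℤ) := by exact_mod_cast Nat.card_pos
  rw [hk, ← exp_zero, exp_lt_exp] at h
  have hk0 : k < 0 := by
    by_contra h2
    push Not at h2
    have := mul_nonneg h2 hc.le
    linarith
  refine ⟨(-k).toNat, by omega, ?_⟩
  rw [hk]
  congr 1
  have : (((-k).toNat : ℕ) : ℤ) = -k := Int.toNat_of_nonneg (by omega)
  rw [this]
  ring

theorem parity (hG : Good Λ f b W J) (hs : W.card ≤ s) (hT : Tree G (ev f) b f.natDegree N)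
    {n v0 : ℕ} (hn : 1 ≤ n) (hv : 1 ≤ v0)
    (hb : Λ.V ((ev f)^[n] b - b) = exp (-((v0 : ℤ) * (Nat.card Λ.I : ℤ))))
    {t j : ℕ} (hj : 1 ≤ j) (htj : t + j ≤ N) (ht : n * v0 ≤ t) {x' : L}
    (hx' : x' ∈ lev (ev f) b (t + j)) (hon : (mkPlace hG s N hs).OnC x')
    {c c' : L} (hc : c ∈ W) (hc' : c' ∈ W) (h : Λ.V ((ev f)^[j] x' - c) < 1)
    (h' : Λ.V (x' - c') < 1)
    (hno : ∀ i, 1 ≤ i → i < j → ball Λ ((ev f)^[i] x') ∉ (ball Λ) '' (W : Set L)) :
    ∃ N1 : ℕ, 1 ≤ N1 ∧
      Λ.V ((ev f)^[j] x' - c) =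
        exp (-((N1 : ℤ) * (Nat.card ((mkPlace hG s N hs).st ((ev f)^[j] x')) : ℤ))) ∧
      (mkPlace hG s N hs).st ((ev f)^[j] x') = (mkPlace hG s N hs).st (ev f x') ∧
      ((∃ M, N1 = 2 * M ∧ (mkPlace hG s N hs).st x' = (mkPlace hG s N hs).st ((ev f)^[j] x') ∧
          Λ.V (x' - c') = exp (-((M : ℤ) * (Nat.card ((mkPlace hG s N hs).st x') : ℤ)))) ∨
        (Odd N1 ∧ Nat.card ((mkPlace hG s N hs).st ((ev f)^[j] x')) =
            2 * Nat.card ((mkPlace hG s N hs).st x') ∧
          Λ.V (x' - c') = exp (-((N1 : ℤ) * (Nat.card ((mkPlace hG s N hs).st x') : ℤ))))) := by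
  classical
  have hxl : (ev f)^[j] x' ∈ lev (ev f) b t := by
    have := lev_iter hx' (show j ≤ t + j by omega)
    rwa [Nat.add_sub_cancel] at this
  have hxi : Λ.V x' ≤ 1 := lev_int hG hx'
  have hci : Λ.V c' ≤ 1 := crit_int hG (hG.Wroot c' hc')
  have hsq : Λ.V (x' - c') ^ 2 < 1 := pow_lt_one' h' (by norm_num)
  have ha := par_sq hG hx' hc' h' hno j hj le_rfl
  have honx : (mkPlace hG s N hs).OnC ((ev f)^[j] x') := onC_iter _ (by omega) htj hx' hon
  set P := mkPlace hG s N hs with hP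
  set x := (ev f)^[j] x' with hxdef
  have hPI : P.I = Λ.I := rfl
  -- (b)
  have hb1 : Λ.V ((ev f)^[j] c' - c) < 1 := by
    rw [show (ev f)^[j] c' - c = (x - c) - (x - (ev f)^[j] c') by ring]
    refine Λ.V.map_sub_lt h ?_
    rw [ha]
    exact hsq
  have hb2 : Λ.V ((ev f)^[j] c' - c) ≤ exp (-(Nat.card Λ.I : ℤ)) := by
    refine fixed_small Λ (fun g hg => ?_) hb1
    rw [smul_sub, crit_iter_fixed hG (hG.Wroot c' hc') j hg, crit_fixed hG (hG.Wroot c hc) hg]
  have hb3 : exp (-(Nat.card Λ.I : ℤ)) < Λ.V (x - c) := by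
    by_contra h2
    push Not at h2
    have := shallow hG hs hT hn hv hb (show t ≤ N by omega) hxl honx hc h2
    omega
  have hb4 : Λ.V (x - c) = Λ.V (x' - c') ^ 2 := by
    rw [← ha, show x - (ev f)^[j] c' = (x - c) - ((ev f)^[j] c' - c) by ring]
    exact (Valuation.map_sub_eq_of_lt_left _ (lt_of_le_of_lt hb2 hb3)).symm
  have hxc : x - c ≠ 0 := by
    intro h2
    rw [h2, map_zero] at hb3
    exact absurd hb3 (not_lt_of_ge zero_le)
  have hx'c : x' - c' ≠ 0 := by
    intro h2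
    rw [h2, map_zero] at hb4
    rw [hb4] at hb3
    exact absurd hb3 (not_lt_of_ge (by simp))
  -- (c)
  have hxf : ev f x' ∈ lev (ev f) b (t + (j - 1)) := by
    have := lev_iter hx' (show 1 ≤ t + j by omega)
    rw [Function.iterate_one] at this
    rwa [show t + j - 1 = t + (j - 1) by omega] at this
  have hjx : (ev f)^[j - 1] (ev f x') = x := by
    rw [← Function.iterate_succ_apply, show (j - 1).succ = j by omega]
  have hle : (P.st (ev f x')).relIndex (P.st x) ≤ 1 := by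
    have h1 := path_le hT P (m := t) (j := j - 1) (by omega) hxf
    rw [hjx] at h1
    have h2 : ((Finset.range (j - 1)).filter fun i => P.red ((ev f)^[i] (ev f x')) ∈ P.A) = ∅ := by
      refine Finset.filter_eq_empty_iff.2 fun i hi => ?_
      rw [← Function.iterate_succ_apply]
      exact hno (i + 1) (by omega) (by have := Finset.mem_range.1 hi; omega)
    rw [h2] at h1
    simpa using h1
  have hst1 : P.st (ev f x') = P.st x := by
    apply le_antisymm
    · have := st_mono hT P (ev f x') (j - 1)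
      rwa [hjx] at this
    · have h2 := relIndex_pos' (P.st (ev f x')) (P.st x)
      exact Subgroup.relIndex_eq_one.1 (by omega)
  -- (d)
  have hH'H : P.st x' ≤ P.st x := st_mono hT P x' j
  have hr2 : (P.st x').relIndex (P.st x) ≤ 2 := by
    have := step_two hT P (t := t + (j - 1)) (by omega) (x := x')
      (by rw [show t + (j - 1) + 1 = t + j by omega]; exact hx')
    rwa [hst1] at this
  have hr0 := relIndex_pos' (P.st x') (P.st x)
  have hcard : Nat.card (P.st x') * (P.st x').relIndex (P.st x) = Nat.card (P.st x) := by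
    have := Subgroup.relIndex_mul_relIndex ⊥ (P.st x') (P.st x) bot_le hH'H
    rwa [Subgroup.relIndex_bot_left, Subgroup.relIndex_bot_left] at this
  have hHI : P.st x ≤ Λ.I := inf_le_left
  have hH'I : P.st x' ≤ Λ.I := inf_le_left
  have hfx : ∀ g ∈ P.st x, g • x = x := fun g hg => hg.2
  have hfx' : ∀ g ∈ P.st x', g • x' = x' := fun g hg => hg.2
  -- (e)
  obtain ⟨N1, hN1, hV1⟩ := div_pos Λ (P.st x) hHI (x - c) hxc (fun g hg => by
    rw [smul_sub, hfx g hg, crit_fixed hG (hG.Wroot c hc) (hHI hg)]) h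
  obtain ⟨N2, hN2, hV2⟩ := div_pos Λ (P.st x') hH'I (x' - c') hx'c (fun g hg => by
    rw [smul_sub, hfx' g hg, crit_fixed hG (hG.Wroot c' hc') (hH'I hg)]) h'
  have hcp : 0 < Nat.card (P.st x') := Nat.card_pos
  have hNN : N1 * (P.st x').relIndex (P.st x) = 2 * N2 := by
    have h1 : exp (-((N1 : ℤ) * (Nat.card (P.st x) : ℤ))) =
        exp (-((N2 : ℤ) * (Nat.card (P.st x') : ℤ)) + -((N2 : ℤ) * (Nat.card (P.st x') : ℤ))) := by
      rw [exp_add, ← hV1, ← hV2, hb4, sq]
    have h2 := exp_injective h1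
    have h3 : N1 * Nat.card (P.st x) = 2 * (N2 * Nat.card (P.st x')) := by
      have : ((N1 * Nat.card (P.st x) : ℕ) : ℤ) = ((2 * (N2 * Nat.card (P.st x')) : ℕ) : ℤ) := by
        push_cast
        linarith
      exact_mod_cast this
    rw [← hcard] at h3
    have h4 : Nat.card (P.st x') * (N1 * (P.st x').relIndex (P.st x)) =
        Nat.card (P.st x') * (2 * N2) := by
      calc _ = N1 * (Nat.card (P.st x') * (P.st x').relIndex (P.st x)) := by ring
        _ = 2 * (N2 * Nat.card (P.st x')) := h3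
        _ = _ := by ring
    exact Nat.eq_of_mul_eq_mul_left hcp h4
  refine ⟨N1, hN1, hV1, hst1.symm, ?_⟩
  have hr12 : (P.st x').relIndex (P.st x) = 1 ∨ (P.st x').relIndex (P.st x) = 2 := by omega
  rcases hr12 with hr | hr
  · left
    rw [hr, mul_one] at hNN
    exact ⟨N2, hNN, le_antisymm hH'H (Subgroup.relIndex_eq_one.1 hr), hV2⟩
  · right
    rw [hr] at hNN hcard
    have hN : N2 = N1 := by omega
    subst hN
    refine ⟨?_, by omega, hV2⟩
    by_contra hodd
    rw [Nat.not_odd_iff_even] at hodd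
    obtain ⟨M, hM⟩ := hodd
    -- an element which moves `x'`
    have hmov : ∃ g ∈ P.st x, g • x' ≠ x' := by
      by_contra h2
      push Not at h2
      have h3 : P.st x ≤ P.st x' := fun g hg => ⟨hg.1, h2 g hg⟩
      have := Subgroup.relIndex_eq_one.2 h3
      omega
    obtain ⟨g, hg, hgx⟩ := hmov
    obtain ⟨ϖ, hϖ, hVϖ⟩ := Λ.unif (P.st x) hHI
    have hπ : Λ.V (ϖ ^ M) = Λ.V (x' - c') := by
      rw [map_pow, hVϖ, hV2, ← exp_nsmul]
      congr 1
      rw [nsmul_eq_mul, hM]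
      have : (Nat.card (P.st x) : ℤ) = 2 * (Nat.card (P.st x') : ℤ) := by
        rw [← hcard]; push_cast; ring
      rw [this]
      push_cast
      ring
    have hVne : Λ.V (x' - c') ≠ 0 := by
      rw [Ne, map_eq_zero]; exact hx'c
    have hπ0 : ϖ ^ M ≠ 0 := by
      intro h2
      rw [h2, map_zero] at hπ
      exact hVne hπ.symm
    have hgI : g ∈ Λ.I := hHI hg
    have hgπ : g • (ϖ ^ M) = ϖ ^ M := by rw [smul_pow', hϖ g hg]
    have hgc : g • c' = c' := crit_fixed hG (hG.Wroot c' hc') hgI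
    have hθ : Λ.V ((x' - c') / ϖ ^ M) = 1 := by
      rw [map_div₀, hπ, div_self hVne]
    have hgθ : g • ((x' - c') / ϖ ^ M) = (g • x' - c') / ϖ ^ M := by
      rw [smul_div₀', smul_sub, hgc, hgπ]
    have hin : Λ.V ((g • x' - c') / ϖ ^ M - (x' - c') / ϖ ^ M) < 1 := by
      rw [← hgθ]
      exact Λ.inert g hgI _ hθ.le
    have hgx1 : Λ.V (g • x' - c') < 1 := by
      rw [show g • x' - c' = (g • x' - x') + (x' - c') by ring]
      exact Λ.V.map_add_lt (Λ.inert g hgI _ hxi) h'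
    have hge : f.eval (g • x') = f.eval x' := by
      have h2 : ev f (g • x') = g • ev f x' := ev_smul hG g x'
      have h3 : g • ev f x' = ev f x' := by
        have : g ∈ P.st (ev f x') := by rw [hst1]; exact hg
        exact this.2
      exact h2.trans h3
    have hcp2 := crit_pair hG hc' hgx1 h' hge hgx
    have hadd : Λ.V ((g • x' - c') / ϖ ^ M + (x' - c') / ϖ ^ M) < 1 := by
      rw [show (g • x' - c') / ϖ ^ M + (x' - c') / ϖ ^ M = (g • x' + x' - 2 * c') / ϖ ^ M by ring,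
        map_div₀, hπ]
      refine lt_of_le_of_lt (div_le_div_of_nonneg_right hcp2 zero_le) ?_
      rw [sq, mul_div_assoc, div_self hVne, mul_one]
      exact h'
    have h2θ : Λ.V (2 * ((x' - c') / ϖ ^ M)) < 1 := by
      rw [show 2 * ((x' - c') / ϖ ^ M) = ((g • x' - c') / ϖ ^ M + (x' - c') / ϖ ^ M) -
        ((g • x' - c') / ϖ ^ M - (x' - c') / ϖ ^ M) by ring]
      exact Λ.V.map_sub_lt hadd hin
    rw [two_mul_val hG, hθ] at h2θ
    exact lt_irrefl _ h2θ

end Pool.Agent.H42.PC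

end DPar

section DLate
namespace Pool.Agent.H42.PC

open Polynomial WithZero

variable {G L : Type} [Group G] [Field L] [MulSemiringAction G L] [Finite G] {Λ : Loc G L}
  {f : L[X]} {b : L} {W : Finset L} {J s N : ℕ}

private theorem dLate_crit {x : L} (h : ball Λ x ∈ (ball Λ) '' (W : Set L)) :
    ∃ c ∈ W, Λ.V (x - c) < 1 := by
  obtain ⟨c, hc, he⟩ := h
  exact ⟨c, hc, ball_eq.1 he.symm⟩

private theorem dLate_cardpos (H : Subgroup G) : 0 < Nat.card H := Nat.card_pos

private theorem dLate_inj {a c k : ℕ} (hk : 0 < k)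
    (h : (exp (-((a : ℤ) * (k : ℤ))) : ℤᵐ⁰) = exp (-((c : ℤ) * (k : ℤ)))) : a = c := by
  have h1 := exp_injective h
  have h2 : ((a * k : ℕ) : ℤ) = ((c * k : ℕ) : ℤ) := by
    push_cast
    linarith
  have h3 : a * k = c * k := by exact_mod_cast h2
  exact Nat.eq_of_mul_eq_mul_right hk h3

/-- the previous digit -/
private theorem dLate_prev (hG : Good Λ f b W J) (hs : W.card ≤ s) {n v0 t1 : ℕ} (hn : 1 ≤ n)
    (hC : Cyc (mkPlace hG s N hs) n t1) {t : ℕ} (ht : n * v0 < t) (htN : t ≤ N) {x : L}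
    (hx : x ∈ lev (ev f) b t) (hon : (mkPlace hG s N hs).OnC x) :
    ∃ i, 1 ≤ i ∧ i ≤ n ∧ n * v0 ≤ t - i ∧ i ≤ t ∧
      ball Λ ((ev f)^[i] x) ∈ (ball Λ) '' (W : Set L) ∧
      ∀ i', 1 ≤ i' → i' < i → ball Λ ((ev f)^[i'] x) ∉ (ball Λ) '' (W : Set L) := by
  classical
  set q := (t - 1) / n with hq
  have h1 : n * q ≤ t - 1 := Nat.mul_div_le _ _
  have h2 : v0 ≤ q := (Nat.le_div_iff_mul_le (by omega)).2 (by rw [mul_comm]; omega)
  have h3 : t - 1 < n * (q + 1) := Nat.lt_mul_div_succ _ (by omega)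
  have h3' : n * (q + 1) = n * q + n := by ring
  have h4 : n * v0 ≤ n * q := Nat.mul_le_mul_left _ h2
  have hmem : ball Λ ((ev f)^[t - n * q] x) ∈ (ball Λ) '' (W : Set L) := by
    have ha : (ev f)^[t - n * q] x ∈ lev (ev f) b (n * q) := by
      have := lev_iter hx (show t - n * q ≤ t by omega)
      rwa [show t - (t - n * q) = n * q by omega] at this
    have hb : (mkPlace hG s N hs).OnC ((ev f)^[t - n * q] x) :=
      onC_iter _ (by omega) htN hx hon
    have hc : (mkPlace hG s N hs).red ((ev f)^[t - n * q] x) = (mkPlace hG s N hs).red b :=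
      onC_eq hC (by omega) (Dvd.intro _ rfl) ha hb
    have hd := hC.hb
    rw [← hc] at hd
    exact hd
  have hex : ∃ i, 1 ≤ i ∧ ball Λ ((ev f)^[i] x) ∈ (ball Λ) '' (W : Set L) :=
    ⟨t - n * q, by omega, hmem⟩
  have hspec := Nat.find_spec hex
  have hle : Nat.find hex ≤ t - n * q := Nat.find_min' hex ⟨by omega, hmem⟩
  refine ⟨Nat.find hex, hspec.1, by omega, by omega, by omega, hspec.2, ?_⟩
  intro i' h1' h2' hbad
  exact Nat.find_min hex h2' ⟨h1', hbad⟩

private theorem dLate_size (hG : Good Λ f b W J) (hs : W.card ≤ s)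
    (hT : Tree G (ev f) b f.natDegree N) {n v0 t1 : ℕ} (hn : 1 ≤ n) (hv : 1 ≤ v0)
    (hb : Λ.V ((ev f)^[n] b - b) = exp (-((v0 : ℤ) * (Nat.card Λ.I : ℤ))))
    (hC : Cyc (mkPlace hG s N hs) n t1) (t : ℕ) :
    n * v0 ≤ t → t ≤ N → ∀ x ∈ lev (ev f) b t, (mkPlace hG s N hs).OnC x → ∀ c ∈ W,
      Λ.V (x - c) < 1 → ∀ N1 : ℕ,
      Λ.V (x - c) = exp (-((N1 : ℤ) * (Nat.card ((mkPlace hG s N hs).st x) : ℤ))) →
      Odd N1 ∨ 2 ^ ((t - n * v0) / n) * N1 < 2 ^ (n * v0) := by
  classical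
  induction t using Nat.strong_induction_on with
  | _ t ih =>
  intro ht htN x hx hon c hc hxc N1 hV
  set P := mkPlace hG s N hs with hP
  rcases ht.eq_or_lt with he | hlt
  · right
    have h1 : exp (-(Nat.card Λ.I : ℤ)) < Λ.V (x - c) := by
      by_contra h2
      push Not at h2
      have := shallow hG hs hT hn hv hb htN hx hon hc h2
      omega
    rw [hV, exp_lt_exp] at h1
    have h2 : N1 * Nat.card (P.st x) < Nat.card Λ.I := by
      have h3 : ((N1 * Nat.card (P.st x) : ℕ) : ℤ) < (Nat.card Λ.I : ℤ) := by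
        push_cast
        linarith
      exact_mod_cast h3
    have h3 := path_le hT P (m := 0) (j := t) (by omega) (u := x) (by rwa [zero_add])
    have hbx : (ev f)^[t] x = b := hx
    have hstb : P.st ((ev f)^[t] x) = Λ.I := by
      rw [hbx]
      ext g
      rw [GSt_mem]
      exact ⟨fun h => h.1, fun h => ⟨h, hG.fixb g⟩⟩
    rw [hstb] at h3
    have h4 : ((Finset.range t).filter fun i => P.red ((ev f)^[i] x) ∈ P.A).card ≤ t :=
      (Finset.card_filter_le _ _).trans (by rw [Finset.card_range])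
    have h5 : (P.st x).relIndex Λ.I ≤ 2 ^ t :=
      h3.trans (Nat.pow_le_pow_right (by norm_num) h4)
    have hle : P.st x ≤ Λ.I := inf_le_left
    have h6 : Nat.card (P.st x) * (P.st x).relIndex Λ.I = Nat.card Λ.I := by
      have := Subgroup.relIndex_mul_relIndex ⊥ (P.st x) Λ.I bot_le hle
      rwa [Subgroup.relIndex_bot_left, Subgroup.relIndex_bot_left] at this
    have h7 : N1 < 2 ^ t := by
      by_contra h8
      push Not at h8
      have h9 : Nat.card (P.st x) * (P.st x).relIndex Λ.I ≤ N1 * Nat.card (P.st x) := by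
        rw [mul_comm]
        exact Nat.mul_le_mul_right _ (h5.trans h8)
      omega
    rw [← he, Nat.sub_self, Nat.zero_div, pow_zero, one_mul, he]
    exact h7
  · obtain ⟨i, hi1, hin, hit, hitt, hA, hno⟩ := dLate_prev hG hs hn hC hlt htN hx hon
    obtain ⟨cp, hcp, hxp⟩ := dLate_crit hA
    have hti : t - i + i = t := by omega
    obtain ⟨M', hM1, hM2, hM3, hM4⟩ := parity hG hs hT hn hv hb (t := t - i) (j := i) hi1
      (by omega) hit (x' := x) (by rw [hti]; exact hx) hon hcp hc hxp hxc hno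
    rcases hM4 with ⟨M, hM, hst, hVM⟩ | ⟨hodd, _, hVM⟩
    · have hN : N1 = M := dLate_inj (dLate_cardpos _) (hV.symm.trans hVM)
      subst hN
      have hxl : (ev f)^[i] x ∈ lev (ev f) b (t - i) := lev_iter hx hitt
      have honi : P.OnC ((ev f)^[i] x) := onC_iter P hitt htN hx hon
      rcases ih (t - i) (by omega) hit (by omega) _ hxl honi cp hcp hxp M' hM2 with h | h
      · exfalso
        rw [hM] at h
        exact (Nat.not_odd_iff_even.2 (even_two_mul N1)) h
      · right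
        have h1 : (t - n * v0) / n ≤ (t - i - n * v0) / n + 1 := by
          rw [← Nat.add_div_right _ (by omega : 0 < n)]
          exact Nat.div_le_div_right (by omega)
        calc 2 ^ ((t - n * v0) / n) * N1 ≤ 2 ^ ((t - i - n * v0) / n + 1) * N1 :=
              Nat.mul_le_mul_right _ (Nat.pow_le_pow_right (by norm_num) h1)
          _ = 2 ^ ((t - i - n * v0) / n) * M' := by rw [hM, pow_succ]; ring
          _ < _ := h
    · left
      have hN : N1 = M' := dLate_inj (dLate_cardpos _) (hV.symm.trans hVM)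
      rw [hN]
      exact hodd

theorem strong_cyc (hG : Good Λ f b W J) (hs : W.card ≤ s)
    (hT : Tree G (ev f) b f.natDegree N) {n v0 : ℕ} (hn : 1 ≤ n) (hv : 1 ≤ v0)
    (hb : Λ.V ((ev f)^[n] b - b) = exp (-((v0 : ℤ) * (Nat.card Λ.I : ℤ)))) :
    Cyc (mkPlace hG s N hs) n ((n + 1) * (n * (v0 + 1))) := by
  have hlt : Λ.V ((ev f)^[n] b - b) < 1 := by
    rw [hb, ← exp_zero, exp_lt_exp]
    have h1 : (0 : ℤ) < (Nat.card Λ.I : ℤ) := by exact_mod_cast dLate_cardpos Λ.I
    have h2 : (0 : ℤ) < (v0 : ℤ) := by exact_mod_cast hv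
    have := mul_pos h2 h1
    linarith
  have hC := weak_cyc hG hs hT hn hlt
  refine ⟨hC.hn, hC.hb, hC.hcyc, hC.hex, ?_⟩
  intro m hm hmN w hw honw x hxw honx hxA
  set P := mkPlace hG s N hs with hP
  have hexp : (n + 1) * (n * (v0 + 1)) = (n + 1) * (n * v0) + (n + 1) * n := by ring
  have hn1 : n * v0 ≤ (n + 1) * (n * v0) := Nat.le_mul_of_pos_left _ (by omega)
  have hn2 : n + 1 ≤ (n + 1) * n := Nat.le_mul_of_pos_right _ (by omega)
  have hxl : x ∈ lev (ev f) b (m + 1) := lev_up (j := 1) (by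
    rw [Function.iterate_one, hxw]; exact hw)
  have hxA' : ball Λ x ∈ (ball Λ) '' (W : Set L) := hxA
  obtain ⟨c, hc, hxc⟩ := dLate_crit hxA'
  obtain ⟨i, hi1, hin, hit, hitt, hA, hno⟩ := dLate_prev hG hs (v0 := v0) hn hC
    (t := m + 1) (by omega) (by omega) hxl honx
  obtain ⟨cp, hcp, hxp⟩ := dLate_crit hA
  have hti : m + 1 - i + i = m + 1 := by omega
  obtain ⟨M', hM1, hM2, hM3, hM4⟩ := parity hG hs hT hn hv hb (t := m + 1 - i) (j := i) hi1
    (by omega) hit (x' := x) (by rw [hti]; exact hxl) honx hcp hc hxp hxc hno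
  have hxi : (ev f)^[i] x ∈ lev (ev f) b (m + 1 - i) := lev_iter hxl hitt
  have honi : P.OnC ((ev f)^[i] x) := onC_iter P hitt (by omega) hxl honx
  have hodd : Odd M' := by
    rcases dLate_size hG hs hT hn hv hb hC (m + 1 - i) hit (by omega) _ hxi honi cp hcp hxp M'
      hM2 with h | h
    · exact h
    · exfalso
      have h1 : n * v0 ≤ (m + 1 - i - n * v0) / n := by
        rw [Nat.le_div_iff_mul_le (by omega)]
        have e1 : (n + 1) * (n * v0) = n * v0 * n + n * v0 := by ring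
        omega
      have h2 : 2 ^ (n * v0) ≤ 2 ^ ((m + 1 - i - n * v0) / n) * M' :=
        (Nat.pow_le_pow_right (by norm_num) h1).trans (Nat.le_mul_of_pos_right _ (by omega))
      omega
  rcases hM4 with ⟨M, hM, _, _⟩ | ⟨_, hcard, _⟩
  · exfalso
    rw [hM] at hodd
    exact (Nat.not_odd_iff_even.2 (even_two_mul M)) hodd
  · have hstw : P.st w = P.st ((ev f)^[i] x) := by
      rw [← hxw]
      exact hM3.symm
    by_contra hcon
    push Not at hcon
    have hle : P.st ((ev f)^[i] x) ≤ P.st x := by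
      rw [← hstw]
      intro g hg
      rw [GSt_mem] at hg ⊢
      exact ⟨hg.1, hcon g hg.1 hg.2⟩
    have h1 := Subgroup.card_le_of_le hle
    have h2 := dLate_cardpos (P.st x)
    have h3 : Nat.card (P.st ((ev f)^[i] x)) = 2 * Nat.card (P.st x) := hcard
    omega

end Pool.Agent.H42.PC

end DLate

section DVal
namespace Pool.Agent.H42.PC

open NumberField IsDedekindDomain WithZero

variable {M L : Type} [Field M] [NumberField M] [Field L] [NumberField L] [Algebra M L]
  [IsGalois M L]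

theorem val_pow (v : HeightOneSpectrum (𝓞 M)) (w : HeightOneSpectrum (𝓞 L))
    (hvw : w.asIdeal.LiesOver v.asIdeal) (x : M) :
    w.valuation L (algebraMap M L x) =
      v.valuation M x ^ Nat.card (w.asIdeal.inertia (L ≃ₐ[M] L)) := by
  have h1 := HeightOneSpectrum.valuation_liesOver L v w x
  rw [← h1]
  congr 1
  have : v.asIdeal.IsPrime := v.isPrime
  have : w.asIdeal.IsPrime := w.isPrime
  have : v.asIdeal.IsMaximal := v.isMaximal
  have : IsGaloisGroup (L ≃ₐ[M] L) (𝓞 M) (𝓞 L) := inferInstance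
  have : Finite (𝓞 M ⧸ v.asIdeal) := Ring.HasFiniteQuotients.finiteQuotient v.ne_bot
  have : PerfectField v.asIdeal.ResidueField := by
    have : Finite v.asIdeal.ResidueField := by
      exact Finite.of_surjective _ (Ideal.bijective_algebraMap_quotient_residueField v.asIdeal).2
    infer_instance
  rw [Ideal.card_inertia_eq_ramificationIdxIn v.asIdeal w.asIdeal]
  rw [Ideal.ramificationIdxIn_eq_ramificationIdx v.asIdeal w.asIdeal (L ≃ₐ[M] L)]
  exact Ideal.ramificationIdx'_eq_ramificationIdx v.asIdeal w.asIdeal v.ne_bot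

theorem inertia_mem (w : HeightOneSpectrum (𝓞 L)) (g : L ≃ₐ[M] L) :
    g ∈ w.asIdeal.inertia (L ≃ₐ[M] L) ↔ ∀ x : 𝓞 L, g • x - x ∈ w.asIdeal := by
  exact Iff.rfl

end Pool.Agent.H42.PC

end DVal

section DLoc
namespace Pool.Agent.H42.PC

open NumberField IsDedekindDomain WithZero

variable {K L : Type} [Field K] [NumberField K] [Field L] [NumberField L] [Algebra K L]
  [IsGalois K L]

theorem DLoc_mem (w : HeightOneSpectrum (𝓞 L)) (g : L ≃ₐ[K] L)
    (hg : g ∈ w.asIdeal.inertia (L ≃ₐ[K] L)) (x : 𝓞 L) (hx : x ∈ w.asIdeal) :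
    g • x ∈ w.asIdeal := by
  have h1 : g • x - x ∈ w.asIdeal := hg x
  have h2 := w.asIdeal.add_mem h1 hx
  rwa [sub_add_cancel] at h2

theorem DLoc_pow (w : HeightOneSpectrum (𝓞 L)) (g : L ≃ₐ[K] L)
    (hg : g ∈ w.asIdeal.inertia (L ≃ₐ[K] L)) (n : ℕ) (x : 𝓞 L) (hx : x ∈ w.asIdeal ^ n) :
    g • x ∈ w.asIdeal ^ n := by
  have h1 : Ideal.map (MulSemiringAction.toRingHom (L ≃ₐ[K] L) (𝓞 L) g) w.asIdeal ≤ w.asIdeal := by
    rw [Ideal.map_le_iff_le_comap]
    intro y hy
    exact DLoc_mem w g hg y hy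
  have h2 : MulSemiringAction.toRingHom (L ≃ₐ[K] L) (𝓞 L) g x ∈
      Ideal.map (MulSemiringAction.toRingHom (L ≃ₐ[K] L) (𝓞 L) g) (w.asIdeal ^ n) :=
    Ideal.mem_map_of_mem _ hx
  rw [Ideal.map_pow] at h2
  exact Ideal.pow_right_mono h1 n h2

theorem DLoc_int_le (w : HeightOneSpectrum (𝓞 L)) (g : L ≃ₐ[K] L)
    (hg : g ∈ w.asIdeal.inertia (L ≃ₐ[K] L)) (x : 𝓞 L) :
    w.intValuation (g • x) ≤ w.intValuation x := by
  by_cases hx : x = 0
  · rw [hx, smul_zero]
  · rw [w.intValuation_eq_exp_neg_multiplicity hx, w.intValuation_le_pow_iff_mem]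
    apply DLoc_pow w g hg
    rw [← w.intValuation_le_pow_iff_mem, w.intValuation_eq_exp_neg_multiplicity hx]

theorem DLoc_int (w : HeightOneSpectrum (𝓞 L)) (g : L ≃ₐ[K] L)
    (hg : g ∈ w.asIdeal.inertia (L ≃ₐ[K] L)) (x : 𝓞 L) :
    w.intValuation (g • x) = w.intValuation x := by
  refine le_antisymm (DLoc_int_le w g hg x) ?_
  have h1 := DLoc_int_le w g⁻¹ (inv_mem hg) (g • x)
  rwa [inv_smul_smul] at h1

theorem loc_inv (w : HeightOneSpectrum (𝓞 L)) (g : L ≃ₐ[K] L)
    (hg : g ∈ w.asIdeal.inertia (L ≃ₐ[K] L)) (x : L) : w.valuation L (g • x) = w.valuation L x := by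
  obtain ⟨a, c, hc, rfl⟩ := IsFractionRing.div_surjective (A := 𝓞 L) x
  have h1 : g • (algebraMap (𝓞 L) L a / algebraMap (𝓞 L) L c) =
      algebraMap (𝓞 L) L (g • a) / algebraMap (𝓞 L) L (g • c) := by
    rw [algebraMap.smul' g a L, algebraMap.smul' g c L]
    exact map_div₀ g _ _
  rw [h1, map_div₀, map_div₀, w.valuation_of_algebraMap, w.valuation_of_algebraMap,
    w.valuation_of_algebraMap, w.valuation_of_algebraMap, DLoc_int w g hg, DLoc_int w g hg]

theorem loc_inert (w : HeightOneSpectrum (𝓞 L)) (g : L ≃ₐ[K] L)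
    (hg : g ∈ w.asIdeal.inertia (L ≃ₐ[K] L)) (x : L) (hx : w.valuation L x ≤ 1) :
    w.valuation L (g • x - x) < 1 := by
  obtain ⟨n, d, hnd⟩ := w.exists_primeCompl_mul_eq_of_integer x hx
  have hd : w.valuation L (algebraMap (𝓞 L) L d) = 1 := by
    rw [w.valuation_of_algebraMap]
    exact (w.intValuation_eq_one_iff_mem_primeCompl d).2 d.2
  have hgd : w.valuation L (g • algebraMap (𝓞 L) L d) = 1 := by
    rw [loc_inv w g hg, hd]
  have hgnd : (g • x) * (g • algebraMap (𝓞 L) L d) = g • algebraMap (𝓞 L) L n := by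
    rw [← smul_mul', hnd]
  have h1 : (g • x - x) * (algebraMap (𝓞 L) L d * (g • algebraMap (𝓞 L) L d)) =
      algebraMap (𝓞 L) L ((g • n - n) * (d : 𝓞 L) - n * (g • (d : 𝓞 L) - d)) := by
    rw [map_sub, map_mul, map_mul, map_sub, map_sub, algebraMap.smul' g n L,
      algebraMap.smul' g (d : 𝓞 L) L]
    linear_combination (algebraMap (𝓞 L) L d) * hgnd - (g • algebraMap (𝓞 L) L (d : 𝓞 L)) * hnd
  have h2 : (g • n - n) * (d : 𝓞 L) - n * (g • (d : 𝓞 L) - d) ∈ w.asIdeal :=
    w.asIdeal.sub_mem (w.asIdeal.mul_mem_right _ (hg n)) (w.asIdeal.mul_mem_left _ (hg d))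
  have h3 : w.valuation L ((g • x - x) * (algebraMap (𝓞 L) L d * (g • algebraMap (𝓞 L) L d))) < 1 := by
    rw [h1]
    exact (w.valuation_lt_one_iff_mem _).2 h2
  rwa [map_mul, map_mul, hd, hgd, mul_one, mul_one] at h3

theorem DLoc_val (w : HeightOneSpectrum (𝓞 L)) (H : Subgroup (L ≃ₐ[K] L))
    (hH : H ≤ w.asIdeal.inertia (L ≃ₐ[K] L)) :
    ∃ v : HeightOneSpectrum (𝓞 (IntermediateField.fixedField H)),
      ∀ x : IntermediateField.fixedField H,
        w.valuation L (x : L) = v.valuation (IntermediateField.fixedField H) x ^ Nat.card H := by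
  set M := IntermediateField.fixedField H with hM
  have hcard : Nat.card (w.asIdeal.inertia (L ≃ₐ[M] L)) = Nat.card H := by
    have h1 : w.asIdeal.inertia (L ≃ₐ[M] L) = ⊤ := by
      rw [eq_top_iff]
      intro σ _
      have h2 : σ.restrictScalars K ∈ M.fixingSubgroup := by
        rw [IntermediateField.mem_fixingSubgroup_iff]
        intro x hx
        exact σ.commutes ⟨x, hx⟩
      have h4 : M.fixingSubgroup = H := by
        rw [hM]
        exact IntermediateField.fixingSubgroup_fixedField H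
      rw [h4] at h2
      exact hH h2
    rw [h1, Subgroup.card_top, IsGalois.card_aut_eq_finrank, hM,
      IntermediateField.finrank_fixedField_eq_card]
  refine ⟨w.under (𝓞 M), fun x => ?_⟩
  have h5 : w.asIdeal.LiesOver (w.under (𝓞 M)).asIdeal := ⟨rfl⟩
  have h3 := val_pow (w.under (𝓞 M)) w h5 x
  rw [hcard] at h3
  exact h3

theorem loc_div (w : HeightOneSpectrum (𝓞 L)) (H : Subgroup (L ≃ₐ[K] L))
    (hH : H ≤ w.asIdeal.inertia (L ≃ₐ[K] L)) (z : L) (hz : z ≠ 0) (h : ∀ g ∈ H, g • z = z) :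
    ∃ k : ℤ, w.valuation L z = exp (k * (Nat.card H : ℤ)) := by
  obtain ⟨v, hv⟩ := DLoc_val w H hH
  have hzm : z ∈ IntermediateField.fixedField H := by
    rw [IntermediateField.mem_fixedField_iff]
    intro g hg
    exact h g hg
  have h1 := hv ⟨z, hzm⟩
  have h2 : (⟨z, hzm⟩ : IntermediateField.fixedField H) ≠ 0 := fun hc =>
    hz (congrArg Subtype.val hc)
  have h3 : v.valuation (IntermediateField.fixedField H) ⟨z, hzm⟩ ≠ 0 :=
    (Valuation.ne_zero_iff _).2 h2
  refine ⟨log (v.valuation (IntermediateField.fixedField H) ⟨z, hzm⟩), ?_⟩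
  rw [h1, mul_comm, ← nsmul_eq_mul, exp_nsmul, exp_log h3]

theorem loc_unif (w : HeightOneSpectrum (𝓞 L)) (H : Subgroup (L ≃ₐ[K] L))
    (hH : H ≤ w.asIdeal.inertia (L ≃ₐ[K] L)) :
    ∃ z : L, (∀ g ∈ H, g • z = z) ∧ w.valuation L z = exp (-(Nat.card H : ℤ)) := by
  obtain ⟨v, hv⟩ := DLoc_val w H hH
  obtain ⟨π, hπ⟩ := v.valuation_exists_uniformizer (IntermediateField.fixedField H)
  refine ⟨π, ?_, ?_⟩
  · intro g hg
    have h1 := π.2
    rw [IntermediateField.mem_fixedField_iff] at h1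
    exact h1 g hg
  · rw [hv π, hπ, ← exp_nsmul]
    congr 1
    simp

/-- The local data of a prime of a Galois extension. -/
noncomputable def mkLoc (K : Type) {L : Type} [Field K] [NumberField K] [Field L] [NumberField L]
    [Algebra K L] [IsGalois K L] (w : HeightOneSpectrum (𝓞 L)) : Loc (L ≃ₐ[K] L) L where
  V := w.valuation L
  I := w.asIdeal.inertia (L ≃ₐ[K] L)
  inv := fun g hg x => loc_inv w g hg x
  inert := fun g hg x hx => loc_inert w g hg x hx
  div := fun H hH z hz h => loc_div w H hH z hz h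
  unif := fun H hH => loc_unif w H hH

end Pool.Agent.H42.PC

end DLoc
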