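import Pool.Agent.H42.PCM.B1
import Pool.Agent.H42.PCM.D1
import Pool.Agent.H42.PCM.D2

set_option autoImplicit false

section EDefs
/-! Assembly: definitions over number fields. -/


namespace Pool.Agent.H42.PC

open Polynomial NumberField IsDedekindDomain

open scoped Classical

/-- The map `x ↦ f x` on a `K`-algebra `A`. -/
noncomputable abbrev FA {K : Type} [Field K] (f : K[X]) (A : Type) [Field A] [Algebra K A] :
    A → A := ev (f.map (algebraMap K A))

/-- infinite forward orbit -/
def Wandering {K : Type} [Field K] (f : K[X]) {A : Type} [Field A] [Algebra K A] (c : A) : Prop :=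
  (Set.range fun n : ℕ => (FA f A)^[n] c).Infinite

/-- `β` is a wandering critical point, the wandering critical points in `A` are simple and have
disjoint forward orbits. -/
structure GP {K : Type} [Field K] (f : K[X]) (β : K) (A : Type) [Field A] [Algebra K A] :
    Prop where
  crit : (derivative f).eval β = 0
  wan : Wandering f β
  simple : ∀ c : A, aeval c (derivative f) = 0 → Wandering f c →
    aeval c (derivative (derivative f)) ≠ 0
  disj : ∀ c c' : A, aeval c (derivative f) = 0 → aeval c' (derivative f) = 0 →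
    Wandering f c → Wandering f c' → c ≠ c' → ∀ i j : ℕ, (FA f A)^[i] c ≠ (FA f A)^[j] c'

/-- the wandering critical points in `M` -/
noncomputable def Wd {K : Type} [Field K] (f : K[X]) (M : Type) [Field M] [Algebra K M] :
    Finset M :=
  (((derivative f).map (algebraMap K M)).roots.toFinset).filter fun c => Wandering f c

/-- `v` is a good prime up to `J` iterations; the critical points live in `M`. -/
structure GoodK {K : Type} [Field K] [NumberField K] (f : K[X]) (β : K) (M : Type) [Field M]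
    [NumberField M] [Algebra K M] (J : ℕ) (v : HeightOneSpectrum (𝓞 K)) : Prop where
  int : ∀ i, v.valuation K (f.coeff i) ≤ 1
  lead : v.valuation K f.leadingCoeff = 1
  two : v.valuation K 2 = 1
  dd : v.valuation K (f.natDegree : K) = 1
  bint : v.valuation K β ≤ 1
  G1 : ∀ q : HeightOneSpectrum (𝓞 M), q.asIdeal.LiesOver v.asIdeal → ∀ c c' : M,
    aeval c (derivative f) = 0 → aeval c' (derivative f) = 0 → c ≠ c' →
    q.valuation M (c - c') = 1
  G2 : ∀ q : HeightOneSpectrum (𝓞 M), q.asIdeal.LiesOver v.asIdeal → ∀ c ∈ Wd f M,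
    ∀ c' ∈ Wd f M, ∀ i ≤ J, ∀ j ≤ J,
    q.valuation M ((FA f M)^[i] c - (FA f M)^[j] c') < 1 → c = c' ∧ i = j
  G3 : ∀ q : HeightOneSpectrum (𝓞 M), q.asIdeal.LiesOver v.asIdeal → ∀ c : M,
    aeval c (derivative f) = 0 → c ∉ Wd f M → ∀ t,
    ¬ q.valuation M ((FA f M)^[t] c - algebraMap K M β) < 1

/-- The orbit of level `t` belonging to the factor `h` of level `n0`. -/
def OO {K : Type} [Field K] (f h : K[X]) (n0 : ℕ) (L : Type) [Field L] [Algebra K L] (t : ℕ) :
    Set L :=
  {x | ∃ y : L, aeval y h = 0 ∧ ((n0 ≤ t ∧ (FA f L)^[t - n0] x = y) ∨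
    (t < n0 ∧ (FA f L)^[n0 - t] y = x))}

/-- Primes modulo which `β` is periodic and some iterate of `β` is a root of `h`. -/
def SS {K : Type} [Field K] [NumberField K] (f h : K[X]) (β : K) :
    Set (HeightOneSpectrum (𝓞 K)) :=
  {v | (∃ n, 1 ≤ n ∧ v.valuation K ((FA f K)^[n] β - β) < 1) ∧
    ∃ k, v.valuation K (h.eval ((FA f K)^[k] β)) < 1}

/-- The proportion of elements of the Galois group of `f^t - β` fixing a point of the orbit. -/
noncomputable def qq {K : Type} [Field K] (f h : K[X]) (β : K) (n0 t : ℕ) : ℝ :=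
  q (((f.comp^[t] X - C β).SplittingField) ≃ₐ[K] ((f.comp^[t] X - C β).SplittingField))
    (OO f h n0 ((f.comp^[t] X - C β).SplittingField)) t

/-- Eventual stability. -/
def ES {K : Type} [Field K] (f : K[X]) (β : K) : Prop :=
  ∃ B : ℕ, ∀ n, {g : K[X] | g.Monic ∧ Irreducible g ∧ g ∣ f.comp^[n] X - C β}.ncard ≤ B

/-- From level `n0` the fibres of conjugate points consist of conjugate points. -/
def Stab {K : Type} [Field K] (f : K[X]) (β : K) (n0 : ℕ) : Prop :=
  ∀ n, n0 ≤ n → ∀ x x' : AlgebraicClosure K,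
    (FA f (AlgebraicClosure K))^[n + 1] x = algebraMap K (AlgebraicClosure K) β →
    (FA f (AlgebraicClosure K))^[n + 1] x' = algebraMap K (AlgebraicClosure K) β →
    minpoly K (FA f (AlgebraicClosure K) x) = minpoly K (FA f (AlgebraicClosure K) x') →
    minpoly K x = minpoly K x'

end Pool.Agent.H42.PC

end EDefs

section EBas
namespace Pool.Agent.H42.PC

open Polynomial

variable {K : Type} [Field K] {f : K[X]} {β : K} {A B : Type} [Field A] [Algebra K A] [Field B]
  [Algebra K B]

theorem FA_apply (x : A) : FA f A x = aeval x f := by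
  show (f.map (algebraMap K A)).eval x = aeval x f
  rw [eval_map, aeval_def]

theorem FA_hom (ι : A →ₐ[K] B) (x : A) : ι (FA f A x) = FA f B (ι x) := by
  rw [FA_apply, FA_apply, Polynomial.aeval_algHom_apply]

theorem FA_iter (ι : A →ₐ[K] B) (x : A) (n : ℕ) : ι ((FA f A)^[n] x) = (FA f B)^[n] (ι x) := by
  induction n with
  | zero => rfl
  | succ n ih => rw [Function.iterate_succ_apply', Function.iterate_succ_apply', FA_hom, ih]

theorem FA_base (x : K) (n : ℕ) :
    algebraMap K A ((FA f K)^[n] x) = (FA f A)^[n] (algebraMap K A x) := by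
  exact FA_iter (Algebra.ofId K A) x n

theorem FA_smul (g : A ≃ₐ[K] A) (x : A) (n : ℕ) : g • (FA f A)^[n] x = (FA f A)^[n] (g • x) := by
  exact FA_iter g.toAlgHom x n

theorem itp_aeval (n : ℕ) (x : A) : aeval x (f.comp^[n] X - C β) =
    (FA f A)^[n] x - algebraMap K A β := by
  rw [map_sub, aeval_C]
  congr 1
  induction n with
  | zero => simp
  | succ n ih =>
    rw [Function.iterate_succ_apply', Function.iterate_succ_apply', aeval_comp, ih, FA_apply]

theorem itp_natDegree (hd : 1 ≤ f.natDegree) (n : ℕ) :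
    (f.comp^[n] X - C β).natDegree = f.natDegree ^ n := by
  have _ := hd
  rw [natDegree_sub_C, natDegree_iterate_comp, natDegree_X, mul_one]

theorem wand_inj (c : A) : Wandering f c ↔ Function.Injective fun n : ℕ => (FA f A)^[n] c := by
  constructor
  · intro h
    by_contra hinj
    -- a repetition
    obtain ⟨i, j, hlt, hij⟩ : ∃ i j : ℕ, i < j ∧ (FA f A)^[i] c = (FA f A)^[j] c := by
      unfold Function.Injective at hinj
      push Not at hinj
      obtain ⟨a, b, hab, hne⟩ := hinj
      rcases lt_or_gt_of_ne hne with h1 | h1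
      · exact ⟨a, b, h1, hab⟩
      · exact ⟨b, a, h1, hab.symm⟩
    apply h
    refine (Set.finite_range fun k : Fin j => (FA f A)^[(k : ℕ)] c).subset ?_
    rintro _ ⟨n, rfl⟩
    induction n using Nat.strong_induction_on with
    | _ n ih =>
      rcases lt_or_ge n j with h1 | h1
      · exact ⟨⟨n, h1⟩, rfl⟩
      · have h2 := ih (n - j + i) (by omega)
        have h3 : (FA f A)^[n - j + i] c = (FA f A)^[n] c := by
          rw [Function.iterate_add_apply, hij, ← Function.iterate_add_apply, Nat.sub_add_cancel h1]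
        change (FA f A)^[n - j + i] c ∈ _ at h2
        change (FA f A)^[n] c ∈ _
        rwa [h3] at h2
  · intro h
    exact Set.infinite_range_of_injective h

theorem wand_hom (ι : A →ₐ[K] B) (c : A) : Wandering f (ι c) ↔ Wandering f c := by
  rw [wand_inj, wand_inj]
  constructor
  · intro h i j hij
    apply h
    change (FA f B)^[i] (ι c) = (FA f B)^[j] (ι c)
    rw [← FA_iter, ← FA_iter]
    exact congrArg ι hij
  · intro h i j hij
    apply h
    change (FA f B)^[i] (ι c) = (FA f B)^[j] (ι c) at hij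
    rw [← FA_iter, ← FA_iter] at hij
    exact ι.injective hij

theorem GP_hom (ι : A →ₐ[K] B) (h : GP f β B) : GP f β A := by
  refine ⟨h.crit, h.wan, ?_, ?_⟩
  · intro c hc hw h0
    refine h.simple (ι c) ?_ ((wand_hom ι c).2 hw) ?_
    · rw [aeval_algHom_apply, hc, map_zero]
    · rw [aeval_algHom_apply, h0, map_zero]
  · intro c c' hc hc' hw hw' hne i j hij
    refine h.disj (ι c) (ι c') ?_ ?_ ((wand_hom ι c).2 hw) ((wand_hom ι c').2 hw')
      (fun h1 => hne (ι.injective h1)) i j ?_
    · rw [aeval_algHom_apply, hc, map_zero]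
    · rw [aeval_algHom_apply, hc', map_zero]
    · rw [← FA_iter, ← FA_iter, hij]

private theorem EBas_wan (h : GP f β A) : Wandering f (algebraMap K A β) :=
  (wand_hom (Algebra.ofId K A) β).2 h.wan

private theorem EBas_crit (h : GP f β A) : aeval (algebraMap K A β) (derivative f) = 0 := by
  rw [aeval_algebraMap_apply, coe_aeval_eq_eval, h.crit, map_zero]

theorem nonwand (h : GP f β A) {c : A} (hc : ¬ Wandering f c) (t : ℕ) :
    (FA f A)^[t] c ≠ algebraMap K A β := by
  intro heq
  apply hc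
  refine (EBas_wan h).mono ?_
  rintro _ ⟨n, rfl⟩
  refine ⟨n + t, ?_⟩
  change (FA f A)^[n + t] c = (FA f A)^[n] (algebraMap K A β)
  rw [Function.iterate_add_apply, heq]

theorem aper (h : GP f β A) {t : ℕ} (ht : 1 ≤ t) :
    (FA f A)^[t] (algebraMap K A β) ≠ algebraMap K A β := by
  intro heq
  have h1 := (wand_inj _).1 (EBas_wan h)
  have h2 : t = 0 := h1 heq
  omega

theorem no_tree_crit (h : GP f β A) {z : A} (hz : aeval z (derivative f) = 0) {t : ℕ}
    (ht : 1 ≤ t) : (FA f A)^[t] z ≠ algebraMap K A β := by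
  by_cases hw : Wandering f z
  · by_cases hzb : z = algebraMap K A β
    · rw [hzb]
      exact aper h ht
    · exact h.disj z _ hz (EBas_crit h) hw (EBas_wan h) hzb t 0
  · exact nonwand h hw t

end Pool.Agent.H42.PC

end EBas

section EGk
namespace Pool.Agent.H42.PC

open Polynomial NumberField IsDedekindDomain

theorem val_ne_one_finite {M : Type} [Field M] [NumberField M] {z : M} (hz : z ≠ 0) :
    {q : HeightOneSpectrum (𝓞 M) | q.valuation M z ≠ 1}.Finite := by
  obtain ⟨a, b, hb, rfl⟩ := IsFractionRing.div_surjective (A := 𝓞 M) z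
  have hb0 : b ≠ 0 := nonZeroDivisors.ne_zero hb
  have ha0 : a ≠ 0 := by
    rintro rfl
    simp at hz
  have hfa : (Ideal.span {a} : Ideal (𝓞 M)) ≠ 0 := by
    simpa using ha0
  have hfb : (Ideal.span {b} : Ideal (𝓞 M)) ≠ 0 := by
    simpa using hb0
  refine ((Ideal.finite_factors hfa).union (Ideal.finite_factors hfb)).subset ?_
  intro q hq
  by_contra hcon
  rw [Set.mem_union, not_or] at hcon
  have key : ∀ r : 𝓞 M, q ∉ {v : HeightOneSpectrum (𝓞 M) | v.asIdeal ∣ Ideal.span {r}} →
      q.valuation M (algebraMap (𝓞 M) M r) = 1 := by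
    intro r hr
    rcases (q.valuation_le_one (K := M) r).lt_or_eq with h | h
    · exact absurd ((q.valuation_lt_one_iff_dvd (K := M) r).1 h) hr
    · exact h
  apply hq
  rw [map_div₀, key a hcon.1, key b hcon.2, div_one]

theorem mem_Wd {K : Type} [Field K] {f : K[X]} {M : Type} [Field M] [Algebra K M]
    (hf : derivative f ≠ 0) (c : M) :
    c ∈ Wd f M ↔ aeval c (derivative f) = 0 ∧ Wandering f c := by
  simp only [Wd, Finset.mem_filter, Multiset.mem_toFinset]
  rw [mem_roots_map hf, eval₂_eq_eval_map, ← eval_map_algebraMap]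

theorem goodK_finite {K : Type} [Field K] [NumberField K] {f : K[X]} {β : K} {M : Type} [Field M]
    [NumberField M] [Algebra K M] (hd : 2 ≤ f.natDegree) (hGP : GP f β M) (J : ℕ) :
    {v : HeightOneSpectrum (𝓞 K) | ¬ GoodK f β M J v}.Finite := by
  classical
  have hd0 : derivative f ≠ 0 := by
    intro h
    have := derivative_eq_zero.1 h
    omega
  -- bad elements of K
  let SK : Finset K := (((Finset.range (f.natDegree + 1)).image fun i => f.coeff i) ∪
    {f.leadingCoeff, 2, (f.natDegree : K), β}).erase 0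
  have hBK : (⋃ z ∈ SK, {v : HeightOneSpectrum (𝓞 K) | v.valuation K z ≠ 1}).Finite :=
    Set.Finite.biUnion SK.finite_toSet fun z hz => val_ne_one_finite (Finset.ne_of_mem_erase hz)
  -- bad elements of M
  let R : Finset M := ((derivative f).map (algebraMap K M)).roots.toFinset
  have hR : ∀ c : M, c ∈ R ↔ aeval c (derivative f) = 0 := by
    intro c
    show c ∈ ((derivative f).map (algebraMap K M)).roots.toFinset ↔ _
    rw [Multiset.mem_toFinset, mem_roots_map hd0, eval₂_eq_eval_map, ← eval_map_algebraMap]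
  let S1 : Set M := (fun p : M × M => p.1 - p.2) '' ((R : Set M) ×ˢ (R : Set M))
  have hS1 : S1.Finite := (R.finite_toSet.prod R.finite_toSet).image _
  let S2 : Set M := (fun p : (M × ℕ) × (M × ℕ) =>
      (FA f M)^[p.1.2] p.1.1 - (FA f M)^[p.2.2] p.2.1) ''
    ((((Wd f M : Finset M) : Set M) ×ˢ (Set.Iic J)) ×ˢ
      (((Wd f M : Finset M) : Set M) ×ˢ (Set.Iic J)))
  have hS2 : S2.Finite := by
    refine Set.Finite.image _ ?_
    exact ((Finset.finite_toSet _).prod (Set.finite_Iic J)).prod
      ((Finset.finite_toSet _).prod (Set.finite_Iic J))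
  let S3 : Set M := ⋃ c ∈ ((R.filter fun c => ¬ Wandering f c : Finset M) : Set M),
    (fun y => y - algebraMap K M β) '' (Set.range fun t : ℕ => (FA f M)^[t] c)
  have hS3 : S3.Finite := by
    refine Set.Finite.biUnion (Finset.finite_toSet _) ?_
    intro c hc
    refine Set.Finite.image _ ?_
    rw [Finset.mem_coe, Finset.mem_filter] at hc
    exact Set.not_infinite.1 hc.2
  have hSM : ((S1 ∪ S2 ∪ S3) \ {0}).Finite := ((hS1.union hS2).union hS3).subset Set.sdiff_subset
  have hBM : (⋃ z ∈ (S1 ∪ S2 ∪ S3) \ {0},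
      {q : HeightOneSpectrum (𝓞 M) | q.valuation M z ≠ 1}).Finite :=
    Set.Finite.biUnion hSM fun z hz => val_ne_one_finite hz.2
  set BM := ⋃ z ∈ (S1 ∪ S2 ∪ S3) \ {0},
      {q : HeightOneSpectrum (𝓞 M) | q.valuation M z ≠ 1} with hBMdef
  have hdown : {v : HeightOneSpectrum (𝓞 K) | ∃ q ∈ BM, q.asIdeal.LiesOver v.asIdeal}.Finite := by
    refine Set.Finite.of_finite_image (f := fun v : HeightOneSpectrum (𝓞 K) => v.asIdeal) ?_ ?_
    · refine (hBM.image fun q => q.asIdeal.under (𝓞 K)).subset ?_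
      rintro _ ⟨v, ⟨q, hq, hqv⟩, rfl⟩
      exact ⟨q, hq, hqv.over.symm⟩
    · intro v _ v' _ h
      exact HeightOneSpectrum.ext h
  refine (hBK.union hdown).subset ?_
  intro v hv
  by_contra hcon
  rw [Set.mem_union, not_or] at hcon
  obtain ⟨hcK, hcM⟩ := hcon
  have hK1 : ∀ z ∈ SK, v.valuation K z = 1 := by
    intro z hz
    by_contra h
    apply hcK
    simp only [Set.mem_iUnion, exists_prop]
    exact ⟨z, hz, h⟩
  have hM1 : ∀ q : HeightOneSpectrum (𝓞 M), q.asIdeal.LiesOver v.asIdeal →
      ∀ z ∈ S1 ∪ S2 ∪ S3, z ≠ 0 → q.valuation M z = 1 := by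
    intro q hq z hz hz0
    by_contra h
    apply hcM
    refine ⟨q, ?_, hq⟩
    rw [hBMdef]
    simp only [Set.mem_iUnion, exists_prop]
    exact ⟨z, ⟨hz, hz0⟩, h⟩
  have hf0 : f ≠ 0 := by
    rintro rfl
    simp at hd
  have hK2 : ∀ z, z ∈ ((Finset.range (f.natDegree + 1)).image fun i => f.coeff i) ∪
      {f.leadingCoeff, 2, (f.natDegree : K), β} → v.valuation K z ≤ 1 := by
    intro z hz
    by_cases h0 : z = 0
    · rw [h0, map_zero]
      exact zero_le_one
    · exact (hK1 z (Finset.mem_erase.2 ⟨h0, hz⟩)).le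
  apply hv
  refine ⟨?_, ?_, ?_, ?_, ?_, ?_, ?_, ?_⟩
  · intro i
    by_cases hi : i ≤ f.natDegree
    · apply hK2
      rw [Finset.mem_union, Finset.mem_image]
      exact Or.inl ⟨i, Finset.mem_range.2 (by omega), rfl⟩
    · rw [coeff_eq_zero_of_natDegree_lt (by omega), map_zero]
      exact zero_le_one
  · apply hK1
    rw [Finset.mem_erase]
    exact ⟨leadingCoeff_ne_zero.2 hf0, by simp⟩
  · apply hK1
    rw [Finset.mem_erase]
    exact ⟨two_ne_zero, by simp⟩
  · apply hK1
    rw [Finset.mem_erase]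
    exact ⟨Nat.cast_ne_zero.2 (by omega), by simp⟩
  · apply hK2
    simp
  · intro q hq c c' hc hc' hne
    apply hM1 q hq _ _ (sub_ne_zero.2 hne)
    exact Or.inl (Or.inl ⟨(c, c'), ⟨(hR c).2 hc, (hR c').2 hc'⟩, rfl⟩)
  · intro q hq c hc c' hc' i hi j hj hlt
    by_contra hcon
    have hcw := (mem_Wd hd0 c).1 hc
    have hcw' := (mem_Wd hd0 c').1 hc'
    have hne : (FA f M)^[i] c - (FA f M)^[j] c' ≠ 0 := by
      rw [sub_ne_zero]
      by_cases hcc : c = c'
      · subst hcc
        intro h
        exact hcon ⟨rfl, (wand_inj c).1 hcw.2 h⟩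
      · exact hGP.disj c c' hcw.1 hcw'.1 hcw.2 hcw'.2 hcc i j
    have := hM1 q hq _ (Or.inl (Or.inr ⟨((c, i), (c', j)), ⟨⟨hc, hi⟩, ⟨hc', hj⟩⟩, rfl⟩)) hne
    exact hlt.ne this
  · intro q hq c hc hcW t hlt
    have hcw : ¬ Wandering f c := fun h => hcW ((mem_Wd hd0 c).2 ⟨hc, h⟩)
    have hne : (FA f M)^[t] c - algebraMap K M β ≠ 0 := sub_ne_zero.2 (nonwand hGP hcw t)
    refine hlt.ne (hM1 q hq _ (Or.inr ?_) hne)
    show _ ∈ ⋃ c ∈ ((R.filter fun c => ¬ Wandering f c : Finset M) : Set M),
      (fun y => y - algebraMap K M β) '' (Set.range fun t : ℕ => (FA f M)^[t] c)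
    simp only [Set.mem_iUnion, exists_prop]
    exact ⟨c, Finset.mem_coe.2 (Finset.mem_filter.2 ⟨(hR c).2 hc, hcw⟩), _, ⟨t, rfl⟩, rfl⟩

end Pool.Agent.H42.PC

end EGk

section EGd
namespace Pool.Agent.H42.PC

open Polynomial NumberField IsDedekindDomain

open scoped Classical

theorem EGd_val {M L : Type} [Field M] [NumberField M] [Field L] [NumberField L] [Algebra M L]
    (q : HeightOneSpectrum (𝓞 M)) (w : HeightOneSpectrum (𝓞 L))
    (h : w.asIdeal.LiesOver q.asIdeal) :
    ∃ e : ℕ, e ≠ 0 ∧ ∀ z : M, w.valuation L (algebraMap M L z) = q.valuation M z ^ e := by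
  have := h
  exact ⟨q.asIdeal.ramificationIdx' w.asIdeal,
    Ideal.IsDedekindDomain.ramificationIdx'_ne_zero_of_liesOver w.asIdeal q.ne_bot,
    fun z => (HeightOneSpectrum.valuation_liesOver L q w z).symm⟩

theorem good_of_goodK {K M L : Type} [Field K] [NumberField K] [Field M] [NumberField M] [Field L]
    [NumberField L] [Algebra K M] [Algebra M L] [Algebra K L] [IsScalarTower K M L] [IsGalois K L]
    {f : K[X]} {β : K} (hd : 2 ≤ f.natDegree) (hGP : GP f β M)
    (hM : ((derivative f).map (algebraMap K M)).Splits) {J : ℕ} {v : HeightOneSpectrum (𝓞 K)}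
    (hv : GoodK f β M J v) (w : HeightOneSpectrum (𝓞 L)) (hw : w.asIdeal.LiesOver v.asIdeal) :
    Good (mkLoc K w) (f.map (algebraMap K L)) (algebraMap K L β)
      ((Wd f M).image (algebraMap M L)) J := by
  have hder : derivative f ≠ 0 := by
    intro h0
    have := Polynomial.derivative_eq_zero.1 h0
    omega
  let q : HeightOneSpectrum (𝓞 M) := HeightOneSpectrum.under (𝓞 M) w
  have := hw
  have hwq : w.asIdeal.LiesOver q.asIdeal := Ideal.over_under _
  have hqv : q.asIdeal.LiesOver v.asIdeal := Ideal.LiesOver.tower_bot w.asIdeal q.asIdeal v.asIdeal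
  obtain ⟨e, he, hq⟩ := EGd_val q w hwq
  obtain ⟨e', he', hv'⟩ := EGd_val v w hw
  let ι : M →ₐ[K] L := IsScalarTower.toAlgHom K M L
  have hι : ∀ x, ι x = algebraMap M L x := fun x => rfl
  have hcrit : ∀ c : L, (f.map (algebraMap K L)).derivative.eval c = 0 →
      ∃ c0 : M, aeval c0 (derivative f) = 0 ∧ algebraMap M L c0 = c := by
    intro c hc
    have h1 : ((derivative f).map (algebraMap K M)) ≠ 0 :=
      (Polynomial.map_ne_zero_iff (algebraMap K M).injective).2 hder
    have h2 : (((derivative f).map (algebraMap K M)).map (algebraMap M L)).IsRoot c := by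
      rw [Polynomial.map_map, ← IsScalarTower.algebraMap_eq, IsRoot.def, ← Polynomial.derivative_map]
      exact hc
    obtain ⟨c0, hc0⟩ := hM.mem_range_of_isRoot h1 h2
    refine ⟨c0, ?_, hc0⟩
    rw [← hc0] at h2
    have h3 := h2
    rw [IsRoot.def, Polynomial.eval_map, Polynomial.eval₂_at_apply] at h3
    rw [← Polynomial.eval_map_algebraMap]
    exact (map_eq_zero (algebraMap M L)).1 h3
  have haev : ∀ c0 : M, (f.map (algebraMap K L)).derivative.eval (algebraMap M L c0) =
      algebraMap M L (aeval c0 (derivative f)) := by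
    intro c0
    rw [Polynomial.derivative_map, Polynomial.eval_map_algebraMap, ← hι, ← hι,
      Polynomial.aeval_algHom_apply]
  have hit : ∀ (c0 : M) (t : ℕ), (ev (f.map (algebraMap K L)))^[t] (algebraMap M L c0) =
      algebraMap M L ((FA f M)^[t] c0) := by
    intro c0 t
    exact (FA_iter ι c0 t).symm
  have hbeta : algebraMap K L β = algebraMap M L (algebraMap K M β) :=
    IsScalarTower.algebraMap_apply K M L β
  have hinj : Function.Injective (algebraMap M L) := (algebraMap M L).injective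
  refine ⟨?_, ?_, ?_, ?_, ?_, ?_, ?_, ?_, ?_, ?_, ?_, ?_, ?_, ?_, ?_⟩
  · intro g i
    rw [Polynomial.coeff_map]
    exact g.commutes _
  · intro g
    exact g.commutes _
  · rw [Polynomial.natDegree_map]
    exact hd
  · intro i
    rw [Polynomial.coeff_map]
    show w.valuation L _ ≤ 1
    rw [hv']
    exact pow_le_one' (hv.int i) e'
  · rw [Polynomial.leadingCoeff_map]
    show w.valuation L _ = 1
    rw [hv', hv.lead, one_pow]
  · show w.valuation L 2 = 1
    have h2 : (2 : L) = algebraMap K L 2 := (map_ofNat (algebraMap K L) 2).symm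
    rw [h2, hv', hv.two, one_pow]
  · show w.valuation L _ = 1
    have h2 : (((f.map (algebraMap K L)).natDegree : ℕ) : L) = algebraMap K L (f.natDegree : K) := by
      rw [Polynomial.natDegree_map]; exact (map_natCast (algebraMap K L) _).symm
    rw [h2, hv', hv.dd, one_pow]
  · rw [Polynomial.derivative_map, IsScalarTower.algebraMap_eq K M L, ← Polynomial.map_map]
    exact hM.map _
  · show w.valuation L _ ≤ 1
    rw [hv']
    exact pow_le_one' hv.bint e'
  · rw [Finset.mem_image]
    refine ⟨algebraMap K M β, (mem_Wd hder _).2 ⟨?_, ?_⟩, hbeta.symm⟩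
    · rw [Polynomial.aeval_algebraMap_apply, Polynomial.coe_aeval_eq_eval, hGP.crit, map_zero]
    · exact (wand_hom (Algebra.ofId K M) β).2 hGP.wan
  · intro c hc
    obtain ⟨c0, hc0, rfl⟩ := Finset.mem_image.1 hc
    rw [haev, ((mem_Wd hder _).1 hc0).1, map_zero]
  · intro c hc
    obtain ⟨c0, hc0, rfl⟩ := Finset.mem_image.1 hc
    obtain ⟨h1, h2⟩ := (mem_Wd hder _).1 hc0
    have h3 := hGP.simple c0 h1 h2
    rw [Polynomial.derivative_map, Polynomial.derivative_map, Polynomial.eval_map_algebraMap,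
      ← hι, Polynomial.aeval_algHom_apply]
    exact (map_ne_zero ι).2 h3
  · intro c c' hc hc' hne
    obtain ⟨c0, h0, rfl⟩ := hcrit c hc
    obtain ⟨c1, h1, rfl⟩ := hcrit c' hc'
    show w.valuation L _ = 1
    rw [← map_sub, hq, hv.G1 q hqv c0 c1 h0 h1 (fun h => hne (by rw [h])), one_pow]
  · intro c hc c' hc' i hi j hj h
    obtain ⟨c0, h0, rfl⟩ := Finset.mem_image.1 hc
    obtain ⟨c1, h1, rfl⟩ := Finset.mem_image.1 hc'
    change w.valuation L _ < 1 at h
    rw [hit, hit, ← map_sub, hq] at h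
    have h2 := hv.G2 q hqv c0 h0 c1 h1 i hi j hj ((pow_lt_one_iff he).1 h)
    exact ⟨by rw [h2.1], h2.2⟩
  · intro c hc hcW t h
    obtain ⟨c0, h0, rfl⟩ := hcrit c hc
    change w.valuation L _ < 1 at h
    rw [hit, hbeta, ← map_sub, hq] at h
    refine hv.G3 q hqv c0 h0 (fun hm => hcW (Finset.mem_image_of_mem _ hm)) t ?_
    exact (pow_lt_one_iff he).1 h

end Pool.Agent.H42.PC

end EGd
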