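import Mathlib

set_option autoImplicit false

section GDefs
/-! Backward trees with a group action, and places (inertia group with a residue map) -/


namespace Pool.Agent.H42.PC

/-- Level `t` of the backward tree of `b` under `F`. -/
def lev {Ω : Type} (F : Ω → Ω) (b : Ω) (t : ℕ) : Set Ω := {x | F^[t] x = b}

/-- The group `G` acts on the backward tree of `b` of height `N`, all fibres have `d` points. -/
structure Tree (G : Type) {Ω : Type} [Group G] [MulAction G Ω] (F : Ω → Ω) (b : Ω) (d N : ℕ) :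
    Prop where
  equiv : ∀ (g : G) (x : Ω), F (g • x) = g • F x
  fix : ∀ g : G, g • b = b
  aper : ∀ t, 1 ≤ t → F^[t] b ≠ b
  fin : ∀ t, t < N → ∀ x ∈ lev F b t, {z | F z = x}.Finite
  fib : ∀ t, t < N → ∀ x ∈ lev F b t, {z | F z = x}.ncard = d

/-- `O t` (`t ≤ N`) is one orbit of level `t`, and `O (t+1)` consists of all points above `O t`
as soon as `n0 ≤ t`. -/
structure Orb (G : Type) {Ω : Type} [Group G] [MulAction G Ω] (F : Ω → Ω) (b : Ω) (n0 N : ℕ)
    (O : ℕ → Set Ω) : Prop where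
  sub : ∀ t ≤ N, O t ⊆ lev F b t
  ne : ∀ t ≤ N, (O t).Nonempty
  inv : ∀ t ≤ N, ∀ g : G, ∀ x ∈ O t, g • x ∈ O t
  trans : ∀ t ≤ N, ∀ x ∈ O t, ∀ y ∈ O t, ∃ g : G, g • x = y
  par : ∀ t < N, ∀ x ∈ O (t + 1), F x ∈ O t
  full : ∀ t, n0 ≤ t → t < N → ∀ x, F x ∈ O t → x ∈ O (t + 1)

/-- A place: inertia group `I`, residue map `red`, set `A` of critical residues. -/
structure Place (G : Type) {Ω : Type} [Group G] [MulAction G Ω] (F : Ω → Ω) (b : Ω)
    (s J N : ℕ) where
  /-- residues -/
  R : Type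
  /-- the reduced map -/
  FR : R → R
  /-- the residue map -/
  red : Ω → R
  /-- the inertia group -/
  I : Subgroup G
  /-- the critical residues -/
  A : Set R
  hAfin : A.Finite
  hA : A.ncard ≤ s
  hred : ∀ t < N, ∀ x ∈ lev F b (t + 1), red (F x) = FR (red x)
  hI : ∀ g ∈ I, ∀ t ≤ N, ∀ x ∈ lev F b t, red (g • x) = red x
  hone : ∀ t < N, ∀ x ∈ lev F b (t + 1), ∀ x' ∈ lev F b (t + 1), F x = F x' → red x = red x' →
    red x ∉ A → x = x'
  htwo : ∀ t < N, ∀ x₁ ∈ lev F b (t + 1), ∀ x₂ ∈ lev F b (t + 1), ∀ x₃ ∈ lev F b (t + 1),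
    F x₁ = F x₂ → F x₂ = F x₃ → red x₁ = red x₂ → red x₂ = red x₃ → x₁ = x₂ ∨ x₁ = x₃ ∨ x₂ = x₃
  hJ : ∀ r ∈ A, ∀ r' ∈ A, ∀ i ≤ J, ∀ j ≤ J, FR^[i] r = FR^[j] r' → r = r' ∧ i = j

namespace Place

variable {G Ω : Type} [Group G] [MulAction G Ω] {F : Ω → Ω} {b : Ω} {s J N : ℕ}

/-- The stabiliser of a point in the inertia group. -/
def st (P : Place G F b s J N) (x : Ω) : Subgroup G := P.I ⊓ MulAction.stabilizer G x

/-- The residue of `x` lies on the forward orbit of the residue of `b`. -/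
def OnC (P : Place G F b s J N) (x : Ω) : Prop := ∃ k : ℕ, P.red x = P.FR^[k] (P.red b)

end Place

/-- A place at which `b` is periodic: `n` is a period of the residue of `b`, and from level `t0`
on every critical pair on the cycle is moved by the stabiliser of its parent in the inertia
group. -/
structure Cyc {G Ω : Type} [Group G] [MulAction G Ω] {F : Ω → Ω} {b : Ω} {s J N : ℕ}
    (P : Place G F b s J N) (n t0 : ℕ) : Prop where
  hn : 1 ≤ n
  hb : P.red b ∈ P.A
  hcyc : P.FR^[n] (P.red b) = P.red b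
  hex : ∀ t < N, ∀ w ∈ lev F b t, P.OnC w → ∃ x, F x = w ∧ P.OnC x
  hdig : ∀ m, t0 ≤ m → m < N → ∀ w ∈ lev F b m, P.OnC w → ∀ x, F x = w → P.OnC x → P.red x ∈ P.A →
    ∃ g ∈ P.I, g • w = w ∧ g • x ≠ x

/-- All points of the tree on the cycle lie in `O`. -/
def InO {G Ω : Type} [Group G] [MulAction G Ω] {F : Ω → Ω} {b : Ω} {s J N : ℕ}
    (P : Place G F b s J N) (O : ℕ → Set Ω) : Prop :=
  ∀ t ≤ N, ∀ x ∈ lev F b t, P.OnC x → x ∈ O t

/-- The proportion of elements of `G` fixing a point of `O t`. -/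
noncomputable def q (G : Type) {Ω : Type} [Group G] [MulAction G Ω] (O : ℕ → Set Ω) (t : ℕ) : ℝ :=
  (Nat.card {g : G // ∃ x ∈ O t, g • x = x} : ℝ) / Nat.card G

end Pool.Agent.H42.PC

end GDefs

section GBas
namespace Pool.Agent.H42.PC

variable {G Ω : Type} [Group G] [MulAction G Ω] {F : Ω → Ω} {b : Ω} {d N n0 : ℕ} {O : ℕ → Set Ω}

theorem lev_iter {t j : ℕ} {x : Ω} (hx : x ∈ lev F b t) (hj : j ≤ t) :
    F^[j] x ∈ lev F b (t - j) := by
  show F^[t - j] (F^[j] x) = b
  rw [← Function.iterate_add_apply, Nat.sub_add_cancel hj]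
  exact hx

theorem lev_up {t j : ℕ} {x : Ω} (hx : F^[j] x ∈ lev F b t) : x ∈ lev F b (t + j) := by
  show F^[t + j] x = b
  rw [Function.iterate_add_apply]
  exact hx

theorem lev_uniq (hT : Tree G F b d N) {t t' : ℕ} {x : Ω} (h : x ∈ lev F b t)
    (h' : x ∈ lev F b t') : t = t' := by
  have key : ∀ {a c : ℕ}, x ∈ lev F b a → x ∈ lev F b c → a < c → False := by
    intro a c ha hc hac
    have h1 : F^[c - a] (F^[a] x) = b := by
      rw [← Function.iterate_add_apply, Nat.sub_add_cancel hac.le]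
      exact hc
    have h2 : F^[a] x = b := ha
    rw [h2] at h1
    exact hT.aper (c - a) (by omega) h1
  rcases lt_trichotomy t t' with h1 | h1 | h1
  · exact (key h h' h1).elim
  · exact h1
  · exact (key h' h h1).elim

theorem iter_smul (hT : Tree G F b d N) (g : G) (x : Ω) (j : ℕ) :
    F^[j] (g • x) = g • F^[j] x := by
  induction j with
  | zero => rfl
  | succ j ih => rw [Function.iterate_succ_apply', ih, hT.equiv, Function.iterate_succ_apply']

theorem smul_lev (hT : Tree G F b d N) (g : G) {t : ℕ} {x : Ω} (hx : x ∈ lev F b t) :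
    g • x ∈ lev F b t := by
  show F^[t] (g • x) = b
  rw [iter_smul hT, show F^[t] x = b from hx, hT.fix]

theorem lev_fin (hT : Tree G F b d N) {t : ℕ} (ht : t ≤ N) : (lev F b t).Finite := by
  induction t with
  | zero =>
    have : lev F b 0 = {b} := by
      ext x
      rfl
    rw [this]
    exact Set.finite_singleton b
  | succ t ih =>
    have h1 : lev F b (t + 1) = ⋃ x ∈ lev F b t, {z | F z = x} := by
      ext z
      simp only [Set.mem_iUnion, Set.mem_ofPred_eq, exists_prop]
      constructor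
      · intro hz
        exact ⟨F z, by
          have := lev_iter (j := 1) hz (by omega)
          simpa using this, rfl⟩
      · rintro ⟨x, hx, rfl⟩
        exact lev_up (j := 1) (by simpa using hx)
    rw [h1]
    exact (ih (by omega)).biUnion fun x hx => hT.fin t (by omega) x hx

theorem orb_iter (hO : Orb G F b n0 N O) {t j : ℕ} (hj : j ≤ t) (ht : t ≤ N) {x : Ω}
    (hx : x ∈ O t) : F^[j] x ∈ O (t - j) := by
  induction j with
  | zero => exact hx
  | succ j ih =>
    rw [Function.iterate_succ_apply']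
    have h1 := ih (by omega)
    have h2 : t - j = (t - (j + 1)) + 1 := by omega
    rw [h2] at h1
    exact hO.par (t - (j + 1)) (by omega) _ h1

theorem orb_up (hO : Orb G F b n0 N O) {t j : ℕ} (h0 : n0 ≤ t) (ht : t + j ≤ N) {x : Ω}
    (hx : F^[j] x ∈ O t) : x ∈ O (t + j) := by
  induction j generalizing x with
  | zero => exact hx
  | succ j ih =>
    rw [Function.iterate_succ_apply] at hx
    have h1 := ih (by omega) hx
    exact hO.full (t + j) (by omega) (by omega) x h1

theorem orb_succ (hT : Tree G F b d N) (hO : Orb G F b n0 N O) {t : ℕ} (h0 : n0 ≤ t)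
    (ht : t < N) : (O (t + 1)).ncard = d * (O t).ncard := by
  classical
  have hfin : (O t).Finite := (lev_fin hT ht.le).subset (hO.sub t ht.le)
  have hfin1 : (O (t + 1)).Finite := (lev_fin hT ht).subset (hO.sub (t + 1) ht)
  rw [Set.ncard_eq_toFinset_card _ hfin1, Set.ncard_eq_toFinset_card _ hfin, mul_comm]
  have hmap : ∀ x ∈ hfin1.toFinset, F x ∈ hfin.toFinset := by
    intro x hx
    rw [Set.Finite.mem_toFinset] at hx ⊢
    exact hO.par t ht x hx
  rw [Finset.card_eq_sum_card_fiberwise hmap]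
  have hc : ∀ y ∈ hfin.toFinset, (hfin1.toFinset.filter fun x => F x = y).card = d := by
    intro y hy
    rw [Set.Finite.mem_toFinset] at hy
    have h1 := hT.fib t ht y (hO.sub t ht.le hy)
    rw [← h1, ← Set.ncard_coe_finset]
    congr 1
    ext z
    simp only [Finset.coe_filter, Set.Finite.mem_toFinset, Set.mem_ofPred_eq]
    constructor
    · exact fun h => h.2
    · intro h
      exact ⟨hO.full t h0 ht z (by rw [h]; exact hy), h⟩
  rw [Finset.sum_congr rfl hc, Finset.sum_const, smul_eq_mul]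

theorem orb_add (hT : Tree G F b d N) (hO : Orb G F b n0 N O) {t j : ℕ} (h0 : n0 ≤ t)
    (ht : t + j ≤ N) : (O (t + j)).ncard = d ^ j * (O t).ncard := by
  induction j with
  | zero => simp
  | succ j ih =>
    rw [← add_assoc, orb_succ hT hO (by omega) (by omega), ih (by omega), pow_succ]
    ring

theorem transport [Finite G] (hT : Tree G F b d N) (hO : Orb G F b n0 N O) {t : ℕ} (ht : t ≤ N)
    {x y : Ω} (hx : x ∈ O t) (hy : y ∈ O t) :
    Nat.card {g : G // g • x = y} * (O t).ncard = Nat.card G := by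
  classical
  have := Fintype.ofFinite G
  have hfin : (O t).Finite := (lev_fin hT ht).subset (hO.sub t ht)
  have hmap : ∀ g ∈ (Finset.univ : Finset G), g • x ∈ hfin.toFinset := by
    intro g _
    rw [Set.Finite.mem_toFinset]
    exact hO.inv t ht g x hx
  have hcard := Finset.card_eq_sum_card_fiberwise hmap
  have hc : ∀ z ∈ hfin.toFinset, ((Finset.univ : Finset G).filter fun g => g • x = z).card =
      Nat.card {g : G // g • x = y} := by
    intro z hz
    rw [Set.Finite.mem_toFinset] at hz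
    obtain ⟨h, hh⟩ := hO.trans t ht z hz y hy
    rw [Nat.card_eq_fintype_card, Fintype.card_subtype]
    refine Finset.card_bij (fun g _ => h * g) ?_ ?_ ?_
    · intro g hg
      rw [Finset.mem_filter] at hg ⊢
      exact ⟨Finset.mem_univ _, by rw [mul_smul, hg.2, hh]⟩
    · intro g _ g' _ hgg
      exact mul_left_cancel hgg
    · intro g hg
      rw [Finset.mem_filter] at hg
      refine ⟨h⁻¹ * g, ?_, by simp⟩
      rw [Finset.mem_filter]
      exact ⟨Finset.mem_univ _, by rw [mul_smul, hg.2, ← hh, inv_smul_smul]⟩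
  rw [Finset.sum_congr rfl hc, Finset.sum_const, smul_eq_mul] at hcard
  rw [Set.ncard_eq_toFinset_card _ hfin, mul_comm, ← hcard, Nat.card_eq_fintype_card,
    Finset.card_univ]

theorem diverge (hO : Orb G F b n0 N O) {l : ℕ} (hl : l ≤ N) {u y : Ω} (hu : u ∈ O l)
    (hy : y ∈ O l) (hne : u ≠ y) :
    ∃ m < l, F^[l - m] u = F^[l - m] y ∧ F^[l - m - 1] u ≠ F^[l - m - 1] y := by
  classical
  have hex : ∃ m, m ≤ l ∧ F^[l - m] u ≠ F^[l - m] y := ⟨l, le_rfl, by simpa using hne⟩
  have h1 := Nat.find_spec hex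
  have h0 : Nat.find hex ≠ 0 := by
    intro h
    rw [h] at h1
    apply h1.2
    have hu' : F^[l] u = b := hO.sub l hl hu
    have hy' : F^[l] y = b := hO.sub l hl hy
    simp [hu', hy']
  obtain ⟨m, hm⟩ := Nat.exists_eq_succ_of_ne_zero h0
  refine ⟨m, by omega, ?_, ?_⟩
  · have := Nat.find_min hex (m := m) (by omega)
    by_contra hcon
    exact this ⟨by omega, hcon⟩
  · have := h1.2
    rw [hm] at this
    rwa [show l - m - 1 = l - m.succ by omega]

end Pool.Agent.H42.PC

end GBas

section GCon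
namespace Pool.Agent.H42.PC

variable {G Ω : Type} [Group G] [MulAction G Ω] {F : Ω → Ω} {b : Ω} {d N s J n t0 : ℕ}

/-- The place moved by `g`. -/
def Place.conj (hT : Tree G F b d N) (P : Place G F b s J N) (g : G) : Place G F b s J N where
  R := P.R
  FR := P.FR
  red := fun x => P.red (g⁻¹ • x)
  I := P.I.map (MulAut.conj g).toMonoidHom
  A := P.A
  hAfin := P.hAfin
  hA := P.hA
  hred := by
    intro t ht x hx
    show P.red (g⁻¹ • F x) = P.FR (P.red (g⁻¹ • x))
    rw [← hT.equiv]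
    exact P.hred t ht _ (smul_lev hT _ hx)
  hI := by
    rintro h hh t ht x hx
    obtain ⟨i, hi, rfl⟩ := Subgroup.mem_map.1 hh
    show P.red (g⁻¹ • ((MulAut.conj g).toMonoidHom i • x)) = P.red (g⁻¹ • x)
    have h1 : g⁻¹ • ((MulAut.conj g).toMonoidHom i • x) = i • (g⁻¹ • x) := by
      rw [MulEquiv.coe_toMonoidHom, MulAut.conj_apply, smul_smul, smul_smul]
      congr 1
      group
    rw [h1]
    exact P.hI i hi t ht _ (smul_lev hT _ hx)
  hone := by
    intro t ht x hx x' hx' he hr hA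
    have h1 : F (g⁻¹ • x) = F (g⁻¹ • x') := by rw [hT.equiv, hT.equiv, he]
    have := P.hone t ht _ (smul_lev hT _ hx) _ (smul_lev hT _ hx') h1 hr hA
    exact MulAction.injective g⁻¹ this
  htwo := by
    intro t ht x₁ h₁ x₂ h₂ x₃ h₃ e₁ e₂ r₁ r₂
    have h1 : F (g⁻¹ • x₁) = F (g⁻¹ • x₂) := by rw [hT.equiv, hT.equiv, e₁]
    have h2 : F (g⁻¹ • x₂) = F (g⁻¹ • x₃) := by rw [hT.equiv, hT.equiv, e₂]
    rcases P.htwo t ht _ (smul_lev hT _ h₁) _ (smul_lev hT _ h₂) _ (smul_lev hT _ h₃) h1 h2 r₁ r₂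
      with h | h | h
    · exact Or.inl (MulAction.injective g⁻¹ h)
    · exact Or.inr (Or.inl (MulAction.injective g⁻¹ h))
    · exact Or.inr (Or.inr (MulAction.injective g⁻¹ h))
  hJ := P.hJ

theorem Place.conj_red (hT : Tree G F b d N) (P : Place G F b s J N) (g : G) (x : Ω) :
    (P.conj hT g).red x = P.red (g⁻¹ • x) := rfl

theorem Place.conj_A (hT : Tree G F b d N) (P : Place G F b s J N) (g : G) :
    (P.conj hT g).A = P.A := rfl

theorem Place.conj_mem_I (hT : Tree G F b d N) (P : Place G F b s J N) (g h : G) :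
    h ∈ (P.conj hT g).I ↔ g⁻¹ * h * g ∈ P.I := by
  show h ∈ P.I.map (MulAut.conj g).toMonoidHom ↔ _
  constructor
  · intro hh
    obtain ⟨i, hi, rfl⟩ := Subgroup.mem_map.1 hh
    rw [MulEquiv.coe_toMonoidHom, MulAut.conj_apply]
    have : g⁻¹ * (g * i * g⁻¹) * g = i := by group
    rwa [this]
  · intro hh
    refine Subgroup.mem_map.2 ⟨_, hh, ?_⟩
    rw [MulEquiv.coe_toMonoidHom, MulAut.conj_apply]
    group

theorem Place.conj_onC (hT : Tree G F b d N) (P : Place G F b s J N) (g : G) (x : Ω) :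
    (P.conj hT g).OnC x ↔ P.OnC (g⁻¹ • x) := by
  show (∃ k : ℕ, P.red (g⁻¹ • x) = P.FR^[k] (P.red (g⁻¹ • b))) ↔
    ∃ k : ℕ, P.red (g⁻¹ • x) = P.FR^[k] (P.red b)
  rw [hT.fix]

theorem Place.conj_cyc (hT : Tree G F b d N) (P : Place G F b s J N) (hC : Cyc P n t0) (g : G) :
    Cyc (P.conj hT g) n t0 := by
  refine ⟨hC.hn, ?_, ?_, ?_, ?_⟩
  · show P.red (g⁻¹ • b) ∈ P.A
    rw [hT.fix]
    exact hC.hb
  · show P.FR^[n] (P.red (g⁻¹ • b)) = P.red (g⁻¹ • b)
    rw [hT.fix]
    exact hC.hcyc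
  · intro t ht w hw hon
    rw [P.conj_onC] at hon
    obtain ⟨x, hx, hx'⟩ := hC.hex t ht _ (smul_lev hT _ hw) hon
    refine ⟨g • x, ?_, ?_⟩
    · rw [hT.equiv, hx, smul_inv_smul]
    · rw [P.conj_onC, inv_smul_smul]
      exact hx'
  · intro m h0 hm w hw hon x hx hon' hA
    rw [P.conj_onC] at hon hon'
    have hA' : P.red (g⁻¹ • x) ∈ P.A := hA
    obtain ⟨i, hi, hiw, hix⟩ := hC.hdig m h0 hm _ (smul_lev hT _ hw) hon (g⁻¹ • x)
      (by rw [hT.equiv, hx]) hon' hA'
    refine ⟨g * i * g⁻¹, ?_, ?_, ?_⟩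
    · rw [P.conj_mem_I]
      have : g⁻¹ * (g * i * g⁻¹) * g = i := by group
      rwa [this]
    · rw [mul_smul, mul_smul, hiw, smul_inv_smul]
    · intro h
      apply hix
      rw [mul_smul, mul_smul] at h
      exact eq_inv_smul_iff.2 h

theorem Place.conj_inO (hT : Tree G F b d N) (P : Place G F b s J N) {O : ℕ → Set Ω}
    (hO : ∀ t ≤ N, ∀ h : G, ∀ x ∈ O t, h • x ∈ O t) (hP : InO P O) (g : G) :
    InO (P.conj hT g) O := by
  intro t ht x hx hon
  rw [P.conj_onC] at hon
  have h1 := hP t ht _ (smul_lev hT _ hx) hon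
  have h2 := hO t ht g _ h1
  rwa [smul_inv_smul] at h2

end Pool.Agent.H42.PC

end GCon

section GSt
namespace Pool.Agent.H42.PC

open scoped Classical

variable {G Ω : Type} [Group G] [MulAction G Ω] {F : Ω → Ω} {b : Ω} {d N s J : ℕ}

/-- residues along a path -/
theorem red_iter (P : Place G F b s J N) {t j : ℕ} (hj : j ≤ t) (ht : t ≤ N) {x : Ω}
    (hx : x ∈ lev F b t) : P.red (F^[j] x) = P.FR^[j] (P.red x) := by
  induction j with
  | zero => rfl
  | succ j ih =>
    rw [Function.iterate_succ_apply', Function.iterate_succ_apply', ← ih (by omega)]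
    have h1 := lev_iter (j := j) hx (by omega)
    have h2 : t - j = (t - j - 1) + 1 := by omega
    rw [h2] at h1
    exact P.hred _ (by omega) _ h1

theorem GSt_mem (P : Place G F b s J N) (g : G) (x : Ω) :
    g ∈ P.st x ↔ g ∈ P.I ∧ g • x = x := by
  unfold Place.st
  rw [Subgroup.mem_inf, MulAction.mem_stabilizer_iff]

theorem GSt_one (hT : Tree G F b d N) (P : Place G F b s J N) (x : Ω) :
    P.st x ≤ P.st (F x) := by
  intro g hg
  rw [GSt_mem] at hg ⊢
  exact ⟨hg.1, by rw [← hT.equiv, hg.2]⟩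

theorem st_mono (hT : Tree G F b d N) (P : Place G F b s J N) (x : Ω) (j : ℕ) :
    P.st x ≤ P.st (F^[j] x) := by
  induction j with
  | zero => exact le_rfl
  | succ j ih =>
    rw [Function.iterate_succ_apply']
    exact ih.trans (GSt_one hT P _)

/-- the index is the size of the orbit -/
theorem GSt_index (hT : Tree G F b d N) (P : Place G F b s J N) (x : Ω) :
    (P.st x).relIndex (P.st (F x)) = (MulAction.orbit (P.st (F x)) x).ncard := by
  rw [← MulAction.index_stabilizer]
  unfold Subgroup.relIndex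
  congr 1
  ext g
  rw [Subgroup.mem_subgroupOf, GSt_mem, MulAction.mem_stabilizer_iff]
  constructor
  · exact fun h => h.2
  · intro h
    exact ⟨((GSt_mem P _ _).1 g.2).1, h⟩

theorem GSt_orbit (hT : Tree G F b d N) (P : Place G F b s J N) {t : ℕ} (ht : t < N)
    {x : Ω} (hx : x ∈ lev F b (t + 1)) {z : Ω} (hz : z ∈ MulAction.orbit (P.st (F x)) x) :
    F z = F x ∧ P.red z = P.red x ∧ z ∈ lev F b (t + 1) := by
  obtain ⟨g, rfl⟩ := hz
  have hg := (GSt_mem P _ _).1 g.2
  refine ⟨?_, ?_, ?_⟩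
  · show F ((g : G) • x) = F x
    rw [hT.equiv, hg.2]
  · exact P.hI _ hg.1 _ ht _ hx
  · exact smul_lev hT _ hx

theorem step_one [Finite G] (hT : Tree G F b d N) (P : Place G F b s J N) {t : ℕ} (ht : t < N)
    {x : Ω} (hx : x ∈ lev F b (t + 1)) (hA : P.red x ∉ P.A) :
    (P.st x).relIndex (P.st (F x)) = 1 := by
  rw [GSt_index hT, Set.ncard_eq_one]
  refine ⟨x, ?_⟩
  ext z
  rw [Set.mem_singleton_iff]
  constructor
  · intro hz
    obtain ⟨h1, h2, h3⟩ := GSt_orbit hT P ht hx hz
    exact (P.hone t ht x hx z h3 h1.symm h2.symm hA).symm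
  · rintro rfl
    exact MulAction.mem_orbit_self _

theorem step_two [Finite G] (hT : Tree G F b d N) (P : Place G F b s J N) {t : ℕ} (ht : t < N)
    {x : Ω} (hx : x ∈ lev F b (t + 1)) : (P.st x).relIndex (P.st (F x)) ≤ 2 := by
  rw [GSt_index hT]
  by_contra hcon
  have h3 : 2 < (MulAction.orbit (P.st (F x)) x).ncard := by omega
  have hf : (MulAction.orbit (P.st (F x)) x).Finite := Set.finite_range _
  rw [Set.two_lt_ncard hf] at h3
  obtain ⟨a, ha, b', hb, c, hc, hab, hac, hbc⟩ := h3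
  obtain ⟨a1, a2, a3⟩ := GSt_orbit hT P ht hx ha
  obtain ⟨b1, b2, b3⟩ := GSt_orbit hT P ht hx hb
  obtain ⟨c1, c2, c3⟩ := GSt_orbit hT P ht hx hc
  rcases P.htwo t ht a a3 b' b3 c c3 (a1.trans b1.symm) (b1.trans c1.symm) (a2.trans b2.symm)
    (b2.trans c2.symm) with h | h | h
  · exact hab h
  · exact hac h
  · exact hbc h

theorem step_ge [Finite G] (hT : Tree G F b d N) (P : Place G F b s J N) {t : ℕ} (ht : t < N)
    {x : Ω} (hx : x ∈ lev F b (t + 1)) (hg : ∃ g ∈ P.I, g • F x = F x ∧ g • x ≠ x) :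
    2 ≤ (P.st x).relIndex (P.st (F x)) := by
  obtain ⟨g, hgI, hg1, hg2⟩ := hg
  rw [GSt_index hT]
  have h1 : g • x ∈ MulAction.orbit (P.st (F x)) x :=
    ⟨⟨g, (GSt_mem P _ _).2 ⟨hgI, hg1⟩⟩, rfl⟩
  have h2 : x ∈ MulAction.orbit (P.st (F x)) x := MulAction.mem_orbit_self _
  exact (Set.one_lt_ncard (Set.finite_range _)).2 ⟨_, h1, _, h2, hg2⟩

theorem path_le [Finite G] (hT : Tree G F b d N) (P : Place G F b s J N) {m j : ℕ}
    (hm : m + j ≤ N) {u : Ω} (hu : u ∈ lev F b (m + j)) :
    (P.st u).relIndex (P.st (F^[j] u)) ≤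
      2 ^ ((Finset.range j).filter fun i => P.red (F^[i] u) ∈ P.A).card := by
  induction j generalizing u with
  | zero => simp
  | succ j ih =>
    have hFu : F u ∈ lev F b (m + j) := by
      have := lev_iter (j := 1) hu (by omega)
      simpa using this
    have h1 := ih (by omega) hFu
    have h2 : (P.st u).relIndex (P.st (F^[j + 1] u)) =
        (P.st u).relIndex (P.st (F u)) * (P.st (F u)).relIndex (P.st (F^[j] (F u))) := by
      rw [Function.iterate_succ_apply]
      exact (Subgroup.relIndex_mul_relIndex _ _ _ (GSt_one hT P u) (st_mono hT P _ j)).symm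
    rw [h2]
    have hu' : u ∈ lev F b ((m + j) + 1) := hu
    have h3 : ((Finset.range (j + 1)).filter fun i => P.red (F^[i] u) ∈ P.A).card =
        (if P.red u ∈ P.A then 1 else 0) +
          ((Finset.range j).filter fun i => P.red (F^[i] (F u)) ∈ P.A).card := by
      rw [Finset.card_filter, Finset.card_filter, Finset.sum_range_succ']
      exact add_comm _ _
    rw [h3, pow_add]
    refine Nat.mul_le_mul ?_ h1
    split_ifs with hA
    · exact step_two hT P (by omega) hu'
    · exact (step_one hT P (by omega) hu' hA).le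

theorem path_ge [Finite G] (hT : Tree G F b d N) (P : Place G F b s J N) {m j : ℕ}
    (hm : m + j ≤ N) {u : Ω} (hu : u ∈ lev F b (m + j)) (B : Finset ℕ)
    (hB : ∀ i ∈ B, i < j ∧ ∃ g ∈ P.I, g • F^[i + 1] u = F^[i + 1] u ∧ g • F^[i] u ≠ F^[i] u) :
    2 ^ B.card ≤ (P.st u).relIndex (P.st (F^[j] u)) := by
  have key : ∀ (j : ℕ) (u : Ω), m + j ≤ N → u ∈ lev F b (m + j) →
      2 ^ ((Finset.range j).filter fun i => ∃ g ∈ P.I, g • F^[i + 1] u = F^[i + 1] u ∧
        g • F^[i] u ≠ F^[i] u).card ≤ (P.st u).relIndex (P.st (F^[j] u)) := by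
    intro j
    induction j with
    | zero =>
      intro u _ _
      rw [Finset.range_zero, Finset.filter_empty]
      simp
    | succ j ih =>
      intro u hm hu
      have hFu : F u ∈ lev F b (m + j) := by
        have := lev_iter (j := 1) hu (by omega)
        simpa using this
      have h1 := ih (F u) (by omega) hFu
      have h2 : (P.st u).relIndex (P.st (F^[j + 1] u)) =
          (P.st u).relIndex (P.st (F u)) * (P.st (F u)).relIndex (P.st (F^[j] (F u))) := by
        rw [Function.iterate_succ_apply]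
        exact (Subgroup.relIndex_mul_relIndex _ _ _ (GSt_one hT P u) (st_mono hT P _ j)).symm
      rw [h2]
      have hu' : u ∈ lev F b ((m + j) + 1) := hu
      have h3 : ((Finset.range (j + 1)).filter fun i => ∃ g ∈ P.I,
          g • F^[i + 1] u = F^[i + 1] u ∧ g • F^[i] u ≠ F^[i] u).card =
          (if ∃ g ∈ P.I, g • F u = F u ∧ g • u ≠ u then 1 else 0) +
            ((Finset.range j).filter fun i => ∃ g ∈ P.I,
              g • F^[i + 1] (F u) = F^[i + 1] (F u) ∧ g • F^[i] (F u) ≠ F^[i] (F u)).card := by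
        rw [Finset.card_filter, Finset.card_filter, Finset.sum_range_succ']
        exact add_comm _ _
      rw [h3, pow_add]
      refine Nat.mul_le_mul ?_ h1
      split_ifs with hA
      · exact step_ge hT P (by omega) hu' hA
      · have : (P.st u).relIndex (P.st (F u)) ≠ 0 := Subgroup.index_ne_zero_of_finite
        rw [pow_zero]
        omega
  refine le_trans (Nat.pow_le_pow_right (by norm_num) (Finset.card_le_card ?_)) (key j u hm hu)
  intro i hi
  rw [Finset.mem_filter, Finset.mem_range]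
  exact hB i hi

theorem path_count (hT : Tree G F b d N) (P : Place G F b s J N) {m j : ℕ}
    (hm : m + j ≤ N) {z : Ω} (hz : z ∈ lev F b m) (r : ℕ → P.R) :
    {y | F^[j] y = z ∧ ∀ i < j, P.red (F^[i] y) = r i}.ncard ≤
      2 ^ ((Finset.range j).filter fun i => r i ∈ P.A).card := by
  induction j generalizing r with
  | zero =>
    have : {y | F^[0] y = z ∧ ∀ i < 0, P.red (F^[i] y) = r i} = {z} := by
      ext y
      simp
    rw [this]
    simp
  | succ j ih =>
    have h1 := ih (by omega) (fun i => r (i + 1))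
    set S := {y | F^[j] y = z ∧ ∀ i < j, P.red (F^[i] y) = r (i + 1)} with hS
    set T := {y | F^[j + 1] y = z ∧ ∀ i < j + 1, P.red (F^[i] y) = r i} with hTd
    have hSfin : S.Finite := (lev_fin hT (t := m + j) (by omega)).subset (by
      rintro y ⟨hy, -⟩
      exact lev_up (by rw [hy]; exact hz))
    have hTlev : ∀ y ∈ T, y ∈ lev F b ((m + j) + 1) := by
      rintro y ⟨hy, -⟩
      exact lev_up (t := m) (j := j + 1) (by rw [hy]; exact hz)
    have hTfin : T.Finite := (lev_fin hT (t := m + j + 1) (by omega)).subset hTlev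
    have hmap : ∀ y ∈ hTfin.toFinset, F y ∈ hSfin.toFinset := by
      intro y hy
      rw [Set.Finite.mem_toFinset] at hy ⊢
      obtain ⟨hy1, hy2⟩ := hy
      refine ⟨by rw [← Function.iterate_succ_apply]; exact hy1, ?_⟩
      intro i hi
      rw [← Function.iterate_succ_apply]
      exact hy2 (i + 1) (by omega)
    have h3 : ((Finset.range (j + 1)).filter fun i => r i ∈ P.A).card =
        (if r 0 ∈ P.A then 1 else 0) +
          ((Finset.range j).filter fun i => r (i + 1) ∈ P.A).card := by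
      rw [Finset.card_filter, Finset.card_filter, Finset.sum_range_succ', add_comm]
    rw [h3, pow_add, Set.ncard_eq_toFinset_card _ hTfin]
    rw [Set.ncard_eq_toFinset_card _ hSfin] at h1
    refine le_trans (Finset.card_le_mul_card_image_of_maps_to hmap (2 ^ (if r 0 ∈ P.A then 1 else 0))
      ?_) (Nat.mul_le_mul_left _ h1)
    intro y1 hy1
    split_ifs with hA
    · rw [pow_one]
      by_contra hcon
      have h4 : 2 < (hTfin.toFinset.filter fun y => F y = y1).card := by omega
      rw [Finset.two_lt_card] at h4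
      obtain ⟨a, ha, b', hb, c, hc, hab, hac, hbc⟩ := h4
      rw [Finset.mem_filter, Set.Finite.mem_toFinset] at ha hb hc
      have ra := ha.1.2 0 (by omega)
      have rb := hb.1.2 0 (by omega)
      have rc := hc.1.2 0 (by omega)
      simp only [Function.iterate_zero, id_eq] at ra rb rc
      rcases P.htwo (m + j) (by omega) a (hTlev _ ha.1) b' (hTlev _ hb.1) c (hTlev _ hc.1)
        (ha.2.trans hb.2.symm) (hb.2.trans hc.2.symm) (ra.trans rb.symm) (rb.trans rc.symm)
        with h | h | h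
      · exact hab h
      · exact hac h
      · exact hbc h
    · rw [pow_zero, Finset.card_le_one]
      intro a ha b' hb
      rw [Finset.mem_filter, Set.Finite.mem_toFinset] at ha hb
      have ra := ha.1.2 0 (by omega)
      have rb := hb.1.2 0 (by omega)
      simp only [Function.iterate_zero, id_eq] at ra rb
      exact P.hone (m + j) (by omega) a (hTlev _ ha.1) b' (hTlev _ hb.1) (ha.2.trans hb.2.symm)
        (ra.trans rb.symm) (by rw [ra]; exact hA)

end Pool.Agent.H42.PC

end GSt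

section GOff
namespace Pool.Agent.H42.PC

open scoped Classical

variable {G Ω : Type} [Group G] [MulAction G Ω] {F : Ω → Ω} {b : Ω} {d N s J n t0 : ℕ}

theorem cyc_of_per {R : Type} (f : R → R) (r b : R) {i e k : ℕ} (hi : 1 ≤ i) (h : f^[i] r = r)
    (he : f^[e] r = f^[k] b) : ∃ k', r = f^[k'] b := by
  have h1 : ∀ e : ℕ, f^[i * e] r = r := by
    intro e
    rw [Function.iterate_mul]
    exact Function.iterate_fixed h e
  refine ⟨i * e - e + k, ?_⟩
  have h2 : e ≤ i * e := Nat.le_mul_of_pos_left e hi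
  rw [Function.iterate_add_apply, ← he, ← Function.iterate_add_apply, Nat.sub_add_cancel h2]
  exact (h1 e).symm

theorem onC_iter (P : Place G F b s J N) {t j : ℕ} (hj : j ≤ t) (ht : t ≤ N) {x : Ω}
    (hx : x ∈ lev F b t) (h : P.OnC x) : P.OnC (F^[j] x) := by
  obtain ⟨k, hk⟩ := h
  refine ⟨j + k, ?_⟩
  rw [red_iter P hj ht hx, hk, Function.iterate_add_apply]

theorem off_index [Finite G] (hT : Tree G F b d N) (P : Place G F b s J N) {m j : ℕ}
    (hm : m + j ≤ N) (hj : 1 ≤ j) {u : Ω} (hu : u ∈ lev F b (m + j)) (hw : P.OnC (F^[j] u))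
    (hoff : ¬ P.OnC (F^[j - 1] u)) : (P.st u).relIndex (P.st (F^[j] u)) ≤ 2 ^ s := by
  refine (path_le hT P hm hu).trans (Nat.pow_le_pow_right (by norm_num) ?_)
  have hcard : P.hAfin.toFinset.card = P.A.ncard := (Set.ncard_eq_toFinset_card _ P.hAfin).symm
  refine le_trans ?_ (hcard.le.trans P.hA)
  refine Finset.card_le_card_of_injOn (fun i => P.red (F^[i] u)) ?_ ?_
  · intro i hi
    rw [Finset.mem_coe, Finset.mem_filter] at hi
    rw [Finset.mem_coe, Set.Finite.mem_toFinset]
    exact hi.2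
  · have key : ∀ i i' : ℕ, i < i' → i' < j → P.red (F^[i] u) = P.red (F^[i'] u) → False := by
      intro i i' hii hi' he
      have hui : F^[i] u ∈ lev F b (m + j - i) := lev_iter hu (by omega)
      have h1 : P.FR^[i' - i] (P.red (F^[i] u)) = P.red (F^[i] u) := by
        rw [← red_iter P (by omega) (by omega) hui, ← Function.iterate_add_apply,
          show i' - i + i = i' by omega, he]
      obtain ⟨k, hk⟩ := hw
      have h2 : P.FR^[j - i] (P.red (F^[i] u)) = P.FR^[k] (P.red b) := by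
        rw [← hk, ← red_iter P (by omega) (by omega) hui, ← Function.iterate_add_apply,
          show j - i + i = j by omega]
      have h3 : P.OnC (F^[i] u) := cyc_of_per P.FR _ _ (by omega) h1 h2
      apply hoff
      have h4 := onC_iter P (j := j - 1 - i) (by omega) (by omega) hui h3
      rwa [← Function.iterate_add_apply, show j - 1 - i + i = j - 1 by omega] at h4
    intro i hi i' hi' he
    rw [Finset.mem_coe, Finset.mem_filter, Finset.mem_range] at hi hi'
    by_contra hne
    rcases lt_or_gt_of_ne hne with h | h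
    · exact key i i' h hi'.1 he
    · exact key i' i h hi.1 he.symm

theorem onC_fix {P : Place G F b s J N} (hC : Cyc P n t0) {x : Ω} (h : P.OnC x) :
    P.FR^[n] (P.red x) = P.red x := by
  obtain ⟨k, hk⟩ := h
  rw [hk, ← Function.iterate_add_apply, Nat.add_comm, Function.iterate_add_apply, hC.hcyc]

theorem onC_eq {P : Place G F b s J N} (hC : Cyc P n t0) {t : ℕ} (ht : t ≤ N) (hn : n ∣ t)
    {x : Ω} (hx : x ∈ lev F b t) (h : P.OnC x) : P.red x = P.red b := by
  obtain ⟨i, rfl⟩ := hn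
  have h1 : P.FR^[n * i] (P.red x) = P.red x := by
    rw [Function.iterate_mul]
    exact Function.iterate_fixed (onC_fix hC h) i
  rw [← h1, ← red_iter P le_rfl ht hx]
  congr 1

/-- the on-cycle points of each level exist -/
theorem exists_onC {P : Place G F b s J N} (hC : Cyc P n t0) {t : ℕ} (ht : t ≤ N) :
    ∃ x ∈ lev F b t, P.OnC x := by
  induction t with
  | zero => exact ⟨b, rfl, 0, rfl⟩
  | succ t ih =>
    obtain ⟨w, hw, hon⟩ := ih (by omega)
    obtain ⟨x, hx, hx'⟩ := hC.hex t (by omega) w hw hon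
    exact ⟨x, lev_up (j := 1) (by simpa [hx] using hw), hx'⟩

theorem uniq_child {P : Place G F b s J N} (hC : Cyc P n t0) {t : ℕ} (ht : t < N) {x x' : Ω}
    (hx : x ∈ lev F b (t + 1)) (hx' : x' ∈ lev F b (t + 1)) (hF : F x = F x') (h : P.OnC x)
    (h' : P.OnC x') : P.red x = P.red x' := by
  have key : ∀ y, y ∈ lev F b (t + 1) → P.OnC y → P.red y = P.FR^[n - 1] (P.red (F y)) := by
    intro y hy hon
    rw [P.hred t ht y hy, ← Function.iterate_succ_apply, show (n - 1).succ = n by
      have := hC.hn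
      omega]
    exact (onC_fix hC hon).symm
  rw [key x hx h, key x' hx' h', hF]

theorem on_index [Finite G] (hT : Tree G F b d N) {P : Place G F b s J N} (hC : Cyc P n t0)
    {m L : ℕ} (hm : m + L ≤ N) (h0 : t0 ≤ m) (hL : (s + 1) * n ≤ L) {u : Ω}
    (hu : u ∈ lev F b (m + L)) (h : P.OnC u) :
    2 ^ (s + 1) ≤ (P.st u).relIndex (P.st (F^[L] u)) := by
  have hn := hC.hn
  refine le_trans (Nat.pow_le_pow_right (by norm_num) ?_)
    (path_ge hT P hm hu ((Finset.range L).filter fun i => n ∣ m + L - i) ?_)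
  · -- count
    have hinj : Set.InjOn (fun a => m + L - n * (m / n + 1 + a)) (Finset.range (s + 1) : Set ℕ) := by
      intro a ha a' ha' he
      rw [Finset.mem_coe, Finset.mem_range] at ha ha'
      have e1 : n * (m / n) ≤ m := Nat.mul_div_le m n
      have e2 : n * (m / n + 1 + a) ≤ m + L := by
        have : n * (1 + a) ≤ (s + 1) * n := by
          rw [mul_comm n]
          exact Nat.mul_le_mul_right _ (by omega)
        nlinarith
      have e3 : n * (m / n + 1 + a') ≤ m + L := by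
        have : n * (1 + a') ≤ (s + 1) * n := by
          rw [mul_comm n]
          exact Nat.mul_le_mul_right _ (by omega)
        nlinarith
      have he' : m + L - n * (m / n + 1 + a) = m + L - n * (m / n + 1 + a') := he
      have e4 : n * (m / n + 1 + a) = n * (m / n + 1 + a') := by omega
      have e5 := Nat.eq_of_mul_eq_mul_left (by omega) e4
      omega
    have hcard : ((Finset.range (s + 1)).image fun a => m + L - n * (m / n + 1 + a)).card =
        s + 1 := by
      rw [Finset.card_image_of_injOn hinj, Finset.card_range]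
    rw [← hcard]
    refine Finset.card_le_card ?_
    intro i hi
    rw [Finset.mem_image] at hi
    obtain ⟨a, ha, rfl⟩ := hi
    rw [Finset.mem_range] at ha
    have e1 : n * (m / n) ≤ m := Nat.mul_div_le m n
    have e1' : m < n * (m / n + 1) := by
      have := Nat.lt_mul_div_succ m (show 0 < n by omega)
      exact this
    have e2 : n * (m / n + 1 + a) ≤ m + L := by
      have : n * (1 + a) ≤ (s + 1) * n := by
        rw [mul_comm n]
        exact Nat.mul_le_mul_right _ (by omega)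
      nlinarith
    have e3 : m < n * (m / n + 1 + a) := by nlinarith
    rw [Finset.mem_filter, Finset.mem_range]
    refine ⟨by omega, ?_⟩
    rw [show m + L - (m + L - n * (m / n + 1 + a)) = n * (m / n + 1 + a) by omega]
    exact Dvd.intro _ rfl
  · intro i hi
    rw [Finset.mem_filter, Finset.mem_range] at hi
    refine ⟨hi.1, ?_⟩
    have hui : F^[i] u ∈ lev F b (m + L - i) := lev_iter hu (by omega)
    have honi : P.OnC (F^[i] u) := onC_iter P (by omega) hm hu h
    have hred : P.red (F^[i] u) = P.red b := onC_eq hC (by omega) hi.2 hui honi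
    have hui1 : F^[i + 1] u ∈ lev F b (m + L - (i + 1)) := lev_iter hu (by omega)
    have honi1 : P.OnC (F^[i + 1] u) := onC_iter P (by omega) hm hu h
    have hF : F (F^[i] u) = F^[i + 1] u := (Function.iterate_succ_apply' F i u).symm
    exact hC.hdig (m + L - (i + 1)) (by omega) (by omega) _ hui1 honi1 _ hF honi
      (by rw [hred]; exact hC.hb)

end Pool.Agent.H42.PC

end GOff

section GOdd
namespace Pool.Agent.H42.PC

theorem odd_third {G Ω : Type} [Group G] [MulAction G Ω] (H : Subgroup G) (X : Set Ω)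
    (hX : X.Finite) (hodd : Odd X.ncard) (hinv : ∀ g ∈ H, ∀ x ∈ X, g • x ∈ X)
    (htr : ∀ x ∈ X, ∀ y ∈ X, ∃ g ∈ H, g • x = y) {a a' : Ω} (ha : a ∈ X) (ha' : a' ∈ X)
    (hne : a ≠ a') {g : G} (hg : g ∈ H) (h1 : g • a = a') (h2 : g • a' = a) :
    ∃ h ∈ H, h • a = a ∧ h • a' ≠ a' := by
  classical
  by_contra hcon
  push Not at hcon
  have hwd : ∀ k ∈ H, ∀ k' ∈ H, k • a = k' • a → k • a' = k' • a' := by
    intro k hk k' hk' he
    have h3 : (k'⁻¹ * k) • a = a := by rw [mul_smul, he, inv_smul_smul]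
    have h4 := hcon (k'⁻¹ * k) (H.mul_mem (H.inv_mem hk') hk) h3
    rw [mul_smul] at h4
    exact inv_smul_eq_iff.1 h4
  choose! φ hφH hφ using fun x hx => htr a ha x hx
  have hσX : ∀ x ∈ X, φ x • a' ∈ X := fun x hx => hinv _ (hφH x hx) _ ha'
  have hσne : ∀ x ∈ X, φ x • a' ≠ x := by
    intro x hx he
    apply hne
    have h3 := hφ x hx
    rw [← he] at h3
    have h5 : φ (φ x • a') = φ x := by rw [he]
    rw [h5] at h3
    exact MulAction.injective (φ x) h3
  have hσσ : ∀ x ∈ X, φ (φ x • a') • a' = x := by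
    intro x hx
    have h3 : (φ x * g) • a = φ x • a' := by rw [mul_smul, h1]
    have h4 : φ (φ x • a') • a = (φ x * g) • a := by rw [hφ _ (hσX x hx), h3]
    have h5 := hwd _ (hφH _ (hσX x hx)) _ (H.mul_mem (hφH x hx) hg) h4
    rw [h5, mul_smul, h2, hφ x hx]
  have hev : Even hX.toFinset.card := by
    have h6 : (∑ _x ∈ hX.toFinset, (1 : ZMod 2)) = 0 := by
      refine Finset.sum_involution (fun x _ => φ x • a') ?_ ?_ ?_ ?_
      · intro x _
        decide
      · intro x hx _
        rw [Set.Finite.mem_toFinset] at hx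
        exact hσne x hx
      · intro x hx
        rw [Set.Finite.mem_toFinset] at hx ⊢
        exact hσX x hx
      · intro x hx
        rw [Set.Finite.mem_toFinset] at hx
        exact hσσ x hx
    rw [Finset.sum_const, nsmul_eq_mul, mul_one] at h6
    exact (ZMod.natCast_eq_zero_iff_even).1 h6
  rw [← Set.ncard_eq_toFinset_card _ hX] at hev
  exact (Nat.not_even_iff_odd.2 hodd) hev

end Pool.Agent.H42.PC

end GOdd

section GZ
namespace Pool.Agent.H42.PC

open scoped Classical

variable {G Ω : Type} [Group G] [MulAction G Ω] {F : Ω → Ω} {b : Ω} {d N s J n t0 : ℕ}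

/-- first critical descendants after leaving the cycle at `w` (level `m`); `j` is the number of
levels above `w`. -/
def Zset (P : Place G F b s J N) (m : ℕ) (w : Ω) : Set Ω :=
  {x | ∃ j, 2 ≤ j ∧ m + j ≤ N ∧ F^[j] x = w ∧ P.red x ∈ P.A ∧ ¬ P.OnC (F^[j - 1] x) ∧
    ∀ i, 1 ≤ i → i < j → P.red (F^[i] x) ∉ P.A}

theorem z_level (P : Place G F b s J N) (hJ : 1 ≤ J) {m : ℕ} {w a x : Ω} (hw : w ∈ lev F b m)
    (ha : F a = w) (hma : m < N) (hA : P.red a ∈ P.A) {j : ℕ} (h2 : 2 ≤ j) (hj : m + j ≤ N)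
    (hx : F^[j] x = w) (hxA : P.red x ∈ P.A) : J < j := by
  by_contra hcon
  have hxl : x ∈ lev F b (m + j) := lev_up (by rw [hx]; exact hw)
  have hal : a ∈ lev F b (m + 1) := lev_up (j := 1) (by simpa [ha] using hw)
  have h1 : P.FR^[j] (P.red x) = P.FR^[1] (P.red a) := by
    rw [← red_iter P (by omega) hj hxl, ← red_iter P (by omega) (by omega) hal, hx]
    simp [ha]
  have := (P.hJ _ hxA _ hA j (by omega) 1 hJ h1).2
  omega

theorem z_finite (hT : Tree G F b d N) (P : Place G F b s J N) {m : ℕ} {w : Ω}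
    (hw : w ∈ lev F b m) : (Zset P m w).Finite := by
  have h1 : Zset P m w ⊆ ⋃ j ∈ (Finset.range (N + 1) : Set ℕ), lev F b j := by
    rintro x ⟨j, -, hj, hx, -⟩
    have hxl : x ∈ lev F b (m + j) := lev_up (by rw [hx]; exact hw)
    refine Set.mem_iUnion₂.2 ⟨m + j, ?_, hxl⟩
    rw [Finset.mem_coe, Finset.mem_range]
    omega
  refine Set.Finite.subset (Set.Finite.biUnion (Finset.finite_toSet _) ?_) h1
  intro j hj
  rw [Finset.mem_coe, Finset.mem_range] at hj
  exact lev_fin hT (by omega)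

theorem z_card (hT : Tree G F b d N) (P : Place G F b s J N) {m : ℕ} {w : Ω}
    (hw : w ∈ lev F b m) (hon : P.OnC w) : (Zset P m w).ncard ≤ 2 * s := by
  have hfin := z_finite hT P hw
  rw [Set.ncard_eq_toFinset_card _ hfin]
  have hmap : ∀ x ∈ hfin.toFinset, P.red x ∈ P.hAfin.toFinset := by
    intro x hx
    rw [Set.Finite.mem_toFinset] at hx ⊢
    obtain ⟨j, -, -, -, h, -⟩ := hx
    exact h
  have hcard : P.hAfin.toFinset.card ≤ s := by
    rw [← Set.ncard_eq_toFinset_card _ P.hAfin]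
    exact P.hA
  refine le_trans (Finset.card_le_mul_card_image_of_maps_to hmap 2 ?_) (Nat.mul_le_mul_left _ hcard)
  intro c hc
  by_cases hemp : (hfin.toFinset.filter fun x => P.red x = c) = ∅
  · rw [hemp]
    simp
  obtain ⟨x0, hx0⟩ := Finset.nonempty_iff_ne_empty.2 hemp
  rw [Finset.mem_filter, Set.Finite.mem_toFinset] at hx0
  obtain ⟨⟨j0, hj2, hjN, hxj, hxA, hoff, hnc⟩, hxc⟩ := hx0
  -- uniqueness of the level
  have huniq : ∀ (x x' : Ω) (j j' : ℕ), j < j' → m + j ≤ N → m + j' ≤ N → F^[j] x = w →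
      F^[j'] x' = w → P.red x = P.red x' → ¬ P.OnC (F^[j' - 1] x') → False := by
    intro x x' j j' hjj hj hj' hx hx' hr hoff'
    have hxl : x ∈ lev F b (m + j) := lev_up (by rw [hx]; exact hw)
    have hxl' : x' ∈ lev F b (m + j') := lev_up (by rw [hx']; exact hw)
    apply hoff'
    obtain ⟨k, hk⟩ := hon
    refine ⟨(j' - 1 - j) + k, ?_⟩
    rw [red_iter P (by omega) hj' hxl', ← hr, Function.iterate_add_apply, ← hk, ← hx,
      red_iter P (by omega) hj hxl, ← Function.iterate_add_apply,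
      show j' - 1 - j + j = j' - 1 by omega]
  have hsub : (((hfin.toFinset.filter fun x => P.red x = c) : Finset Ω) : Set Ω) ⊆
      {y | F^[j0] y = w ∧ ∀ i < j0, P.red (F^[i] y) = P.FR^[i] c} := by
    intro x hx
    rw [Finset.mem_coe, Finset.mem_filter, Set.Finite.mem_toFinset] at hx
    obtain ⟨⟨j, h2, hN, hxw, hA, hof, hn⟩, hr⟩ := hx
    have hj : j = j0 := by
      rcases lt_trichotomy j j0 with h | h | h
      · exact (huniq x x0 j j0 h hN hjN hxw hxj (hr.trans hxc.symm) hoff).elim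
      · exact h
      · exact (huniq x0 x j0 j h hjN hN hxj hxw (hxc.trans hr.symm) hof).elim
    subst hj
    refine ⟨hxw, fun i hi => ?_⟩
    have hxl : x ∈ lev F b (m + j) := lev_up (by rw [hxw]; exact hw)
    rw [red_iter P (by omega) hN hxl, hr]
  have hpc := path_count hT P hjN hw (fun i => P.FR^[i] c)
  have hfin2 : {y | F^[j0] y = w ∧ ∀ i < j0, P.red (F^[i] y) = P.FR^[i] c}.Finite := by
    refine (lev_fin hT hjN).subset ?_
    rintro y ⟨hy, -⟩
    exact lev_up (by rw [hy]; exact hw)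
  have h3 := Set.ncard_le_ncard hsub hfin2
  rw [Set.ncard_coe_finset] at h3
  refine h3.trans (hpc.trans ?_)
  have hf1 : ((Finset.range j0).filter fun i => P.FR^[i] c ∈ P.A).card ≤ 1 := by
    rw [Finset.card_le_one]
    have hz : ∀ i ∈ (Finset.range j0).filter fun i => P.FR^[i] c ∈ P.A, i = 0 := by
      intro i hi
      rw [Finset.mem_filter, Finset.mem_range] at hi
      by_contra hi0
      have hxl : x0 ∈ lev F b (m + j0) := lev_up (by rw [hxj]; exact hw)
      apply hnc i (by omega) hi.1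
      rw [red_iter P (by omega) hjN hxl, hxc]
      exact hi.2
    intro i hi i' hi'
    rw [hz i hi, hz i' hi']
  calc 2 ^ ((Finset.range j0).filter fun i => P.FR^[i] c ∈ P.A).card ≤ 2 ^ 1 :=
        Nat.pow_le_pow_right (by norm_num) hf1
    _ = 2 := by norm_num

end Pool.Agent.H42.PC

end GZ

section GSib
namespace Pool.Agent.H42.PC

open scoped Classical

variable {G Ω : Type} [Group G] [MulAction G Ω] {F : Ω → Ω} {b : Ω} {d N s J n t0 n0 : ℕ}
  {O : ℕ → Set Ω}

theorem GSib_red (P : Place G F b s J N) {m : ℕ} (hm : m < N) {a a2 x : Ω}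
    (ha : a ∈ lev F b (m + 1)) (ha2 : a2 ∈ lev F b (m + 1)) (hx : x ∈ lev F b (m + 1))
    (h2 : F a2 = F a) (hF : F x = F a) (hr : P.red a2 = P.red a) (hne : a ≠ a2) (h1 : x ≠ a)
    (h3 : x ≠ a2) : P.red x ≠ P.red a := by
  intro h
  rcases P.htwo m hm a ha a2 ha2 x hx h2.symm (h2.trans hF.symm) hr.symm (hr.trans h.symm)
    with h4 | h4 | h4
  · exact hne h4
  · exact h1 h4.symm
  · exact h3 h4.symm

theorem GSib_notA (P : Place G F b s J N) (hJ : 1 ≤ J) {m : ℕ} (hm : m < N) {a a2 x : Ω}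
    (ha : a ∈ lev F b (m + 1)) (ha2 : a2 ∈ lev F b (m + 1)) (hx : x ∈ lev F b (m + 1))
    (h2 : F a2 = F a) (hF : F x = F a) (hr : P.red a2 = P.red a) (hne : a ≠ a2) (h1 : x ≠ a)
    (h3 : x ≠ a2) (hA : P.red a ∈ P.A) : P.red x ∉ P.A := by
  intro h
  refine GSib_red P hm ha ha2 hx h2 hF hr hne h1 h3 (P.hJ _ h _ hA 1 hJ 1 hJ ?_).1
  rw [Function.iterate_one, ← P.hred m hm x hx, ← P.hred m hm a ha, hF]

/-- elements of the group with a first critical residue above `m + 1` lie over `Zset`. -/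
theorem GSib_z (hT : Tree G F b d N) {P : Place G F b s J N} (hC : Cyc P n t0) (hJ : 1 ≤ J)
    {m t l : ℕ} (ht : t ≤ N) {V q a a2 : Ω} (hV : V ∈ lev F b t)
    (hq : F q = F^[t - m] V) (hne : q ≠ F^[t - m - 1] V)
    (ha : a ∈ lev F b (m + 1)) (ha2 : a2 ∈ lev F b (m + 1)) (hon : P.OnC a) (hA : P.red a ∈ P.A)
    (h2 : F a2 = F a) (hr : P.red a2 = P.red a) (hnea : a ≠ a2)
    {γ : G} (hγ : γ • q = a) (hγ2 : γ • F^[t - m - 1] V ≠ a2) (hl : m + 2 ≤ l) (hlt : l ≤ t)
    (hlA : P.red (γ • F^[t - l] V) ∈ P.A)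
    (hmin : ∀ l', m + 2 ≤ l' → l' < l → P.red (γ • F^[t - l'] V) ∉ P.A) :
    γ • F^[t - l] V ∈ Zset P m (F a) ∧ J < l - m := by
  have hmN : m < N := by omega
  have hv : F^[t - m - 1] V ∈ lev F b (m + 1) := by
    have := lev_iter (F := F) (j := t - m - 1) hV (by omega)
    rwa [show t - (t - m - 1) = m + 1 by omega] at this
  have hFv : F (F^[t - m - 1] V) = F^[t - m] V := by
    rw [← Function.iterate_succ_apply' F, show (t - m - 1).succ = t - m by omega]
  have hγw : γ • F^[t - m] V = F a := by rw [← hq, ← hT.equiv, hγ]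
  have hγv : γ • F^[t - m - 1] V ∈ lev F b (m + 1) := smul_lev hT γ hv
  have hFγv : F (γ • F^[t - m - 1] V) = F a := by rw [hT.equiv, hFv, hγw]
  have hnev : γ • F^[t - m - 1] V ≠ a := by
    rw [← hγ]
    exact fun h => hne (smul_left_cancel γ h).symm
  have hjx : F^[l - m] (γ • F^[t - l] V) = F a := by
    rw [iter_smul hT, ← Function.iterate_add_apply, show l - m + (t - l) = t - m by omega, hγw]
  have hz : γ • F^[t - l] V ∈ Zset P m (F a) := by
    refine ⟨l - m, by omega, by omega, hjx, hlA, ?_, ?_⟩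
    · have h3 : F^[l - m - 1] (γ • F^[t - l] V) = γ • F^[t - m - 1] V := by
        rw [iter_smul hT, ← Function.iterate_add_apply,
          show l - m - 1 + (t - l) = t - m - 1 by omega]
      rw [h3]
      intro hOn
      exact GSib_red P hmN ha ha2 hγv h2 hFγv hr hnea hnev hγ2
        (uniq_child hC hmN hγv ha hFγv hOn hon)
    · intro i hi hij
      have h3 : F^[i] (γ • F^[t - l] V) = γ • F^[t - (l - i)] V := by
        rw [iter_smul hT, ← Function.iterate_add_apply,
          show i + (t - l) = t - (l - i) by omega]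
      rw [h3]
      rcases Nat.lt_or_ge (m + 1) (l - i) with h4 | h4
      · exact hmin (l - i) h4 (by omega)
      · have h5 : t - (l - i) = t - m - 1 := by omega
        rw [h5]
        exact GSib_notA P hJ hmN ha ha2 hγv h2 hFγv hr hnea hnev hγ2 hA
  refine ⟨hz, ?_⟩
  have hwl : F a ∈ lev F b m := by
    have := lev_iter (F := F) (j := 1) ha (by omega)
    simpa using this
  exact z_level P hJ hwl rfl hmN hA (by omega) (by omega) hjx hlA

theorem sibling [Finite G] (hT : Tree G F b d N) (hO : Orb G F b n0 N O)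
    {P : Place G F b s J N} (hC : Cyc P n t0) (hI : InO P O) (hd : Odd d) (hJ : 1 ≤ J)
    (hs : 4 * s < d ^ J) {m t : ℕ} (h0 : n0 ≤ m) (h1 : t0 ≤ m) (hmt : m + 1 ≤ t) (ht : t ≤ N)
    {V q : Ω} (hV : V ∈ O t) (hq : F q = F^[t - m] V) (hne : q ≠ F^[t - m - 1] V)
    {a : Ω} (ha : a ∈ lev F b (m + 1)) (hon : P.OnC a) (hA : P.red a ∈ P.A) :
    ∃ ρ : G, ρ • V = V ∧ ρ • q ≠ q := by
  have hfG := Fintype.ofFinite G
  have hmN : m < N := by omega
  have hVl : V ∈ lev F b t := hO.sub t ht hV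
  have hvO : F^[t - m - 1] V ∈ O (m + 1) := by
    have := orb_iter hO (j := t - m - 1) (by omega) ht hV
    rwa [show t - (t - m - 1) = m + 1 by omega] at this
  have hwO : F^[t - m] V ∈ O m := by
    have := orb_iter hO (j := t - m) (by omega) ht hV
    rwa [show t - (t - m) = m by omega] at this
  have hqO : q ∈ O (m + 1) := hO.full m h0 hmN q (by rw [hq]; exact hwO)
  have hv : F^[t - m - 1] V ∈ lev F b (m + 1) := hO.sub _ hmN hvO
  have hFv : F (F^[t - m - 1] V) = F^[t - m] V := by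
    rw [← Function.iterate_succ_apply' F, show (t - m - 1).succ = t - m by omega]
  have hwl : F a ∈ lev F b m := by
    have := lev_iter (F := F) (j := 1) ha (by omega)
    simpa using this
  have hwon : P.OnC (F a) := by
    have := onC_iter P (j := 1) (by omega) (by omega) ha hon
    simpa using this
  have haO : a ∈ O (m + 1) := hI (m + 1) hmN a ha hon
  have hw'O : F a ∈ O m := hI m hmN.le _ hwl hwon
  obtain ⟨g0, hg0I, hg0w, hg0a⟩ := hC.hdig m h1 hmN (F a) hwl hwon a rfl hon hA
  have ha2 : g0 • a ∈ lev F b (m + 1) := smul_lev hT g0 ha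
  have hr : P.red (g0 • a) = P.red a := P.hI g0 hg0I (m + 1) hmN a ha
  have h2 : F (g0 • a) = F a := by rw [hT.equiv, hg0w]
  have hg0a2 : g0 • (g0 • a) = a := by
    have h3 : P.red (g0 • (g0 • a)) = P.red (g0 • a) := P.hI g0 hg0I (m + 1) hmN _ ha2
    have h4 : F (g0 • (g0 • a)) = F (g0 • a) := by rw [hT.equiv, h2, hg0w]
    rcases P.htwo m hmN a ha (g0 • a) ha2 (g0 • (g0 • a)) (smul_lev hT g0 ha2) h2.symm h4.symm
      hr.symm h3.symm with h5 | h5 | h5
    · exact absurd h5.symm hg0a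
    · exact h5.symm
    · exact absurd (smul_left_cancel g0 h5).symm hg0a
  have hnea : a ≠ g0 • a := fun h => hg0a h.symm
  -- (1)
  obtain ⟨k, hkH, hka, hka2⟩ := odd_third (MulAction.stabilizer G (F a)) {z | F z = F a}
    (hT.fin m hmN _ hwl) (by rw [hT.fib m hmN _ hwl]; exact hd)
    (fun g hg x hx => by
      change F (g • x) = F a
      rw [hT.equiv, show F x = F a from hx, MulAction.mem_stabilizer_iff.1 hg])
    (fun x hx y hy => by
      have hxO : x ∈ O (m + 1) := hO.full m h0 hmN x (by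
        rw [show F x = F a from hx]; exact hw'O)
      have hyO : y ∈ O (m + 1) := hO.full m h0 hmN y (by
        rw [show F y = F a from hy]; exact hw'O)
      obtain ⟨g, hg⟩ := hO.trans (m + 1) hmN x hxO y hyO
      refine ⟨g, ?_, hg⟩
      rw [MulAction.mem_stabilizer_iff, ← show F x = F a from hx, ← hT.equiv, hg,
        show F y = F a from hy, show F x = F a from hx])
    (a := a) (a' := g0 • a) rfl h2 hnea (g := g0) (MulAction.mem_stabilizer_iff.2 hg0w) rfl hg0a2
  -- (2)
  set v := F^[t - m - 1] V with hvdef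
  let A1 : Finset G := Finset.univ.filter fun γ => γ • q = a
  let A2 : Finset G := A1.filter fun γ => γ • v = g0 • a
  have hA1card : A1.card * (O (m + 1)).ncard = Nat.card G := by
    have := transport hT hO hmN hqO haO
    rw [Nat.card_eq_fintype_card, Fintype.card_subtype] at this
    exact this
  have hA1pos : 0 < A1.card := by
    obtain ⟨g, hg⟩ := hO.trans (m + 1) hmN q hqO a haO
    exact Finset.card_pos.2 ⟨g, Finset.mem_filter.2 ⟨Finset.mem_univ _, hg⟩⟩
  have hA2card : 2 * A2.card ≤ A1.card := by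
    have hinj : (A2.image fun γ => k * γ).card = A2.card :=
      Finset.card_image_of_injective _ (mul_right_injective k)
    have hdis : Disjoint A2 (A2.image fun γ => k * γ) := by
      rw [Finset.disjoint_left]
      intro γ hγ hγ'
      rw [Finset.mem_image] at hγ'
      obtain ⟨γ', hγ', rfl⟩ := hγ'
      have e1 := (Finset.mem_filter.1 hγ).2
      have e2 := (Finset.mem_filter.1 hγ').2
      rw [mul_smul, e2] at e1
      exact hka2 e1
    calc 2 * A2.card = (A2 ∪ A2.image fun γ => k * γ).card := by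
          rw [Finset.card_union_of_disjoint hdis, hinj]; ring
      _ ≤ A1.card := by
          refine Finset.card_le_card ?_
          intro γ hγ
          rw [Finset.mem_union] at hγ
          rcases hγ with hγ | hγ
          · exact (Finset.mem_filter.1 hγ).1
          · rw [Finset.mem_image] at hγ
            obtain ⟨γ', hγ', rfl⟩ := hγ
            have e1 := (Finset.mem_filter.1 (Finset.mem_filter.1 hγ').1).2
            refine Finset.mem_filter.2 ⟨Finset.mem_univ _, ?_⟩
            rw [mul_smul, e1, hka]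
  -- (3)
  let Q : G → ℕ → Prop := fun γ l => m + 2 ≤ l ∧ l ≤ t ∧ P.red (γ • F^[t - l] V) ∈ P.A
  let Bad : Finset G := A1.filter fun γ => γ • v ≠ g0 • a ∧ ∃ l, Q γ l
  let lv : G → ℕ := fun γ => if h : ∃ l, Q γ l then Nat.find h else 0
  have hlv : ∀ γ ∈ Bad, Q γ (lv γ) ∧ ∀ l', m + 2 ≤ l' → l' < lv γ →
      P.red (γ • F^[t - l'] V) ∉ P.A := by
    intro γ hγ
    have hex := (Finset.mem_filter.1 hγ).2.2
    have e1 : lv γ = Nat.find hex := dif_pos hex
    rw [e1]
    refine ⟨Nat.find_spec hex, ?_⟩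
    intro l' hl' hl'' hAl
    exact Nat.find_min hex hl'' ⟨hl', by
      have := (Nat.find_spec hex).2.1
      omega, hAl⟩
  have hzf := z_finite hT P hwl
  have hzc := z_card hT P hwl hwon
  have hmem : ∀ γ ∈ Bad, γ • F^[t - lv γ] V ∈ hzf.toFinset ∧ J < lv γ - m := by
    intro γ hγ
    obtain ⟨⟨e1, e2, e3⟩, e4⟩ := hlv γ hγ
    have e5 := (Finset.mem_filter.1 (Finset.mem_filter.1 hγ).1).2
    have e6 := (Finset.mem_filter.1 hγ).2.1
    have := GSib_z hT hC hJ ht hVl hq hne ha ha2 hon hA h2 hr hnea e5 e6 e1 e2 e3 e4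
    rw [Set.Finite.mem_toFinset]
    exact this
  have hOpos : 0 < (O (m + 1)).ncard := by
    rw [Set.ncard_pos ((lev_fin hT hmN).subset (hO.sub _ hmN))]
    exact ⟨a, haO⟩
  have hdpos : 0 < d := hd.pos
  have hfib : ∀ x ∈ hzf.toFinset, (Bad.filter fun γ => γ • F^[t - lv γ] V = x).card *
      (d ^ J * (O (m + 1)).ncard) ≤ Nat.card G := by
    intro x _
    rcases Finset.eq_empty_or_nonempty (Bad.filter fun γ => γ • F^[t - lv γ] V = x) with he | he
    · rw [he, Finset.card_empty, zero_mul]; exact Nat.zero_le _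
    · obtain ⟨γ1, hγ1⟩ := he
      obtain ⟨hb1, hx1⟩ := Finset.mem_filter.1 hγ1
      obtain ⟨⟨e1, e2, _⟩, _⟩ := hlv γ1 hb1
      set l := lv γ1 with hl
      have hVl' : F^[t - l] V ∈ O l := by
        have := orb_iter hO (j := t - l) (by omega) ht hV
        rwa [show t - (t - l) = l by omega] at this
      have hxO : x ∈ O l := by
        rw [← hx1]
        exact hO.inv l (by omega) γ1 _ hVl'
      have htr := transport hT hO (t := l) (by omega) hVl' hxO
      rw [Nat.card_eq_fintype_card, Fintype.card_subtype] at htr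
      have hsub : (Bad.filter fun γ => γ • F^[t - lv γ] V = x) ⊆
          Finset.univ.filter fun γ : G => γ • F^[t - l] V = x := by
        intro γ hγ
        obtain ⟨hb, hx⟩ := Finset.mem_filter.1 hγ
        obtain ⟨⟨f1, f2, _⟩, _⟩ := hlv γ hb
        have hlev : x ∈ lev F b (lv γ) := by
          rw [← hx]
          refine smul_lev hT γ ?_
          have := lev_iter (F := F) (j := t - lv γ) hVl (by omega)
          rwa [show t - (t - lv γ) = lv γ by omega] at this
        have hll : lv γ = l := lev_uniq hT hlev (hO.sub l (by omega) hxO)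
        refine Finset.mem_filter.2 ⟨Finset.mem_univ _, ?_⟩
        rw [← hll]
        exact hx
      have hJl : J < l - m := (hmem γ1 hb1).2
      have hOl : (O l).ncard = d ^ (l - m - 1) * (O (m + 1)).ncard := by
        have := orb_add hT hO (t := m + 1) (j := l - m - 1) (by omega) (by omega)
        rwa [show m + 1 + (l - m - 1) = l by omega] at this
      rw [← htr, hOl]
      refine Nat.mul_le_mul (Finset.card_le_card hsub) (Nat.mul_le_mul_right _ ?_)
      exact Nat.pow_le_pow_right hdpos (by omega)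
  have hBad : Bad.card * (d ^ J * (O (m + 1)).ncard) ≤ 2 * s * Nat.card G := by
    rw [Finset.card_eq_sum_card_fiberwise (fun γ hγ => (hmem γ hγ).1), Finset.sum_mul]
    calc _ ≤ ∑ _x ∈ hzf.toFinset, Nat.card G := Finset.sum_le_sum hfib
      _ = (Zset P m (F a)).ncard * Nat.card G := by
          rw [Finset.sum_const, smul_eq_mul, Set.ncard_eq_toFinset_card _ hzf]
      _ ≤ 2 * s * Nat.card G := Nat.mul_le_mul_right _ hzc
  have hBad2 : Bad.card * d ^ J ≤ 2 * s * A1.card := by
    rw [← hA1card] at hBad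
    refine Nat.le_of_mul_le_mul_right (c := (O (m + 1)).ncard) ?_ hOpos
    calc Bad.card * d ^ J * (O (m + 1)).ncard = Bad.card * (d ^ J * (O (m + 1)).ncard) := by ring
      _ ≤ 2 * s * (A1.card * (O (m + 1)).ncard) := hBad
      _ = _ := by ring
  -- (4)
  have hBad3 : 2 * Bad.card < A1.card := by
    have e1 : 2 * Bad.card * d ^ J < A1.card * d ^ J := by
      calc 2 * Bad.card * d ^ J = 2 * (Bad.card * d ^ J) := by ring
        _ ≤ 2 * (2 * s * A1.card) := Nat.mul_le_mul_left _ hBad2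
        _ = A1.card * (4 * s) := by ring
        _ < A1.card * d ^ J := Nat.mul_lt_mul_of_pos_left hs hA1pos
    exact Nat.lt_of_mul_lt_mul_right e1
  obtain ⟨γ, hγ1, hγ2⟩ : ∃ γ ∈ A1, γ ∉ A2 ∪ Bad := by
    by_contra hcon
    push Not at hcon
    have := Finset.card_le_card (show A1 ⊆ A2 ∪ Bad from hcon)
    have h5 := Finset.card_union_le A2 Bad
    omega
  have hγq : γ • q = a := (Finset.mem_filter.1 hγ1).2
  rw [Finset.mem_union, not_or] at hγ2
  have hγv2 : γ • v ≠ g0 • a := fun h => hγ2.1 (Finset.mem_filter.2 ⟨hγ1, h⟩)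
  have hnone : ∀ l, m + 2 ≤ l → l ≤ t → P.red (γ • F^[t - l] V) ∉ P.A := by
    intro l hl hlt hAl
    exact hγ2.2 (Finset.mem_filter.2 ⟨hγ1, hγv2, l, hl, hlt, hAl⟩)
  -- (5)
  have hγw : γ • F^[t - m] V = F a := by rw [← hq, ← hT.equiv, hγq]
  have hγv : γ • v ∈ lev F b (m + 1) := smul_lev hT γ hv
  have hFγv : F (γ • v) = F a := by rw [hT.equiv, hFv, hγw]
  have hnev : γ • v ≠ a := by
    rw [← hγq]
    exact fun h => hne (smul_left_cancel γ h).symm
  have hvA : P.red (γ • v) ∉ P.A :=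
    GSib_notA P hJ hmN ha ha2 hγv h2 hFγv hr hnea hnev hγv2 hA
  have hu : γ • V ∈ lev F b (m + (t - m)) := by
    rw [show m + (t - m) = t by omega]
    exact smul_lev hT γ hVl
  have hpl := path_le hT P (m := m) (j := t - m) (by omega) hu
  have hemp : ((Finset.range (t - m)).filter fun i => P.red (F^[i] (γ • V)) ∈ P.A) = ∅ := by
    rw [Finset.filter_eq_empty_iff]
    intro i hi
    rw [Finset.mem_range] at hi
    rw [iter_smul hT]
    rcases Nat.lt_or_ge (i + 1) (t - m) with h5 | h5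
    · have := hnone (t - i) (by omega) (by omega)
      rwa [show t - (t - i) = i by omega] at this
    · have h6 : i = t - m - 1 := by omega
      rw [h6]
      exact hvA
  rw [hemp, Finset.card_empty, pow_zero, iter_smul hT, hγw] at hpl
  have hne0 : (P.st (γ • V)).relIndex (P.st (F a)) ≠ 0 := Subgroup.index_ne_zero_of_finite
  have hone : (P.st (γ • V)).relIndex (P.st (F a)) = 1 := by omega
  rw [Subgroup.relIndex_eq_one] at hone
  have hg0 : g0 ∈ P.st (F a) := (GSt_mem P _ _).2 ⟨hg0I, hg0w⟩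
  have hfix : g0 • (γ • V) = γ • V := ((GSt_mem P _ _).1 (hone hg0)).2
  refine ⟨γ⁻¹ * g0 * γ, ?_, ?_⟩
  · rw [mul_smul, mul_smul, hfix, inv_smul_smul]
  · intro h
    rw [mul_smul, mul_smul, hγq, inv_smul_eq_iff, hγq] at h
    exact hg0a h

end Pool.Agent.H42.PC

end GSib

section GSep
namespace Pool.Agent.H42.PC

open scoped Classical

variable {G Ω : Type} [Group G] [MulAction G Ω] {F : Ω → Ω} {b : Ω}
  {d N s J J1 J2 n n1 n2 t0 t1 t2 n0 : ℕ} {O : ℕ → Set Ω}

theorem sep_off [Finite G] (hT : Tree G F b d N) {P : Place G F b s J N} (hC : Cyc P n t0)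
    {m m0 L t : ℕ} (ht : t ≤ N) (hm : m + 1 ≤ m0) (h0 : t0 ≤ m0) (hL : (s + 1) * n ≤ L)
    (hmL : m0 + L ≤ t) {u y : Ω} (hu : u ∈ lev F b t) (hy : y ∈ lev F b t)
    (hw : F^[t - m] u = F^[t - m] y) (hoff : ¬ P.OnC (F^[t - m - 1] u))
    (hon : P.OnC (F^[t - m0 - L] y)) :
    ∃ g : G, g • u = u ∧ g • F^[t - m0] y = F^[t - m0] y ∧
      g • F^[t - m0 - L] y ≠ F^[t - m0 - L] y := by
  by_contra hcon
  push Not at hcon
  have hyl : F^[t - m0 - L] y ∈ lev F b (m0 + L) := by
    have := lev_iter hy (show t - m0 - L ≤ t by omega)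
    rwa [show t - (t - m0 - L) = m0 + L by omega] at this
  have e1 : F^[L] (F^[t - m0 - L] y) = F^[t - m0] y := by
    rw [← Function.iterate_add_apply, show L + (t - m0 - L) = t - m0 by omega]
  have e2 : F^[m0 - m] (F^[t - m0] y) = F^[t - m] y := by
    rw [← Function.iterate_add_apply, show m0 - m + (t - m0) = t - m by omega]
  have e3 : F^[m0 + L - m] (F^[t - m0 - L] y) = F^[t - m] y := by
    rw [← Function.iterate_add_apply, show m0 + L - m + (t - m0 - L) = t - m by omega]
  have hwon : P.OnC (F^[t - m] u) := by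
    rw [hw, ← e3]
    exact onC_iter P (by omega) (by omega) hyl hon
  have hu' : u ∈ lev F b (m + (t - m)) := by rwa [show m + (t - m) = t by omega]
  have i1 := off_index hT P (m := m) (j := t - m) (by omega) (by omega) hu' hwon hoff
  have i2 := on_index hT hC (m := m0) (L := L) (by omega) h0 hL hyl hon
  rw [e1] at i2
  rw [hw] at i1
  have i3 : P.st (F^[t - m0] y) ≤ P.st (F^[t - m] y) := by
    rw [← e2]
    exact st_mono hT P _ _
  have i4 : P.st (F^[t - m0] y) ⊓ P.st u ≤ P.st (F^[t - m0 - L] y) := by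
    intro g hg
    exact ⟨hg.1.1, hcon g hg.2.2 hg.1.2⟩
  have n1 : ∀ H K : Subgroup G, H.relIndex K ≠ 0 := fun H K => Subgroup.index_ne_zero_of_finite
  have i5 := Subgroup.relIndex_le_of_le_left i4 (n1 _ (P.st (F^[t - m0] y)))
  rw [Subgroup.inf_relIndex_left] at i5
  have i6 := Subgroup.relIndex_le_of_le_right i3 (n1 (P.st u) _)
  have i7 : 2 ^ (s + 1) ≤ 2 ^ s := i2.trans (i5.trans (i6.trans i1))
  have i8 : 2 ^ s < 2 ^ (s + 1) := Nat.pow_lt_pow_right (by norm_num) (by omega)
  omega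

theorem sep_core [Finite G] (hT : Tree G F b d N) (hO : Orb G F b n0 N O)
    {P : Place G F b s J N} (hC : Cyc P n t0) (hI : InO P O)
    {m m0 L t : ℕ} (ht : t ≤ N) (hm : m + 1 ≤ m0) (h0 : t0 ≤ m0)
    (hL : (s + 1) * n ≤ L) (hmL : m0 + L ≤ t) {u y : Ω} (hu : u ∈ O t) (hy : y ∈ O t)
    (hw : F^[t - m] u = F^[t - m] y) (hne : F^[t - m - 1] u ≠ F^[t - m - 1] y)
    (hbad : ∀ a ∈ lev F b (m + 1), P.OnC a → P.red a ∈ P.A → ∀ V ∈ O (m0 + L), ∀ q,
      F q = F^[m0 + L - m] V → q ≠ F^[m0 + L - m - 1] V → ∃ ρ : G, ρ • V = V ∧ ρ • q ≠ q) :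
    ∃ g : G, g • u = u ∧ g • F^[t - m0] y = F^[t - m0] y ∧
      g • F^[t - m0 - L] y ≠ F^[t - m0 - L] y := by
  obtain ⟨ξ, hξ, hξon⟩ := exists_onC hC (t := m0 + L) (by omega)
  have hξO : ξ ∈ O (m0 + L) := hI (m0 + L) (by omega) ξ hξ hξon
  have hylO : F^[t - m0 - L] y ∈ O (m0 + L) := by
    have := orb_iter hO (show t - m0 - L ≤ t by omega) ht hy
    rwa [show t - (t - m0 - L) = m0 + L by omega] at this
  obtain ⟨γ, hγ⟩ := hO.trans (m0 + L) (by omega) ξ hξO _ hylO
  by_cases hcase : ∃ γ' : G, γ' • ξ = F^[t - m0 - L] y ∧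
      ¬ (P.conj hT γ').OnC (F^[t - m - 1] u)
  · obtain ⟨γ', h1, h2⟩ := hcase
    refine sep_off hT (P.conj_cyc hT hC γ') ht hm h0 hL hmL (hO.sub t ht hu) (hO.sub t ht hy)
      hw h2 ?_
    rw [P.conj_onC hT, ← h1, inv_smul_smul]
    exact hξon
  · exfalso
    push Not at hcase
    set yl := F^[t - m0 - L] y with hyldef
    have ey1 : F^[m0 + L - m - 1] yl = F^[t - m - 1] y := by
      rw [hyldef, ← Function.iterate_add_apply,
        show m0 + L - m - 1 + (t - m0 - L) = t - m - 1 by omega]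
    have ew : F^[m0 + L - m] yl = F^[t - m] y := by
      rw [hyldef, ← Function.iterate_add_apply, show m0 + L - m + (t - m0 - L) = t - m by omega]
    set u1 := F^[t - m - 1] u with hu1
    set y1 := F^[t - m - 1] y with hy1
    have hFu1 : F u1 = F^[t - m] y := by
      rw [hu1, ← Function.iterate_succ_apply' F, show (t - m - 1).succ = t - m by omega, hw]
    have hFy1 : F y1 = F^[t - m] y := by
      rw [hy1, ← Function.iterate_succ_apply' F, show (t - m - 1).succ = t - m by omega]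
    have hu1l : u1 ∈ lev F b (m + 1) := by
      have := lev_iter (hO.sub t ht hu) (show t - m - 1 ≤ t by omega)
      rwa [show t - (t - m - 1) = m + 1 by omega] at this
    have hy1l : y1 ∈ lev F b (m + 1) := by
      have := lev_iter (hO.sub t ht hy) (show t - m - 1 ≤ t by omega)
      rwa [show t - (t - m - 1) = m + 1 by omega] at this
    have hal : γ⁻¹ • y1 ∈ lev F b (m + 1) := smul_lev hT _ hy1l
    have ha'l : γ⁻¹ • u1 ∈ lev F b (m + 1) := smul_lev hT _ hu1l
    have ha'on : P.OnC (γ⁻¹ • u1) := by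
      rw [← P.conj_onC hT]
      exact hcase γ hγ
    have haon : P.OnC (γ⁻¹ • y1) := by
      rw [← ey1, ← iter_smul hT, ← hγ, inv_smul_smul]
      exact onC_iter P (by omega) (by omega) hξ hξon
    have hFa : F (γ⁻¹ • y1) = γ⁻¹ • F^[t - m] y := by rw [hT.equiv, hFy1]
    have hFa' : F (γ⁻¹ • u1) = γ⁻¹ • F^[t - m] y := by rw [hT.equiv, hFu1]
    have hred := uniq_child hC (show m < N by omega) hal ha'l (hFa.trans hFa'.symm) haon ha'on
    have hneq : γ⁻¹ • y1 ≠ γ⁻¹ • u1 := by
      intro h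
      exact hne (smul_left_cancel _ h).symm
    have hredA : P.red (γ⁻¹ • y1) ∈ P.A := by
      by_contra h
      exact hneq (P.hone m (by omega) _ hal _ ha'l (hFa.trans hFa'.symm) hred h)
    obtain ⟨ρ, hρ1, hρ2⟩ := hbad _ hal haon hredA yl hylO u1 (by rw [hFu1, ew])
      (by rw [ey1]; exact hne)
    have hρ' : ρ⁻¹ • yl = yl := by rw [inv_smul_eq_iff, hρ1]
    have hon3 : P.OnC (γ⁻¹ • (ρ⁻¹ • u1)) := by
      have h1 := hcase (ρ * γ) (by rw [mul_smul, hγ, hρ1])
      rw [P.conj_onC hT, mul_inv_rev, mul_smul] at h1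
      exact h1
    have hl3 : γ⁻¹ • (ρ⁻¹ • u1) ∈ lev F b (m + 1) := smul_lev hT _ (smul_lev hT _ hu1l)
    have hF3 : F (γ⁻¹ • (ρ⁻¹ • u1)) = γ⁻¹ • F^[t - m] y := by
      rw [hT.equiv, hT.equiv, hFu1, ← ew, ← iter_smul hT, hρ']
    have hred3 := uniq_child hC (show m < N by omega) hl3 ha'l (hF3.trans hFa'.symm) hon3 ha'on
    rcases P.htwo m (by omega) _ hl3 _ ha'l _ hal (hF3.trans hFa'.symm) (hFa'.trans hFa.symm)
      hred3 hred.symm with h | h | h
    · apply hρ2
      have h1 : ρ⁻¹ • u1 = u1 := smul_left_cancel _ h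
      rw [inv_smul_eq_iff] at h1
      exact h1.symm
    · have h1 : ρ⁻¹ • u1 = y1 := smul_left_cancel _ h
      rw [inv_smul_eq_iff] at h1
      apply hne
      rw [h1, ← ey1, ← iter_smul hT, hρ1]
    · exact hneq h.symm

theorem sep [Finite G] (hT : Tree G F b d N) (hO : Orb G F b n0 N O)
    {P1 : Place G F b s J1 N} (hC1 : Cyc P1 n1 t1) (hI1 : InO P1 O)
    {P2 : Place G F b s J2 N} (hC2 : Cyc P2 n2 t2) (hI2 : InO P2 O)
    (hd : Odd d) (hJ1 : 1 ≤ J1) (hs : 4 * s < d ^ J1) (hn0 : n0 ≤ t1) (ht12 : t1 ≤ J2)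
    {m m0 L t : ℕ} (ht : t ≤ N) (hm : m + 1 ≤ m0) (h1 : t1 ≤ m0) (h2 : t2 ≤ m0)
    (hL1 : (s + 1) * n1 ≤ L) (hL2 : (s + 1) * n2 ≤ L)
    (hmL : m0 + L ≤ t) {u y : Ω} (hu : u ∈ O t) (hy : y ∈ O t)
    (hw : F^[t - m] u = F^[t - m] y) (hne : F^[t - m - 1] u ≠ F^[t - m - 1] y) :
    ∃ g : G, g • u = u ∧ g • F^[t - m0] y = F^[t - m0] y ∧
      g • F^[t - m0 - L] y ≠ F^[t - m0 - L] y := by
  by_cases hmt : m < t1
  · refine sep_core hT hO hC2 hI2 ht hm h2 hL2 hmL hu hy hw hne ?_
    intro a ha hon hA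
    exfalso
    have e1 : P2.FR^[m + 1] (P2.red a) = P2.FR^[0] (P2.red b) := by
      rw [← red_iter P2 le_rfl (show m + 1 ≤ N by omega) ha]
      have : F^[m + 1] a = b := ha
      rw [this]
      rfl
    have := (P2.hJ _ hA _ hC2.hb (m + 1) (by omega) 0 (by omega) e1).2
    omega
  · refine sep_core hT hO hC1 hI1 ht hm h1 hL1 hmL hu hy hw hne ?_
    intro a ha hon hA V hV q hq hqne
    exact sibling hT hO hC1 hI1 hd hJ1 hs (show n0 ≤ m by omega) (show t1 ≤ m by omega)
      (show m + 1 ≤ m0 + L by omega) (show m0 + L ≤ N by omega) hV hq hqne ha hon hA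

end Pool.Agent.H42.PC

end GSep
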