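import Mathlib
import Pool.Agent.H42.PCM.G1

set_option autoImplicit false

section GOr
namespace Pool.Agent.H42.PC

variable {G Ω : Type} [Group G] [MulAction G Ω] {F : Ω → Ω} {b : Ω} {d N : ℕ}

theorem GOr_double [Finite G] (H : Subgroup G) (f : Ω → Ω) {p r : Ω}
    (hf : ∀ g ∈ H, f (g • p) = g • f p) (hr : f p = r)
    (hg : ∃ g ∈ H, g • r = r ∧ g • p ≠ p) :
    2 * (MulAction.orbit H r).ncard ≤ (MulAction.orbit H p).ncard := by
  classical
  have hfin : (MulAction.orbit H p).Finite := Set.finite_range _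
  have hfin' : (MulAction.orbit H r).Finite := Set.finite_range _
  obtain ⟨g, hgH, hg1, hg2⟩ := hg
  rw [Set.ncard_eq_toFinset_card _ hfin, Set.ncard_eq_toFinset_card _ hfin', mul_comm]
  have hmap : ∀ x ∈ hfin.toFinset, f x ∈ hfin'.toFinset := by
    intro x hx
    rw [Set.Finite.mem_toFinset] at hx ⊢
    obtain ⟨h, rfl⟩ := hx
    refine ⟨h, ?_⟩
    show (h : G) • r = f ((h : G) • p)
    rw [hf _ h.2, hr]
  rw [mul_comm]
  refine Finset.mul_card_image_le_card_of_maps_to hmap 2 ?_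
  intro z hz
  rw [Set.Finite.mem_toFinset] at hz
  obtain ⟨h, rfl⟩ := hz
  have h1 : (h : G) • p ∈ hfin.toFinset.filter fun x => f x = (fun m : H => m • r) h := by
    rw [Finset.mem_filter, Set.Finite.mem_toFinset]
    refine ⟨⟨h, rfl⟩, ?_⟩
    show f ((h : G) • p) = (h : G) • r
    rw [hf _ h.2, hr]
  have h2 : (h : G) • g • p ∈ hfin.toFinset.filter fun x => f x = (fun m : H => m • r) h := by
    rw [Finset.mem_filter, Set.Finite.mem_toFinset]
    refine ⟨⟨h * ⟨g, hgH⟩, ?_⟩, ?_⟩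
    · show ((h : G) * g) • p = (h : G) • g • p
      rw [mul_smul]
    · show f ((h : G) • g • p) = (h : G) • r
      rw [← mul_smul, hf _ (H.mul_mem h.2 hgH), mul_smul, hr, hg1]
  refine Finset.one_lt_card.2 ⟨_, h1, _, h2, ?_⟩
  intro he
  exact hg2 (MulAction.injective (h : G) he).symm

theorem orbit_big [Finite G] (hT : Tree G F b d N) {t m0 L : ℕ} {u y : Ω}
    (hsep : ∀ m1, m0 ≤ m1 → m1 + L ≤ t → ∃ g : G, g • u = u ∧
      g • F^[t - m1] y = F^[t - m1] y ∧ g • F^[t - m1 - L] y ≠ F^[t - m1 - L] y)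
    (k : ℕ) (hk : m0 + k * L ≤ t) :
    2 ^ k ≤ (MulAction.orbit (MulAction.stabilizer G u) y).ncard := by
  set H := MulAction.stabilizer G u with hH
  have key : ∀ i, m0 + i * L ≤ t → 2 ^ i ≤ (MulAction.orbit H (F^[t - m0 - i * L] y)).ncard := by
    intro i
    induction i with
    | zero =>
      intro _
      rw [pow_zero]
      have hf : (MulAction.orbit H (F^[t - m0 - 0 * L] y)).Finite := Set.finite_range _
      exact (Set.ncard_pos hf).2 (MulAction.nonempty_orbit _)
    | succ i ih =>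
      intro hi
      have e1 : m0 + (i + 1) * L = m0 + i * L + L := by ring
      have h1 := ih (by omega)
      obtain ⟨g, hg1, hg2, hg3⟩ := hsep (m0 + i * L) (by omega) (by omega)
      have e2 : t - (m0 + i * L) = t - m0 - i * L := by omega
      have e3 : t - (m0 + i * L) - L = t - m0 - (i + 1) * L := by
        rw [add_mul]
        omega
      rw [e3] at hg3
      rw [e2] at hg2
      have h2 := GOr_double H (F^[L]) (p := F^[t - m0 - (i + 1) * L] y)
        (r := F^[t - m0 - i * L] y) (fun g _ => iter_smul hT g _ L)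
        (by
          rw [← Function.iterate_add_apply]
          congr 1
          rw [add_mul]
          have : i * L + L ≤ t - m0 := by omega
          congr 1
          omega)
        ⟨g, hg1, hg2, hg3⟩
      rw [pow_succ]
      omega
  have h1 := key k hk
  refine h1.trans ?_
  have h2 : MulAction.orbit H (F^[t - m0 - k * L] y) =
      (F^[t - m0 - k * L]) '' MulAction.orbit H y := by
    ext z
    constructor
    · rintro ⟨h, rfl⟩
      refine ⟨h • y, ⟨h, rfl⟩, ?_⟩
      exact iter_smul hT (h : G) y _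
    · rintro ⟨_, ⟨h, rfl⟩, rfl⟩
      exact ⟨h, (iter_smul hT (h : G) y _).symm⟩
  rw [h2]
  exact Set.ncard_image_le (Set.finite_range _)

end Pool.Agent.H42.PC

end GOr

section GDel
namespace Pool.Agent.H42.PC

open scoped Classical

variable {G Ω : Type} [Group G] [MulAction G Ω] {F : Ω → Ω} {b : Ω}
  {d N s J n0 : ℕ} {O : ℕ → Set Ω}

/-- the points of `O l` above which `δ` moves a point. -/
def SD (F : Ω → Ω) (O : ℕ → Set Ω) (l : ℕ) (δ : G) : Set Ω :=
  {y | y ∈ O l ∧ ∃ x, F x = y ∧ δ • x ≠ x}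

private theorem gdel_lev (hO : Orb G F b n0 N O) {l : ℕ} (hl : l < N) {x : Ω}
    (hx : F x ∈ O l) : x ∈ lev F b (l + 1) := by
  have h := hO.sub l hl.le hx
  exact lev_up (j := 1) (by simpa using h)

theorem sd_swap (hT : Tree G F b d N) (hO : Orb G F b n0 N O) (P : Place G F b s J N)
    (hJ : 1 ≤ J) {l : ℕ} (hl : l < N) {δ : G} (hδ : δ ∈ P.I)
    (htriv : ∀ g ∈ P.I, ∀ x ∈ O l, g • x = x) {x : Ω} (hx : F x ∈ O l) (hmv : δ • x ≠ x) :
    P.red x ∈ P.A ∧ F (δ • x) = F x ∧ δ • δ • x = x ∧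
      ∀ z, F z = F x → z ≠ x → z ≠ δ • x → δ • z = z := by
  have hA : ∀ z : Ω, F z ∈ O l → δ • z ≠ z → P.red z ∈ P.A := by
    intro z hz hmz
    by_contra hn
    have hzl := gdel_lev hO hl hz
    apply hmz
    refine P.hone l hl (δ • z) (smul_lev hT δ hzl) z hzl ?_ ?_ ?_
    · rw [hT.equiv, htriv δ hδ _ hz]
    · exact P.hI δ hδ (l + 1) hl z hzl
    · rw [P.hI δ hδ (l + 1) hl z hzl]; exact hn
  have hxl := gdel_lev hO hl hx
  have hF : F (δ • x) = F x := by rw [hT.equiv, htriv δ hδ _ hx]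
  have hR : P.red (δ • x) = P.red x := P.hI δ hδ (l + 1) hl x hxl
  have hdl := smul_lev hT δ hxl
  have hddl := smul_lev hT δ hdl
  refine ⟨hA x hx hmv, hF, ?_, ?_⟩
  · have hF2 : F (δ • δ • x) = F (δ • x) := by
      rw [hT.equiv δ (δ • x), hF, htriv δ hδ _ hx]
    have hR2 : P.red (δ • δ • x) = P.red (δ • x) := P.hI δ hδ (l + 1) hl _ hdl
    rcases P.htwo l hl x hxl (δ • x) hdl (δ • δ • x) hddl hF.symm hF2.symm hR.symm hR2.symm
      with h | h | h
    · exact (hmv h.symm).elim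
    · exact h.symm
    · exact (hmv (smul_left_cancel δ h).symm).elim
  · intro z hz hzx hzd
    by_contra hmz
    have hz' : F z ∈ O l := by rw [hz]; exact hx
    have hzA := hA z hz' hmz
    have hzl := gdel_lev hO hl hz'
    have h1 : P.FR (P.red z) = P.FR (P.red x) := by
      rw [← P.hred l hl z hzl, ← P.hred l hl x hxl, hz]
    have h2 := (P.hJ _ hzA _ (hA x hx hmv) 1 hJ 1 hJ (by simpa using h1)).1
    rcases P.htwo l hl z hzl x hxl (δ • x) hdl hz hF.symm h2 hR.symm with h | h | h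
    · exact hzx h
    · exact hzd h
    · exact hmv h.symm

theorem sd_level (hT : Tree G F b d N) (hO : Orb G F b n0 N O) (P : Place G F b s J N)
    (hb : P.red b ∈ P.A) (hJ : 1 ≤ J) {l : ℕ} (hl : l < N) {δ : G} (hδ : δ ∈ P.I)
    (htriv : ∀ g ∈ P.I, ∀ x ∈ O l, g • x = x) {x : Ω} (hx : F x ∈ O l) (hmv : δ • x ≠ x) :
    J ≤ l := by
  by_contra hcon
  have hA := (sd_swap hT hO P hJ hl hδ htriv hx hmv).1
  have hxl := gdel_lev hO hl hx
  have h1 := red_iter P (t := l + 1) (j := l + 1) le_rfl hl hxl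
  have h2 : F^[l + 1] x = b := hxl
  rw [h2] at h1
  have h3 := (P.hJ _ hA _ hb (l + 1) (by omega) 0 (Nat.zero_le _) (by simpa using h1.symm)).2
  omega

theorem sd_near (hT : Tree G F b d N) (hO : Orb G F b n0 N O) (P : Place G F b s J N)
    (hJ : 1 ≤ J) {l : ℕ} (hl : l < N) {δ : G} (hδ : δ ∈ P.I)
    (htriv : ∀ g ∈ P.I, ∀ x ∈ O l, g • x = x) {m : ℕ} (hm : m < l) {y1 y2 : Ω}
    (h1 : y1 ∈ SD F O l δ) (h2 : y2 ∈ SD F O l δ) (he : F^[l - m] y1 = F^[l - m] y2)
    (hne : F^[l - m - 1] y1 ≠ F^[l - m - 1] y2) : J < l + 1 - m := by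
  by_contra hcon
  obtain ⟨hy1, x1, hx1, hm1⟩ := h1
  obtain ⟨hy2, x2, hx2, hm2⟩ := h2
  subst hx1
  subst hx2
  have hA1 := (sd_swap hT hO P hJ hl hδ htriv hy1 hm1).1
  have hA2 := (sd_swap hT hO P hJ hl hδ htriv hy2 hm2).1
  have hl1 := gdel_lev hO hl hy1
  have hl2 := gdel_lev hO hl hy2
  have hexp : l + 1 - m = (l - m) + 1 := by omega
  have r1 := red_iter P (t := l + 1) (j := (l - m) + 1) (by omega) hl hl1
  have r2 := red_iter P (t := l + 1) (j := (l - m) + 1) (by omega) hl hl2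
  rw [Function.iterate_succ_apply] at r1 r2
  have hc : P.FR^[(l - m) + 1] (P.red x1) = P.FR^[(l - m) + 1] (P.red x2) := by
    rw [← r1, ← r2, he]
  have hc12 := (P.hJ _ hA1 _ hA2 ((l - m) + 1) (by omega) ((l - m) + 1) (by omega) hc).1
  have hexp2 : l - m = (l - m - 1) + 1 := by omega
  have q1 := red_iter P (t := l + 1) (j := l - m) (by omega) hl hl1
  have q2 := red_iter P (t := l + 1) (j := l - m) (by omega) hl hl2
  have q1' : P.red (F^[l - m - 1] (F x1)) = P.FR^[l - m] (P.red x1) := by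
    rw [← q1, ← Function.iterate_succ_apply, show (l - m - 1).succ = l - m by omega]
  have q2' : P.red (F^[l - m - 1] (F x2)) = P.FR^[l - m] (P.red x2) := by
    rw [← q2, ← Function.iterate_succ_apply, show (l - m - 1).succ = l - m by omega]
  have v1 : F^[l - m - 1] (F x1) ∈ lev F b (m + 1) := by
    have := lev_iter (j := l - m - 1) (hO.sub l hl.le hy1) (by omega)
    rwa [show l - (l - m - 1) = m + 1 by omega] at this
  have v2 : F^[l - m - 1] (F x2) ∈ lev F b (m + 1) := by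
    have := lev_iter (j := l - m - 1) (hO.sub l hl.le hy2) (by omega)
    rwa [show l - (l - m - 1) = m + 1 by omega] at this
  have hFe : F (F^[l - m - 1] (F x1)) = F (F^[l - m - 1] (F x2)) := by
    rw [← Function.iterate_succ_apply' F, ← Function.iterate_succ_apply' F,
      show (l - m - 1).succ = l - m by omega, he]
  have hRe : P.red (F^[l - m - 1] (F x1)) = P.red (F^[l - m - 1] (F x2)) := by
    rw [q1', q2', hc12]
  have hrA : P.red (F^[l - m - 1] (F x1)) ∈ P.A := by
    by_contra hn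
    exact hne (P.hone m (by omega) _ v1 _ v2 hFe hRe hn)
  have := (P.hJ _ hA1 _ hrA (l - m) (by omega) 0 (Nat.zero_le _) (by rw [← q1']; rfl)).2
  omega

/-- the number of critical residues on the orbit of a critical residue -/
private theorem gdel_nu (P : Place G F b s J N) {c : P.R} (hc : c ∈ P.A) (j : ℕ) :
    ((Finset.range j).filter fun i => P.FR^[i + 1] c ∈ P.A).card ≤ j / (J + 1) := by
  have hmem : ∀ i ∈ (Finset.range j).filter (fun i => P.FR^[i + 1] c ∈ P.A),
      (i + 1) / (J + 1) ∈ Finset.Icc 1 (j / (J + 1)) := by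
    intro i hi
    rw [Finset.mem_filter, Finset.mem_range] at hi
    rw [Finset.mem_Icc]
    constructor
    · rw [Nat.le_div_iff_mul_le (by omega)]
      by_contra hlt
      have := (P.hJ _ hc _ hi.2 (i + 1) (by omega) 0 (Nat.zero_le _) rfl).2
      omega
    · exact Nat.div_le_div_right (by omega)
  have hlt : ∀ i i' : ℕ, P.FR^[i + 1] c ∈ P.A → P.FR^[i' + 1] c ∈ P.A → i < i' →
      (i + 1) / (J + 1) < (i' + 1) / (J + 1) := by
    intro i i' hi hi' hii
    have h1 : J < i' - i := by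
      by_contra hle
      have h2 : P.FR^[i' - i] (P.FR^[i + 1] c) = P.FR^[0] (P.FR^[i' + 1] c) := by
        rw [← Function.iterate_add_apply, show i' - i + (i + 1) = i' + 1 by omega]
        rfl
      have := (P.hJ _ hi _ hi' (i' - i) (by omega) 0 (Nat.zero_le _) h2).2
      omega
    have h3 : (i + 1) / (J + 1) + 1 = (i + 1 + (J + 1)) / (J + 1) := by
      rw [Nat.add_div_right _ (by omega)]
    have h4 : (i + 1 + (J + 1)) / (J + 1) ≤ (i' + 1) / (J + 1) :=
      Nat.div_le_div_right (by omega)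
    omega
  calc ((Finset.range j).filter fun i => P.FR^[i + 1] c ∈ P.A).card
      ≤ (Finset.Icc 1 (j / (J + 1))).card := by
        refine Finset.card_le_card_of_injOn (fun i => (i + 1) / (J + 1)) (fun i hi => hmem i hi) ?_
        intro i hi i' hi' he
        have hi1 := (Finset.mem_filter.1 (Finset.mem_coe.1 hi)).2
        have hi2 := (Finset.mem_filter.1 (Finset.mem_coe.1 hi')).2
        have he' : (i + 1) / (J + 1) = (i' + 1) / (J + 1) := he
        rcases lt_trichotomy i i' with h | h | h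
        · have := hlt i i' hi1 hi2 h; omega
        · exact h
        · have := hlt i' i hi2 hi1 h; omega
    _ = j / (J + 1) := by rw [Nat.card_Icc]; exact Nat.add_sub_cancel _ _

theorem sd_count (hT : Tree G F b d N) (hO : Orb G F b n0 N O) (P : Place G F b s J N)
    (hJ : 1 ≤ J) {l : ℕ} (hl : l < N) {δ : G} (hδ : δ ∈ P.I)
    (htriv : ∀ g ∈ P.I, ∀ x ∈ O l, g • x = x) {m : ℕ} (hm : m ≤ l) {z : Ω}
    (hz : z ∈ lev F b m) :
    {y | y ∈ SD F O l δ ∧ F^[l - m] y = z}.ncard ≤ s * 2 ^ ((l - m) / (J + 1)) := by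
  set D := {y | y ∈ SD F O l δ ∧ F^[l - m] y = z} with hD
  have hDfin : D.Finite := (lev_fin hT (t := l) hl.le).subset (by
    rintro y ⟨⟨hy, -⟩, -⟩
    exact hO.sub l hl.le hy)
  have hch : ∀ y ∈ D, ∃ c ∈ P.A, ∀ i < l - m, P.red (F^[i] y) = P.FR^[i + 1] c := by
    rintro y ⟨⟨hy, x, hx, hm1⟩, -⟩
    subst hx
    refine ⟨P.red x, (sd_swap hT hO P hJ hl hδ htriv hy hm1).1, ?_⟩
    intro i hi
    have := red_iter P (t := l + 1) (j := i + 1) (by omega) hl (gdel_lev hO hl hy)
    rw [← this, Function.iterate_succ_apply]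
  have hR : Nonempty P.R := ⟨P.red b⟩
  let κ : Ω → P.R := fun y => if h : ∃ c ∈ P.A, ∀ i < l - m, P.red (F^[i] y) = P.FR^[i + 1] c then
    h.choose else P.red b
  have hκ : ∀ y ∈ D, κ y ∈ P.A ∧ ∀ i < l - m, P.red (F^[i] y) = P.FR^[i + 1] (κ y) := by
    intro y hy
    have h := hch y hy
    have : κ y = h.choose := dif_pos h
    rw [this]
    exact h.choose_spec
  have hmap : ∀ y ∈ hDfin.toFinset, κ y ∈ P.hAfin.toFinset := by
    intro y hy
    rw [Set.Finite.mem_toFinset] at hy ⊢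
    exact (hκ y hy).1
  have hcard : hDfin.toFinset.card ≤ 2 ^ ((l - m) / (J + 1)) * P.hAfin.toFinset.card := by
    refine Finset.card_le_mul_card_image_of_maps_to hmap _ ?_
    intro c hc
    rw [Set.Finite.mem_toFinset] at hc
    have h1 := path_count hT P (m := m) (j := l - m) (by omega) hz (fun i => P.FR^[i + 1] c)
    have h2 : (hDfin.toFinset.filter fun y => κ y = c).card ≤
        {y | F^[l - m] y = z ∧ ∀ i < l - m, P.red (F^[i] y) = P.FR^[i + 1] c}.ncard := by
      rw [← Set.ncard_coe_finset]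
      refine Set.ncard_le_ncard ?_ ?_
      · intro y hy
        rw [Finset.coe_filter] at hy
        obtain ⟨hy1, hy2⟩ := hy
        rw [Set.Finite.mem_toFinset] at hy1
        refine ⟨hy1.2, ?_⟩
        have := (hκ y hy1).2
        rw [hy2] at this
        exact this
      · refine (lev_fin hT (t := m + (l - m)) (by omega)).subset ?_
        rintro y ⟨hy, -⟩
        exact lev_up (by rw [hy]; exact hz)
    exact h2.trans (h1.trans (Nat.pow_le_pow_right (by norm_num) (gdel_nu P hc _)))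
  rw [Set.ncard_eq_toFinset_card _ hDfin]
  refine hcard.trans ?_
  rw [← Set.ncard_eq_toFinset_card _ P.hAfin, mul_comm]
  exact Nat.mul_le_mul_right _ P.hA

end Pool.Agent.H42.PC

end GDel

section GIso
namespace Pool.Agent.H42.PC

open scoped Classical

variable {G Ω : Type} [Group G] [MulAction G Ω] {F : Ω → Ω} {b : Ω}
  {d N s J n0 : ℕ} {O : ℕ → Set Ω}

theorem GIso_two [Finite G] (s1 s2 u y : Ω) :
    Nat.card {γ : G // γ • s1 = u ∧ γ • s2 = y} ≤
      Nat.card (MulAction.stabilizer (MulAction.stabilizer G u) y) := by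
  by_cases hne : Nonempty {γ : G // γ • s1 = u ∧ γ • s2 = y}
  · obtain ⟨γ0, h1, h2⟩ := hne
    have e1 : γ0⁻¹ • u = s1 := by rw [← h1, inv_smul_smul]
    have e2 : γ0⁻¹ • y = s2 := by rw [← h2, inv_smul_smul]
    have f1 : ∀ γ : {γ : G // γ • s1 = u ∧ γ • s2 = y}, (γ.1 * γ0⁻¹) ∈ MulAction.stabilizer G u := by
      intro γ
      rw [MulAction.mem_stabilizer_iff, mul_smul, e1, γ.2.1]
    have f2 : ∀ γ : {γ : G // γ • s1 = u ∧ γ • s2 = y},
        (⟨γ.1 * γ0⁻¹, f1 γ⟩ : MulAction.stabilizer G u) ∈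
          MulAction.stabilizer (MulAction.stabilizer G u) y := by
      intro γ
      rw [MulAction.mem_stabilizer_iff]
      show (γ.1 * γ0⁻¹) • y = y
      rw [mul_smul, e2, γ.2.2]
    refine Nat.card_le_card_of_injective (fun γ => ⟨⟨γ.1 * γ0⁻¹, f1 γ⟩, f2 γ⟩) ?_
    intro γ γ' h
    have h3 : γ.1 * γ0⁻¹ = γ'.1 * γ0⁻¹ := by
      have h4 := congrArg (fun z => ((z : MulAction.stabilizer (MulAction.stabilizer G u) y) :
        MulAction.stabilizer G u)) h
      exact congrArg Subtype.val h4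
    exact Subtype.ext (mul_right_cancel h3)
  · have : IsEmpty {γ : G // γ • s1 = u ∧ γ • s2 = y} := not_nonempty_iff.1 hne
    rw [Nat.card_of_isEmpty]
    exact Nat.zero_le _

theorem GIso_orb [Finite G] (u y : Ω) :
    Nat.card (MulAction.stabilizer (MulAction.stabilizer G u) y) *
      (MulAction.orbit (MulAction.stabilizer G u) y).ncard =
      Nat.card {g : G // g • u = u} := by
  rw [← MulAction.index_stabilizer, Subgroup.card_mul_index]
  exact Nat.card_congr (Equiv.subtypeEquivRight fun g => MulAction.mem_stabilizer_iff)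

theorem isolation [Finite G] (hT : Tree G F b d N) (hO : Orb G F b n0 N O)
    (P : Place G F b s J N) (hJ : 1 ≤ J) (hd : 1 ≤ d) {l : ℕ} (hl0 : n0 ≤ l) (hl : l < N) {δ : G}
    (hδ : δ ∈ P.I) (htriv : ∀ g ∈ P.I, ∀ x ∈ O l, g • x = x) {x1 : Ω} (hx : F x1 ∈ O l)
    (hmv : δ • x1 ≠ x1) (k : ℕ)
    (hbig : ∀ u ∈ O l, ∀ y ∈ O l, ∀ m < l, F^[l - m] u = F^[l - m] y →
      F^[l - m - 1] u ≠ F^[l - m - 1] y → J < l + 1 - m →
      k * d * (s * 2 ^ ((l - m) / (J + 1))) <
        (MulAction.orbit (MulAction.stabilizer G u) y).ncard)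
    (U : Set Ω) (hU : U ⊆ O l) (hUk : U.ncard ≤ k) {a : Ω} (ha : F a ∈ U) :
    ∃ γ : G, γ • x1 = a ∧ ∀ y ∈ U, y ≠ F a → γ⁻¹ • y ∉ SD F O l δ := by
  have := Fintype.ofFinite G
  have hu : F a ∈ O l := hU ha
  have ha' : a ∈ O (l + 1) := hO.full l hl0 hl a hu
  have hx' : x1 ∈ O (l + 1) := hO.full l hl0 hl x1 hx
  have hOl : (O l).Finite := (lev_fin hT hl.le).subset (hO.sub l hl.le)
  have hOpos : 0 < (O l).ncard := (Set.ncard_pos hOl).2 (hO.ne l hl.le)
  have hT0 : Nat.card {g : G // g • x1 = a} * (d * (O l).ncard) = Nat.card G := by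
    rw [← orb_succ hT hO hl0 hl]
    exact transport hT hO (by omega) hx' ha'
  have hS0 : Nat.card {g : G // g • F a = F a} * (O l).ncard = Nat.card G :=
    transport hT hO hl.le hu hu
  have hTS : Nat.card {g : G // g • F a = F a} = Nat.card {g : G // g • x1 = a} * d := by
    have h1 : Nat.card {g : G // g • F a = F a} * (O l).ncard =
        (Nat.card {g : G // g • x1 = a} * d) * (O l).ncard := by
      rw [hS0, ← hT0, mul_assoc]
    exact Nat.eq_of_mul_eq_mul_right hOpos h1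
  set T0 : Finset G := Finset.univ.filter fun g => g • x1 = a with hT0d
  have hT0c : Nat.card {g : G // g • x1 = a} = T0.card := by
    rw [Nat.card_eq_fintype_card, Fintype.card_subtype]
  rw [hT0c] at hTS
  have hT0pos : 0 < T0.card := by
    obtain ⟨g, hg⟩ := hO.trans (l + 1) hl x1 hx' a ha'
    exact Finset.card_pos.2 ⟨g, Finset.mem_filter.2 ⟨Finset.mem_univ _, hg⟩⟩
  have hs1 : F x1 ∈ SD F O l δ := ⟨hx, x1, rfl, hmv⟩
  have key : ∀ y ∈ U, y ≠ F a →
      k * (T0.filter fun γ => γ⁻¹ • y ∈ SD F O l δ).card < T0.card := by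
    intro y hyU hyne
    have hy : y ∈ O l := hU hyU
    rcases Finset.eq_empty_or_nonempty (T0.filter fun γ => γ⁻¹ • y ∈ SD F O l δ) with hB | hB
    · rw [hB, Finset.card_empty, mul_zero]
      exact hT0pos
    obtain ⟨m, hm, hm1, hm2⟩ := diverge hO hl.le hu hy hyne.symm
    have hγ : ∀ γ ∈ T0.filter (fun γ => γ⁻¹ • y ∈ SD F O l δ),
        γ • F x1 = F a ∧ γ⁻¹ • y ∈ SD F O l δ ∧ F^[l - m] (γ⁻¹ • y) = F^[l - m] (F x1) ∧
          F^[l - m - 1] (F x1) ≠ F^[l - m - 1] (γ⁻¹ • y) := by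
      intro γ hγ
      rw [Finset.mem_filter, hT0d, Finset.mem_filter] at hγ
      have h1 : γ • F x1 = F a := by rw [← hT.equiv, hγ.1.2]
      have h2 : γ⁻¹ • F a = F x1 := by rw [← h1, inv_smul_smul]
      refine ⟨h1, hγ.2, ?_, ?_⟩
      · rw [iter_smul hT, ← hm1, ← iter_smul hT, h2]
      · intro h
        apply hm2
        rw [iter_smul hT, ← h2, iter_smul hT] at h
        exact MulAction.injective γ⁻¹ h
    obtain ⟨γ0, hγ0⟩ := hB
    obtain ⟨-, c2, c3, c4⟩ := hγ γ0 hγ0
    have hnear := sd_near hT hO P hJ hl hδ htriv hm hs1 c2 c3.symm c4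
    have hz : F^[l - m] (F x1) ∈ lev F b m := by
      have h1 := lev_iter (j := l - m) (hO.sub l hl.le hx) (by omega)
      rwa [show l - (l - m) = m by omega] at h1
    have hD := sd_count hT hO P hJ hl hδ htriv hm.le hz
    set D : Set Ω := {y' | y' ∈ SD F O l δ ∧ F^[l - m] y' = F^[l - m] (F x1)} with hDd
    have hDfin : D.Finite := hOl.subset (fun y' hy' => hy'.1.1)
    have hcount : (T0.filter fun γ => γ⁻¹ • y ∈ SD F O l δ).card ≤
        D.ncard * Nat.card (MulAction.stabilizer (MulAction.stabilizer G (F a)) y) := by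
      have hsub : (T0.filter fun γ => γ⁻¹ • y ∈ SD F O l δ) ⊆ hDfin.toFinset.biUnion
          (fun s2 => Finset.univ.filter fun γ : G => γ • F x1 = F a ∧ γ • s2 = y) := by
        intro γ h
        obtain ⟨d1, d2, d3, -⟩ := hγ γ h
        rw [Finset.mem_biUnion]
        refine ⟨γ⁻¹ • y, ?_, ?_⟩
        · rw [Set.Finite.mem_toFinset]
          exact ⟨d2, d3⟩
        · rw [Finset.mem_filter]
          exact ⟨Finset.mem_univ _, d1, smul_inv_smul _ _⟩
      refine (Finset.card_le_card hsub).trans (Finset.card_biUnion_le.trans ?_)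
      rw [Set.ncard_eq_toFinset_card _ hDfin]
      refine (Finset.sum_le_card_nsmul _ _ _ (fun s2 _ => ?_)).trans (le_of_eq (smul_eq_mul _ _))
      have h1 := GIso_two (G := G) (F x1) s2 (F a) y
      rwa [Nat.card_eq_fintype_card, Fintype.card_subtype] at h1
    have horb := GIso_orb (G := G) (F a) y
    rw [hTS] at horb
    have hb := hbig (F a) hu y hy m hm hm1 hm2 hnear
    set B := (T0.filter fun γ => γ⁻¹ • y ∈ SD F O l δ).card with hBd
    set M := Nat.card (MulAction.stabilizer (MulAction.stabilizer G (F a)) y) with hMd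
    set o := (MulAction.orbit (MulAction.stabilizer G (F a)) y).ncard with hod
    have hfin : k * B * o < T0.card * o := by
      calc k * B * o ≤ k * (D.ncard * M) * o := by gcongr
        _ = k * D.ncard * (M * o) := by ring
        _ = k * D.ncard * (T0.card * d) := by rw [horb]
        _ = (k * d * D.ncard) * T0.card := by ring
        _ ≤ (k * d * (s * 2 ^ ((l - m) / (J + 1)))) * T0.card := by gcongr
        _ < o * T0.card := Nat.mul_lt_mul_of_pos_right hb hT0pos
        _ = T0.card * o := by ring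
    exact lt_of_mul_lt_mul_right hfin (Nat.zero_le _)
  by_contra hcon
  push Not at hcon
  have hUfin : U.Finite := hOl.subset hU
  have hcov : T0 ⊆ (hUfin.toFinset.filter fun y => y ≠ F a).biUnion
      (fun y => T0.filter fun γ => γ⁻¹ • y ∈ SD F O l δ) := by
    intro γ h
    obtain ⟨y, hy1, hy2, hy3⟩ := hcon γ (Finset.mem_filter.1 h).2
    rw [Finset.mem_biUnion]
    refine ⟨y, ?_, ?_⟩
    · rw [Finset.mem_filter, Set.Finite.mem_toFinset]
      exact ⟨hy1, hy2⟩
    · exact Finset.mem_filter.2 ⟨h, hy3⟩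
  set U' := hUfin.toFinset.filter fun y => y ≠ F a with hU'
  have hcard : T0.card ≤ ∑ y ∈ U', (T0.filter fun γ => γ⁻¹ • y ∈ SD F O l δ).card :=
    (Finset.card_le_card hcov).trans Finset.card_biUnion_le
  have hU'ne : U'.Nonempty := by
    rw [Finset.nonempty_iff_ne_empty]
    intro h
    rw [h, Finset.sum_empty] at hcard
    omega
  have hU'c : U'.card ≤ k := by
    refine le_trans (Finset.card_filter_le _ _) ?_
    rwa [← Set.ncard_eq_toFinset_card _ hUfin]
  have h1 : k * T0.card < k * T0.card := by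
    calc k * T0.card ≤ k * ∑ y ∈ U', (T0.filter fun γ => γ⁻¹ • y ∈ SD F O l δ).card := by gcongr
      _ = ∑ y ∈ U', k * (T0.filter fun γ => γ⁻¹ • y ∈ SD F O l δ).card := Finset.mul_sum _ _ _
      _ < ∑ y ∈ U', T0.card := by
          refine Finset.sum_lt_sum_of_nonempty hU'ne (fun y hy => ?_)
          rw [hU', Finset.mem_filter, Set.Finite.mem_toFinset] at hy
          exact key y hy.1 hy.2
      _ = U'.card * T0.card := by rw [Finset.sum_const, smul_eq_mul]
      _ ≤ k * T0.card := by gcongr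
  exact lt_irrefl _ h1

end Pool.Agent.H42.PC

end GIso

section GDer
namespace Pool.Agent.H42.PC

open scoped Classical

variable {G Ω : Type} [Group G] [MulAction G Ω] {F : Ω → Ω} {b : Ω}
  {d N s J n0 : ℕ} {O : ℕ → Set Ω}

theorem derange [Finite G] (hT : Tree G F b d N) (hO : Orb G F b n0 N O)
    (P : Place G F b s J N) (hJ : 1 ≤ J) {l : ℕ} (hl0 : n0 ≤ l) (hl : l < N) {δ : G}
    (hδ : δ ∈ P.I) (htriv : ∀ g ∈ P.I, ∀ x ∈ O l, g • x = x) {x1 : Ω} (hx : F x1 ∈ O l)
    (hmv : δ • x1 ≠ x1) (k : ℕ)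
    (hiso : ∀ U : Set Ω, U ⊆ O l → U.ncard ≤ k → ∀ a, F a ∈ U →
      ∃ γ : G, γ • x1 = a ∧ ∀ y ∈ U, y ≠ F a → γ⁻¹ • y ∉ SD F O l δ)
    (g : G) (hg : {y | y ∈ O l ∧ g • y = y}.ncard ≤ k) :
    ∃ h : G, (∀ x ∈ O l, h • x = x) ∧ ∀ x ∈ O (l + 1), (g * h) • x ≠ x := by
  have hfin1 : (O (l + 1)).Finite := (lev_fin hT hl).subset (hO.sub (l + 1) hl)
  have key : ∀ n : ℕ, ∀ g : G, {y | y ∈ O l ∧ g • y = y}.ncard ≤ k →
      {x | x ∈ O (l + 1) ∧ g • x = x}.ncard ≤ n →
      ∃ h : G, (∀ x ∈ O l, h • x = x) ∧ ∀ x ∈ O (l + 1), (g * h) • x ≠ x := by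
    intro n
    induction n with
    | zero =>
      intro g hg hn
      refine ⟨1, fun x _ => one_smul G x, fun x hx he => ?_⟩
      have hf : {x | x ∈ O (l + 1) ∧ g • x = x}.Finite := hfin1.subset fun x hx => hx.1
      have h0 := (Set.ncard_eq_zero hf).1 (Nat.le_zero.1 hn)
      rw [mul_one] at he
      have hx' : x ∈ {x | x ∈ O (l + 1) ∧ g • x = x} := ⟨hx, he⟩
      rw [h0] at hx'
      exact hx'
    | succ n ih =>
      intro g hg hn
      by_cases hex : ∃ a ∈ O (l + 1), g • a = a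
      swap
      · push Not at hex
        exact ⟨1, fun x _ => one_smul G x, fun x hx => by rw [mul_one]; exact hex x hx⟩
      obtain ⟨a, ha, hga⟩ := hex
      have hFa : F a ∈ O l := hO.par l hl a ha
      have hFaU : F a ∈ {y | y ∈ O l ∧ g • y = y} := ⟨hFa, by rw [← hT.equiv, hga]⟩
      obtain ⟨γ, hγ, hγ2⟩ := hiso {y | y ∈ O l ∧ g • y = y} (fun y hy => hy.1) hg a hFaU
      have hx1 : γ⁻¹ • a = x1 := by rw [← hγ, inv_smul_smul]
      have htr : ∀ x ∈ O l, (γ * δ * γ⁻¹) • x = x := by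
        intro x hx
        rw [mul_smul, mul_smul, htriv δ hδ _ (hO.inv l hl.le γ⁻¹ x hx), smul_inv_smul]
      have hg'U : {y | y ∈ O l ∧ (g * (γ * δ * γ⁻¹)) • y = y} = {y | y ∈ O l ∧ g • y = y} := by
        ext y
        simp only [Set.mem_setOf_eq]
        constructor
        · rintro ⟨hy, h⟩
          rw [mul_smul, htr y hy] at h
          exact ⟨hy, h⟩
        · rintro ⟨hy, h⟩
          refine ⟨hy, ?_⟩
          rw [mul_smul, htr y hy]
          exact h
      have hfix : ∀ x ∈ O (l + 1), (g * (γ * δ * γ⁻¹)) • x = x → g • x = x ∧ x ≠ a := by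
        intro x hxO hgx
        have hFx : F x ∈ O l := hO.par l hl x hxO
        have hFxU : F x ∈ {y | y ∈ O l ∧ g • y = y} := by
          rw [← hg'U]
          exact ⟨hFx, by rw [← hT.equiv, hgx]⟩
        have hh : (γ * δ * γ⁻¹) • x = γ • δ • γ⁻¹ • x := by rw [mul_smul, mul_smul]
        have hback : δ • γ⁻¹ • x = γ⁻¹ • x → g • x = x := by
          intro h
          rw [mul_smul, hh, h, smul_inv_smul] at hgx
          exact hgx
        by_cases hFe : F x = F a
        · have hFz : F (γ⁻¹ • x) = F x1 := by rw [hT.equiv, hFe, ← hT.equiv, hx1]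
          obtain ⟨-, -, hdd, hz⟩ := sd_swap hT hO P hJ hl hδ htriv hx hmv
          by_cases hz1 : γ⁻¹ • x = x1
          · exfalso
            have hxa : x = a := by rw [← hγ, ← hz1, smul_inv_smul]
            rw [mul_smul, hh, hz1, hxa] at hgx
            have h2 : γ • δ • x1 = a := smul_left_cancel g (hgx.trans hga.symm)
            rw [← hγ] at h2
            exact hmv (smul_left_cancel γ h2)
          · by_cases hz2 : γ⁻¹ • x = δ • x1
            · exfalso
              rw [mul_smul, hh, hz2, hdd, hγ, hga] at hgx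
              rw [← hgx, hx1] at hz2
              exact hmv hz2.symm
            · refine ⟨hback (hz _ hFz hz1 hz2), fun hxa => hz1 ?_⟩
              rw [hxa, hx1]
        · have hnot := hγ2 (F x) hFxU hFe
          refine ⟨hback ?_, fun hxa => hFe (by rw [hxa])⟩
          by_contra hne
          exact hnot ⟨hO.inv l hl.le γ⁻¹ _ hFx, γ⁻¹ • x, by rw [hT.equiv], hne⟩
      have hf : {x | x ∈ O (l + 1) ∧ g • x = x}.Finite := hfin1.subset fun x hx => hx.1
      have hlt : {x | x ∈ O (l + 1) ∧ (g * (γ * δ * γ⁻¹)) • x = x}.ncard <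
          {x | x ∈ O (l + 1) ∧ g • x = x}.ncard := by
        refine Set.ncard_lt_ncard ⟨fun x hx => ⟨hx.1, (hfix x hx.1 hx.2).1⟩, fun h => ?_⟩ hf
        exact (hfix a ha (h ⟨ha, hga⟩).2).2 rfl
      obtain ⟨h, h1, h2⟩ := ih (g * (γ * δ * γ⁻¹)) (by rw [hg'U]; exact hg) (by omega)
      refine ⟨γ * δ * γ⁻¹ * h, fun x hx => by rw [mul_smul, h1 x hx, htr x hx], fun x hx => ?_⟩
      rw [← mul_assoc]
      exact h2 x hx
  exact key _ g hg le_rfl

end Pool.Agent.H42.PC

end GDer

section GIn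
namespace Pool.Agent.H42.PC

open scoped Classical

variable {G Ω : Type} [Group G] [MulAction G Ω] {F : Ω → Ω} {b : Ω}
  {d N n0 : ℕ} {O : ℕ → Set Ω}

theorem q_anti [Finite G] (hT : Tree G F b d N) (hO : Orb G F b n0 N O) {t : ℕ} (ht : t < N) :
    q G O (t + 1) ≤ q G O t := by
  unfold q
  refine div_le_div_of_nonneg_right ?_ (Nat.cast_nonneg _)
  have h : Nat.card {g : G // ∃ x ∈ O (t + 1), g • x = x} ≤
      Nat.card {g : G // ∃ x ∈ O t, g • x = x} := by
    exact Nat.card_le_card_of_injective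
      (Subtype.map id (fun g hg => by
        obtain ⟨x, hx, hg⟩ := hg
        exact ⟨F x, hO.par t ht x hx, by rw [← hT.equiv]; exact congrArg F hg⟩) :
        {g : G // ∃ x ∈ O (t + 1), g • x = x} → {g : G // ∃ x ∈ O t, g • x = x})
      (Subtype.map_injective _ Function.injective_id)
  exact_mod_cast h

theorem burnside [Finite G] (hT : Tree G F b d N) (hO : Orb G F b n0 N O) {t : ℕ} (ht : t ≤ N) :
    Nat.card {p : G × Ω // p.2 ∈ O t ∧ p.1 • p.2 = p.2} = Nat.card G := by
  have hfin : (O t).Finite := (lev_fin hT ht).subset (hO.sub t ht)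
  haveI : Fintype (O t) := hfin.fintype
  have e : {p : G × Ω // p.2 ∈ O t ∧ p.1 • p.2 = p.2} ≃
      (Σ x : O t, {g : G // g • (x : Ω) = x}) :=
    { toFun := fun p => ⟨⟨p.1.2, p.2.1⟩, ⟨p.1.1, p.2.2⟩⟩
      invFun := fun p => ⟨(p.2.1, p.1.1), p.1.2, p.2.2⟩
      left_inv := fun _ => rfl
      right_inv := fun _ => rfl }
  rw [Nat.card_congr e, Nat.card_sigma]
  have hn : (O t).ncard = Fintype.card (O t) := by
    rw [← Nat.card_eq_fintype_card]
    rfl
  have hpos : 0 < (O t).ncard := (Set.ncard_pos hfin).2 (hO.ne t ht)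
  have h1 : (∑ x : O t, Nat.card {g : G // g • (x : Ω) = x}) * (O t).ncard =
      Nat.card G * (O t).ncard := by
    rw [Finset.sum_mul, Finset.sum_congr rfl fun x _ => transport hT hO ht x.2 x.2,
      Finset.sum_const, smul_eq_mul, Finset.card_univ, ← hn, mul_comm]
  exact Nat.eq_of_mul_eq_mul_right hpos h1

theorem gin_pow {n m : ℕ} (h : n ≤ m) (hm : 1 ≤ m) : n ^ n ≤ m ^ m :=
  (Nat.pow_le_pow_left h n).trans (Nat.pow_le_pow_right hm h)

/-- the points above the fixed points. -/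
theorem gin_X [Finite G] (hT : Tree G F b d N) (hO : Orb G F b n0 N O) {l : ℕ} (hl : l < N)
    (U : Set Ω) (hU : U ⊆ O l) (k : ℕ) (hk : U.ncard ≤ k) :
    {x | x ∈ O (l + 1) ∧ F x ∈ U}.Finite ∧ {x | x ∈ O (l + 1) ∧ F x ∈ U}.ncard ≤ k * d := by
  have hfin : (O l).Finite := (lev_fin hT hl.le).subset (hO.sub l hl.le)
  have hfin1 : (O (l + 1)).Finite := (lev_fin hT hl).subset (hO.sub (l + 1) hl)
  have hUf : U.Finite := hfin.subset hU
  have hX : {x | x ∈ O (l + 1) ∧ F x ∈ U}.Finite := hfin1.subset fun x hx => hx.1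
  refine ⟨hX, ?_⟩
  rw [Set.ncard_eq_toFinset_card _ hX]
  have hmap : ∀ x ∈ hX.toFinset, F x ∈ hUf.toFinset := by
    intro x hx
    rw [Set.Finite.mem_toFinset] at hx ⊢
    exact hx.2
  rw [Finset.card_eq_sum_card_fiberwise hmap]
  have hc : ∀ y ∈ hUf.toFinset, (hX.toFinset.filter fun x => F x = y).card ≤ d := by
    intro y hy
    rw [Set.Finite.mem_toFinset] at hy
    have h1 := hT.fib l hl y (hO.sub l hl.le (hU hy))
    rw [← h1, ← Set.ncard_coe_finset]
    refine Set.ncard_le_ncard ?_ (hT.fin l hl y (hO.sub l hl.le (hU hy)))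
    intro z hz
    rw [Finset.coe_filter] at hz
    exact hz.2
  refine (Finset.sum_le_sum hc).trans ?_
  rw [Finset.sum_const, smul_eq_mul, ← Set.ncard_eq_toFinset_card _ hUf]
  exact Nat.mul_le_mul_right d hk

/-- classes of a group of permutations of a finite set. -/
theorem gin_cls [Fintype G] (H : Subgroup G) (X : Set Ω) (hX : X.Finite)
    (hinv : ∀ h ∈ H, ∀ x ∈ X, h • x ∈ X) (h0 : G) (hh0 : h0 ∈ H) :
    (Finset.univ.filter fun h : G => h ∈ H).card ≤
      X.ncard ^ X.ncard *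
        (Finset.univ.filter fun h : G => h ∈ H ∧ ∀ x ∈ X, h • x = h0 • x).card := by
  haveI : Fintype X := hX.fintype
  have hn : X.ncard = Fintype.card X := by
    rw [← Nat.card_eq_fintype_card]
    rfl
  set res : G → (X → X) := fun h x => if hh : h ∈ H then ⟨h • (x : Ω), hinv h hh x x.2⟩ else x
    with hres
  have hmap : ∀ h ∈ (Finset.univ.filter fun h : G => h ∈ H), res h ∈
      (Finset.univ : Finset (X → X)) := fun _ _ => Finset.mem_univ _
  rw [Finset.card_eq_sum_card_fiberwise hmap]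
  have hc : ∀ φ ∈ (Finset.univ : Finset (X → X)),
      ((Finset.univ.filter fun h : G => h ∈ H).filter fun h => res h = φ).card ≤
      (Finset.univ.filter fun h : G => h ∈ H ∧ ∀ x ∈ X, h • x = h0 • x).card := by
    intro φ _
    rcases ((Finset.univ.filter fun h : G => h ∈ H).filter
      fun h => res h = φ).eq_empty_or_nonempty with he | ⟨h1, hh1⟩
    · rw [he]
      simp
    · simp only [Finset.mem_filter, Finset.mem_univ, true_and] at hh1
      refine Finset.card_le_card_of_injOn (fun h => h0 * h1⁻¹ * h) ?_ ?_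
      · intro h hh
        simp only [Finset.coe_filter, Finset.mem_filter, Finset.mem_univ, true_and,
          Set.mem_ofPred_eq] at hh ⊢
        refine ⟨H.mul_mem (H.mul_mem hh0 (H.inv_mem hh1.1)) hh.1, ?_⟩
        intro x hx
        have h2 : res h ⟨x, hx⟩ = res h1 ⟨x, hx⟩ := by rw [hh.2, hh1.2]
        have h3 : h • x = h1 • x := by
          have := congrArg Subtype.val h2
          simpa only [hres, dif_pos hh.1, dif_pos hh1.1] using this
        rw [mul_smul, h3, mul_smul, inv_smul_smul]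
      · intro h _ h' _ hhh
        exact mul_left_cancel hhh
  refine (Finset.sum_le_sum hc).trans (le_of_eq ?_)
  rw [Finset.sum_const, smul_eq_mul, Finset.card_univ, Fintype.card_fun, hn]

/-- `(k+1) |{g : more than k fixed points}| ≤ |G|`. -/
theorem gin_many [Fintype G] (hT : Tree G F b d N) (hO : Orb G F b n0 N O) {l : ℕ} (hl : l ≤ N)
    (k : ℕ) :
    (k + 1) * (Finset.univ.filter fun g : G => ¬ {y | y ∈ O l ∧ g • y = y}.ncard ≤ k).card ≤
      Nat.card G := by
  have hfin : (O l).Finite := (lev_fin hT hl).subset (hO.sub l hl)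
  rw [← burnside hT hO hl]
  have e : {p : G × Ω // p.2 ∈ O l ∧ p.1 • p.2 = p.2} ≃
      (Σ g : G, {y : Ω // y ∈ O l ∧ g • y = y}) :=
    { toFun := fun p => ⟨p.1.1, ⟨p.1.2, p.2⟩⟩
      invFun := fun p => ⟨(p.1, p.2.1), p.2.2⟩
      left_inv := fun _ => rfl
      right_inv := fun _ => rfl }
  haveI : ∀ g : G, Finite {y : Ω // y ∈ O l ∧ g • y = y} := fun g =>
    (hfin.subset (fun y hy => hy.1 : {y | y ∈ O l ∧ g • y = y} ⊆ O l)).to_subtype
  rw [Nat.card_congr e, Nat.card_sigma]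
  have h1 : ∑ g ∈ (Finset.univ.filter fun g : G => ¬ {y | y ∈ O l ∧ g • y = y}.ncard ≤ k), (k + 1) ≤
      ∑ g : G, Nat.card {y : Ω // y ∈ O l ∧ g • y = y} := by
    refine (Finset.sum_le_sum (fun g hg => ?_)).trans
      (Finset.sum_le_sum_of_subset (Finset.subset_univ _))
    rw [Finset.mem_filter] at hg
    have h2 : {y | y ∈ O l ∧ g • y = y}.ncard = Nat.card {y : Ω // y ∈ O l ∧ g • y = y} := rfl
    rw [← h2]
    exact Nat.lt_of_not_le hg.2
  rw [Finset.sum_const, smul_eq_mul, mul_comm] at h1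
  exact h1

theorem q_step [Finite G] (hT : Tree G F b d N) (hO : Orb G F b n0 N O) (hd : 1 ≤ d) {l : ℕ}
    (hl0 : n0 ≤ l) (hl : l < N) (k : ℕ) (hk : 1 ≤ k)
    (hder : ∀ g : G, {y | y ∈ O l ∧ g • y = y}.ncard ≤ k →
      ∃ h : G, (∀ x ∈ O l, h • x = x) ∧ ∀ x ∈ O (l + 1), (g * h) • x ≠ x) :
    (q G O l - 1 / ((k : ℝ) + 1)) / (((k * d) ^ (k * d) : ℕ) : ℝ) ≤ q G O l - q G O (l + 1) := by
  haveI := Fintype.ofFinite G
  set D : ℕ := (k * d) ^ (k * d) with hD
  have hkd : 1 ≤ k * d := Nat.one_le_iff_ne_zero.2 (by positivity)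
  have hDpos : 0 < D := by
    rw [hD]
    positivity
  set B : Finset G := Finset.univ.filter fun g => ∃ x ∈ O l, g • x = x with hB
  set B' : Finset G := B.filter fun g => {y | y ∈ O l ∧ g • y = y}.ncard ≤ k with hB'
  set C : Finset G := B.filter fun g => ¬ ∃ x ∈ O (l + 1), g • x = x with hC
  set H : Subgroup G :=
    { carrier := {h | ∀ x ∈ O l, h • x = x}
      mul_mem' := fun {a c} ha hc x hx => by rw [mul_smul, hc x hx, ha x hx]
      one_mem' := fun x _ => one_smul G x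
      inv_mem' := fun {a} ha x hx => by
        have := ha x hx
        rw [inv_smul_eq_iff, this] } with hH
  have hmH : ∀ h : G, h ∈ H ↔ ∀ x ∈ O l, h • x = x := fun _ => Iff.rfl
  set HF : Finset G := Finset.univ.filter fun h : G => h ∈ H with hHF
  -- every `g ∈ B'` has many `h`
  have hmany : ∀ g ∈ B', HF.card ≤ D * (HF.filter fun h => g * h ∈ C).card := by
    intro g hg
    rw [hB', Finset.mem_filter, hB, Finset.mem_filter] at hg
    obtain ⟨⟨_, y0, hy0, hgy0⟩, hgk⟩ := hg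
    obtain ⟨h0, hh0, hf0⟩ := hder g hgk
    obtain ⟨hXf, hXc⟩ := gin_X hT hO hl {y | y ∈ O l ∧ g • y = y} (fun y hy => hy.1) k hgk
    set X : Set Ω := {x | x ∈ O (l + 1) ∧ F x ∈ {y | y ∈ O l ∧ g • y = y}} with hX
    have h1 := gin_cls H X hXf (by
      intro h hh x hx
      refine ⟨hO.inv (l + 1) hl h x hx.1, ?_⟩
      rw [hT.equiv, hh (F x) hx.2.1]
      exact hx.2) h0 hh0
    refine h1.trans (Nat.mul_le_mul (gin_pow hXc hkd) (Finset.card_le_card ?_))
    intro h hh
    rw [Finset.mem_filter] at hh ⊢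
    obtain ⟨_, hhH, hhX⟩ := hh
    refine ⟨by rw [hHF, Finset.mem_filter]; exact ⟨Finset.mem_univ _, hhH⟩, ?_⟩
    rw [hC, Finset.mem_filter, hB, Finset.mem_filter]
    refine ⟨⟨Finset.mem_univ _, y0, hy0, by rw [mul_smul, hhH y0 hy0, hgy0]⟩, ?_⟩
    rintro ⟨x, hx, hgx⟩
    have hFx : F x ∈ O l := hO.par l hl x hx
    have h2 : (g * h) • F x = F x := by rw [← hT.equiv, hgx]
    have h3 : g • F x = F x := by
      rw [mul_smul, hhH (F x) hFx] at h2
      exact h2
    have h4 : x ∈ X := ⟨hx, hFx, h3⟩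
    apply hf0 x hx
    rw [mul_smul, ← hhX x h4, ← mul_smul]
    exact hgx
  -- double counting
  have hdc : ∑ g ∈ B', (HF.filter fun h => g * h ∈ C).card ≤ HF.card * C.card := by
    have h1 : ∑ g ∈ B', (HF.filter fun h => g * h ∈ C).card =
        ∑ h ∈ HF, (B'.filter fun g => g * h ∈ C).card := by
      simp only [Finset.card_filter]
      exact Finset.sum_comm
    rw [h1]
    have h2 : ∀ h ∈ HF, (B'.filter fun g => g * h ∈ C).card ≤ C.card := by
      intro h _
      refine Finset.card_le_card_of_injOn (fun g => g * h) ?_ ?_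
      · intro g hg
        rw [Finset.coe_filter] at hg
        exact hg.2
      · intro g _ g' _ hgg
        exact mul_right_cancel hgg
    refine (Finset.sum_le_sum h2).trans (le_of_eq ?_)
    rw [Finset.sum_const, smul_eq_mul]
  have hHpos : 0 < HF.card := by
    apply Finset.card_pos.2
    exact ⟨1, by rw [hHF, Finset.mem_filter]; exact ⟨Finset.mem_univ _, H.one_mem⟩⟩
  have hBC : B'.card ≤ D * C.card := by
    have h1 : B'.card * HF.card ≤ D * C.card * HF.card := by
      calc B'.card * HF.card = ∑ g ∈ B', HF.card := by rw [Finset.sum_const, smul_eq_mul]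
        _ ≤ ∑ g ∈ B', D * (HF.filter fun h => g * h ∈ C).card := Finset.sum_le_sum hmany
        _ = D * ∑ g ∈ B', (HF.filter fun h => g * h ∈ C).card := by rw [Finset.mul_sum]
        _ ≤ D * (HF.card * C.card) := Nat.mul_le_mul_left D hdc
        _ = _ := by ring
    exact Nat.le_of_mul_le_mul_right h1 hHpos
  -- cardinalities
  have hGpos : 0 < (Nat.card G : ℝ) := by
    exact_mod_cast Nat.card_pos
  have hql : q G O l = (B.card : ℝ) / Nat.card G := by
    unfold q
    rw [Nat.card_eq_fintype_card (α := {g : G // ∃ x ∈ O l, g • x = x}), Fintype.card_subtype]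
  have hql1 : q G O (l + 1) = ((B.card : ℝ) - C.card) / Nat.card G := by
    unfold q
    have h1 : (Finset.univ.filter fun g : G => ∃ x ∈ O (l + 1), g • x = x) =
        B.filter fun g => ∃ x ∈ O (l + 1), g • x = x := by
      ext g
      rw [hB]
      simp only [Finset.mem_filter, Finset.mem_univ, true_and]
      constructor
      · rintro ⟨x, hx, hg⟩
        exact ⟨⟨F x, hO.par l hl x hx, by rw [← hT.equiv, hg]⟩, x, hx, hg⟩
      · exact fun h => h.2
    have h2 := Finset.card_filter_add_card_filter_not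
      (s := B) (fun g : G => ∃ x ∈ O (l + 1), g • x = x)
    rw [Nat.card_eq_fintype_card (α := {g : G // ∃ x ∈ O (l + 1), g • x = x}),
      Fintype.card_subtype, h1]
    congr 1
    have h3 : ((B.filter fun g : G => ∃ x ∈ O (l + 1), g • x = x).card : ℝ) + C.card = B.card := by
      exact_mod_cast h2
    linarith
  have hmore := gin_many (G := G) hT hO hl.le k
  have hBB : (B.card : ℝ) - Nat.card G / ((k : ℝ) + 1) ≤ B'.card := by
    have h1 : B.card ≤ B'.card +
        (Finset.univ.filter fun g : G => ¬ {y | y ∈ O l ∧ g • y = y}.ncard ≤ k).card := by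
      have h2 : B'.card + (B.filter fun g : G =>
          ¬ {y | y ∈ O l ∧ g • y = y}.ncard ≤ k).card = B.card :=
        Finset.card_filter_add_card_filter_not
          (s := B) (fun g : G => {y | y ∈ O l ∧ g • y = y}.ncard ≤ k)
      have h3 : (B.filter fun g : G => ¬ {y | y ∈ O l ∧ g • y = y}.ncard ≤ k).card ≤
          (Finset.univ.filter fun g : G => ¬ {y | y ∈ O l ∧ g • y = y}.ncard ≤ k).card :=
        Finset.card_le_card (Finset.filter_subset_filter _ (Finset.subset_univ _))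
      omega
    have h4 : (B.card : ℝ) ≤ B'.card +
        (Finset.univ.filter fun g : G => ¬ {y | y ∈ O l ∧ g • y = y}.ncard ≤ k).card := by
      exact_mod_cast h1
    have h5 : ((Finset.univ.filter fun g : G =>
        ¬ {y | y ∈ O l ∧ g • y = y}.ncard ≤ k).card : ℝ) ≤ Nat.card G / ((k : ℝ) + 1) := by
      rw [le_div_iff₀ (by positivity)]
      have h6 : ((k : ℝ) + 1) * ((Finset.univ.filter fun g : G =>
        ¬ {y | y ∈ O l ∧ g • y = y}.ncard ≤ k).card : ℝ) ≤ Nat.card G := by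
        exact_mod_cast hmore
      linarith
    linarith
  have hBC' : (B'.card : ℝ) ≤ D * C.card := by exact_mod_cast hBC
  have hDR : (0 : ℝ) < D := by exact_mod_cast hDpos
  rw [hql, hql1, div_le_iff₀ hDR, ← sub_div]
  have h7 : (B.card : ℝ) / Nat.card G - 1 / ((k : ℝ) + 1) =
      ((B.card : ℝ) - Nat.card G / ((k : ℝ) + 1)) / Nat.card G := by
    rw [sub_div]
    congr 1
    field_simp
  rw [h7, div_mul_eq_mul_div]
  refine div_le_div_of_nonneg_right ?_ hGpos.le
  have h8 : ((B.card : ℝ) - (B.card - C.card)) * D = D * C.card := by ring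
  rw [h8]
  linarith

end Pool.Agent.H42.PC

end GIn

section GNu
namespace Pool.Agent.H42.PC

open Filter Topology

theorem numeric {k d s c L ts J l m : ℕ} (hc : k * d * s < 2 ^ c) (hL : 1 ≤ L)
    (hJ : 2 * L * (c + 1) + 2 * ts + 2 * L ≤ J) (hm : m < l) (hJm : J < l + 1 - m) :
    k * d * (s * 2 ^ ((l - m) / (J + 1))) < 2 ^ ((l - max (m + 1) ts) / L) := by
  have ha : J ≤ l - m := by omega
  have h1 : l - m - 1 - ts ≤ l - max (m + 1) ts := by omega
  have hJ1 : 2 * L ≤ J + 1 := by nlinarith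
  have h2 : (l - m) / (J + 1) ≤ (l - m) / (2 * L) := Nat.div_le_div_left hJ1 (by omega)
  have h3 : (l - m) / (2 * L) * (2 * L) ≤ l - m := Nat.div_mul_le_self _ _
  have h4 : c + (l - m) / (J + 1) ≤ (l - max (m + 1) ts) / L := by
    rw [Nat.le_div_iff_mul_le (by omega)]
    refine le_trans ?_ h1
    have h5 : (c + (l - m) / (J + 1)) * L ≤ (c + (l - m) / (2 * L)) * L := by gcongr
    have h6 : 2 * ((c + (l - m) / (2 * L)) * L) = 2 * L * c + (l - m) / (2 * L) * (2 * L) := by
      ring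
    have h7 : 2 * L * (c + 1) = 2 * L * c + 2 * L := by ring
    omega
  calc k * d * (s * 2 ^ ((l - m) / (J + 1))) = (k * d * s) * 2 ^ ((l - m) / (J + 1)) := by ring
    _ < 2 ^ c * 2 ^ ((l - m) / (J + 1)) := Nat.mul_lt_mul_of_pos_right hc (by positivity)
    _ = 2 ^ (c + (l - m) / (J + 1)) := (pow_add _ _ _).symm
    _ ≤ 2 ^ ((l - max (m + 1) ts) / L) := Nat.pow_le_pow_right (by norm_num) h4

theorem limit_zero (q : ℕ → ℝ) (n0 : ℕ) (h0 : ∀ t, 0 ≤ q t) (hanti : ∀ t, n0 ≤ t → q (t + 1) ≤ q t)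
    (D : ℕ → ℝ) (hD : ∀ k, 1 ≤ k → 0 < D k)
    (hq : ∀ k : ℕ, 1 ≤ k → ∀ J : ℕ, ∃ l, J ≤ l ∧ (q l - 1 / ((k : ℝ) + 1)) / D k ≤ q l - q (l + 1)) :
    Tendsto q atTop (𝓝 0) := by
  have hant : Antitone (fun t => q (n0 + t)) := by
    refine antitone_nat_of_succ_le (fun t => ?_)
    exact hanti (n0 + t) (by omega)
  have hbdd : BddBelow (Set.range fun t => q (n0 + t)) := by
    refine ⟨0, ?_⟩
    rintro _ ⟨t, rfl⟩
    exact h0 _
  have hlim' := tendsto_atTop_ciInf hant hbdd
  set L := ⨅ t, q (n0 + t) with hL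
  have hlim : Tendsto q atTop (𝓝 L) := by
    have h1 : (fun t => q (n0 + t)) = fun t => q (t + n0) := by
      funext t
      rw [add_comm]
    rw [h1] at hlim'
    exact (tendsto_add_atTop_iff_nat n0).1 hlim'
  have hge : ∀ l, n0 ≤ l → L ≤ q l := by
    intro l hl
    have h1 := ciInf_le hbdd (l - n0)
    rwa [show n0 + (l - n0) = l by omega] at h1
  have hL0 : 0 ≤ L := le_ciInf fun t => h0 _
  have hdiff : Tendsto (fun l => q l - q (l + 1)) atTop (𝓝 0) := by
    have h1 := hlim.sub ((tendsto_add_atTop_iff_nat 1).2 hlim)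
    rwa [sub_self] at h1
  have hle : ∀ k : ℕ, 1 ≤ k → L ≤ 1 / ((k : ℝ) + 1) := by
    intro k hk
    by_contra hcon
    push Not at hcon
    have hε : 0 < (L - 1 / ((k : ℝ) + 1)) / D k := div_pos (by linarith) (hD k hk)
    obtain ⟨J, hJ⟩ := Filter.eventually_atTop.1 (hdiff.eventually (gt_mem_nhds hε))
    obtain ⟨l, hl, hl'⟩ := hq k hk (max J n0)
    have h2 := hJ l (by omega)
    have h3 := hge l (by omega)
    have h4 : (L - 1 / ((k : ℝ) + 1)) / D k ≤ (q l - 1 / ((k : ℝ) + 1)) / D k := by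
      have := hD k hk
      gcongr
    linarith
  have hL' : L ≤ 0 := by
    have h1 : Tendsto (fun k : ℕ => 1 / ((k : ℝ) + 1)) atTop (𝓝 0) :=
      tendsto_one_div_add_atTop_nhds_zero_nat
    refine ge_of_tendsto h1 ?_
    filter_upwards [Filter.eventually_ge_atTop 1] with k hk
    exact hle k hk
  have : L = 0 := le_antisymm hL' hL0
  rwa [this] at hlim

end Pool.Agent.H42.PC

end GNu

section GStep
namespace Pool.Agent.H42.PC

open scoped Classical

variable {G Ω : Type} [Group G] [MulAction G Ω] {F : Ω → Ω} {b : Ω}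
  {d N s J1 J2 J3 n1 n2 n3 t1 t2 t3 n0 : ℕ} {O : ℕ → Set Ω}

/-- some level `≤ N` is moved by the inertia group. -/
theorem GStep_moved {P3 : Place G F b s J3 N} (hC3 : Cyc P3 n3 t3) (hI3 : InO P3 O)
    (hN : t3 + n3 ≤ N) : ∃ t, t ≤ N ∧ ∃ g ∈ P3.I, ∃ x ∈ O t, g • x ≠ x := by
  have hn := hC3.hn
  set r := n3 * (t3 / n3 + 1) with hr
  have e1 : n3 * (t3 / n3) ≤ t3 := Nat.mul_div_le t3 n3
  have e2 : t3 < n3 * (t3 / n3 + 1) := Nat.lt_mul_div_succ t3 (by omega)
  have e3 : r ≤ t3 + n3 := by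
    rw [hr, mul_add, mul_one]
    omega
  have hrN : r ≤ N := by omega
  obtain ⟨x, hx, hon⟩ := exists_onC hC3 hrN
  have hred : P3.red x = P3.red b := onC_eq hC3 hrN (Dvd.intro _ hr.symm) hx hon
  have hFx : F x ∈ lev F b (r - 1) := by
    have := lev_iter (j := 1) hx (by omega)
    simpa using this
  have honF : P3.OnC (F x) := by
    have := onC_iter P3 (j := 1) (by omega) hrN hx hon
    simpa using this
  obtain ⟨g, hg, -, hgx⟩ := hC3.hdig (r - 1) (by omega) (by omega) (F x) hFx honF x rfl hon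
    (by rw [hred]; exact hC3.hb)
  exact ⟨r, hrN, g, hg, x, hI3 r hrN x hx hon, hgx⟩

theorem step [Finite G] (hT : Tree G F b d N) (hO : Orb G F b n0 N O)
    {P1 : Place G F b s J1 N} (hC1 : Cyc P1 n1 t1) (hI1 : InO P1 O)
    {P2 : Place G F b s J2 N} (hC2 : Cyc P2 n2 t2) (hI2 : InO P2 O)
    {P3 : Place G F b s J3 N} (hC3 : Cyc P3 n3 t3) (hI3 : InO P3 O)
    (hd : Odd d) (hJ1 : 1 ≤ J1) (hs : 4 * s < d ^ J1) (hn0 : n0 ≤ t1) (ht12 : t1 ≤ J2)
    (k : ℕ) (hk : 1 ≤ k) (hN : t3 + n3 ≤ N)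
    (hJ3 : 2 * ((s + 1) * max n1 n2) * (k * d * s + 1) + 2 * max t1 t2 +
      2 * ((s + 1) * max n1 n2) + 1 ≤ J3) :
    ∃ l, J3 ≤ l ∧ l < N ∧
      (q G O l - 1 / ((k : ℝ) + 1)) / (((k * d) ^ (k * d) : ℕ) : ℝ) ≤ q G O l - q G O (l + 1) := by
  have hex := GStep_moved hC3 hI3 hN
  have hd1 : 1 ≤ d := hd.pos
  obtain ⟨hMN, δ, hδ, x1, hx1, hmv⟩ := Nat.find_spec hex
  have hmin := fun m (hm : m < Nat.find hex) => Nat.find_min hex hm
  have hM0 : Nat.find hex ≠ 0 := by
    intro h0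
    rw [h0] at hx1
    have h1 : x1 = b := hO.sub 0 (by omega) hx1
    apply hmv
    rw [h1, hT.fix]
  obtain ⟨l, hl⟩ := Nat.exists_eq_succ_of_ne_zero hM0
  rw [hl] at hx1 hMN
  have hlN : l < N := by omega
  have htriv : ∀ g ∈ P3.I, ∀ x ∈ O l, g • x = x := by
    intro g hg x hx
    by_contra hcon
    exact hmin l (by omega) ⟨by omega, g, hg, x, hx, hcon⟩
  have hFx1 : F x1 ∈ O l := hO.par l hlN x1 hx1
  set L := (s + 1) * max n1 n2 with hL
  set ts := max t1 t2 with hts
  have hn1 := hC1.hn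
  have hJ31 : 1 ≤ J3 := by omega
  have hJl : J3 ≤ l := sd_level hT hO P3 hC3.hb hJ31 hlN hδ htriv hFx1 hmv
  have hL1 : 1 ≤ L := by
    rw [hL]
    exact Nat.mul_pos (by omega) (lt_of_lt_of_le (by omega) (le_max_left n1 n2))
  have ht1 : t1 ≤ ts := le_max_left _ _
  have ht2 : t2 ≤ ts := le_max_right _ _
  have hn0l : n0 ≤ l := by omega
  have hbig : ∀ u ∈ O l, ∀ y ∈ O l, ∀ m < l, F^[l - m] u = F^[l - m] y →
      F^[l - m - 1] u ≠ F^[l - m - 1] y → J3 < l + 1 - m →
      k * d * (s * 2 ^ ((l - m) / (J3 + 1))) <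
        (MulAction.orbit (MulAction.stabilizer G u) y).ncard := by
    intro u hu y hy m hm he hne hJm
    have h1 : k * d * s < 2 ^ (k * d * s) := Nat.lt_two_pow_self
    have h2 := numeric (L := L) (ts := ts) (J := J3) (l := l) (m := m) h1 hL1 (by omega) hm hJm
    refine lt_of_lt_of_le h2 ?_
    refine orbit_big hT (t := l) (m0 := max (m + 1) ts) (L := L) ?_ _ ?_
    · intro m1 hm1 hm1L
      have e1 : m + 1 ≤ m1 := (le_max_left _ _).trans hm1
      have e2 : ts ≤ m1 := (le_max_right _ _).trans hm1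
      have := sep hT hO hC1 hI1 hC2 hI2 hd hJ1 hs hn0 ht12 (m := m) (m0 := m1) (L := L) (t := l)
        hlN.le e1 (ht1.trans e2) (ht2.trans e2)
        (Nat.mul_le_mul_left _ (le_max_left _ _)) (Nat.mul_le_mul_left _ (le_max_right _ _))
        hm1L hu hy he hne
      exact this
    · have e1 : max (m + 1) ts ≤ l := by
        rw [max_le_iff]
        omega
      have e2 : (l - max (m + 1) ts) / L * L ≤ l - max (m + 1) ts := Nat.div_mul_le_self _ _
      omega
  refine ⟨l, hJl, hlN, ?_⟩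
  refine q_step hT hO hd1 hn0l hlN k hk ?_
  intro g hg
  refine derange hT hO P3 hJ31 hn0l hlN hδ htriv hFx1 hmv k ?_ g hg
  intro U hU hUk a ha
  exact isolation hT hO P3 hJ31 hd1 hn0l hlN hδ htriv hFx1 hmv k hbig U hU hUk ha

end Pool.Agent.H42.PC

end GStep

section EIn
namespace Pool.Agent.H42.PC

variable {G Ω : Type} [Group G] [MulAction G Ω] {F : Ω → Ω} {b : Ω} {d N s J n t0 t1 n0 : ℕ}
  {O : ℕ → Set Ω}

theorem uniq_low (hT : Tree G F b d N) {P : Place G F b s J N} (hC : Cyc P n t0) {t : ℕ}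
    (ht : t ≤ N) (hJ : t ≤ J) {x x' : Ω} (hx : x ∈ lev F b t) (hx' : x' ∈ lev F b t)
    (h : P.OnC x) (h' : P.OnC x') : x = x' := by
  induction t generalizing x x' with
  | zero => exact (show x = b from hx).trans (show x' = b from hx').symm
  | succ t ih =>
    have h1 : F x ∈ lev F b t := lev_iter (j := 1) hx (by omega)
    have h1' : F x' ∈ lev F b t := lev_iter (j := 1) hx' (by omega)
    have h2 : P.OnC (F x) := onC_iter P (j := 1) (by omega) ht hx h
    have h2' : P.OnC (F x') := onC_iter P (j := 1) (by omega) ht hx' h'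
    have h3 := ih (by omega) (by omega) h1 h1' h2 h2'
    have h4 := uniq_child hC (by omega) hx hx' h3 h h'
    by_contra hne
    have hA : P.red x ∈ P.A := by
      by_contra hA
      exact hne (P.hone t (by omega) x hx x' hx' h3 h4 hA)
    have h5 := red_iter P (j := t + 1) le_rfl ht hx
    rw [show F^[t + 1] x = b from hx] at h5
    have h6 := (P.hJ _ hA _ hC.hb (t + 1) hJ 0 (by omega) h5.symm).2
    omega

theorem EIn_ex {P : Place G F b s J N} (hC : Cyc P n t0) {t : ℕ} {x : Ω} (hx : x ∈ lev F b t)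
    (h : P.OnC x) (j : ℕ) (hj : t + j ≤ N) : ∃ y, F^[j] y = x ∧ P.OnC y := by
  induction j with
  | zero => exact ⟨x, rfl, h⟩
  | succ j ih =>
    obtain ⟨y, hy, hon⟩ := ih (by omega)
    obtain ⟨z, hz, hz'⟩ := hC.hex (t + j) (by omega) y (lev_up (j := j) (by rw [hy]; exact hx)) hon
    exact ⟨z, by rw [Function.iterate_succ_apply, hz, hy], hz'⟩

theorem inO_of_one (hT : Tree G F b d N) (hO : Orb G F b n0 N O) {P : Place G F b s J N}
    (hC : Cyc P n t0) (hn : n0 ≤ N) (hJ : n0 ≤ J) {y0 : Ω} (hy : y0 ∈ O n0) (hon : P.OnC y0) :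
    InO P O := by
  intro t ht x hx hxon
  rcases le_or_gt n0 t with h | h
  · have h1 := lev_iter (j := t - n0) hx (by omega)
    rw [show t - (t - n0) = n0 by omega] at h1
    have h2 := onC_iter P (j := t - n0) (by omega) ht hx hxon
    have h3 := uniq_low hT hC hn hJ h1 (hO.sub n0 hn hy) h2 hon
    have h4 := orb_up hO (t := n0) (j := t - n0) le_rfl (by omega) (x := x) (by rw [h3]; exact hy)
    rwa [show n0 + (t - n0) = t by omega] at h4
  · obtain ⟨y, hy1, hy2⟩ := EIn_ex hC hx hxon (n0 - t) (by omega)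
    have h1 : y ∈ lev F b n0 := by
      have := lev_up (F := F) (b := b) (t := t) (j := n0 - t) (x := y) (by rw [hy1]; exact hx)
      rwa [show t + (n0 - t) = n0 by omega] at this
    have h3 := uniq_low hT hC hn hJ h1 (hO.sub n0 hn hy) hy2 hon
    have h4 := orb_iter hO (t := n0) (j := n0 - t) (by omega) hn (x := y) (by rw [h3]; exact hy)
    rwa [hy1, show n0 - (n0 - t) = t by omega] at h4

theorem Cyc.mono {P : Place G F b s J N} (hC : Cyc P n t0) (h : t0 ≤ t1) : Cyc P n t1 :=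
  ⟨hC.hn, hC.hb, hC.hcyc, hC.hex, fun m hm => hC.hdig m (h.trans hm)⟩

end Pool.Agent.H42.PC

end EIn
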