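import Pool.Agent.H42.PCM.D2
import Pool.Agent.H42.PCM.E1
import Pool.Agent.H42.PCM.G2

set_option autoImplicit false

section ETr
namespace Pool.Agent.H42.PC

open Polynomial NumberField

theorem comp_iter_comp {K : Type} [Field K] (f : K[X]) (t : ℕ) :
    (f.comp^[t] X).comp f = f.comp^[t + 1] X := by
  induction t with
  | zero => simp
  | succ n ih =>
    rw [Function.iterate_succ_apply', comp_assoc, ih, ← Function.iterate_succ_apply' f.comp]

theorem tree_of_splits {K L : Type} [Field K] [CharZero K] [Field L] [Algebra K L] {f : K[X]}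
    {β : K} (hd : 1 ≤ f.natDegree) (hGP : GP f β L) {N : ℕ}
    (hs : ∀ t ≤ N, ((f.comp^[t] X - C β).map (algebraMap K L)).Splits) :
    Tree (L ≃ₐ[K] L) (FA f L) (algebraMap K L β) f.natDegree N := by
  classical
  have key : ∀ t, t < N → ∀ x ∈ lev (FA f L) (algebraMap K L β) t,
      ∃ s : Finset L, {z | FA f L z = x} = ↑s ∧ s.card = f.natDegree := by
    intro t ht x hx
    have hx' : (FA f L)^[t] x = algebraMap K L β := hx
    set p : L[X] := f.map (algebraMap K L) - C x with hp
    have hdeg : p.natDegree = f.natDegree := by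
      rw [hp, natDegree_sub_C, natDegree_map]
    have hp0 : p ≠ 0 := by
      intro h0
      rw [h0, natDegree_zero] at hdeg
      omega
    have hdvd : p ∣ (f.comp^[t + 1] X - C β).map (algebraMap K L) := by
      have h1 : (X - C x) ∣ (f.comp^[t] X - C β).map (algebraMap K L) := by
        rw [dvd_iff_isRoot, IsRoot, eval_map_algebraMap, itp_aeval, hx', sub_self]
      obtain ⟨w, hw⟩ := h1
      refine ⟨w.comp (f.map (algebraMap K L)), ?_⟩
      have h2 : (f.comp^[t + 1] X - C β) = (f.comp^[t] X - C β).comp f := by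
        rw [sub_comp, C_comp, comp_iter_comp]
      rw [h2, Polynomial.map_comp, hw, mul_comp, sub_comp, X_comp, C_comp]
    have hne : (f.comp^[t + 1] X - C β).map (algebraMap K L) ≠ 0 := by
      intro h0
      have h1 : ((f.comp^[t + 1] X - C β).map (algebraMap K L)).natDegree = 0 := by
        rw [h0, natDegree_zero]
      rw [natDegree_map, itp_natDegree hd] at h1
      have : 1 ≤ f.natDegree ^ (t + 1) := Nat.one_le_pow _ _ hd
      omega
    have hsp : p.Splits := (hs (t + 1) ht).of_dvd hne hdvd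
    have hroot : ∀ z, z ∈ p.roots ↔ FA f L z = x := by
      intro z
      rw [mem_roots hp0, IsRoot, hp, Polynomial.eval_sub, eval_C, sub_eq_zero]
      rfl
    have hnd : p.roots.Nodup := by
      rw [Multiset.nodup_iff_count_le_one]
      intro z
      rw [count_roots]
      by_contra hcon
      push Not at hcon
      rw [one_lt_rootMultiplicity_iff_isRoot hp0] at hcon
      obtain ⟨h1, h2⟩ := hcon
      have h3 : FA f L z = x := (hroot z).mp ((mem_roots hp0).mpr h1)
      have h4 : aeval z (derivative f) = 0 := by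
        rw [← eval_map_algebraMap, ← derivative_map]
        have : derivative p = derivative (f.map (algebraMap K L)) := by
          rw [hp, derivative_sub, derivative_C, sub_zero]
        rw [this] at h2
        exact h2
      refine no_tree_crit hGP h4 (t := t + 1) (by omega) ?_
      rw [Function.iterate_succ_apply, h3, hx']
    refine ⟨p.roots.toFinset, ?_, ?_⟩
    · ext z
      simp only [Set.mem_ofPred_eq, Finset.mem_coe, Multiset.mem_toFinset]
      exact (hroot z).symm
    · rw [Multiset.toFinset_card_of_nodup hnd, ← hsp.natDegree_eq_card_roots, hdeg]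
  refine ⟨?_, ?_, ?_, ?_, ?_⟩
  · intro g x
    have := FA_smul (f := f) g x 1
    rw [Function.iterate_one] at this
    exact this.symm
  · intro g
    rw [AlgEquiv.smul_def, AlgEquiv.commutes]
  · intro t ht
    exact aper hGP ht
  · intro t ht x hx
    obtain ⟨s, hs1, -⟩ := key t ht x hx
    rw [hs1]
    exact s.finite_toSet
  · intro t ht x hx
    obtain ⟨s, hs1, hs2⟩ := key t ht x hx
    rw [hs1, Set.ncard_coe_finset, hs2]

theorem exists_field {K M : Type} [Field K] [NumberField K] [Field M] [NumberField M]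
    [Algebra K M] (f : K[X]) (β : K) [IsSplittingField K M (derivative f)] (N : ℕ) :
    ∃ (L : Type) (_ : Field L) (_ : NumberField L) (_ : Algebra K L) (_ : Algebra M L)
      (_ : IsScalarTower K M L) (_ : IsGalois K L),
      ∀ t ≤ N, ((f.comp^[t] X - C β).map (algebraMap K L)).Splits := by
  classical
  obtain ⟨f', hf', hsf⟩ : ∃ f' : K[X], f' ≠ 0 ∧ IsSplittingField K M f' := by
    by_cases h0 : derivative f = 0
    · refine ⟨1, one_ne_zero, ?_⟩
      have hs : IsSplittingField K M (derivative f) := inferInstance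
      have h1 := IsSplittingField.adjoin_rootSet M (derivative f)
      refine ⟨?_, ?_⟩
      · rw [Polynomial.map_one]
        exact Splits.one
      · rw [h0, rootSet_zero] at h1
        rw [rootSet_one]
        exact h1
    · exact ⟨derivative f, h0, inferInstance⟩
  set g : K[X] := ∏ t ∈ (Finset.range (N + 1)).filter (fun t => f.comp^[t] X - C β ≠ 0),
    (f.comp^[t] X - C β) with hg
  have hg0 : g ≠ 0 := by
    rw [hg, Finset.prod_ne_zero_iff]
    intro t ht
    exact (Finset.mem_filter.mp ht).2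
  let L : Type := (g.map (algebraMap K M)).SplittingField
  have : IsScalarTower K M L := inferInstance
  have : IsSplittingField M L (g.map (algebraMap K M)) :=
    Polynomial.IsSplittingField.splittingField _
  have : IsSplittingField K L (f' * g) := IsSplittingField.mul (K := M) L f' g hf' hg0
  have : Normal K L := Normal.of_isSplittingField (f' * g)
  have : NumberField L := NumberField.of_module_finite M L
  have : IsGalois K L := IsGalois.mk
  refine ⟨L, inferInstance, inferInstance, inferInstance, inferInstance, inferInstance,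
    inferInstance, ?_⟩
  intro t ht
  by_cases h0 : f.comp^[t] X - C β = 0
  · rw [h0, Polynomial.map_zero]
    exact Splits.zero
  · have hdvd : (f.comp^[t] X - C β) ∣ g := by
      rw [hg]
      refine Finset.dvd_prod_of_mem _ ?_
      rw [Finset.mem_filter, Finset.mem_range]
      exact ⟨by omega, h0⟩
    have h1 : (g.map (algebraMap K L)).Splits := by
      have := IsSplittingField.splits L (g.map (algebraMap K M))
      rw [map_map, ← IsScalarTower.algebraMap_eq] at this
      exact this
    refine h1.of_dvd ?_ (Polynomial.map_dvd _ hdvd)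
    rwa [Ne, Polynomial.map_eq_zero]

end Pool.Agent.H42.PC

end ETr

section ESt
namespace Pool.Agent.H42.PC

open Polynomial

theorem exists_stab {K : Type} [Field K] [CharZero K] {f : K[X]} {β : K} (hd : 1 ≤ f.natDegree)
    (h : ES f β) : ∃ n0, Stab f β n0 := by
  classical
  obtain ⟨B, hB⟩ := h
  set A := AlgebraicClosure K with hA
  set F : A → A := FA f A with hF
  set b : A := algebraMap K A β with hb
  set R : ℕ → Set A := fun n => {x | F^[n] x = b} with hR
  have hP : ∀ n, (f.comp^[n] X - C β) ≠ 0 := by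
    intro n h0
    have h1 := itp_natDegree (β := β) hd n
    rw [h0, natDegree_zero] at h1
    have h2 : 0 < f.natDegree ^ n := pow_pos (by omega) n
    omega
  have hRfin : ∀ n, (R n).Finite := by
    intro n
    refine ((f.comp^[n] X - C β).rootSet_finite A).subset ?_
    intro x hx
    rw [mem_rootSet]
    refine ⟨hP n, ?_⟩
    rw [itp_aeval]
    have hx' : (FA f A)^[n] x = algebraMap K A β := hx
    rw [hx', sub_self]
  have hint : ∀ x : A, IsIntegral K x := fun x => Algebra.IsIntegral.isIntegral x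
  have hS : ∀ n, {g : K[X] | g.Monic ∧ Irreducible g ∧ g ∣ f.comp^[n] X - C β} =
      minpoly K '' R n := by
    intro n
    ext g
    constructor
    · rintro ⟨h1, h2, h3⟩
      obtain ⟨x, hx⟩ := IsAlgClosed.exists_aeval_eq_zero A g (by
        intro h0
        exact h2.not_isUnit (isUnit_iff_degree_eq_zero.2 h0))
      refine ⟨x, ?_, (minpoly.eq_of_irreducible_of_monic h2 hx h1).symm⟩
      have h4 : aeval x (f.comp^[n] X - C β) = 0 := by
        obtain ⟨q, hq⟩ := h3
        rw [hq, map_mul, hx, zero_mul]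
      rw [itp_aeval, sub_eq_zero] at h4
      exact h4
    · rintro ⟨x, hx, rfl⟩
      refine ⟨minpoly.monic (hint x), minpoly.irreducible (hint x), minpoly.dvd K x ?_⟩
      rw [itp_aeval, sub_eq_zero]
      exact hx
  have hFR : ∀ n x, x ∈ R (n + 1) → F x ∈ R n := by
    intro n x hx
    have hx' : F^[n + 1] x = b := hx
    rw [Function.iterate_succ_apply] at hx'
    exact hx'
  have hsurj : ∀ n y, y ∈ R n → ∃ x ∈ R (n + 1), F x = y := by
    intro n y hy
    obtain ⟨x, hx⟩ := IsAlgClosed.exists_root ((f.map (algebraMap K A)) - C y) (by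
      intro h0
      have h1 : ((f.map (algebraMap K A)) - C y).natDegree = f.natDegree := by
        rw [natDegree_sub_C, natDegree_map]
      have h2 := natDegree_eq_zero_iff_degree_le_zero.2 h0.le
      omega)
    have h3 : F x = y := by
      have : (f.map (algebraMap K A)).eval x - y = 0 := by
        have := hx
        rwa [IsRoot.def, Polynomial.eval_sub, eval_C] at this
      exact sub_eq_zero.1 this
    refine ⟨x, ?_, h3⟩
    show F^[n + 1] x = b
    rw [Function.iterate_succ_apply, h3]
    exact hy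
  have hFa : ∀ x : A, F x = aeval x f := fun x => FA_apply x
  have hwd : ∀ x x' : A, minpoly K x = minpoly K x' → minpoly K (F x) = minpoly K (F x') := by
    intro x x' hxx
    refine minpoly.eq_of_irreducible_of_monic (minpoly.irreducible (hint _)) ?_
      (minpoly.monic (hint _))
    have h1 : aeval x ((minpoly K (F x)).comp f) = 0 := by
      rw [aeval_comp, ← hFa x]
      exact minpoly.aeval K (F x)
    have h2 : minpoly K x ∣ (minpoly K (F x)).comp f := minpoly.dvd K x h1
    rw [hxx] at h2
    have h3 : aeval x' ((minpoly K (F x)).comp f) = 0 := by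
      obtain ⟨q, hq⟩ := h2
      rw [hq, map_mul, minpoly.aeval, zero_mul]
    rw [aeval_comp, ← hFa x'] at h3
    exact h3
  -- the map on factors
  set φ : ℕ → K[X] → K[X] := fun n g =>
    if h : ∃ x ∈ R (n + 1), minpoly K x = g then minpoly K (F h.choose) else 0 with hφ
  have hφx : ∀ n x, x ∈ R (n + 1) → φ n (minpoly K x) = minpoly K (F x) := by
    intro n x hx
    have hex : ∃ y ∈ R (n + 1), minpoly K y = minpoly K x := ⟨x, hx, rfl⟩
    show (if h : ∃ y ∈ R (n + 1), minpoly K y = minpoly K x then minpoly K (F h.choose) else 0) = _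
    rw [dif_pos hex]
    exact hwd _ _ hex.choose_spec.2
  have himg : ∀ n, φ n '' (minpoly K '' R (n + 1)) = minpoly K '' R n := by
    intro n
    ext g
    constructor
    · rintro ⟨_, ⟨x, hx, rfl⟩, rfl⟩
      exact ⟨F x, hFR n x hx, (hφx n x hx).symm⟩
    · rintro ⟨y, hy, rfl⟩
      obtain ⟨x, hx, hxy⟩ := hsurj n y hy
      refine ⟨minpoly K x, ⟨x, hx, rfl⟩, ?_⟩
      rw [hφx n x hx, hxy]
  set r : ℕ → ℕ := fun n => (minpoly K '' R n).ncard with hr
  have hfin : ∀ n, (minpoly K '' R n).Finite := fun n => (hRfin n).image _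
  have hrB : ∀ n, r n ≤ B := fun n => by
    have := hB n
    rw [hS n] at this
    exact this
  have hstep : ∀ n, r n ≤ r (n + 1) := by
    intro n
    show (minpoly K '' R n).ncard ≤ _
    rw [← himg n]
    exact Set.ncard_image_le (hfin (n + 1))
  have hmono : Monotone r := monotone_nat_of_le_succ hstep
  obtain ⟨n0, hn0⟩ : ∃ n0, ∀ n, r n ≤ r n0 := by
    have hne : (Set.range r).Nonempty := Set.range_nonempty r
    have hbdd : BddAbove (Set.range r) := ⟨B, by rintro _ ⟨n, rfl⟩; exact hrB n⟩
    obtain ⟨n0, h1⟩ := Nat.sSup_mem hne hbdd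
    exact ⟨n0, fun n => h1 ▸ le_csSup hbdd ⟨n, rfl⟩⟩
  refine ⟨n0, fun n hn x x' hx hx' hm => ?_⟩
  have heq : r (n + 1) = r n :=
    le_antisymm ((hn0 _).trans (hmono hn)) (hstep n)
  have hinj : Set.InjOn (φ n) (minpoly K '' R (n + 1)) := by
    rw [← Set.ncard_image_iff (hfin (n + 1)), himg n]
    exact heq.symm
  refine hinj ⟨x, hx, rfl⟩ ⟨x', hx', rfl⟩ ?_
  rw [hφx n x hx, hφx n x' hx']
  exact hm

end Pool.Agent.H42.PC

end ESt

section EOr
namespace Pool.Agent.H42.PC

open Polynomial

section EOrAux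

variable {K L : Type} [Field K] [CharZero K] [Field L] [Algebra K L] [IsGalois K L]
  {f h : K[X]} {β : K} {n0 N : ℕ}

omit [CharZero K] [IsGalois K L] in
theorem EOr_root (hdvd : h ∣ f.comp^[n0] X - C β) {y : L} (hy : aeval y h = 0) :
    (FA f L)^[n0] y = algebraMap K L β := by
  obtain ⟨q, hq⟩ := hdvd
  have h1 := itp_aeval (f := f) (β := β) n0 y
  rw [hq, map_mul, hy, zero_mul] at h1
  exact (sub_eq_zero.1 h1.symm)

omit [CharZero K] [IsGalois K L] in
theorem EOr_sub (hdvd : h ∣ f.comp^[n0] X - C β) (t : ℕ) :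
    OO f h n0 L t ⊆ lev (FA f L) (algebraMap K L β) t := by
  rintro x ⟨y, hy, h1 | h1⟩
  · obtain ⟨h2, h3⟩ := h1
    show (FA f L)^[t] x = algebraMap K L β
    have : t = n0 + (t - n0) := by omega
    rw [this, Function.iterate_add_apply, h3]
    exact EOr_root hdvd hy
  · obtain ⟨h2, h3⟩ := h1
    show (FA f L)^[t] x = algebraMap K L β
    rw [← h3, ← Function.iterate_add_apply, show t + (n0 - t) = n0 by omega]
    exact EOr_root hdvd hy

omit [CharZero K] [IsGalois K L] in
theorem EOr_full {t : ℕ} (h0 : n0 ≤ t) {x : L} (hx : FA f L x ∈ OO f h n0 L t) :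
    x ∈ OO f h n0 L (t + 1) := by
  obtain ⟨y, hy, h1 | h1⟩ := hx
  · refine ⟨y, hy, Or.inl ⟨by omega, ?_⟩⟩
    rw [show t + 1 - n0 = (t - n0) + 1 by omega, Function.iterate_succ_apply]
    exact h1.2
  · omega

omit [CharZero K] [IsGalois K L] in
theorem EOr_inv (t : ℕ) (g : L ≃ₐ[K] L) {x : L} (hx : x ∈ OO f h n0 L t) :
    g • x ∈ OO f h n0 L t := by
  obtain ⟨y, hy, h1⟩ := hx
  have hgy : aeval (g • y) h = 0 := by
    change aeval (g y) h = 0
    have h2 := Polynomial.aeval_algHom_apply (g : L →ₐ[K] L) y h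
    change aeval (g y) h = g (aeval y h) at h2
    rw [h2, hy, map_zero]
  refine ⟨g • y, hgy, ?_⟩
  rcases h1 with h1 | h1
  · refine Or.inl ⟨h1.1, ?_⟩
    rw [← FA_smul, h1.2]
  · refine Or.inr ⟨h1.1, ?_⟩
    rw [← FA_smul, h1.2]

omit [CharZero K] in
theorem EOr_conj {x y : L} (hxy : minpoly K x = minpoly K y) : ∃ g : L ≃ₐ[K] L, g • x = y := by
  have h1 := (Normal.minpoly_eq_iff_mem_orbit (F := K) L).1 hxy.symm
  obtain ⟨g, hg⟩ := h1
  exact ⟨g, hg⟩

omit [CharZero K] [IsGalois K L] in
theorem EOr_min (g : L ≃ₐ[K] L) (x : L) : minpoly K (g • x) = minpoly K x :=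
  minpoly.algEquiv_eq g x

omit [CharZero K] in
theorem EOr_roots (hm : h.Monic) (hi : Irreducible h) {y y' : L} (hy : aeval y h = 0)
    (hy' : aeval y' h = 0) : ∃ g : L ≃ₐ[K] L, g • y = y' := by
  apply EOr_conj
  rw [← minpoly.eq_of_irreducible_of_monic hi hy hm, ← minpoly.eq_of_irreducible_of_monic hi hy' hm]

end EOrAux

theorem orb_of_stab {K L : Type} [Field K] [CharZero K] [Field L] [Algebra K L] [IsGalois K L]
    {f h : K[X]} {β : K} (hd : 1 ≤ f.natDegree) {n0 N : ℕ} (hN : n0 ≤ N)
    (hT : Tree (L ≃ₐ[K] L) (FA f L) (algebraMap K L β) f.natDegree N)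
    (hs : ∀ t ≤ N, ((f.comp^[t] X - C β).map (algebraMap K L)).Splits)
    (hst : Stab f β n0) (hm : h.Monic) (hi : Irreducible h) (hdvd : h ∣ f.comp^[n0] X - C β) :
    Orb (L ≃ₐ[K] L) (FA f L) (algebraMap K L β) n0 N (OO f h n0 L) := by
  have hpar : ∀ t < N, ∀ x ∈ OO f h n0 L (t + 1), FA f L x ∈ OO f h n0 L t := by
    rintro t ht x ⟨y, hy, h1 | h1⟩
    · obtain ⟨h2, h3⟩ := h1
      rcases Nat.lt_or_ge t n0 with h4 | h4
      · have h5 : t + 1 = n0 := by omega
        have h6 : t + 1 - n0 = 0 := by omega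
        rw [h6, Function.iterate_zero, id] at h3
        refine ⟨y, hy, Or.inr ⟨h4, ?_⟩⟩
        rw [show n0 - t = 1 by omega, Function.iterate_one, h3]
      · refine ⟨y, hy, Or.inl ⟨h4, ?_⟩⟩
        rw [← Function.iterate_succ_apply, show (t - n0).succ = t + 1 - n0 by omega]
        exact h3
    · obtain ⟨h2, h3⟩ := h1
      refine ⟨y, hy, Or.inr ⟨by omega, ?_⟩⟩
      rw [← h3, ← Function.iterate_succ_apply' (FA f L),
        show (n0 - (t + 1)).succ = n0 - t by omega]
  have hroot : ∃ y : L, aeval y h = 0 := by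
    have hdeg : (f.comp^[n0] X - C β : K[X]) ≠ 0 := by
      intro h0
      have h1 := itp_natDegree (f := f) (β := β) hd n0
      rw [h0, natDegree_zero] at h1
      have : 0 < f.natDegree ^ n0 := Nat.pow_pos hd
      omega
    have h1 : (h.map (algebraMap K L)).Splits := by
      refine (hs n0 hN).of_dvd ?_ (Polynomial.map_dvd _ hdvd)
      rw [Ne, Polynomial.map_eq_zero_iff (algebraMap K L).injective]
      exact hdeg
    obtain ⟨y, hy⟩ := h1.exists_eval_eq_zero (by
      rw [degree_map]
      exact hi.degree_pos.ne')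
    exact ⟨y, by rwa [eval_map_algebraMap] at hy⟩
  have hne : ∀ t ≤ N, (OO f h n0 L t).Nonempty := by
    intro t
    induction t with
    | zero =>
      intro _
      obtain ⟨y, hy⟩ := hroot
      rcases Nat.eq_zero_or_pos n0 with h0 | h0
      · exact ⟨y, y, hy, Or.inl ⟨by omega, by rw [h0]; rfl⟩⟩
      · exact ⟨(FA f L)^[n0 - 0] y, y, hy, Or.inr ⟨h0, rfl⟩⟩
    | succ t ih =>
      intro ht
      rcases Nat.lt_or_ge t n0 with h4 | h4
      · obtain ⟨y, hy⟩ := hroot
        rcases Nat.lt_or_ge (t + 1) n0 with h5 | h5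
        · exact ⟨(FA f L)^[n0 - (t + 1)] y, y, hy, Or.inr ⟨h5, rfl⟩⟩
        · exact ⟨y, y, hy, Or.inl ⟨h5, by rw [show t + 1 - n0 = 0 by omega]; rfl⟩⟩
      · obtain ⟨x, hx⟩ := ih (by omega)
        have h6 := hT.fib t (by omega) x (EOr_sub hdvd t hx)
        have h7 : {z | FA f L z = x}.ncard ≠ 0 := by omega
        obtain ⟨z, hz⟩ := Set.nonempty_of_ncard_ne_zero h7
        exact ⟨z, EOr_full h4 (by rw [show FA f L z = x from hz]; exact hx)⟩
  have htrge : ∀ j, n0 + j ≤ N → ∀ x ∈ OO f h n0 L (n0 + j), ∀ x' ∈ OO f h n0 L (n0 + j),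
      ∃ g : L ≃ₐ[K] L, g • x = x' := by
    intro j
    induction j with
    | zero =>
      rintro _ x ⟨y, hy, h1 | h1⟩ x' ⟨y', hy', h1' | h1'⟩
      · have e1 := h1.2
        have e2 := h1'.2
        rw [show n0 + 0 - n0 = 0 by omega, Function.iterate_zero, id] at e1 e2
        rw [e1, e2]
        exact EOr_roots hm hi hy hy'
      · omega
      · omega
      · omega
    | succ j ih =>
      intro hj x hx x' hx'
      have hFx := hpar (n0 + j) (by omega) x hx
      have hFx' := hpar (n0 + j) (by omega) x' hx'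
      obtain ⟨g, hg⟩ := ih (by omega) _ hFx _ hFx'
      have hmp : minpoly K (FA f L x) = minpoly K (FA f L x') := by
        rw [← hg, EOr_min]
      let ι : L →ₐ[K] AlgebraicClosure K := IsAlgClosed.lift
      have hlx : (FA f L)^[n0 + j + 1] x = algebraMap K L β := EOr_sub hdvd _ hx
      have hlx' : (FA f L)^[n0 + j + 1] x' = algebraMap K L β := EOr_sub hdvd _ hx'
      have h1 := hst (n0 + j) (by omega) (ι x) (ι x')
        (by rw [← FA_iter, hlx, AlgHom.commutes]) (by rw [← FA_iter, hlx', AlgHom.commutes])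
        (by rw [← FA_hom, ← FA_hom, minpoly.algHom_eq ι ι.injective,
              minpoly.algHom_eq ι ι.injective, hmp])
      rw [minpoly.algHom_eq ι ι.injective, minpoly.algHom_eq ι ι.injective] at h1
      exact EOr_conj h1
  refine ⟨fun t _ => EOr_sub hdvd t, hne, fun t _ g x hx => EOr_inv t g hx, ?_, hpar,
    fun t h0 _ x hx => EOr_full h0 hx⟩
  intro t ht x hx x' hx'
  rcases Nat.lt_or_ge t n0 with h4 | h4
  · obtain ⟨y, hy, h1 | h1⟩ := hx
    · omega
    · obtain ⟨y', hy', h1' | h1'⟩ := hx'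
      · omega
      · obtain ⟨g, hg⟩ := EOr_roots hm hi hy hy'
        exact ⟨g, by rw [← h1.2, ← h1'.2, FA_smul, hg]⟩
  · have := htrge (t - n0) (by omega)
    rw [show n0 + (t - n0) = t by omega] at this
    exact this x hx x' hx'

end Pool.Agent.H42.PC

end EOr

section EPl
namespace Pool.Agent.H42.PC

open Polynomial NumberField IsDedekindDomain WithZero

open scoped Classical

theorem exists_over {K L : Type} [Field K] [NumberField K] [Field L] [NumberField L]
    [Algebra K L] (v : HeightOneSpectrum (𝓞 K)) :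
    ∃ w : HeightOneSpectrum (𝓞 L), w.asIdeal.LiesOver v.asIdeal := by
  obtain ⟨⟨P, hP, hPv⟩⟩ := v.asIdeal.nonempty_primesOver (S := 𝓞 L)
  exact ⟨⟨P, hP, Ideal.ne_bot_of_liesOver_of_ne_bot v.ne_bot P⟩, hPv⟩

/-- One factor of a product of elements of value `< 1` has value `< 1`. -/
theorem EPl_prod_near {L : Type} [Field L] (V : Valuation L ℤᵐ⁰) (z : L) (s : Multiset L)
    (h : V (s.map (fun y => z - y)).prod < 1) : ∃ y ∈ s, V (z - y) < 1 := by
  by_contra hc
  push Not at hc
  induction s using Multiset.induction_on with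
  | empty => simp at h
  | cons a s ih =>
    rw [Multiset.map_cons, Multiset.prod_cons, map_mul] at h
    have h1 : 1 ≤ V (z - a) := hc a (Multiset.mem_cons_self a s)
    have h2 : ¬ V (s.map (fun y => z - y)).prod < 1 := fun h2 =>
      ih h2 (fun y hy => hc y (Multiset.mem_cons_of_mem hy))
    exact absurd h (not_lt.2 (one_le_mul h1 (not_lt.1 h2)))

theorem place_over {K M L : Type} [Field K] [NumberField K] [Field M] [NumberField M] [Field L]
    [NumberField L] [Algebra K M] [Algebra M L] [Algebra K L] [IsScalarTower K M L] [IsGalois K L]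
    {f h : K[X]} {β : K} (hd : 2 ≤ f.natDegree) (hGP : GP f β M)
    (hM : ((derivative f).map (algebraMap K M)).Splits) {J n0 N s n v0 : ℕ}
    {v : HeightOneSpectrum (𝓞 K)} (hv : GoodK f β M J v) (hn0 : n0 ≤ N) (hJ0 : n0 ≤ J)
    (hT : Tree (L ≃ₐ[K] L) (FA f L) (algebraMap K L β) f.natDegree N)
    (hO : Orb (L ≃ₐ[K] L) (FA f L) (algebraMap K L β) n0 N (OO f h n0 L))
    (hs : ∀ t ≤ N, ((f.comp^[t] X - C β).map (algebraMap K L)).Splits)
    (hm : h.Monic) (hdvd : h ∣ f.comp^[n0] X - C β) (hcard : (Wd f M).card ≤ s)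
    (hn : 1 ≤ n) (hv0 : 1 ≤ v0) (hval : v.valuation K ((FA f K)^[n] β - β) = exp (-(v0 : ℤ)))
    {k : ℕ} (hk : v.valuation K (h.eval ((FA f K)^[k] β)) < 1)
    (w : HeightOneSpectrum (𝓞 L)) (hw : w.asIdeal.LiesOver v.asIdeal) :
    ∃ hG : Good (mkLoc K w) (f.map (algebraMap K L)) (algebraMap K L β)
        ((Wd f M).image (algebraMap M L)) J,
      Cyc (mkPlace hG s N (Finset.card_image_le.trans hcard)) n ((n + 1) * (n * (v0 + 1))) ∧
      InO (mkPlace hG s N (Finset.card_image_le.trans hcard)) (OO f h n0 L) := by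
  have hG : Good (mkLoc K w) (f.map (algebraMap K L)) (algebraMap K L β)
        ((Wd f M).image (algebraMap M L)) J := good_of_goodK hd hGP hM hv w hw
  have hcI : 0 < Nat.card (w.asIdeal.inertia (L ≃ₐ[K] L)) := Nat.card_pos
  have hlt : ∀ x : K, v.valuation K x < 1 → w.valuation L (algebraMap K L x) < 1 := by
    intro x hx
    rw [val_pow v w hw]
    exact pow_lt_one' hx hcI.ne'
  have hcyc : Cyc (mkPlace hG s N (Finset.card_image_le.trans hcard)) n
      ((n + 1) * (n * (v0 + 1))) := by
    refine strong_cyc hG (Finset.card_image_le.trans hcard) ?_ hn hv0 ?_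
    · rw [natDegree_map]
      exact hT
    · have h1 : (mkLoc K w).V ((FA f L)^[n] (algebraMap K L β) - algebraMap K L β) =
          w.valuation L (algebraMap K L ((FA f K)^[n] β - β)) := by
        rw [map_sub (algebraMap K L), FA_base]
        rfl
      refine h1.trans ?_
      rw [val_pow v w hw, hval, ← exp_nsmul]
      congr 1
      rw [nsmul_eq_mul]
      show ((Nat.card (w.asIdeal.inertia (L ≃ₐ[K] L)) : ℕ) : ℤ) * -(v0 : ℤ) =
        -((v0 : ℤ) * ((Nat.card (w.asIdeal.inertia (L ≃ₐ[K] L)) : ℕ) : ℤ))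
      ring
  refine ⟨hG, hcyc, ?_⟩
  have hspl : (h.map (algebraMap K L)).Splits := by
    refine (hs n0 hn0).of_dvd ?_ ?_
    · rw [Ne, Polynomial.map_eq_zero]
      intro h0
      have := itp_natDegree (f := f) (β := β) (le_trans (by norm_num) hd) n0
      rw [h0, natDegree_zero] at this
      have h2 : 0 < f.natDegree ^ n0 := pow_pos (by omega) _
      omega
    · exact Polynomial.map_dvd _ hdvd
  set z : L := algebraMap K L ((FA f K)^[k] β) with hz
  have hzv : w.valuation L ((h.map (algebraMap K L)).eval z) < 1 := by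
    rw [hz, eval_map_algebraMap, aeval_algebraMap_apply]
    exact hlt _ (by simpa using hk)
  rw [hspl.eval_eq_prod_roots_of_monic (hm.map _)] at hzv
  obtain ⟨y, hy, hyz⟩ := EPl_prod_near _ _ _ hzv
  have hyr : aeval y h = 0 := by
    have := (mem_roots'.1 hy).2
    rwa [IsRoot.def, eval_map_algebraMap] at this
  refine inO_of_one hT hO hcyc hn0 hJ0 (y0 := y) ?_ ?_
  · exact ⟨y, hyr, Or.inl ⟨le_rfl, by simp⟩⟩
  · rw [onC_iff]
    refine ⟨k, ?_⟩
    rw [Valuation.map_sub_swap]
    have : (FA f L)^[k] (algebraMap K L β) = z := by rw [hz, FA_base]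
    show w.valuation L ((FA f L)^[k] (algebraMap K L β) - y) < 1
    rw [this]
    exact hyz

end Pool.Agent.H42.PC

end EPl
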