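import Pool.Agent.H42.PCM.B1
import Pool.Agent.H42.PCM.E1
import Pool.Agent.H42.PCM.E2
import Pool.Agent.H42.PCM.G2

set_option autoImplicit false

section EQ
namespace Pool.Agent.H42.PC

open Polynomial

private theorem EQ_card {G' G : Type} [Group G'] [Group G] (φ : G' →* G)
    (hφ : Function.Surjective φ) (p : G → Prop) :
    Nat.card {g : G' // p (φ g)} = Nat.card {g : G // p g} * Nat.card φ.ker := by
  choose σ hσ using hφ
  rw [← Nat.card_prod]
  refine Nat.card_congr
    { toFun := fun g => (⟨φ g.1, g.2⟩, ⟨(σ (φ g.1))⁻¹ * g.1, ?_⟩)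
      invFun := fun y => ⟨σ y.1.1 * y.2.1, ?_⟩
      left_inv := ?_
      right_inv := ?_ }
  · rw [MonoidHom.mem_ker, map_mul, map_inv, hσ, inv_mul_cancel]
  · have := y.2.2
    rw [MonoidHom.mem_ker] at this
    rw [map_mul, hσ, this, mul_one]
    exact y.1.2
  · rintro ⟨g, hg⟩
    simp
  · rintro ⟨⟨y, hy⟩, ⟨k, hk⟩⟩
    rw [MonoidHom.mem_ker] at hk
    simp [hσ, hk]

private theorem EQ_ratio {G' G : Type} [Group G'] [Group G] [Finite G'] (φ : G' →* G)
    (hφ : Function.Surjective φ) (p' : G' → Prop) (p : G → Prop) (h : ∀ g, p' g ↔ p (φ g)) :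
    (Nat.card {g : G' // p' g} : ℝ) / Nat.card G' = (Nat.card {g : G // p g} : ℝ) / Nat.card G := by
  have h1 : Nat.card {g : G' // p' g} = Nat.card {g : G' // p (φ g)} :=
    Nat.card_congr (Equiv.subtypeEquivRight h)
  have h2 : Nat.card G' = Nat.card G * Nat.card φ.ker := by
    have := EQ_card φ hφ (fun _ => True)
    rwa [Nat.card_congr (Equiv.subtypeUnivEquiv (fun _ => trivial)),
      Nat.card_congr (Equiv.subtypeUnivEquiv (fun _ => trivial))] at this
  have hk : (Nat.card φ.ker : ℝ) ≠ 0 := by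
    have : 0 < Nat.card φ.ker := Nat.card_pos
    positivity
  rw [h1, EQ_card φ hφ p, h2]
  push_cast
  rw [mul_div_mul_right _ _ hk]

private theorem EQ_mem {K A : Type} [Field K] [Field A] [Algebra K A] {f h : K[X]} {n0 t : ℕ}
    (hn : n0 ≤ t) (x : A) : x ∈ OO f h n0 A t ↔ aeval ((FA f A)^[t - n0] x) h = 0 := by
  constructor
  · rintro ⟨y, hy, (⟨-, h1⟩ | ⟨h1, -⟩)⟩
    · rw [h1]
      exact hy
    · omega
  · intro hx
    exact ⟨_, hx, Or.inl ⟨hn, rfl⟩⟩

private theorem EQ_root {K A : Type} [Field K] [Field A] [Algebra K A] {f h : K[X]} {β : K}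
    {n0 t : ℕ} (hn : n0 ≤ t) (hdvd : h ∣ f.comp^[n0] X - C β) (x : A)
    (hx : aeval ((FA f A)^[t - n0] x) h = 0) : aeval x (f.comp^[t] X - C β) = 0 := by
  obtain ⟨r, hr⟩ := hdvd
  have h1 : aeval ((FA f A)^[t - n0] x) (f.comp^[n0] X - C β) = 0 := by
    rw [hr, map_mul, hx, zero_mul]
  rw [itp_aeval, ← Function.iterate_add_apply, Nat.add_sub_cancel' hn] at h1
  rw [itp_aeval]
  exact h1

theorem q_indep {K L : Type} [Field K] [CharZero K] [Field L] [Algebra K L] [IsGalois K L]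
    [FiniteDimensional K L] {f h : K[X]} {β : K} {n0 t : ℕ} (hd : 1 ≤ f.natDegree) (hn : n0 ≤ t)
    (hdvd : h ∣ f.comp^[n0] X - C β)
    (hs : ((f.comp^[t] X - C β).map (algebraMap K L)).Splits) :
    q (L ≃ₐ[K] L) (OO f h n0 L) t = qq f h β n0 t := by
  unfold qq
  have hg0 : f.comp^[t] X - C β ≠ 0 := by
    intro h0
    have h1 := itp_natDegree (f := f) (β := β) hd t
    rw [h0, natDegree_zero] at h1
    have : 0 < f.natDegree ^ t := Nat.pow_pos hd
    omega
  generalize hg : f.comp^[t] X - C β = g at hg0 hs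
  let ι : g.SplittingField →ₐ[K] L := SplittingField.lift g hs
  letI : Algebra g.SplittingField L := ι.toRingHom.toAlgebra
  haveI : IsScalarTower K g.SplittingField L := IsScalarTower.of_algebraMap_eq (fun x => by
    show algebraMap K L x = ι (algebraMap K _ x)
    rw [ι.commutes])
  have hι : ∀ x, algebraMap g.SplittingField L x = ι x := fun x => rfl
  haveI : Normal K g.SplittingField := Normal.of_isSplittingField g
  unfold q
  refine EQ_ratio (AlgEquiv.restrictNormalHom g.SplittingField)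
    (AlgEquiv.restrictNormalHom_surjective L) _ _ ?_
  intro σ
  have hσ : ∀ x, ι (AlgEquiv.restrictNormalHom g.SplittingField σ x) = σ (ι x) := fun x =>
    AlgEquiv.restrictNormal_commutes σ g.SplittingField x
  constructor
  · rintro ⟨x, hx, hfix⟩
    rw [EQ_mem hn] at hx
    have hroot : aeval x g = 0 := by
      rw [← hg]
      exact EQ_root hn hdvd x hx
    have hxr : x ∈ g.rootSet L := (mem_rootSet_of_ne hg0).2 hroot
    rw [← (SplittingField.splits g).image_rootSet ι] at hxr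
    obtain ⟨x0, -, hx0⟩ := hxr
    refine ⟨x0, ?_, ?_⟩
    · rw [EQ_mem hn]
      have e := Polynomial.aeval_algHom_apply ι ((FA f g.SplittingField)^[t - n0] x0) h
      rw [FA_iter, hx0, hx] at e
      apply ι.injective
      exact e.symm.trans (map_zero ι).symm
    · apply ι.injective
      show ι (AlgEquiv.restrictNormalHom g.SplittingField σ x0) = ι x0
      rw [hσ, hx0]
      exact hfix
  · rintro ⟨x0, hx0, hfix⟩
    rw [EQ_mem hn] at hx0
    refine ⟨ι x0, ?_, ?_⟩
    · rw [EQ_mem hn, ← FA_iter, Polynomial.aeval_algHom_apply, hx0, map_zero]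
    · show σ (ι x0) = ι x0
      rw [← hσ]
      exact congrArg ι hfix

end Pool.Agent.H42.PC

end EQ

section ELim
namespace Pool.Agent.H42.PC

open Polynomial NumberField IsDedekindDomain Filter Topology

open scoped Classical

private theorem ELim_finite {K M : Type} [Field K] [NumberField K] [Field M] [NumberField M]
    [Algebra K M] : Algebra.IsAlgebraic K M := by
  have : Module.Finite K M := Module.Finite.of_restrictScalars_finite ℚ K M
  infer_instance

private theorem ELim_gpM {K M : Type} [Field K] [NumberField K] [Field M] [NumberField M]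
    [Algebra K M] {f : K[X]} {β : K} (hGP : GP f β (AlgebraicClosure K)) : GP f β M := by
  have : Algebra.IsAlgebraic K M := ELim_finite
  exact GP_hom (IsAlgClosed.lift : M →ₐ[K] AlgebraicClosure K) hGP

private theorem ELim_pr {K M : Type} [Field K] [NumberField K] [Field M] [NumberField M]
    [Algebra K M] {f h : K[X]} {β : K} (hd : 2 ≤ f.natDegree)
    (hGP : GP f β (AlgebraicClosure K)) (hinf : (SS f h β).Infinite) (J : ℕ) :
    ∃ (v : HeightOneSpectrum (𝓞 K)) (n v0 k : ℕ), GoodK f β M J v ∧ 1 ≤ n ∧ 1 ≤ v0 ∧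
      v.valuation K ((FA f K)^[n] β - β) = WithZero.exp (-(v0 : ℤ)) ∧
      v.valuation K (h.eval ((FA f K)^[k] β)) < 1 := by
  have hgM : GP f β M := ELim_gpM hGP
  obtain ⟨v, hv, hg⟩ := hinf.exists_notMem_finite (goodK_finite (M := M) hd hgM J)
  obtain ⟨⟨n, hn, h1⟩, k, hk⟩ := hv
  have hg' : GoodK f β M J v := by
    by_contra hcon
    exact hg hcon
  have hne : (FA f K)^[n] β - β ≠ 0 := by
    have h2 := aper (ELim_gpM (M := K) hGP) hn
    intro h3
    exact h2 (sub_eq_zero.1 h3)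
  have hvne : v.valuation K ((FA f K)^[n] β - β) ≠ 0 := by
    rw [Ne, map_eq_zero]
    exact hne
  obtain ⟨e, he⟩ : ∃ e : ℤ, v.valuation K ((FA f K)^[n] β - β) = WithZero.exp e :=
    ⟨_, (WithZero.exp_log hvne).symm⟩
  rw [he, ← WithZero.exp_zero, WithZero.exp_lt_exp] at h1
  refine ⟨v, n, (-e).toNat, k, hg', hn, by omega, ?_, hk⟩
  rw [he]
  congr 1
  omega

private theorem ELim_pl {K M L : Type} [Field K] [NumberField K] [Field M] [NumberField M]
    [Field L] [NumberField L] [Algebra K M] [Algebra M L] [Algebra K L] [IsScalarTower K M L]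
    [IsGalois K L] {f h : K[X]} {β : K} [IsSplittingField K M (derivative f)]
    (hd : 2 ≤ f.natDegree) (hGP : GP f β (AlgebraicClosure K))
    {J n0 N n v0 : ℕ}
    {v : HeightOneSpectrum (𝓞 K)} (hv : GoodK f β M J v) (hn0 : n0 ≤ N) (hJ0 : n0 ≤ J)
    (hT : Tree (L ≃ₐ[K] L) (FA f L) (algebraMap K L β) f.natDegree N)
    (hO : Orb (L ≃ₐ[K] L) (FA f L) (algebraMap K L β) n0 N (OO f h n0 L))
    (hs : ∀ t ≤ N, ((f.comp^[t] X - C β).map (algebraMap K L)).Splits)
    (hm : h.Monic) (hdvd : h ∣ f.comp^[n0] X - C β)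
    (hn : 1 ≤ n) (hv0 : 1 ≤ v0)
    (hval : v.valuation K ((FA f K)^[n] β - β) = WithZero.exp (-(v0 : ℤ)))
    {k : ℕ} (hk : v.valuation K (h.eval ((FA f K)^[k] β)) < 1) :
    ∃ P : Place (L ≃ₐ[K] L) (FA f L) (algebraMap K L β) (Wd f M).card J N,
      Cyc P n ((n + 1) * (n * (v0 + 1))) ∧ InO P (OO f h n0 L) := by
  obtain ⟨w, hw⟩ := exists_over (L := L) v
  obtain ⟨hG, h1, h2⟩ := place_over hd (ELim_gpM (M := M) hGP)
    (IsSplittingField.splits M (derivative f)) hv hn0 hJ0 hT hO hs hm hdvd le_rfl hn hv0 hval hk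
    w hw
  exact ⟨_, h1, h2⟩

private theorem ELim_fld {K M : Type} [Field K] [NumberField K] [Field M] [NumberField M]
    [Algebra K M] {f h : K[X]} {β : K} [IsSplittingField K M (derivative f)]
    (hd : 3 ≤ f.natDegree) (hGP : GP f β (AlgebraicClosure K)) {n0 : ℕ}
    (hst : Stab f β n0) (hm : h.Monic) (hi : Irreducible h) (hdvd : h ∣ f.comp^[n0] X - C β)
    (N : ℕ) (hN : n0 ≤ N) :
    ∃ (L : Type) (_ : Field L) (_ : NumberField L) (_ : Algebra K L) (_ : Algebra M L)
      (_ : IsScalarTower K M L) (_ : IsGalois K L),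
      (∀ t ≤ N, ((f.comp^[t] X - C β).map (algebraMap K L)).Splits) ∧
      Tree (L ≃ₐ[K] L) (FA f L) (algebraMap K L β) f.natDegree N ∧
      Orb (L ≃ₐ[K] L) (FA f L) (algebraMap K L β) n0 N (OO f h n0 L) := by
  obtain ⟨L, i1, i2, i3, i4, i5, i6, hs⟩ := exists_field (M := M) f β N
  have hT := tree_of_splits (L := L) (by omega : 1 ≤ f.natDegree) (ELim_gpM (M := L) hGP) hs
  exact ⟨L, i1, i2, i3, i4, i5, i6, hs, hT, orb_of_stab (by omega) hN hT hs hst hm hi hdvd⟩

theorem qq_tendsto {K M : Type} [Field K] [NumberField K] [Field M] [NumberField M]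
    [Algebra K M] {f h : K[X]} {β : K} [IsSplittingField K M (derivative f)]
    (hodd : Odd f.natDegree) (hd : 3 ≤ f.natDegree) (hGP : GP f β (AlgebraicClosure K)) {n0 : ℕ}
    (hst : Stab f β n0) (hm : h.Monic) (hi : Irreducible h) (hdvd : h ∣ f.comp^[n0] X - C β)
    (hinf : (SS f h β).Infinite) : Tendsto (fun t => qq f h β n0 t) atTop (𝓝 0) := by
  have hd2 : 2 ≤ f.natDegree := by omega
  set s := (Wd f M).card with hs
  set J1 := max (max 1 n0) (4 * s) with hJ1
  obtain ⟨v1, n1, v01, k1, hg1, hn1, hv01, hval1, hk1⟩ := ELim_pr (M := M) hd2 hGP hinf J1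
  set t1 := max n0 ((n1 + 1) * (n1 * (v01 + 1))) with ht1
  set J2 := max t1 (max 1 n0) with hJ2
  obtain ⟨v2, n2, v02, k2, hg2, hn2, hv02, hval2, hk2⟩ := ELim_pr (M := M) hd2 hGP hinf J2
  set t2 := (n2 + 1) * (n2 * (v02 + 1)) with ht2
  have h4s : 4 * s < f.natDegree ^ J1 :=
    lt_of_lt_of_le (Nat.lt_pow_self (by omega)) (Nat.pow_le_pow_right (by omega) (by omega))
  refine limit_zero _ n0 ?_ ?_ (fun k => (((k * f.natDegree) ^ (k * f.natDegree) : ℕ) : ℝ)) ?_ ?_
  · intro t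
    exact div_nonneg (Nat.cast_nonneg _) (Nat.cast_nonneg _)
  · intro t ht
    obtain ⟨L, i1, i2, i3, i4, i5, i6, hsp, hT, hO⟩ :=
      ELim_fld (M := M) hd hGP hst hm hi hdvd (t + 1) (by omega)
    have := q_anti hT hO (t := t) (by omega)
    rwa [q_indep (by omega) (by omega) hdvd (hsp _ (by omega)), q_indep (by omega) ht hdvd (hsp _ (by omega))] at this
  · intro k hk
    have : 0 < k * f.natDegree := Nat.mul_pos hk (by omega)
    exact_mod_cast Nat.pow_pos this
  · intro k hk J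
    set J3 := max (max J (max n0 1)) (2 * ((s + 1) * max n1 n2) * (k * f.natDegree * s + 1) +
      2 * max t1 t2 + 2 * ((s + 1) * max n1 n2) + 1) with hJ3
    obtain ⟨v3, n3, v03, k3, hg3, hn3, hv03, hval3, hk3⟩ := ELim_pr (M := M) hd2 hGP hinf J3
    set t3 := (n3 + 1) * (n3 * (v03 + 1)) with ht3
    obtain ⟨L, i1, i2, i3, i4, i5, i6, hsp, hT, hO⟩ :=
      ELim_fld (M := M) hd hGP hst hm hi hdvd (max n0 (t3 + n3)) (le_max_left _ _)
    obtain ⟨P1, hC1, hI1⟩ := ELim_pl hd2 hGP hg1 (le_max_left _ _) (by omega) hT hO hsp hm hdvd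
      hn1 hv01 hval1 hk1
    obtain ⟨P2, hC2, hI2⟩ := ELim_pl hd2 hGP hg2 (le_max_left _ _) (by omega) hT hO hsp hm hdvd
      hn2 hv02 hval2 hk2
    obtain ⟨P3, hC3, hI3⟩ := ELim_pl hd2 hGP hg3 (le_max_left _ _) (by omega) hT hO hsp hm hdvd
      hn3 hv03 hval3 hk3
    obtain ⟨l, hl1, hl2, hl3⟩ := step hT hO (hC1.mono (le_max_right n0 _)) hI1 hC2 hI2 hC3 hI3
      hodd (by omega) h4s (le_max_left _ _) (le_max_left _ _) k hk (le_max_right _ _)
      (le_max_right _ _)
    refine ⟨l, by omega, ?_⟩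
    rwa [q_indep (by omega) (by omega) hdvd (hsp _ hl2.le), q_indep (by omega) (by omega) hdvd (hsp _ hl2)] at hl3

end Pool.Agent.H42.PC

end ELim

section EFr
namespace Pool.Agent.H42.PC

open Polynomial NumberField IsDedekindDomain WithZero

open scoped Classical Pointwise

private lemma EFr_int {K L : Type} [Field K] [NumberField K] [Field L] [NumberField L]
    [Algebra K L] (w : HeightOneSpectrum (𝓞 L)) (g : L ≃ₐ[K] L)
    (hg : g • w.asIdeal = w.asIdeal) (a : 𝓞 L) (n : ℕ) :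
    w.intValuation (g • a) ≤ exp (-(n : ℤ)) ↔ w.intValuation a ≤ exp (-(n : ℤ)) := by
  rw [w.intValuation_le_pow_iff_mem, w.intValuation_le_pow_iff_mem]
  have h : g • (w.asIdeal ^ n) = w.asIdeal ^ n := by
    rw [smul_pow', hg]
  constructor
  · intro h1
    rw [← h] at h1
    exact Ideal.smul_mem_pointwise_smul_iff.1 h1
  · intro h1
    rw [← h]
    exact Ideal.smul_mem_pointwise_smul_iff.2 h1

private lemma EFr_int_eq {K L : Type} [Field K] [NumberField K] [Field L] [NumberField L]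
    [Algebra K L] (w : HeightOneSpectrum (𝓞 L)) (g : L ≃ₐ[K] L)
    (hg : g • w.asIdeal = w.asIdeal) (a : 𝓞 L) :
    w.intValuation (g • a) = w.intValuation a := by
  by_cases ha : a = 0
  · simp [ha]
  have hga : g • a ≠ 0 := (smul_ne_zero_iff_ne g).2 ha
  have h1 := w.intValuation_if_neg ha
  have h2 := w.intValuation_if_neg hga
  apply le_antisymm
  · rw [h1]
    rw [EFr_int w g hg a, h1]
  · rw [h2]
    rw [← EFr_int w g hg a, h2]

private lemma EFr_val {K L : Type} [Field K] [NumberField K] [Field L] [NumberField L]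
    [Algebra K L] (w : HeightOneSpectrum (𝓞 L)) (g : L ≃ₐ[K] L)
    (hg : g • w.asIdeal = w.asIdeal) (y : L) :
    w.valuation L (g • y) = w.valuation L y := by
  obtain ⟨a, c, hc, rfl⟩ := IsFractionRing.div_surjective (A := 𝓞 L) y
  have e1 : g • (algebraMap (𝓞 L) L a / algebraMap (𝓞 L) L c) =
      algebraMap (𝓞 L) L (g • a) / algebraMap (𝓞 L) L (g • c) := by
    rw [AlgEquiv.smul_def, map_div₀]
    rfl
  rw [e1, map_div₀, map_div₀]
  simp only [HeightOneSpectrum.valuation_of_algebraMap, EFr_int_eq w g hg]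

private lemma EFr_exp {z : ℤᵐ⁰} (h0 : z ≠ 0) (h1 : z < 1) :
    ∃ n : ℕ, 1 ≤ n ∧ z = exp (-(n : ℤ)) := by
  have hz : z = exp (log z) := (exp_log h0).symm
  rw [hz, ← exp_zero, exp_lt_exp] at h1
  refine ⟨(-log z).toNat, by omega, ?_⟩
  rw [Int.toNat_of_nonneg (by omega), neg_neg]
  exact hz

private lemma EFr_over {K L : Type} [Field K] [NumberField K] [Field L] [NumberField L]
    [Algebra K L] (S : Set (HeightOneSpectrum (𝓞 L))) (hS : S.Finite) :
    {v : HeightOneSpectrum (𝓞 K) | ∃ w ∈ S, w.asIdeal.LiesOver v.asIdeal}.Finite := by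
  have : {v : HeightOneSpectrum (𝓞 K) | ∃ w ∈ S, w.asIdeal.LiesOver v.asIdeal} =
      ⋃ w ∈ S, {v : HeightOneSpectrum (𝓞 K) | w.asIdeal.LiesOver v.asIdeal} := by
    ext v; simp
  rw [this]
  refine hS.biUnion fun w _ => ?_
  apply Set.Subsingleton.finite
  intro v hv v' hv'
  apply HeightOneSpectrum.ext
  have h1 : v.asIdeal = w.asIdeal.under (𝓞 K) := hv.over
  have h2 : v'.asIdeal = w.asIdeal.under (𝓞 K) := hv'.over
  rw [h1, h2]

private lemma EFr_lev {K L : Type} [Field K] [Field L] [Algebra K L] {f : K[X]} {β : K}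
    (hd : 1 ≤ f.natDegree) (t : ℕ) : (lev (FA f L) (algebraMap K L β) t).Finite := by
  have hne : f.comp^[t] X - C β ≠ 0 := by
    intro h
    have h1 := itp_natDegree (f := f) (β := β) hd t
    rw [h, natDegree_zero] at h1
    have h2 : 0 < f.natDegree ^ t := Nat.pow_pos hd
    omega
  refine ((f.comp^[t] X - C β).rootSet_finite L).subset ?_
  intro x hx
  rw [mem_rootSet]
  refine ⟨hne, ?_⟩
  rw [itp_aeval, sub_eq_zero]
  exact hx

theorem frob_in {K M L : Type} [Field K] [NumberField K] [Field M] [NumberField M] [Field L]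
    [NumberField L] [Algebra K M] [Algebra M L] [Algebra K L] [IsScalarTower K M L] [IsGalois K L]
    {f h : K[X]} {β : K} (hd : 2 ≤ f.natDegree) (hGP : GP f β (AlgebraicClosure K))
    (hM : ((derivative f).map (algebraMap K M)).Splits) {n0 t : ℕ} (hn0 : n0 ≤ t)
    (hT : Tree (L ≃ₐ[K] L) (FA f L) (algebraMap K L β) f.natDegree t)
    (hO : Orb (L ≃ₐ[K] L) (FA f L) (algebraMap K L β) n0 t (OO f h n0 L))
    (hs : ∀ u ≤ t, ((f.comp^[u] X - C β).map (algebraMap K L)).Splits)
    (hm : h.Monic) (hdvd : h ∣ f.comp^[n0] X - C β) :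
    {v | v ∈ SS f h β ∧ ¬ ∃ g : L ≃ₐ[K] L, (∃ x ∈ OO f h n0 L t, g • x = x) ∧
      IsFr K L v g}.Finite := by
  have hGPM : GP f β M := GP_hom (IsAlgClosed.lift (R := K) (S := M) (M := AlgebraicClosure K)) hGP
  have hGPK : GP f β K := GP_hom (Algebra.ofId K M) hGPM
  have hlev : (lev (FA f L) (algebraMap K L β) t).Finite := EFr_lev (by omega) t
  have hbad : {v : HeightOneSpectrum (𝓞 K) | ∃ w ∈ (⋃ x ∈ lev (FA f L) (algebraMap K L β) t,
      ⋃ x' ∈ lev (FA f L) (algebraMap K L β) t,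
        {w : HeightOneSpectrum (𝓞 L) | x ≠ x' ∧ w.valuation L (x - x') ≠ 1}),
      w.asIdeal.LiesOver v.asIdeal}.Finite := by
    refine EFr_over _ (hlev.biUnion fun x _ => hlev.biUnion fun x' _ => ?_)
    by_cases hxx : x = x'
    · simp [hxx]
    · exact (val_ne_one_finite (sub_ne_zero.2 hxx)).subset fun w hw => hw.2
  refine ((goodK_finite (f := f) (β := β) (M := M) hd hGPM (max 1 n0)).union hbad).subset ?_
  rintro v ⟨⟨⟨n, hn, hvn⟩, k, hk⟩, hno⟩
  by_contra hv
  rw [Set.mem_union, not_or, Set.mem_ofPred_eq, not_not] at hv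
  obtain ⟨hgood, hb⟩ := hv
  apply hno
  obtain ⟨w, hw⟩ := exists_over (K := K) (L := L) v
  have hne : (FA f K)^[n] β - β ≠ 0 := by
    rw [sub_ne_zero]
    exact aper hGPK hn
  obtain ⟨v0, hv0, hval⟩ := EFr_exp ((Valuation.ne_zero_iff _).2 hne) hvn
  obtain ⟨hG, hC, hI⟩ := place_over (s := (Wd f M).card) hd hGPM hM hgood hn0 (le_max_right _ _)
    hT hO hs hm hdvd le_rfl hn hv0 hval hk w hw
  obtain ⟨x, hx, hon⟩ := exists_onC hC (le_refl t)
  have hxO : x ∈ OO f h n0 L t := hI t le_rfl x hx hon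
  obtain ⟨k', hk'⟩ := hon
  have hball : ball (mkLoc K w) x = ball (mkLoc K w) ((FA f L)^[k'] (algebraMap K L β)) := by
    have h1 : ball (mkLoc K w) x =
      (FRm (mkLoc K w) (f.map (algebraMap K L)))^[k'] (ball (mkLoc K w) (algebraMap K L β)) := hk'
    rw [h1, FR_iter hG hG.bint]
  have hclose : w.valuation L (x - (FA f L)^[k'] (algebraMap K L β)) < 1 := ball_eq.1 hball
  have hfin : Finite (𝓞 L ⧸ w.asIdeal) := Ideal.finiteQuotientOfFreeOfNeBot w.asIdeal w.ne_bot
  obtain ⟨g, hg⟩ := IsArithFrobAt.exists_of_isInvariant (𝓞 K) (L ≃ₐ[K] L) w.asIdeal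
  have hgw : g • w.asIdeal = w.asIdeal := MulAction.mem_stabilizer_iff.1 hg.mem_stabilizer
  refine ⟨g, ⟨x, hxO, ?_⟩, w, hw, hg⟩
  by_contra hgx
  have hz : g • (FA f L)^[k'] (algebraMap K L β) = (FA f L)^[k'] (algebraMap K L β) := by
    rw [← FA_base, AlgEquiv.smul_def, AlgEquiv.commutes]
  have h1 : w.valuation L (g • x - (FA f L)^[k'] (algebraMap K L β)) < 1 := by
    have h2 := EFr_val w g hgw (x - (FA f L)^[k'] (algebraMap K L β))
    rw [smul_sub, hz] at h2
    rw [h2]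
    exact hclose
  have h3 : w.valuation L (g • x - x) < 1 := by
    have e : g • x - x = (g • x - (FA f L)^[k'] (algebraMap K L β)) +
        ((FA f L)^[k'] (algebraMap K L β) - x) := by ring
    rw [e]
    refine Valuation.map_add_lt _ h1 ?_
    rw [Valuation.map_sub_swap]
    exact hclose
  have hgxl : g • x ∈ lev (FA f L) (algebraMap K L β) t := by
    change (FA f L)^[t] (g • x) = algebraMap K L β
    rw [← FA_smul]
    have hx2 : (FA f L)^[t] x = algebraMap K L β := hx
    rw [hx2, AlgEquiv.smul_def, AlgEquiv.commutes]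
  apply hb
  refine ⟨w, ?_, hw⟩
  simp only [Set.mem_iUnion]
  exact ⟨g • x, hgxl, x, hx, hgx, h3.ne⟩

end Pool.Agent.H42.PC

end EFr
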