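import Pool.Agent.H42.PCM.B2
import Pool.Agent.H42.PCM.D1
import Pool.Agent.H42.PCM.E1
import Pool.Agent.H42.PCM.E2
import Pool.Agent.H42.PCM.E3

set_option autoImplicit false

section ECov
namespace Pool.Agent.H42.PC

open Polynomial NumberField IsDedekindDomain

variable {K : Type} [Field K] [NumberField K] {f : K[X]} {β : K}

omit [NumberField K] in
private theorem ecov_P_ne (hd : 1 ≤ f.natDegree) (n : ℕ) : (f.comp^[n] X - C β) ≠ 0 := by
  intro h
  have h1 := itp_natDegree (β := β) hd n
  rw [h, natDegree_zero] at h1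
  exact absurd h1.symm (pow_ne_zero n (by omega))

theorem fac_finite (hd : 1 ≤ f.natDegree) (n : ℕ) :
    {g : K[X] | g.Monic ∧ Irreducible g ∧ g ∣ f.comp^[n] X - C β}.Finite := by
  classical
  have hP : (f.comp^[n] X - C β) ≠ 0 := ecov_P_ne hd n
  refine ((UniqueFactorizationMonoid.normalizedFactors
    (f.comp^[n] X - C β)).toFinset.finite_toSet).subset ?_
  rintro g ⟨hm, hi, hg⟩
  obtain ⟨q, hq, hgq⟩ := UniqueFactorizationMonoid.exists_mem_normalizedFactors_of_dvd hP hi hg
  have hq0 := (UniqueFactorizationMonoid.irreducible_of_normalized_factor q hq).ne_zero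
  have hqm : q.Monic := by
    have := UniqueFactorizationMonoid.normalize_normalized_factor q hq
    rw [← this]
    exact Polynomial.monic_normalize hq0
  have := eq_of_monic_of_associated hm hqm hgq
  rw [Finset.mem_coe, Multiset.mem_toFinset, this]
  exact hq

omit [NumberField K] in
private theorem ecov_F (x : K) : FA f K x = f.eval x := by
  rw [FA_apply]; simp

private theorem ecov_int {V : Valuation K (WithZero (Multiplicative ℤ))}
    (hi : ∀ i, V (f.coeff i) ≤ 1) {x : K} (hx : V x ≤ 1) (n : ℕ) : V ((FA f K)^[n] x) ≤ 1 := by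
  induction n with
  | zero => exact hx
  | succ n ih =>
    rw [Function.iterate_succ_apply', ecov_F]
    exact eval_int hi ih

private theorem ecov_sub {V : Valuation K (WithZero (Multiplicative ℤ))}
    (hi : ∀ i, V (f.coeff i) ≤ 1) {x y : K} (hx : V x ≤ 1) (hy : V y ≤ 1) (n : ℕ) :
    V ((FA f K)^[n] x - (FA f K)^[n] y) ≤ V (x - y) := by
  induction n with
  | zero => exact le_refl _
  | succ n ih =>
    rw [Function.iterate_succ_apply', Function.iterate_succ_apply', ecov_F, ecov_F]
    exact (eval_sub_le hi (ecov_int hi hx n) (ecov_int hi hy n)).trans ih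

private theorem ecov_prod {V : Valuation K (WithZero (Multiplicative ℤ))} {z : K}
    (s : Multiset K[X]) (hs : ∀ h ∈ s, 1 ≤ V (h.eval z)) : 1 ≤ V (s.prod.eval z) := by
  induction s using Multiset.induction with
  | empty => simp
  | cons a s ih =>
    rw [Multiset.prod_cons, eval_mul, map_mul]
    have h1 := mul_le_mul' (hs a (Multiset.mem_cons_self a s))
      (ih fun h hh => hs h (Multiset.mem_cons_of_mem hh))
    rwa [one_mul] at h1

private theorem ecov_one (z : K) :
    {v : HeightOneSpectrum (𝓞 K) | ¬ v.valuation K z ≤ 1}.Finite := by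
  rcases eq_or_ne z 0 with rfl | hz
  · simp
  · refine (val_ne_one_finite hz).subset ?_
    intro v hv h
    exact hv h.le

theorem cover (hd : 2 ≤ f.natDegree) (n0 : ℕ) :
    ({v : HeightOneSpectrum (𝓞 K) | ∃ n, 1 ≤ n ∧ v.valuation K ((FA f K)^[n] β - β) < 1} \
      ⋃ h ∈ {g : K[X] | g.Monic ∧ Irreducible g ∧ g ∣ f.comp^[n0] X - C β},
        SS f h β).Finite := by
  classical
  have hd1 : 1 ≤ f.natDegree := by omega
  have hP : (f.comp^[n0] X - C β) ≠ 0 := ecov_P_ne hd1 n0
  have hbad : ((⋃ i ∈ f.support, {v : HeightOneSpectrum (𝓞 K) | ¬ v.valuation K (f.coeff i) ≤ 1}) ∪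
      ({v : HeightOneSpectrum (𝓞 K) | ¬ v.valuation K β ≤ 1} ∪
      {v : HeightOneSpectrum (𝓞 K) |
        v.valuation K (f.comp^[n0] X - C β).leadingCoeff ≠ 1})).Finite := by
    refine Set.Finite.union ?_ (Set.Finite.union (ecov_one β) ?_)
    · exact Set.Finite.biUnion (Finset.finite_toSet _) fun i _ => ecov_one _
    · exact val_ne_one_finite (leadingCoeff_ne_zero.2 hP)
  refine hbad.subset ?_
  rintro v ⟨⟨n, hn, hv⟩, hnot⟩
  by_contra hgood
  simp only [Set.mem_union, Set.mem_iUnion, Set.mem_ofPred_eq, not_or, not_exists, not_not,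
    exists_prop, not_and, ne_eq] at hgood
  obtain ⟨h1, h2, h3⟩ := hgood
  have hi : ∀ i, v.valuation K (f.coeff i) ≤ 1 := by
    intro i
    by_cases hc : i ∈ f.support
    · exact h1 i hc
    · rw [notMem_support_iff.1 hc, map_zero]
      exact zero_le_one
  have hj : ∀ j : ℕ, v.valuation K ((FA f K)^[j * n] β - β) < 1 := by
    intro j
    induction j with
    | zero => simp
    | succ j ih =>
      have e : (FA f K)^[(j + 1) * n] β - β =
          ((FA f K)^[n] ((FA f K)^[j * n] β) - (FA f K)^[n] β) + ((FA f K)^[n] β - β) := by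
        rw [← Function.iterate_add_apply, show n + j * n = (j + 1) * n by ring]
        ring
      rw [e]
      refine lt_of_le_of_lt (Valuation.map_add _ _ _) (max_lt ?_ hv)
      exact lt_of_le_of_lt (ecov_sub hi (ecov_int hi h2 _) h2 n) ih
  have hk : n0 ≤ (n0 + 1) * n := by nlinarith
  have hz : v.valuation K ((f.comp^[n0] X - C β).eval ((FA f K)^[(n0 + 1) * n - n0] β)) < 1 := by
    have e := itp_aeval (f := f) (β := β) n0 ((FA f K)^[(n0 + 1) * n - n0] β)
    rw [← Function.iterate_add_apply, Nat.add_sub_cancel' hk] at e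
    have e2 : aeval ((FA f K)^[(n0 + 1) * n - n0] β) (f.comp^[n0] X - C β) =
        (f.comp^[n0] X - C β).eval ((FA f K)^[(n0 + 1) * n - n0] β) := by
      rw [coe_aeval_eq_eval]
    rw [← e2, e]
    exact hj (n0 + 1)
  apply hnot
  have hex : ∃ h ∈ UniqueFactorizationMonoid.normalizedFactors (f.comp^[n0] X - C β),
      v.valuation K (h.eval ((FA f K)^[(n0 + 1) * n - n0] β)) < 1 := by
    by_contra hno
    push Not at hno
    have e3 := leadingCoeff_mul_prod_normalizedFactors (f.comp^[n0] X - C β)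
    have e4 := ecov_prod (V := v.valuation K) _ hno
    rw [← e3, eval_mul, eval_C, map_mul, h3, one_mul] at hz
    exact absurd hz (not_lt.2 e4)
  obtain ⟨h, hh, hlt⟩ := hex
  have hirr := UniqueFactorizationMonoid.irreducible_of_normalized_factor h hh
  have hm : h.Monic := by
    have := UniqueFactorizationMonoid.normalize_normalized_factor h hh
    rw [← this]
    exact Polynomial.monic_normalize hirr.ne_zero
  refine Set.mem_biUnion (show h ∈ {g : K[X] | g.Monic ∧ Irreducible g ∧
    g ∣ f.comp^[n0] X - C β} from ⟨hm, hirr,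
      UniqueFactorizationMonoid.dvd_of_mem_normalizedFactors hh⟩) ?_
  exact ⟨⟨n, hn, hv⟩, _, hlt⟩

theorem prep_finite (hnw : ¬ Wandering f β) (hper : ∀ n, 1 ≤ n → (FA f K)^[n] β ≠ β) :
    {v : HeightOneSpectrum (𝓞 K) |
      ∃ n, 1 ≤ n ∧ v.valuation K ((FA f K)^[n] β - β) < 1}.Finite := by
  have hfin : (Set.range fun n : ℕ => (FA f K)^[n] β).Finite := by
    by_contra h
    exact hnw h
  have h2 : (⋃ y ∈ (Set.range fun n : ℕ => (FA f K)^[n] β) \ {β},
      {v : HeightOneSpectrum (𝓞 K) | v.valuation K (y - β) ≠ 1}).Finite := by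
    refine Set.Finite.biUnion (hfin.subset Set.sdiff_subset) ?_
    rintro y ⟨_, hy⟩
    exact val_ne_one_finite (sub_ne_zero.2 hy)
  refine h2.subset ?_
  rintro v ⟨n, hn, hv⟩
  refine Set.mem_biUnion (show (FA f K)^[n] β ∈ (Set.range fun n : ℕ => (FA f K)^[n] β) \ {β} from
    ⟨⟨n, rfl⟩, hper n hn⟩) ?_
  exact ne_of_lt hv

end Pool.Agent.H42.PC

end ECov

section ELoc
namespace Pool.Agent.H42.PC

open Polynomial NumberField IsDedekindDomain

theorem ELoc_comp {R : Type} [CommRing R] (f : R[X]) (n : ℕ) :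
    (f.comp^[n] X).comp f = f.comp^[n + 1] X := by
  induction n with
  | zero => simp
  | succ n ih =>
    rw [Function.iterate_succ_apply', comp_assoc, ih, ← Function.iterate_succ_apply' (f := f.comp)]

theorem ELoc_fin {K : Type} [Field K] {P : K[X]} (hP : P ≠ 0) :
    {g : K[X] | g.Monic ∧ Irreducible g ∧ g ∣ P}.Finite := by
  classical
  refine (UniqueFactorizationMonoid.normalizedFactors P).toFinset.finite_toSet.subset ?_
  intro g hg
  rw [Finset.mem_coe, Multiset.mem_toFinset, Polynomial.mem_normalizedFactors_iff hP]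
  exact ⟨hg.2.1, hg.1, hg.2.2⟩

theorem ELoc_ne {K : Type} [Field K] {f : K[X]} {β : K} (hd : 1 ≤ f.natDegree) (n : ℕ) :
    f.comp^[n] X - C β ≠ 0 := by
  intro h
  have h1 := itp_natDegree (β := β) hd n
  rw [h, natDegree_zero] at h1
  have : 0 < f.natDegree ^ n := pow_pos (by omega) n
  omega

theorem fac_mono {K : Type} [Field K] [CharZero K] {f : K[X]} {β : K} (hd : 1 ≤ f.natDegree)
    (n : ℕ) : {g : K[X] | g.Monic ∧ Irreducible g ∧ g ∣ f.comp^[n] X - C β}.ncard ≤
      {g : K[X] | g.Monic ∧ Irreducible g ∧ g ∣ f.comp^[n + 1] X - C β}.ncard := by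
  classical
  have hne := ELoc_ne (β := β) hd (n + 1)
  have hex : ∀ g : K[X], g.Monic ∧ Irreducible g ∧ g ∣ f.comp^[n] X - C β →
      ∃ p : K[X], p.Monic ∧ Irreducible p ∧ p ∣ g.comp f := by
    intro g hg
    have h1 : g.comp f ≠ 0 := by
      intro h0
      have h2 := natDegree_comp (p := g) (q := f)
      rw [h0, natDegree_zero] at h2
      have h3 := hg.2.1.natDegree_pos
      have : 0 < g.natDegree * f.natDegree := Nat.mul_pos h3 (by omega)
      omega
    have h2 : ¬ IsUnit (g.comp f) := by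
      intro h0
      have h2 := natDegree_comp (p := g) (q := f)
      rw [natDegree_eq_zero_of_isUnit h0] at h2
      have h3 := hg.2.1.natDegree_pos
      have : 0 < g.natDegree * f.natDegree := Nat.mul_pos h3 (by omega)
      omega
    obtain ⟨p, hp, hpd⟩ := WfDvdMonoid.exists_irreducible_factor h2 h1
    refine ⟨p * C p.leadingCoeff⁻¹, monic_mul_leadingCoeff_inv hp.ne_zero, ?_, ?_⟩
    · exact (irreducible_mul_leadingCoeff_inv (p := p)).2 hp
    · have hu : IsUnit (C p.leadingCoeff⁻¹) :=
        isUnit_C.2 (IsUnit.mk0 _ (inv_ne_zero (leadingCoeff_ne_zero.2 hp.ne_zero)))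
      exact (hu.mul_right_dvd).2 hpd
  choose! φ hφ using hex
  refine Set.ncard_le_ncard_of_injOn φ ?_ ?_ (ELoc_fin hne)
  · intro g hg
    obtain ⟨h1, h2, h3⟩ := hφ g hg
    refine ⟨h1, h2, h3.trans ?_⟩
    obtain ⟨q, hq⟩ := hg.2.2
    refine ⟨q.comp f, ?_⟩
    rw [← mul_comp, ← hq, sub_comp, ELoc_comp, C_comp]
  · intro g hg g' hg' he
    obtain ⟨h1, h2, h3⟩ := hφ g hg
    obtain ⟨h1', h2', h3'⟩ := hφ g' hg'
    by_contra hgg
    have hco : IsCoprime g g' := by
      rw [hg.2.1.coprime_iff_not_dvd]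
      intro h
      exact absurd (eq_of_monic_of_associated hg.1 hg'.1 (hg.2.1.associated_of_dvd hg'.2.1 h)) hgg
    obtain ⟨a, b, hab⟩ := hco
    have h4 : a.comp f * g.comp f + b.comp f * g'.comp f = 1 := by
      rw [← mul_comp, ← mul_comp, ← add_comp, hab, one_comp]
    have h5 : φ g ∣ 1 := by
      rw [← h4]
      refine dvd_add (dvd_mul_of_dvd_right h3 _) (dvd_mul_of_dvd_right ?_ _)
      rw [he]
      exact h3'
    exact h2.not_isUnit (isUnit_of_dvd_one h5)

section loc

open WithZero

variable {K : Type} [Field K] (V : Valuation K ℤᵐ⁰)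

theorem ELoc_res {x : V.valuationSubring} :
    IsLocalRing.residue V.valuationSubring x = 0 ↔ V (x : K) < 1 := by
  rw [IsLocalRing.residue_eq_zero_iff, IsLocalRing.mem_maximalIdeal, mem_nonunits_iff]
  have h := (Valuation.valuationSubring.integers V).isUnit_iff_valuation_eq_one (x := x)
  rw [h]
  have h1 : V (x : K) ≤ 1 := x.2
  constructor
  · intro h2
    exact lt_of_le_of_ne h1 h2
  · intro h2 h3
    exact h2.ne h3

theorem ELoc_form {f0 : V.valuationSubring[X]} {D : ℕ} (hD : 1 ≤ D) (hd : f0.natDegree = D)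
    (hmid : ∀ i, 1 ≤ i → i < D → V (f0.coeff i : K) < 1) :
    f0.map (IsLocalRing.residue V.valuationSubring) =
      C (IsLocalRing.residue V.valuationSubring (f0.coeff D)) * X ^ D +
        C (IsLocalRing.residue V.valuationSubring (f0.coeff 0)) := by
  ext i
  rw [coeff_map, coeff_add, coeff_C_mul, coeff_X_pow, coeff_C]
  rcases Nat.eq_zero_or_pos i with h | h
  · subst h
    rw [if_neg (by omega), if_pos rfl]
    simp
  · rw [if_neg (by omega : ¬ i = 0)]
    rcases lt_trichotomy i D with h1 | h1 | h1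
    · rw [if_neg (by omega), (ELoc_res V).2 (hmid i h h1)]
      simp
    · rw [if_pos h1, h1]
      simp
    · rw [if_neg (by omega), coeff_eq_zero_of_natDegree_lt (by omega)]
      simp

theorem ELoc_iter {k : Type} [Field k] {l : ℕ} [CharP k l] [Fact l.Prime] {r : ℕ} {a c : k}
    (ha : a ≠ 0) (n : ℕ) : ∃ A B : k, A ≠ 0 ∧
      (C a * X ^ (l ^ r) + C c).comp^[n] X = C A * X ^ (l ^ (r * n)) + C B := by
  induction n with
  | zero => exact ⟨1, 0, one_ne_zero, by simp⟩
  | succ n ih =>
    obtain ⟨A, B, hA, h⟩ := ih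
    refine ⟨a * A ^ (l ^ r), a * B ^ (l ^ r) + c, mul_ne_zero ha (pow_ne_zero _ hA), ?_⟩
    rw [Function.iterate_succ_apply', h]
    rw [add_comp, mul_comp, C_comp, C_comp, X_pow_comp, add_pow_char_pow, mul_pow, ← pow_mul,
      ← pow_add]
    have e : r * n + r = r * (n + 1) := by ring
    rw [e, C_mul, C_add, C_mul, C_pow, C_pow]
    ring

theorem ELoc_pow {k : Type} [Field k] {l : ℕ} [CharP k l] [Fact l.Prime] {r : ℕ} {a c : k}
    (ha : a ≠ 0) (n : ℕ) (b : k) (hb : ((C a * X ^ (l ^ r) + C c).comp^[n] X - C b).eval b = 0) :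
    ∃ A : k, A ≠ 0 ∧ (C a * X ^ (l ^ r) + C c).comp^[n] X - C b =
      C A * (X - C b) ^ (l ^ (r * n)) := by
  obtain ⟨A, B, hA, h⟩ := ELoc_iter (l := l) (r := r) (c := c) ha n
  refine ⟨A, hA, ?_⟩
  rw [h] at hb ⊢
  simp only [Polynomial.eval_sub, eval_add, eval_mul, eval_C, eval_pow, eval_X] at hb
  rw [sub_pow_char_pow, mul_sub, ← C_pow, ← C_mul]
  have : B = b - A * b ^ (l ^ (r * n)) := by linear_combination hb
  rw [this, C_sub]
  ring

theorem ELoc_eval {R S : Type} [CommRing R] [CommRing S] (φ : R →+* S) (p : R[X]) (x : R) :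
    (p.map φ).eval (φ x) = φ (p.eval x) := by
  rw [eval_map, eval₂_at_apply]

theorem ELoc_mapit {R S : Type} [CommRing R] [CommRing S] (φ : R →+* S) (p : R[X]) (n : ℕ) :
    (p.comp^[n] X).map φ = (p.map φ).comp^[n] X := by
  induction n with
  | zero => simp
  | succ n ih => rw [Function.iterate_succ_apply', Function.iterate_succ_apply', map_comp, ih]

theorem ELoc_evit {R : Type} [CommRing R] (p : R[X]) (n : ℕ) (x : R) :
    (p.comp^[n] X).eval x = (fun y => p.eval y)^[n] x := by
  induction n with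
  | zero => simp
  | succ n ih => rw [Function.iterate_succ_apply', Function.iterate_succ_apply', eval_comp, ih]

theorem ELoc_lt1 {x : ℤᵐ⁰} (h : x < 1) : x ≤ exp (-1) := by
  by_cases hx : x = 0
  · rw [hx]
    exact zero_le
  · rw [← exp_log hx, ← exp_zero, exp_lt_exp] at h
    rw [← exp_log hx, exp_le_exp]
    omega

/-- the data over the valuation ring. -/
structure ELoc_dat (V : Valuation K ℤᵐ⁰) (f0 : V.valuationSubring[X]) (l r : ℕ) : Prop where
  lp : l.Prime
  r1 : 1 ≤ r
  ch : V (l : K) < 1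
  dg : f0.natDegree = l ^ r
  ld : V (f0.leadingCoeff : K) = 1
  md : ∀ i, 1 ≤ i → i < l ^ r → V (f0.coeff i : K) < 1

variable {V} {f0 : V.valuationSubring[X]} {l r : ℕ}

theorem ELoc_char (h : ELoc_dat V f0 l r) :
    CharP (IsLocalRing.ResidueField V.valuationSubring) l := by
  have h1 : ((l : ℕ) : IsLocalRing.ResidueField V.valuationSubring) = 0 := by
    have h2 : IsLocalRing.residue V.valuationSubring ((l : ℕ) : V.valuationSubring) = 0 := by
      rw [ELoc_res]
      simpa using h.ch
    simpa using h2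
  exact (CharP.charP_iff_prime_eq_zero h.lp).2 h1

theorem ELoc_ln (h : ELoc_dat V f0 l r) :
    IsLocalRing.residue V.valuationSubring (f0.coeff (l ^ r)) ≠ 0 := by
  intro h0
  rw [ELoc_res] at h0
  have h1 := h.ld
  rw [leadingCoeff, h.dg] at h1
  exact h0.ne h1

theorem ELoc_factor (h : ELoc_dat V f0 l r) (n : ℕ) (b : V.valuationSubring)
    (hb : V (((f0.comp^[n] X - C b).eval b : V.valuationSubring) : K) < 1)
    {g : V.valuationSubring[X]} (hg : g.Monic) (hgd : g.natDegree ≠ 0)
    (hdiv : g ∣ f0.comp^[n] X - C b) : V ((g.eval b : V.valuationSubring) : K) < 1 := by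
  have hchar := ELoc_char h
  have hfact : Fact l.Prime := ⟨h.lp⟩
  have hform := ELoc_form V (Nat.one_le_iff_ne_zero.2 (pow_ne_zero r h.lp.ne_zero)) h.dg h.md
  have hP : (f0.comp^[n] X - C b).map (IsLocalRing.residue V.valuationSubring) =
      (C (IsLocalRing.residue V.valuationSubring (f0.coeff (l ^ r))) * X ^ (l ^ r) +
        C (IsLocalRing.residue V.valuationSubring (f0.coeff 0))).comp^[n] X -
          C (IsLocalRing.residue V.valuationSubring b) := by
    rw [Polynomial.map_sub, ELoc_mapit, hform, map_C]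
  rw [← ELoc_res, ← ELoc_eval, hP] at hb
  obtain ⟨A, hA, hAe⟩ := ELoc_pow (ELoc_ln h) n _ hb
  have hd2 : g.map (IsLocalRing.residue V.valuationSubring) ∣
      C A * (X - C (IsLocalRing.residue V.valuationSubring b)) ^ (l ^ (r * n)) := by
    rw [← hAe, ← hP]
    exact Polynomial.map_dvd _ hdiv
  have hd3 : g.map (IsLocalRing.residue V.valuationSubring) ∣
      (X - C (IsLocalRing.residue V.valuationSubring b)) ^ (l ^ (r * n)) :=
    ((isUnit_C.2 (IsUnit.mk0 A hA)).dvd_mul_left).1 hd2
  obtain ⟨i, _, hi⟩ := (dvd_prime_pow (prime_X_sub_C _) _).1 hd3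
  have hi0 : i ≠ 0 := by
    rintro rfl
    rw [pow_zero] at hi
    have h1 : IsUnit (g.map (IsLocalRing.residue V.valuationSubring)) :=
      (hi.isUnit_iff).2 isUnit_one
    have h2 := natDegree_eq_zero_of_isUnit h1
    rw [hg.natDegree_map] at h2
    exact hgd h2
  have h4 : X - C (IsLocalRing.residue V.valuationSubring b) ∣
      g.map (IsLocalRing.residue V.valuationSubring) :=
    (dvd_pow_self _ hi0).trans hi.symm.dvd
  rw [dvd_iff_isRoot, IsRoot.def, ELoc_eval, ELoc_res] at h4
  exact h4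

theorem ELoc_inj (h : ELoc_dat V f0 l r) {x y : V.valuationSubring}
    (hxy : V ((f0.eval x - f0.eval y : V.valuationSubring) : K) < 1) :
    V ((x - y : V.valuationSubring) : K) < 1 := by
  have hchar := ELoc_char h
  have hfact : Fact l.Prime := ⟨h.lp⟩
  have hform := ELoc_form V (Nat.one_le_iff_ne_zero.2 (pow_ne_zero r h.lp.ne_zero)) h.dg h.md
  rw [← ELoc_res, map_sub, ← ELoc_eval, ← ELoc_eval, hform] at hxy
  simp only [eval_add, eval_mul, eval_C, eval_pow, eval_X] at hxy
  rw [← ELoc_res, map_sub]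
  have h1 : IsLocalRing.residue V.valuationSubring (f0.coeff (l ^ r)) *
      (IsLocalRing.residue V.valuationSubring x - IsLocalRing.residue V.valuationSubring y) ^ (l ^ r) = 0 := by
    rw [sub_pow_char_pow]
    linear_combination hxy
  rcases mul_eq_zero.1 h1 with h2 | h2
  · exact absurd h2 (ELoc_ln h)
  · exact (pow_eq_zero_iff (pow_ne_zero r h.lp.ne_zero)).1 h2

theorem ELoc_injit (h : ELoc_dat V f0 l r) (k : ℕ) {x y : V.valuationSubring}
    (hxy : V (((fun z => f0.eval z)^[k] x - (fun z => f0.eval z)^[k] y : V.valuationSubring) : K) < 1) :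
    V ((x - y : V.valuationSubring) : K) < 1 := by
  induction k generalizing x y with
  | zero => exact hxy
  | succ k ih =>
    rw [Function.iterate_succ_apply, Function.iterate_succ_apply] at hxy
    exact ELoc_inj h (ih hxy)

theorem ELoc_contr (h : ELoc_dat V f0 l r) {x y : V.valuationSubring}
    (hxy : V ((x - y : V.valuationSubring) : K) < 1) (hne : x ≠ y) :
    V ((f0.eval x - f0.eval y : V.valuationSubring) : K) < V ((x - y : V.valuationSubring) : K) := by
  have hchar := ELoc_char h
  have hfact : Fact l.Prime := ⟨h.lp⟩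
  have hform := ELoc_form V (Nat.one_le_iff_ne_zero.2 (pow_ne_zero r h.lp.ne_zero)) h.dg h.md
  obtain ⟨k, hk⟩ := f0.binomExpansion y (x - y)
  rw [add_sub_cancel] at hk
  have hder : V ((f0.derivative.eval y : V.valuationSubring) : K) < 1 := by
    rw [← ELoc_res, ← ELoc_eval, ← derivative_map, hform]
    have : ((l ^ r : ℕ) : IsLocalRing.ResidueField V.valuationSubring) = 0 := by
      rw [Nat.cast_pow, CharP.cast_eq_zero]
      exact zero_pow (by have := h.r1; omega)
    rw [derivative_add, derivative_C, derivative_C_mul_X_pow, this]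
    simp
  have he : f0.eval x - f0.eval y = (x - y) * (f0.derivative.eval y + k * (x - y)) := by
    rw [hk]
    ring
  have hxy0 : V ((x - y : V.valuationSubring) : K) ≠ 0 := by
    rw [Valuation.ne_zero_iff]
    intro h0
    exact hne (sub_eq_zero.1 (Subtype.ext h0))
  have hpsi : V ((f0.derivative.eval y + k * (x - y) : V.valuationSubring) : K) < 1 := by
    have h1 : V ((k * (x - y) : V.valuationSubring) : K) < 1 := by
      push_cast
      rw [map_mul]
      push_cast at hxy
      exact mul_lt_one_of_nonneg_of_lt_one_right k.2 zero_le hxy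
    push_cast at h1 ⊢
    exact V.map_add_lt hder h1
  rw [he]
  calc V (((x - y) * (f0.derivative.eval y + k * (x - y)) : V.valuationSubring) : K) =
      V ((x - y : V.valuationSubring) : K) * V ((f0.derivative.eval y + k * (x - y) : V.valuationSubring) : K) := by
        rw [← map_mul]
        rfl
    _ < V ((x - y : V.valuationSubring) : K) * 1 :=
        mul_lt_mul_of_pos_left hpsi (zero_lt_iff.2 hxy0)
    _ = _ := mul_one _

theorem ELoc_weak (h : ELoc_dat V f0 l r) (k : ℕ) {x y : V.valuationSubring}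
    (hxy : V ((x - y : V.valuationSubring) : K) < 1) :
    V (((fun z => f0.eval z)^[k] x - (fun z => f0.eval z)^[k] y : V.valuationSubring) : K) ≤
      V ((x - y : V.valuationSubring) : K) := by
  induction k generalizing x y with
  | zero => exact le_rfl
  | succ k ih =>
    rw [Function.iterate_succ_apply, Function.iterate_succ_apply]
    by_cases hne : x = y
    · subst hne
      simp
    · have h1 := ELoc_contr h hxy hne
      exact (ih (h1.trans hxy)).trans h1.le

theorem ELoc_strong (h : ELoc_dat V f0 l r) (k : ℕ) (hk : k ≠ 0) {x y : V.valuationSubring}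
    (hxy : V ((x - y : V.valuationSubring) : K) < 1) (hne : x ≠ y) :
    V (((fun z => f0.eval z)^[k] x - (fun z => f0.eval z)^[k] y : V.valuationSubring) : K) <
      V ((x - y : V.valuationSubring) : K) := by
  obtain ⟨k, rfl⟩ := Nat.exists_eq_succ_of_ne_zero hk
  rw [Nat.succ_eq_add_one, Function.iterate_succ_apply, Function.iterate_succ_apply]
  have h1 := ELoc_contr h hxy hne
  exact (ELoc_weak h k (h1.trans hxy)).trans_lt h1

theorem ELoc_rigid (h : ELoc_dat V f0 l r) {m : ℕ} (hm : m ≠ 0) {b : V.valuationSubring}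
    (hb : V (((fun z => f0.eval z)^[m] b - b : V.valuationSubring) : K) < 1)
    (hne : (fun z => f0.eval z)^[m] b ≠ b) (j : ℕ) (hj : 1 ≤ j) :
    V (((fun z => f0.eval z)^[j * m] b - b : V.valuationSubring) : K) =
      V (((fun z => f0.eval z)^[m] b - b : V.valuationSubring) : K) := by
  induction j, hj using Nat.le_induction with
  | base => rw [one_mul]
  | succ j hj ih =>
    have e1 : (j + 1) * m = j * m + m := by ring
    rw [e1, Function.iterate_add_apply]
    have h1 := ELoc_strong h (j * m) (Nat.mul_ne_zero (by omega) hm) hb hne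
    rw [← ih] at h1 ⊢
    have e2 : (((fun z => f0.eval z)^[j * m] ((fun z => f0.eval z)^[m] b) - b : V.valuationSubring) : K) =
        (((fun z => f0.eval z)^[j * m] ((fun z => f0.eval z)^[m] b) -
          (fun z => f0.eval z)^[j * m] b : V.valuationSubring) : K) +
        (((fun z => f0.eval z)^[j * m] b - b : V.valuationSubring) : K) := by
      push_cast
      ring
    rw [e2]
    exact V.map_add_eq_of_lt_right h1

theorem ELoc_lead (h : ELoc_dat V f0 l r) (n : ℕ) :
    IsUnit (f0.comp^[n] X).leadingCoeff ∧ (f0.comp^[n] X).natDegree = (l ^ r) ^ n := by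
  induction n with
  | zero => simp
  | succ n ih =>
    rw [Function.iterate_succ_apply']
    have hp : (f0.comp^[n] X).natDegree ≠ 0 := by
      rw [ih.2]
      exact pow_ne_zero _ (pow_ne_zero _ h.lp.ne_zero)
    constructor
    · rw [leadingCoeff_comp hp]
      refine IsUnit.mul ?_ (ih.1.pow _)
      exact ((Valuation.valuationSubring.integers V).isUnit_iff_valuation_eq_one).2 h.ld
    · rw [natDegree_comp, h.dg, ih.2]
      ring

/-- the number of factors. -/
theorem ELoc_count (h : ELoc_dat V f0 l r) (n : ℕ) (b : V.valuationSubring)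
    (hb : V (((fun z => f0.eval z)^[n] b - b : V.valuationSubring) : K) < 1) {ν : ℕ}
    (hν : V (((fun z => f0.eval z)^[n] b - b : V.valuationSubring) : K) = exp (-(ν : ℤ)))
    (S : Finset K[X]) (hS : ∀ g ∈ S, g.Monic ∧ Irreducible g ∧
      g ∣ (f0.comp^[n] X - C b).map (algebraMap V.valuationSubring K)) : S.card ≤ ν := by
  classical
  have hev : (f0.comp^[n] X - C b).eval b = (fun z => f0.eval z)^[n] b - b := by
    rw [Polynomial.eval_sub, ELoc_evit, eval_C]
  have hl := ELoc_lead h n
  have hnd : (f0.comp^[n] X - C b).natDegree = (l ^ r) ^ n := by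
    rw [natDegree_sub_C, hl.2]
  have hlu : IsUnit (f0.comp^[n] X - C b).leadingCoeff := by
    have : (f0.comp^[n] X - C b).leadingCoeff = (f0.comp^[n] X).leadingCoeff := by
      rw [leadingCoeff, leadingCoeff, natDegree_sub_C, coeff_sub, coeff_C, if_neg, sub_zero]
      rw [hl.2]
      exact pow_ne_zero _ (pow_ne_zero _ h.lp.ne_zero)
    rw [this]
    exact hl.1
  obtain ⟨u, hu⟩ := hlu
  have hmon : (C ((u⁻¹ : V.valuationSubringˣ) : V.valuationSubring) * (f0.comp^[n] X - C b)).Monic := by
    apply monic_C_mul_of_mul_leadingCoeff_eq_one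
    rw [← hu]
    simp
  have hinj : Function.Injective (algebraMap V.valuationSubring K) := IsFractionRing.injective _ _
  have hlift : ∀ g : K[X], g ∈ S → ∃ g0 : V.valuationSubring[X], g0.Monic ∧
      g0.map (algebraMap V.valuationSubring K) = g := by
    intro g hg
    obtain ⟨h1, h2, h3⟩ := hS g hg
    have h4 : g ∣ (C ((u⁻¹ : V.valuationSubringˣ) : V.valuationSubring) * (f0.comp^[n] X - C b)).map
        (algebraMap V.valuationSubring K) := by
      rw [Polynomial.map_mul]
      exact h3.mul_left _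
    obtain ⟨g0, hg0⟩ := IsIntegrallyClosed.eq_map_mul_C_of_dvd K hmon h4
    rw [h1.leadingCoeff, C_1, mul_one] at hg0
    refine ⟨g0, ?_, hg0⟩
    apply monic_of_injective hinj
    rw [hg0]
    exact h1
  choose! φ hφ using hlift
  have hG : (∏ g ∈ S, φ g).Monic := monic_prod_of_monic _ _ (fun g hg => (hφ g hg).1)
  have hGm : (∏ g ∈ S, φ g).map (algebraMap V.valuationSubring K) = ∏ g ∈ S, g := by
    rw [Polynomial.map_prod]
    exact Finset.prod_congr rfl (fun g hg => (hφ g hg).2)
  have hdv : (∏ g ∈ S, g) ∣ (f0.comp^[n] X - C b).map (algebraMap V.valuationSubring K) := by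
    apply Finset.prod_dvd_of_coprime
    · intro g hg g' hg' hne
      have h1 := hS g (Finset.mem_coe.1 hg)
      have h2 := hS g' (Finset.mem_coe.1 hg')
      show IsCoprime g g'
      rw [h1.2.1.coprime_iff_not_dvd]
      intro h3
      exact absurd (eq_of_monic_of_associated h1.1 h2.1 (h1.2.1.associated_of_dvd h2.2.1 h3)) hne
    · intro g hg
      exact (hS g hg).2.2
  rw [← hGm, map_dvd_map _ hinj hG] at hdv
  obtain ⟨q, hq⟩ := hdv
  have hb' : V (((f0.comp^[n] X - C b).eval b : V.valuationSubring) : K) < 1 := by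
    rw [hev]
    exact hb
  have hg1 : ∀ g ∈ S, V (((φ g).eval b : V.valuationSubring) : K) ≤ exp (-1) := by
    intro g hg
    have h1 : V (((φ g).eval b : V.valuationSubring) : K) < 1 := by
      apply ELoc_factor h n b hb' (hφ g hg).1
      · intro h0
        have h2 := (hS g hg).2.1.natDegree_pos
        rw [← (hφ g hg).2, natDegree_map_eq_of_injective hinj] at h2
        omega
      · rw [hq]
        exact (Finset.dvd_prod_of_mem φ hg).mul_right q
    exact ELoc_lt1 h1
  have hval : V (((f0.comp^[n] X - C b).eval b : V.valuationSubring) : K) ≤ exp (-(S.card : ℤ)) := by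
    rw [hq, Polynomial.eval_mul, eval_prod]
    push_cast
    rw [map_mul, map_prod]
    have h1 : ∏ g ∈ S, V (((φ g).eval b : V.valuationSubring) : K) ≤ ∏ g ∈ S, (exp (-1) : ℤᵐ⁰) :=
      Finset.prod_le_prod' hg1
    have h2 : V ((q.eval b : V.valuationSubring) : K) ≤ 1 := (q.eval b).2
    calc _ ≤ (∏ g ∈ S, (exp (-1) : ℤᵐ⁰)) * 1 := mul_le_mul' h1 h2
      _ = exp (-(S.card : ℤ)) := by
        rw [mul_one, Finset.prod_const, ← exp_nsmul]
        simp
  rw [hev, hν] at hval
  rw [exp_le_exp] at hval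
  omega

end loc

theorem es_of_local {K : Type} [Field K] [NumberField K] {f : K[X]} {β : K}
    (hper : ∀ n, 1 ≤ n → (FA f K)^[n] β ≠ β) {l r : ℕ} (hl : l.Prime) (hr : 1 ≤ r)
    (hd : f.natDegree = l ^ r) (v : HeightOneSpectrum (𝓞 K)) (hv : v.valuation K (l : K) < 1)
    (hint : v.valuation K (f.coeff 0) ≤ 1) (hlead : v.valuation K f.leadingCoeff = 1)
    (hmid : ∀ i, 1 ≤ i → i < l ^ r → v.valuation K (f.coeff i) < 1)
    (hβ : v.valuation K β ≤ 1) : ES f β := by
  classical
  obtain ⟨V, hV⟩ : ∃ V : Valuation K (WithZero (Multiplicative ℤ)), V = v.valuation K := ⟨_, rfl⟩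
  rw [← hV] at hv hint hlead hβ
  have hmid' : ∀ i, 1 ≤ i → i < l ^ r → V (f.coeff i) < 1 := fun i h1 h2 => by
    rw [hV]
    exact hmid i h1 h2
  have hcoef : ∀ i, V (f.coeff i) ≤ 1 := by
    intro i
    rcases Nat.eq_zero_or_pos i with h | h
    · rw [h]
      exact hint
    · rcases lt_trichotomy i (l ^ r) with h1 | h1 | h1
      · exact (hmid' i h h1).le
      · rw [h1, ← hd]
        exact hlead.le
      · rw [coeff_eq_zero_of_natDegree_lt (by omega), map_zero]
        exact zero_le
  obtain ⟨f0, hf0⟩ : ∃ f0 : V.valuationSubring[X], f0.map (algebraMap V.valuationSubring K) = f := by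
    have : f ∈ lifts (algebraMap V.valuationSubring K) := by
      rw [lifts_iff_coeff_lifts]
      intro i
      exact ⟨⟨f.coeff i, hcoef i⟩, rfl⟩
    exact (mem_lifts f).1 this
  have hinj : Function.Injective (algebraMap V.valuationSubring K) := IsFractionRing.injective _ _
  have hco : ∀ i, (f0.coeff i : K) = f.coeff i := by
    intro i
    rw [← hf0, coeff_map]
    rfl
  have hdg : f0.natDegree = l ^ r := by
    rw [← natDegree_map_eq_of_injective hinj, hf0, hd]
  have hdat : ELoc_dat V f0 l r :=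
    { lp := hl
      r1 := hr
      ch := hv
      dg := hdg
      ld := by
        rw [leadingCoeff, hco, hdg, ← hd]
        exact hlead
      md := fun i h1 h2 => by
        rw [hco]
        exact hmid' i h1 h2 }
  obtain ⟨b, hb⟩ : ∃ b : V.valuationSubring, (b : K) = β := ⟨⟨β, hβ⟩, rfl⟩
  have hF : ∀ n : ℕ, (((fun z => f0.eval z)^[n] b : V.valuationSubring) : K) = (FA f K)^[n] β := by
    intro n
    induction n with
    | zero => exact hb
    | succ n ih =>
      rw [Function.iterate_succ_apply', Function.iterate_succ_apply', ← ih, FA_apply, coe_aeval_eq_eval]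
      have h1 := ELoc_eval (algebraMap V.valuationSubring K) f0 ((fun z => f0.eval z)^[n] b)
      rw [hf0] at h1
      exact h1.symm
  have hVy : ∀ y : K, V y = v.valuation K y := fun y => by rw [hV]
  have hap : ∀ x : V.valuationSubring, ∃ a : 𝓞 K, V (algebraMap (𝓞 K) K a - (x : K)) < 1 := fun x => by
    have hx : v.valuation K (x : K) ≤ 1 := by
      rw [← hV]
      exact x.2
    obtain ⟨a, ha⟩ := v.exists_valuation_sub_lt_of_integer hx 1
    refine ⟨a, ?_⟩
    rw [hVy]
    simpa using ha
  choose a ha using hap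
  have hfin : Finite (𝓞 K ⧸ v.asIdeal) := Ring.HasFiniteQuotients.finiteQuotient v.ne_bot
  obtain ⟨i, j, hij, he⟩ := Finite.exists_ne_map_eq_of_infinite
    (fun i : ℕ => Ideal.Quotient.mk v.asIdeal (a ((fun z => f0.eval z)^[i] b)))
  have hclose : ∀ i j : ℕ, Ideal.Quotient.mk v.asIdeal (a ((fun z => f0.eval z)^[i] b)) =
      Ideal.Quotient.mk v.asIdeal (a ((fun z => f0.eval z)^[j] b)) →
      V (((fun z => f0.eval z)^[i] b - (fun z => f0.eval z)^[j] b : V.valuationSubring) : K) < 1 := by
    intro i j he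
    have he1 : V (algebraMap (𝓞 K) K (a ((fun z => f0.eval z)^[i] b) - a ((fun z => f0.eval z)^[j] b))) < 1 := by
      rw [hVy]
      exact (v.valuation_lt_one_iff_mem _).2 (Ideal.Quotient.eq.1 he)
    rw [map_sub] at he1
    have h1 := ha ((fun z => f0.eval z)^[i] b)
    have h2 := ha ((fun z => f0.eval z)^[j] b)
    have e1 : (((fun z => f0.eval z)^[i] b - (fun z => f0.eval z)^[j] b : V.valuationSubring) : K) =
        (algebraMap (𝓞 K) K (a ((fun z => f0.eval z)^[i] b)) -
          algebraMap (𝓞 K) K (a ((fun z => f0.eval z)^[j] b))) -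
        (algebraMap (𝓞 K) K (a ((fun z => f0.eval z)^[i] b)) - ((fun z => f0.eval z)^[i] b : V.valuationSubring)) +
        (algebraMap (𝓞 K) K (a ((fun z => f0.eval z)^[j] b)) - ((fun z => f0.eval z)^[j] b : V.valuationSubring)) := by
      push_cast
      ring
    rw [e1]
    exact V.map_add_lt (V.map_sub_lt he1 h1) h2
  obtain ⟨i, m, hm, him⟩ : ∃ i m : ℕ, m ≠ 0 ∧
      V (((fun z => f0.eval z)^[i] ((fun z => f0.eval z)^[m] b) - (fun z => f0.eval z)^[i] b : V.valuationSubring) : K) < 1 := by
    rcases Nat.lt_or_gt_of_ne hij with h | h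
    · refine ⟨i, j - i, by omega, ?_⟩
      rw [← Function.iterate_add_apply, show i + (j - i) = j by omega]
      exact hclose j i he.symm
    · refine ⟨j, i - j, by omega, ?_⟩
      rw [← Function.iterate_add_apply, show j + (i - j) = i by omega]
      exact hclose i j he
  have hm1 := ELoc_injit hdat i him
  have hmne : (fun z => f0.eval z)^[m] b ≠ b := by
    intro h0
    apply hper m (by omega)
    rw [← hF, h0, hb]
  have hval0 : V (((fun z => f0.eval z)^[m] b - b : V.valuationSubring) : K) ≠ 0 := by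
    rw [Valuation.ne_zero_iff]
    intro h0
    exact hmne (sub_eq_zero.1 (Subtype.ext h0))
  obtain ⟨ν, hν⟩ : ∃ ν : ℕ, V (((fun z => f0.eval z)^[m] b - b : V.valuationSubring) : K) =
      WithZero.exp (-(ν : ℤ)) := by
    have h1 := hm1
    rw [← WithZero.exp_log hval0, ← WithZero.exp_zero, WithZero.exp_lt_exp] at h1
    refine ⟨(-WithZero.log (V (((fun z => f0.eval z)^[m] b - b : V.valuationSubring) : K))).toNat, ?_⟩
    rw [Int.toNat_of_nonneg (by omega), neg_neg, WithZero.exp_log hval0]
  have hdf : 1 ≤ f.natDegree := by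
    rw [hd]
    exact Nat.one_le_iff_ne_zero.2 (pow_ne_zero r hl.ne_zero)
  refine ⟨ν, fun n => ?_⟩
  have hmono := monotone_nat_of_le_succ (fun n => fac_mono (β := β) hdf n)
  refine (hmono (show n ≤ (n + 1) * m by nlinarith [Nat.pos_of_ne_zero hm])).trans ?_
  have hr1 := ELoc_rigid hdat hm hm1 hmne (n + 1) (by omega)
  have hfs := ELoc_fin (ELoc_ne (β := β) hdf ((n + 1) * m))
  show {g : K[X] | g.Monic ∧ Irreducible g ∧ g ∣ f.comp^[(n + 1) * m] X - C β}.ncard ≤ ν
  rw [Set.ncard_eq_toFinset_card _ hfs]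
  refine ELoc_count hdat ((n + 1) * m) b (by rw [hr1]; exact hm1) (by rw [hr1]; exact hν) _ ?_
  intro g hg
  have h1 := hfs.mem_toFinset.1 hg
  refine ⟨h1.1, h1.2.1, ?_⟩
  rw [Polynomial.map_sub, ELoc_mapit, hf0, map_C]
  have e1 : algebraMap V.valuationSubring K b = β := hb
  rw [e1]
  exact h1.2.2

end Pool.Agent.H42.PC

end ELoc

section ELo2
namespace Pool.Agent.H42.PC

open Polynomial NumberField IsDedekindDomain

theorem ELo2_it {K : Type} [Field K] (f : K[X]) (β : K) (n : ℕ) :
    (f.comp (X + C β) - C β).comp^[n] X = (f.comp^[n] X).comp (X + C β) - C β := by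
  induction n with
  | zero => simp
  | succ n ih =>
    rw [Function.iterate_succ_apply', ih, Function.iterate_succ_apply', sub_comp, comp_assoc,
      C_comp, comp_assoc]
    congr 2
    rw [add_comp, X_comp, C_comp, sub_add_cancel]

theorem ELo2_eq {K : Type} [Field K] (β : K) (p : K[X]) :
    algEquivAevalXAddC β p = p.comp (X + C β) := by
  rfl

theorem ELo2_irr {K : Type} [Field K] (β : K) (p : K[X]) :
    Irreducible (p.comp (X + C β)) ↔ Irreducible p := by
  rw [← ELo2_eq]
  exact MulEquiv.irreducible_iff (algEquivAevalXAddC β)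

theorem ELo2_nd {K : Type} [Field K] (f : K[X]) (β : K) :
    (f.comp (X + C β) - C β).natDegree = f.natDegree := by
  rw [natDegree_sub_C, natDegree_comp, natDegree_X_add_C, mul_one]

theorem ELo2_coeff {K : Type} [Field K] (f : K[X]) (β : K) {i : ℕ} (hi : 1 ≤ i) :
    (f.comp (X + C β) - C β).coeff i = (f.comp (X + C β)).coeff i := by
  rw [coeff_sub, coeff_C, if_neg (by omega), sub_zero]

theorem ELo2_lead {K : Type} [Field K] {f : K[X]} (β : K) (hd : 1 ≤ f.natDegree) :
    (f.comp (X + C β) - C β).leadingCoeff = f.leadingCoeff := by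
  rw [leadingCoeff, ELo2_nd, ELo2_coeff f β hd]
  have h1 : (f.comp (X + C β)).natDegree = f.natDegree := by
    rw [natDegree_comp, natDegree_X_add_C, mul_one]
  have h2 := leadingCoeff_comp (p := f) (q := X + C β) (by rw [natDegree_X_add_C]; omega)
  rw [leadingCoeff_X_add_C, one_pow, mul_one, leadingCoeff, h1] at h2
  exact h2

theorem ELo2_coeff0 {K : Type} [Field K] (f : K[X]) (β : K) :
    (f.comp (X + C β) - C β).coeff 0 = f.eval β - β := by
  rw [coeff_zero_eq_eval_zero, Polynomial.eval_sub, eval_comp, eval_add, eval_X, eval_C, zero_add]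

theorem ELo2_conj {K : Type} [Field K] {f : K[X]} {β : K} (hd : 1 ≤ f.natDegree)
    (h : ES (f.comp (X + C β) - C β) 0) : ES f β := by
  obtain ⟨B, hB⟩ := h
  refine ⟨B, fun n => le_trans ?_ (hB n)⟩
  have hdg : 1 ≤ (f.comp (X + C β) - C β).natDegree := by
    rw [ELo2_nd]
    exact hd
  refine Set.ncard_le_ncard_of_injOn (fun p => p.comp (X + C β)) ?_ ?_
    (ELoc_fin (ELoc_ne (β := 0) hdg n))
  · rintro p ⟨h1, h2, h3⟩
    refine ⟨h1.comp_X_add_C β, (ELo2_irr β p).2 h2, ?_⟩
    rw [ELo2_it, C_0, sub_zero]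
    obtain ⟨q, hq⟩ := h3
    refine ⟨q.comp (X + C β), ?_⟩
    rw [← mul_comp, ← hq, sub_comp, C_comp]
  · intro p _ q _ hpq
    exact (algEquivAevalXAddC β).injective hpq

section loc

open WithZero

/-- the data over the valuation ring: `f0` is congruent to a monomial. -/
structure ELo2_dat {K : Type} [Field K] (V : Valuation K ℤᵐ⁰) (f0 : V.valuationSubring[X])
    (D : ℕ) : Prop where
  D2 : 2 ≤ D
  dg : f0.natDegree = D
  ld : V (f0.leadingCoeff : K) = 1
  md : ∀ i, i < D → V (f0.coeff i : K) < 1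

variable {K : Type} [Field K] {V : Valuation K ℤᵐ⁰} {f0 : V.valuationSubring[X]} {D : ℕ}

theorem ELo2_form (h : ELo2_dat V f0 D) :
    f0.map (IsLocalRing.residue V.valuationSubring) =
      C (IsLocalRing.residue V.valuationSubring (f0.coeff D)) * X ^ D := by
  ext i
  rw [coeff_map, coeff_C_mul, coeff_X_pow]
  rcases lt_trichotomy i D with h1 | h1 | h1
  · rw [if_neg (by omega), (ELoc_res V).2 (h.md i h1), mul_zero]
  · rw [if_pos h1, h1, mul_one]
  · rw [if_neg (by omega), coeff_eq_zero_of_natDegree_lt (by rw [h.dg]; omega), map_zero, mul_zero]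

theorem ELo2_ln (h : ELo2_dat V f0 D) :
    IsLocalRing.residue V.valuationSubring (f0.coeff D) ≠ 0 := by
  intro h0
  rw [ELoc_res] at h0
  have h1 := h.ld
  rw [leadingCoeff, h.dg] at h1
  exact h0.ne h1

theorem ELo2_iter {k : Type} [Field k] {a : k} (ha : a ≠ 0) (D n : ℕ) :
    ∃ A : k, A ≠ 0 ∧ (C a * X ^ D).comp^[n] X = C A * X ^ (D ^ n) := by
  induction n with
  | zero => exact ⟨1, one_ne_zero, by simp⟩
  | succ n ih =>
    obtain ⟨A, hA, h⟩ := ih
    refine ⟨a * A ^ D, mul_ne_zero ha (pow_ne_zero _ hA), ?_⟩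
    rw [Function.iterate_succ_apply', h, mul_comp, C_comp, X_pow_comp, mul_pow, ← pow_mul,
      pow_succ, C_mul, C_pow]
    ring

theorem ELo2_mem (h : ELo2_dat V f0 D) {x : V.valuationSubring} (hx : V (x : K) < 1) :
    V ((f0.eval x : V.valuationSubring) : K) < 1 := by
  rw [← ELoc_res] at hx ⊢
  rw [← ELoc_eval, ELo2_form h, hx]
  have := h.D2
  simp only [eval_mul, eval_C, eval_pow, eval_X]
  rw [zero_pow (by omega), mul_zero]

theorem ELo2_contr (h : ELo2_dat V f0 D) {x y : V.valuationSubring}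
    (hx : V (x : K) < 1) (hy : V (y : K) < 1) (hne : x ≠ y) :
    V ((f0.eval x - f0.eval y : V.valuationSubring) : K) < V ((x - y : V.valuationSubring) : K) := by
  obtain ⟨k, hk⟩ := f0.binomExpansion y (x - y)
  rw [add_sub_cancel] at hk
  have hxy : V ((x - y : V.valuationSubring) : K) < 1 := by
    push_cast
    exact V.map_sub_lt hx hy
  have hder : V ((f0.derivative.eval y : V.valuationSubring) : K) < 1 := by
    rw [← ELoc_res] at hy ⊢
    rw [← ELoc_eval, ← derivative_map, ELo2_form h, hy, derivative_C_mul_X_pow]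
    have := h.D2
    simp only [eval_mul, eval_C, eval_pow, eval_X]
    rw [zero_pow (by omega), mul_zero]
  have he : f0.eval x - f0.eval y = (x - y) * (f0.derivative.eval y + k * (x - y)) := by
    rw [hk]
    ring
  have hxy0 : V ((x - y : V.valuationSubring) : K) ≠ 0 := by
    rw [Valuation.ne_zero_iff]
    intro h0
    exact hne (sub_eq_zero.1 (Subtype.ext h0))
  have hpsi : V ((f0.derivative.eval y + k * (x - y) : V.valuationSubring) : K) < 1 := by
    have h1 : V ((k * (x - y) : V.valuationSubring) : K) < 1 := by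
      push_cast
      rw [map_mul]
      push_cast at hxy
      exact mul_lt_one_of_nonneg_of_lt_one_right k.2 zero_le hxy
    push_cast at h1 ⊢
    exact V.map_add_lt hder h1
  rw [he]
  calc V (((x - y) * (f0.derivative.eval y + k * (x - y)) : V.valuationSubring) : K) =
      V ((x - y : V.valuationSubring) : K) *
        V ((f0.derivative.eval y + k * (x - y) : V.valuationSubring) : K) := by
        rw [← map_mul]
        rfl
    _ < V ((x - y : V.valuationSubring) : K) * 1 :=
        mul_lt_mul_of_pos_left hpsi (zero_lt_iff.2 hxy0)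
    _ = _ := mul_one _

theorem ELo2_weak (h : ELo2_dat V f0 D) (k : ℕ) {x y : V.valuationSubring}
    (hx : V (x : K) < 1) (hy : V (y : K) < 1) :
    V (((fun z => f0.eval z)^[k] x - (fun z => f0.eval z)^[k] y : V.valuationSubring) : K) ≤
      V ((x - y : V.valuationSubring) : K) := by
  induction k generalizing x y with
  | zero => exact le_rfl
  | succ k ih =>
    rw [Function.iterate_succ_apply, Function.iterate_succ_apply]
    by_cases hne : x = y
    · subst hne
      simp
    · have h1 := ELo2_contr h hx hy hne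
      exact (ih (ELo2_mem h hx) (ELo2_mem h hy)).trans h1.le

theorem ELo2_rigid (h : ELo2_dat V f0 D) (hne : f0.eval 0 ≠ 0) (j : ℕ) :
    V (((fun z => f0.eval z)^[j + 1] 0 : V.valuationSubring) : K) =
      V ((f0.eval 0 : V.valuationSubring) : K) := by
  have hz : V ((0 : V.valuationSubring) : K) < 1 := by
    simp
  have h0 : V ((f0.eval 0 : V.valuationSubring) : K) < 1 := ELo2_mem h hz
  induction j with
  | zero => rfl
  | succ j ih =>
    have hs : V (((fun z => f0.eval z)^[j + 1] (f0.eval 0) - (fun z => f0.eval z)^[j + 1] 0 :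
        V.valuationSubring) : K) < V ((f0.eval 0 : V.valuationSubring) : K) := by
      rw [Function.iterate_succ_apply, Function.iterate_succ_apply]
      have h1 := ELo2_contr h h0 hz hne
      have h2 := ELo2_weak h j (ELo2_mem h h0) (ELo2_mem h hz)
      rw [sub_zero] at h1
      exact h2.trans_lt h1
    rw [Function.iterate_succ_apply]
    show V (((fun z => f0.eval z)^[j + 1] (f0.eval 0) : V.valuationSubring) : K) = _
    have e2 : (((fun z => f0.eval z)^[j + 1] (f0.eval 0) : V.valuationSubring) : K) =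
        (((fun z => f0.eval z)^[j + 1] (f0.eval 0) - (fun z => f0.eval z)^[j + 1] 0 :
          V.valuationSubring) : K) + (((fun z => f0.eval z)^[j + 1] 0 : V.valuationSubring) : K) := by
      push_cast
      ring
    rw [e2, ← ih]
    rw [← ih] at hs
    exact V.map_add_eq_of_lt_right hs

theorem ELo2_leadit (h : ELo2_dat V f0 D) (n : ℕ) :
    IsUnit (f0.comp^[n] X).leadingCoeff ∧ (f0.comp^[n] X).natDegree = D ^ n := by
  have hD := h.D2
  induction n with
  | zero => simp
  | succ n ih =>
    rw [Function.iterate_succ_apply']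
    have hp : (f0.comp^[n] X).natDegree ≠ 0 := by
      rw [ih.2]
      exact pow_ne_zero _ (by omega)
    constructor
    · rw [leadingCoeff_comp hp]
      refine IsUnit.mul ?_ (ih.1.pow _)
      exact ((Valuation.valuationSubring.integers V).isUnit_iff_valuation_eq_one).2 h.ld
    · rw [natDegree_comp, h.dg, ih.2]
      ring

theorem ELo2_factor (h : ELo2_dat V f0 D) (n : ℕ)
    {g : V.valuationSubring[X]} (hg : g.Monic) (hgd : g.natDegree ≠ 0)
    (hdiv : g ∣ f0.comp^[n] X) : V ((g.eval 0 : V.valuationSubring) : K) < 1 := by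
  obtain ⟨A, hA, hAe⟩ := ELo2_iter (ELo2_ln h) D n
  have hd2 : g.map (IsLocalRing.residue V.valuationSubring) ∣ C A * X ^ (D ^ n) := by
    rw [← hAe, ← ELo2_form h, ← ELoc_mapit]
    exact Polynomial.map_dvd _ hdiv
  have hd3 : g.map (IsLocalRing.residue V.valuationSubring) ∣ X ^ (D ^ n) :=
    ((isUnit_C.2 (IsUnit.mk0 A hA)).dvd_mul_left).1 hd2
  obtain ⟨i, _, hi⟩ := (dvd_prime_pow prime_X _).1 hd3
  have hi0 : i ≠ 0 := by
    rintro rfl
    rw [pow_zero] at hi
    have h1 : IsUnit (g.map (IsLocalRing.residue V.valuationSubring)) :=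
      (hi.isUnit_iff).2 isUnit_one
    have h2 := natDegree_eq_zero_of_isUnit h1
    rw [hg.natDegree_map] at h2
    exact hgd h2
  have h4 : X ∣ g.map (IsLocalRing.residue V.valuationSubring) :=
    (dvd_pow_self _ hi0).trans hi.symm.dvd
  rw [X_dvd_iff, coeff_map, coeff_zero_eq_eval_zero, ELoc_res] at h4
  exact h4

/-- the number of factors. -/
theorem ELo2_count (h : ELo2_dat V f0 D) (n : ℕ) {ν : ℕ}
    (hν : V (((fun z => f0.eval z)^[n] 0 : V.valuationSubring) : K) = exp (-(ν : ℤ)))
    (S : Finset K[X]) (hS : ∀ g ∈ S, g.Monic ∧ Irreducible g ∧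
      g ∣ (f0.comp^[n] X).map (algebraMap V.valuationSubring K)) : S.card ≤ ν := by
  classical
  have hev : (f0.comp^[n] X).eval 0 = (fun z => f0.eval z)^[n] 0 := ELoc_evit _ _ _
  obtain ⟨u, hu⟩ := (ELo2_leadit h n).1
  have hmon : (C ((u⁻¹ : V.valuationSubringˣ) : V.valuationSubring) * (f0.comp^[n] X)).Monic := by
    apply monic_C_mul_of_mul_leadingCoeff_eq_one
    rw [← hu]
    simp
  have hinj : Function.Injective (algebraMap V.valuationSubring K) := IsFractionRing.injective _ _
  have hlift : ∀ g : K[X], g ∈ S → ∃ g0 : V.valuationSubring[X], g0.Monic ∧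
      g0.map (algebraMap V.valuationSubring K) = g := by
    intro g hg
    obtain ⟨h1, h2, h3⟩ := hS g hg
    have h4 : g ∣ (C ((u⁻¹ : V.valuationSubringˣ) : V.valuationSubring) * (f0.comp^[n] X)).map
        (algebraMap V.valuationSubring K) := by
      rw [Polynomial.map_mul]
      exact h3.mul_left _
    obtain ⟨g0, hg0⟩ := IsIntegrallyClosed.eq_map_mul_C_of_dvd K hmon h4
    rw [h1.leadingCoeff, C_1, mul_one] at hg0
    refine ⟨g0, ?_, hg0⟩
    apply monic_of_injective hinj
    rw [hg0]
    exact h1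
  choose! φ hφ using hlift
  have hG : (∏ g ∈ S, φ g).Monic := monic_prod_of_monic _ _ (fun g hg => (hφ g hg).1)
  have hGm : (∏ g ∈ S, φ g).map (algebraMap V.valuationSubring K) = ∏ g ∈ S, g := by
    rw [Polynomial.map_prod]
    exact Finset.prod_congr rfl (fun g hg => (hφ g hg).2)
  have hdv : (∏ g ∈ S, g) ∣ (f0.comp^[n] X).map (algebraMap V.valuationSubring K) := by
    apply Finset.prod_dvd_of_coprime
    · intro g hg g' hg' hne
      have h1 := hS g (Finset.mem_coe.1 hg)
      have h2 := hS g' (Finset.mem_coe.1 hg')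
      show IsCoprime g g'
      rw [h1.2.1.coprime_iff_not_dvd]
      intro h3
      exact absurd (eq_of_monic_of_associated h1.1 h2.1 (h1.2.1.associated_of_dvd h2.2.1 h3)) hne
    · intro g hg
      exact (hS g hg).2.2
  rw [← hGm, map_dvd_map _ hinj hG] at hdv
  obtain ⟨q, hq⟩ := hdv
  have hg1 : ∀ g ∈ S, V (((φ g).eval 0 : V.valuationSubring) : K) ≤ exp (-1) := by
    intro g hg
    have h1 : V (((φ g).eval 0 : V.valuationSubring) : K) < 1 := by
      apply ELo2_factor h n (hφ g hg).1
      · intro h0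
        have h2 := (hS g hg).2.1.natDegree_pos
        rw [← (hφ g hg).2, natDegree_map_eq_of_injective hinj] at h2
        omega
      · rw [hq]
        exact (Finset.dvd_prod_of_mem φ hg).mul_right q
    exact ELoc_lt1 h1
  have hval : V (((f0.comp^[n] X).eval 0 : V.valuationSubring) : K) ≤ exp (-(S.card : ℤ)) := by
    rw [hq, Polynomial.eval_mul, eval_prod]
    push_cast
    rw [map_mul, map_prod]
    have h1 : ∏ g ∈ S, V (((φ g).eval 0 : V.valuationSubring) : K) ≤ ∏ g ∈ S, (exp (-1) : ℤᵐ⁰) :=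
      Finset.prod_le_prod' hg1
    have h2 : V ((q.eval 0 : V.valuationSubring) : K) ≤ 1 := (q.eval 0).2
    calc _ ≤ (∏ g ∈ S, (exp (-1) : ℤᵐ⁰)) * 1 := mul_le_mul' h1 h2
      _ = exp (-(S.card : ℤ)) := by
        rw [mul_one, Finset.prod_const, ← exp_nsmul]
        simp
  rw [hev, hν] at hval
  rw [exp_le_exp] at hval
  omega

/-- Case B. -/
theorem ELo2_B [CharZero K] (V : Valuation K ℤᵐ⁰) {g : K[X]} (hd : 2 ≤ g.natDegree)
    (hper : g.eval 0 ≠ 0) (hlead : V g.leadingCoeff = 1)
    (hlow : ∀ i, i < g.natDegree → V (g.coeff i) < 1) : ES g 0 := by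
  classical
  have hcoef : ∀ i, V (g.coeff i) ≤ 1 := by
    intro i
    rcases lt_trichotomy i g.natDegree with h1 | h1 | h1
    · exact (hlow i h1).le
    · rw [h1]
      exact hlead.le
    · rw [coeff_eq_zero_of_natDegree_lt (by omega), map_zero]
      exact zero_le
  obtain ⟨f0, hf0⟩ : ∃ f0 : V.valuationSubring[X], f0.map (algebraMap V.valuationSubring K) = g := by
    have : g ∈ lifts (algebraMap V.valuationSubring K) := by
      rw [lifts_iff_coeff_lifts]
      intro i
      exact ⟨⟨g.coeff i, hcoef i⟩, rfl⟩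
    exact (mem_lifts g).1 this
  have hinj : Function.Injective (algebraMap V.valuationSubring K) := IsFractionRing.injective _ _
  have hco : ∀ i, (f0.coeff i : K) = g.coeff i := by
    intro i
    rw [← hf0, coeff_map]
    rfl
  have hdg : f0.natDegree = g.natDegree := by
    rw [← natDegree_map_eq_of_injective hinj, hf0]
  have hdat : ELo2_dat V f0 g.natDegree :=
    { D2 := hd
      dg := hdg
      ld := by
        rw [leadingCoeff, hco, hdg]
        exact hlead
      md := fun i h1 => by
        rw [hco]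
        exact hlow i h1 }
  have he0 : ((f0.eval 0 : V.valuationSubring) : K) = g.eval 0 := by
    have h1 := ELoc_eval (algebraMap V.valuationSubring K) f0 0
    rw [hf0, map_zero] at h1
    exact h1.symm
  have hne : f0.eval 0 ≠ 0 := by
    intro h0
    apply hper
    rw [← he0, h0]
    rfl
  have hval0 : V ((f0.eval 0 : V.valuationSubring) : K) ≠ 0 := by
    rw [Valuation.ne_zero_iff, he0]
    exact hper
  have hlt : V ((f0.eval 0 : V.valuationSubring) : K) < 1 := ELo2_mem hdat (by simp)
  obtain ⟨ν, hν⟩ : ∃ ν : ℕ, V ((f0.eval 0 : V.valuationSubring) : K) =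
      WithZero.exp (-(ν : ℤ)) := by
    have h1 := hlt
    rw [← WithZero.exp_log hval0, ← WithZero.exp_zero, WithZero.exp_lt_exp] at h1
    refine ⟨(-WithZero.log (V ((f0.eval 0 : V.valuationSubring) : K))).toNat, ?_⟩
    rw [Int.toNat_of_nonneg (by omega), neg_neg, WithZero.exp_log hval0]
  have hdf : 1 ≤ g.natDegree := by omega
  refine ⟨ν, fun n => ?_⟩
  have hmono := monotone_nat_of_le_succ (fun n => fac_mono (β := (0 : K)) hdf n)
  refine (hmono (Nat.le_succ n)).trans ?_
  have hr1 := ELo2_rigid hdat hne n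
  have hfs := ELoc_fin (ELoc_ne (β := (0 : K)) hdf (n + 1))
  show {p : K[X] | p.Monic ∧ Irreducible p ∧ p ∣ g.comp^[n + 1] X - C 0}.ncard ≤ ν
  rw [Set.ncard_eq_toFinset_card _ hfs]
  refine ELo2_count hdat (n + 1) (by rw [hr1]; exact hν) _ ?_
  intro p hp
  have h1 := hfs.mem_toFinset.1 hp
  refine ⟨h1.1, h1.2.1, ?_⟩
  rw [ELoc_mapit, hf0]
  have h2 := h1.2.2
  rwa [C_0, sub_zero] at h2

end loc

theorem ELo2_FA {K : Type} [Field K] (f : K[X]) (β : K) (n : ℕ) :
    (FA (f.comp (X + C β) - C β) K)^[n] 0 = (FA f K)^[n] β - β := by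
  induction n with
  | zero => simp
  | succ n ih =>
    rw [Function.iterate_succ_apply', ih, Function.iterate_succ_apply', FA_apply, FA_apply,
      coe_aeval_eq_eval, coe_aeval_eq_eval]
    simp

theorem es_of_local2 {K : Type} [Field K] [NumberField K] {f : K[X]} {β : K}
    (hd : 2 ≤ f.natDegree) (hper : ∀ n, 1 ≤ n → (FA f K)^[n] β ≠ β)
    (v : HeightOneSpectrum (𝓞 K)) (hlead : v.valuation K f.leadingCoeff = 1)
    (hmid : ∀ i, 1 ≤ i → i < f.natDegree → v.valuation K ((f.comp (X + C β)).coeff i) < 1)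
    (h0 : v.valuation K (f.eval β - β) < 1 ∨ (v.valuation K (f.eval β - β) ≤ 1 ∧
      ∃ l r : ℕ, l.Prime ∧ f.natDegree = l ^ r ∧ v.valuation K (l : K) < 1)) : ES f β := by
  refine ELo2_conj (by omega) ?_
  rcases h0 with h0 | ⟨h0, l, r, hl, hdl, hlv⟩
  · refine ELo2_B (v.valuation K) (by rw [ELo2_nd]; exact hd) ?_ ?_ ?_
    · rw [← coeff_zero_eq_eval_zero, ELo2_coeff0]
      intro h
      apply hper 1 le_rfl
      rw [Function.iterate_one, FA_apply, coe_aeval_eq_eval]
      exact sub_eq_zero.1 h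
    · rw [ELo2_lead β (by omega)]
      exact hlead
    · intro i hi
      rw [ELo2_nd] at hi
      rcases Nat.eq_zero_or_pos i with h1 | h1
      · rw [h1, ELo2_coeff0]
        exact h0
      · rw [ELo2_coeff f β h1]
        exact hmid i h1 hi
  · have hr : 1 ≤ r := by
      rcases Nat.eq_zero_or_pos r with h1 | h1
      · rw [h1, pow_zero] at hdl
        omega
      · exact h1
    refine es_of_local (l := l) (r := r) ?_ hl hr (by rw [ELo2_nd]; exact hdl) v hlv ?_ ?_ ?_ ?_
    · intro n hn h
      rw [ELo2_FA] at h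
      exact hper n hn (sub_eq_zero.1 h)
    · rw [ELo2_coeff0]
      exact h0
    · rw [ELo2_lead β (by omega)]
      exact hlead
    · intro i h1 h2
      rw [ELo2_coeff f β h1]
      exact hmid i h1 (by rw [hdl]; exact h2)
    · rw [map_zero]
      exact zero_le

end Pool.Agent.H42.PC

end ELo2

section EFin
namespace Pool.Agent.H42.PC

open Polynomial NumberField IsDedekindDomain Filter Topology

open scoped Classical

/-- sets of primes of upper density zero -/
def EFinSm (K : Type) [Field K] [NumberField K] (S : Set (HeightOneSpectrum (𝓞 K))) : Prop :=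
  ∀ ε : ℝ, 0 < ε → ∀ᶠ X : ℕ in atTop, (prc K S X : ℝ) ≤ ε * prc K Set.univ X

theorem EFin_mono_prc {K : Type} [Field K] [NumberField K] {S T : Set (HeightOneSpectrum (𝓞 K))}
    (h : S ⊆ T) (X : ℕ) : prc K S X ≤ prc K T X := by
  unfold prc
  exact Set.ncard_le_ncard (fun v hv => ⟨h hv.1, hv.2⟩)
    ((prc_finite K X).subset fun v hv => hv.2)

theorem EFin_union_prc {K : Type} [Field K] [NumberField K] (S T : Set (HeightOneSpectrum (𝓞 K)))
    (X : ℕ) : prc K (S ∪ T) X ≤ prc K S X + prc K T X := by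
  unfold prc
  have h : {v | v ∈ S ∪ T ∧ Ideal.absNorm v.asIdeal ≤ X} =
      {v | v ∈ S ∧ Ideal.absNorm v.asIdeal ≤ X} ∪ {v | v ∈ T ∧ Ideal.absNorm v.asIdeal ≤ X} := by
    ext v
    constructor
    · rintro ⟨h1 | h1, h2⟩
      · exact Or.inl ⟨h1, h2⟩
      · exact Or.inr ⟨h1, h2⟩
    · rintro (⟨h1, h2⟩ | ⟨h1, h2⟩)
      · exact ⟨Or.inl h1, h2⟩
      · exact ⟨Or.inr h1, h2⟩
  rw [h]
  exact Set.ncard_union_le _ _

theorem EFin_mono {K : Type} [Field K] [NumberField K] {S T : Set (HeightOneSpectrum (𝓞 K))}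
    (h : S ⊆ T) (hT : EFinSm K T) : EFinSm K S := by
  intro ε hε
  filter_upwards [hT ε hε] with X hX
  exact le_trans (by exact_mod_cast EFin_mono_prc h X) hX

theorem EFin_union {K : Type} [Field K] [NumberField K] {S T : Set (HeightOneSpectrum (𝓞 K))}
    (hS : EFinSm K S) (hT : EFinSm K T) : EFinSm K (S ∪ T) := by
  intro ε hε
  filter_upwards [hS (ε / 2) (by positivity), hT (ε / 2) (by positivity)] with X h1 h2
  have h3 : (prc K (S ∪ T) X : ℝ) ≤ prc K S X + prc K T X := by
    exact_mod_cast EFin_union_prc S T X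
  linarith

theorem EFin_fin {K : Type} [Field K] [NumberField K] (hK : PITh K)
    {S : Set (HeightOneSpectrum (𝓞 K))} (hS : S.Finite) : EFinSm K S := by
  intro ε hε
  filter_upwards [(prc_tendsto hK).eventually_ge_atTop ((S.ncard : ℝ) / ε)] with X hX
  have h1 : (prc K S X : ℝ) ≤ S.ncard := by
    have : prc K S X ≤ S.ncard := Set.ncard_le_ncard (fun v hv => hv.1) hS
    exact_mod_cast this
  rw [div_le_iff₀ hε] at hX
  linarith

theorem EFin_bUnion {K : Type} [Field K] [NumberField K] (hK : PITh K) {ι : Type} {s : Set ι}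
    (hs : s.Finite) (S : ι → Set (HeightOneSpectrum (𝓞 K))) (h : ∀ i ∈ s, EFinSm K (S i)) :
    EFinSm K (⋃ i ∈ s, S i) := by
  induction s, hs using Set.Finite.induction_on with
  | empty =>
    simp only [Set.mem_empty_iff_false, Set.iUnion_of_empty, Set.iUnion_empty]
    exact EFin_fin hK Set.finite_empty
  | insert _ _ ih =>
    rw [Set.biUnion_insert]
    exact EFin_union (h _ (Set.mem_insert _ _)) (ih fun i hi => h i (Set.mem_insert_of_mem _ hi))

theorem EFin_tendsto {K : Type} [Field K] [NumberField K] {S : Set (HeightOneSpectrum (𝓞 K))}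
    (hS : EFinSm K S) :
    Tendsto (fun X : ℕ => (prc K S X : ℝ) / prc K Set.univ X) atTop (𝓝 0) := by
  rw [Metric.tendsto_atTop']
  intro ε hε
  obtain ⟨N, hN⟩ := eventually_atTop.1 (hS (ε / 2) (by positivity))
  refine ⟨N, fun X hX => ?_⟩
  rw [Real.dist_eq, sub_zero, abs_of_nonneg (by positivity)]
  have h1 := hN X hX.le
  rcases (Nat.cast_nonneg (α := ℝ) (prc K Set.univ X)).eq_or_lt with h0 | h0
  · rw [← h0, div_zero]; exact hε
  · rw [div_lt_iff₀ h0]
    have : ε / 2 * (prc K Set.univ X : ℝ) < ε * prc K Set.univ X := by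
      apply mul_lt_mul_of_pos_right _ h0
      linarith
    linarith

theorem EFin_SS (hPIT : ∀ (E : Type) [Field E] [NumberField E], PITh E)
    {K : Type} [Field K] [NumberField K] {f h : K[X]} {β : K} (hodd : Odd f.natDegree)
    (hd : 3 ≤ f.natDegree) (hGP : GP f β (AlgebraicClosure K)) {n0 : ℕ} (hst : Stab f β n0)
    (hm : h.Monic) (hi : Irreducible h) (hdvd : h ∣ f.comp^[n0] X - C β) :
    EFinSm K (SS f h β) := by
  by_cases hinf : (SS f h β).Infinite
  · have hM : NumberField (derivative f).SplittingField :=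
      NumberField.of_module_finite K (derivative f).SplittingField
    have hq := qq_tendsto (M := (derivative f).SplittingField) hodd hd hGP hst hm hi hdvd hinf
    intro ε hε
    obtain ⟨t, hqt, hnt⟩ : ∃ t, qq f h β n0 t < ε / 4 ∧ n0 ≤ t := by
      have h1 : ∀ᶠ t in atTop, qq f h β n0 t < ε / 4 := hq.eventually_lt_const (by positivity)
      exact (h1.and (eventually_ge_atTop n0)).exists
    obtain ⟨L, iF, iN, iKL, iML, iT, iG, hs⟩ := exists_field (K := K)
      (M := (derivative f).SplittingField) f β t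
    have hGPL : GP f β L := GP_hom (IsAlgClosed.lift : L →ₐ[K] AlgebraicClosure K) hGP
    have hT := tree_of_splits (L := L) (by omega) hGPL hs
    have hO := orb_of_stab (L := L) (by omega) hnt hT hs hst hm hi hdvd
    have hfr := frob_in (M := (derivative f).SplittingField) (L := L) (by omega) hGP
      (IsSplittingField.splits _ _) hnt hT hO hs hm hdvd
    have hOfin : (OO f h n0 L t).Finite := (lev_fin hT le_rfl).subset (hO.sub t le_rfl)
    have hden := frobenius_density (K := K) (L := L) (hPIT K) (fun M => hPIT M) (OO f h n0 L t)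
      hOfin (fun g x hx => hO.inv t le_rfl g x hx) (ε := ε / 4) (by positivity)
    have hqe : q (L ≃ₐ[K] L) (OO f h n0 L) t = qq f h β n0 t := by
      first
        | exact q_indep (L := L) (by omega) hnt hdvd (hs t le_rfl)
        | exact q_indep (L := L) hnt hdvd (hs t le_rfl)
    have hE := EFin_fin (hPIT K) hfr (ε / 4) (by positivity)
    filter_upwards [hden, hE] with X h1 h2
    have h3 : SS f h β ⊆ {v | v ∈ SS f h β ∧ ¬ ∃ g : L ≃ₐ[K] L,
        (∃ x ∈ OO f h n0 L t, g • x = x) ∧ IsFr K L v g} ∪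
        {v | ∃ g : L ≃ₐ[K] L, (∃ x ∈ OO f h n0 L t, g • x = x) ∧ IsFr K L v g} := by
      intro v hv
      by_cases hg : ∃ g : L ≃ₐ[K] L, (∃ x ∈ OO f h n0 L t, g • x = x) ∧ IsFr K L v g
      · exact Or.inr hg
      · exact Or.inl ⟨hv, hg⟩
    have h4 := (EFin_mono_prc h3 X).trans (EFin_union_prc _ _ X)
    have h5 : (prc K (SS f h β) X : ℝ) ≤ (prc K {v | v ∈ SS f h β ∧ ¬ ∃ g : L ≃ₐ[K] L,
        (∃ x ∈ OO f h n0 L t, g • x = x) ∧ IsFr K L v g} X : ℝ) +
        (prc K {v | ∃ g : L ≃ₐ[K] L, (∃ x ∈ OO f h n0 L t, g • x = x) ∧ IsFr K L v g} X : ℝ) := by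
      exact_mod_cast h4
    have h6 : (Nat.card {g : L ≃ₐ[K] L // ∃ x ∈ OO f h n0 L t, g • x = x} : ℝ) /
        Nat.card (L ≃ₐ[K] L) < ε / 4 := by
      have : q (L ≃ₐ[K] L) (OO f h n0 L) t < ε / 4 := by rw [hqe]; exact hqt
      exact this
    have h7 : (0 : ℝ) ≤ prc K Set.univ X := Nat.cast_nonneg _
    have h8 : ((Nat.card {g : L ≃ₐ[K] L // ∃ x ∈ OO f h n0 L t, g • x = x} : ℝ) /
        Nat.card (L ≃ₐ[K] L) + ε / 4) * prc K Set.univ X ≤ (ε / 4 + ε / 4) * prc K Set.univ X :=
      mul_le_mul_of_nonneg_right (by linarith) h7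
    nlinarith
  · exact EFin_fin (hPIT K) (Set.not_infinite.1 hinf)

theorem density_zero (hPIT : ∀ (E : Type) [Field E] [NumberField E], PITh E)
    {K : Type} [Field K] [NumberField K] {f : K[X]} {β : K} (hodd : Odd f.natDegree)
    (hd : 3 ≤ f.natDegree) (hper : ∀ n, 1 ≤ n → (FA f K)^[n] β ≠ β)
    (hGP : Wandering f β → GP f β (AlgebraicClosure K)) (hES : ES f β) :
    Tendsto (fun X : ℕ => (prc K {v | ∃ n, 1 ≤ n ∧
      v.valuation K ((FA f K)^[n] β - β) < 1} X : ℝ) / prc K Set.univ X) atTop (𝓝 0) := by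
  apply EFin_tendsto
  by_cases hw : Wandering f β
  · obtain ⟨n0, hst⟩ := exists_stab (by omega) hES
    have hc := cover (f := f) (β := β) (by omega) n0
    have hS : EFinSm K (⋃ h ∈ {g : K[X] | g.Monic ∧ Irreducible g ∧ g ∣ f.comp^[n0] X - C β},
        SS f h β) := EFin_bUnion (hPIT K) (fac_finite (by omega) n0) _
      (fun h hh => EFin_SS hPIT hodd hd (hGP hw) hst hh.1 hh.2.1 hh.2.2)
    refine EFin_mono ?_ (EFin_union (EFin_fin (hPIT K) hc) hS)
    intro v hv
    by_cases hv2 : v ∈ ⋃ h ∈ {g : K[X] | g.Monic ∧ Irreducible g ∧ g ∣ f.comp^[n0] X - C β},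
        SS f h β
    · exact Or.inr hv2
    · exact Or.inl ⟨hv, hv2⟩
  · exact EFin_fin (hPIT K) (prep_finite hw hper)

end Pool.Agent.H42.PC

end EFin
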