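import Mathlib

set_option autoImplicit false

section BDefs
/-! Frobenius density theorem: definitions. -/


namespace Pool.Agent.H42.PC

open NumberField IsDedekindDomain

/-- The number of primes of `K` in `S` of norm at most `X`. -/
noncomputable def prc (K : Type) [Field K] [NumberField K] (S : Set (HeightOneSpectrum (𝓞 K)))
    (X : ℕ) : ℕ :=
  {v | v ∈ S ∧ Ideal.absNorm v.asIdeal ≤ X}.ncard

/-- Unramified primes of `K` in `L`: all inertia groups above are trivial. -/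
def Un (K L : Type) [Field K] [NumberField K] [Field L] [NumberField L] [Algebra K L]
    (v : HeightOneSpectrum (𝓞 K)) : Prop :=
  ∀ w : HeightOneSpectrum (𝓞 L), w.asIdeal.LiesOver v.asIdeal →
    ∀ g : L ≃ₐ[K] L, (∀ x : 𝓞 L, g • x - x ∈ w.asIdeal) → g = 1

/-- `g` is a Frobenius element at a prime above `v`. -/
def IsFr (K L : Type) [Field K] [NumberField K] [Field L] [NumberField L] [Algebra K L]
    [IsGalois K L] (v : HeightOneSpectrum (𝓞 K)) (g : L ≃ₐ[K] L) : Prop :=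
  ∃ w : HeightOneSpectrum (𝓞 L), w.asIdeal.LiesOver v.asIdeal ∧ IsArithFrobAt (𝓞 K) g w.asIdeal

/-- The permutation character of `G` on the cosets of `C`. -/
noncomputable def tht {G : Type} [Group G] (C : Subgroup G) (g : G) : ℝ :=
  (Nat.card {x : G // x⁻¹ * g * x ∈ C} : ℝ) / Nat.card C

end Pool.Agent.H42.PC

end BDefs

section BInd
namespace Pool.Agent.H42.PC

open scoped Classical

variable {G : Type} [Group G] [Finite G]

theorem tht_mean {G : Type} [Group G] [Fintype G] (C : Subgroup G) :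
    ∑ g : G, tht C g = Nat.card G := by
  have hC : (Nat.card C : ℝ) ≠ 0 := by
    have : Nat.card C ≠ 0 := Nat.card_pos.ne'
    exact_mod_cast this
  unfold tht
  rw [← Finset.sum_div, div_eq_iff hC]
  have h1 : ∀ g : G, (Nat.card {x : G // x⁻¹ * g * x ∈ C} : ℝ) =
      ∑ x : G, (if x⁻¹ * g * x ∈ C then (1 : ℝ) else 0) := by
    intro g
    rw [Nat.card_eq_fintype_card, Fintype.card_subtype, Finset.sum_ite, Finset.sum_const,
      Finset.sum_const_zero, add_zero, nsmul_eq_mul, mul_one]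
  have h2 : ∀ x : G, ∑ g : G, (if x⁻¹ * g * x ∈ C then (1 : ℝ) else 0) = Nat.card C := by
    intro x
    have h3 : ∑ g : G, (if x⁻¹ * g * x ∈ C then (1 : ℝ) else 0) =
        ∑ g : G, (if g ∈ C then (1 : ℝ) else 0) := by
      apply Fintype.sum_equiv ((Equiv.mulLeft x⁻¹).trans (Equiv.mulRight x))
      intro g
      rfl
    rw [h3, Finset.sum_ite, Finset.sum_const, Finset.sum_const_zero, add_zero, nsmul_eq_mul,
      mul_one, Nat.card_eq_fintype_card, Fintype.card_subtype]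
  rw [Finset.sum_congr rfl (fun g _ => h1 g), Finset.sum_comm,
    Finset.sum_congr rfl (fun x _ => h2 x), Finset.sum_const, Finset.card_univ, nsmul_eq_mul,
    Nat.card_eq_fintype_card (α := G)]

/-- fixed cosets -/
theorem bind_coset {G : Type} [Group G] [Finite G] (C : Subgroup G) (g : G) :
    (Nat.card {y : G ⧸ C // g • y = y} : ℝ) = tht C g := by
  have : Fintype G := Fintype.ofFinite G
  have hC : (Nat.card C : ℝ) ≠ 0 := by
    have : Nat.card C ≠ 0 := Nat.card_pos.ne'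
    exact_mod_cast this
  unfold tht
  rw [eq_div_iff hC]
  have h1 : Nat.card {y : G ⧸ C // g • y = y} * Nat.card C =
      Nat.card {x : G // x⁻¹ * g * x ∈ C} := by
    rw [← Nat.card_prod]
    apply Nat.card_congr
    have hfix : ∀ x : G, (g • (x : G ⧸ C) = (x : G ⧸ C)) ↔ x⁻¹ * g * x ∈ C := by
      intro x
      rw [MulAction.Quotient.smul_mk, smul_eq_mul, eq_comm, QuotientGroup.eq, ← mul_assoc]
    refine Equiv.ofBijective (fun p => ⟨(Quotient.out p.1.1 : G) * (p.2 : G), ?_⟩) ⟨?_, ?_⟩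
    · rw [← hfix]
      have h2 : (((Quotient.out p.1.1 : G) * (p.2 : G) : G) : G ⧸ C) = p.1.1 := by
        rw [QuotientGroup.mk_mul_of_mem _ p.2.2]
        exact Quotient.out_eq' p.1.1
      rw [h2]
      exact p.1.2
    · rintro ⟨⟨y, hy⟩, c⟩ ⟨⟨y', hy'⟩, c'⟩ h
      have h3 : (Quotient.out y : G) * (c : G) = (Quotient.out y' : G) * (c' : G) :=
        congrArg Subtype.val h
      have h4 : y = y' := by
        have e1 : (((Quotient.out y : G) * (c : G) : G) : G ⧸ C) = y := by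
          rw [QuotientGroup.mk_mul_of_mem _ c.2]
          exact Quotient.out_eq' y
        have e2 : (((Quotient.out y' : G) * (c' : G) : G) : G ⧸ C) = y' := by
          rw [QuotientGroup.mk_mul_of_mem _ c'.2]
          exact Quotient.out_eq' y'
        rw [← e1, h3, e2]
      subst h4
      have h5 := mul_left_cancel h3
      have h6 : c = c' := Subtype.ext h5
      rw [h6]
    · rintro ⟨x, hx⟩
      have e1 : ((Quotient.out (x : G ⧸ C) : G) : G ⧸ C) = (x : G ⧸ C) :=
        Quotient.out_eq' (x : G ⧸ C)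
      have hmem : (Quotient.out (x : G ⧸ C) : G)⁻¹ * x ∈ C := QuotientGroup.eq.mp e1
      refine ⟨⟨⟨(x : G ⧸ C), (hfix x).mpr hx⟩, ⟨_, hmem⟩⟩, ?_⟩
      apply Subtype.ext
      simp
  exact_mod_cast h1

theorem bind_equiv {G : Type} [Group G] (Y Z : Type) [MulAction G Y] [MulAction G Z]
    (e : Y ≃ Z) (he : ∀ (g : G) y, e (g • y) = g • e y) (g : G) :
    Nat.card {y : Y // g • y = y} = Nat.card {z : Z // g • z = z} := by
  apply Nat.card_congr
  refine e.subtypeEquiv (fun y => ?_)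
  rw [← he]
  exact e.injective.eq_iff.symm

theorem bind_orbit {G : Type} [Group G] [Finite G] (Y : Type) [MulAction G Y] (y : Y) (g : G) :
    (Nat.card {z : MulAction.orbit G y // g • z = z} : ℝ) = tht (MulAction.stabilizer G y) g := by
  rw [← bind_coset]
  have h := bind_equiv (G := G) (MulAction.orbit G y) (G ⧸ MulAction.stabilizer G y)
    (MulAction.orbitEquivQuotientStabilizer G y) ?_ g
  · exact_mod_cast h
  · intro g z
    apply (MulAction.orbitEquivQuotientStabilizer G y).symm.injective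
    rw [Equiv.symm_apply_apply]
    obtain ⟨q, rfl⟩ := (MulAction.orbitEquivQuotientStabilizer G y).symm.surjective z
    rw [Equiv.apply_symm_apply]
    obtain ⟨x, rfl⟩ := QuotientGroup.mk_surjective q
    apply Subtype.ext
    rw [MulAction.orbit.coe_smul, MulAction.Quotient.smul_mk,
      MulAction.orbitEquivQuotientStabilizer_symm_apply,
      MulAction.orbitEquivQuotientStabilizer_symm_apply, smul_eq_mul, mul_smul]

theorem set_fix (S : Submodule ℝ (G → ℝ)) (hS : ∀ C : Subgroup G, tht C ∈ S) (Y : Type)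
    [MulAction G Y] [Finite Y] : (fun g : G => (Nat.card {y : Y // g • y = y} : ℝ)) ∈ S := by
  have : Fintype (MulAction.orbitRel.Quotient G Y) := Fintype.ofFinite _
  have h1 : (fun g : G => (Nat.card {y : Y // g • y = y} : ℝ)) =
      ∑ ω : MulAction.orbitRel.Quotient G Y, tht (MulAction.stabilizer G (Quotient.out ω)) := by
    funext g
    rw [Finset.sum_apply]
    have h2 : ∀ ω : MulAction.orbitRel.Quotient G Y,
        tht (MulAction.stabilizer G (Quotient.out ω)) g =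
        (Nat.card {y : Y // g • y = y ∧ (Quotient.mk (MulAction.orbitRel G Y) y) = ω} : ℝ) := by
      intro ω
      rw [← bind_orbit]
      congr 1
      apply Nat.card_congr
      refine ⟨fun z => ⟨z.1.1, ?_, ?_⟩, fun y => ⟨⟨y.1, ?_⟩, ?_⟩, ?_, ?_⟩
      · have := congrArg Subtype.val z.2
        rwa [MulAction.orbit.coe_smul] at this
      · have h3 : (Quotient.mk (MulAction.orbitRel G Y) z.1.1) =
            Quotient.mk (MulAction.orbitRel G Y) (Quotient.out ω) := by
          apply Quotient.sound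
          exact z.1.2
        rw [h3]
        exact Quotient.out_eq ω
      · have h3 : (Quotient.mk (MulAction.orbitRel G Y) y.1) =
            Quotient.mk (MulAction.orbitRel G Y) (Quotient.out ω) := by
          rw [y.2.2]
          exact (Quotient.out_eq ω).symm
        exact Quotient.exact h3
      · apply Subtype.ext
        rw [MulAction.orbit.coe_smul]
        exact y.2.1
      · intro z
        rfl
      · intro y
        rfl
    rw [Finset.sum_congr rfl (fun ω _ => h2 ω), ← Nat.cast_sum]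
    congr 1
    have : Fintype Y := Fintype.ofFinite Y
    rw [Nat.card_eq_fintype_card, Fintype.card_subtype,
      Finset.card_eq_sum_card_fiberwise
        (f := fun y => (Quotient.mk (MulAction.orbitRel G Y) y)) (t := Finset.univ)
        (fun _ _ => Finset.mem_univ _)]
    apply Finset.sum_congr rfl
    intro ω _
    rw [Nat.card_eq_fintype_card, Fintype.card_subtype, Finset.filter_filter]
  rw [h1]
  exact Submodule.sum_mem _ (fun ω _ => hS _)

theorem bind_pow {G : Type} [Group G] (Y : Type) [MulAction G Y] [Finite Y] (k : ℕ) (g : G) :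
    Nat.card {y : Fin k → Y // g • y = y} = Nat.card {y : Y // g • y = y} ^ k := by
  have h1 : Nat.card {y : Fin k → Y // g • y = y} = Nat.card (Fin k → {y : Y // g • y = y}) := by
    apply Nat.card_congr
    refine ⟨fun y i => ⟨y.1 i, congrFun y.2 i⟩, fun y => ⟨fun i => (y i).1, ?_⟩, ?_, ?_⟩
    · funext i
      exact (y i).2
    · intro y
      rfl
    · intro y
      rfl
  rw [h1, Nat.card_fun, Nat.card_eq_fintype_card (α := Fin k), Fintype.card_fin]

theorem bind_poly (m i : ℕ) (hi : i ≤ m) :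
    (∏ j ∈ Finset.range m, (1 - Polynomial.C ((1 : ℝ) / (j + 1)) * Polynomial.X)).eval (i : ℝ) =
      if i = 0 then 1 else 0 := by
  rw [Polynomial.eval_prod]
  split_ifs with h
  · subst h
    simp
  · apply Finset.prod_eq_zero (i := i - 1)
    · rw [Finset.mem_range]
      omega
    · simp only [Polynomial.eval_sub, Polynomial.eval_one, Polynomial.eval_mul,
        Polynomial.eval_C, Polynomial.eval_X]
      have h2 : ((i - 1 : ℕ) : ℝ) + 1 = i := by
        have : i - 1 + 1 = i := by omega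
        exact_mod_cast this
      rw [h2]
      have h3 : (i : ℝ) ≠ 0 := by exact_mod_cast h
      field_simp
      ring

theorem fix_span (S : Submodule ℝ (G → ℝ)) (hS : ∀ C : Subgroup G, tht C ∈ S) {Ω : Type}
    [MulAction G Ω] (O : Set Ω) (hO : O.Finite) (hinv : ∀ g : G, ∀ x ∈ O, g • x ∈ O) :
    (fun g : G => if ∃ x ∈ O, g • x = x then (1 : ℝ) else 0) ∈ S := by
  let A : SubMulAction G Ω := ⟨O, fun g x hx => hinv g x hx⟩
  have hfin : Finite A := hO
  obtain ⟨X, hX⟩ : ∃ X : G → ℕ, X = fun g => Nat.card {y : A // g • y = y} := ⟨_, rfl⟩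
  obtain ⟨m, hm⟩ : ∃ m, m = Nat.card A := ⟨_, rfl⟩
  have hXm : ∀ g, X g ≤ m := by
    intro g
    rw [hX, hm]
    exact Nat.card_le_card_of_injective (fun y : {y : A // g • y = y} => y.1)
      Subtype.val_injective
  have hX0 : ∀ g, X g = 0 ↔ ¬ ∃ x ∈ O, g • x = x := by
    intro g
    rw [hX]
    simp only
    rw [Finite.card_eq_zero_iff]
    constructor
    · rintro ⟨h⟩ ⟨x, hx, hgx⟩
      exact h ⟨⟨x, hx⟩, Subtype.ext hgx⟩
    · intro h
      refine ⟨fun y => h ⟨y.1.1, y.1.2, ?_⟩⟩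
      exact congrArg Subtype.val y.2
  have hpow : ∀ k : ℕ, (fun g : G => (X g : ℝ) ^ k) ∈ S := by
    intro k
    have h1 := set_fix S hS (Fin k → A)
    have h2 : (fun g : G => (Nat.card {y : Fin k → A // g • y = y} : ℝ)) =
        fun g : G => (X g : ℝ) ^ k := by
      funext g
      rw [bind_pow, hX]
      push_cast
      rfl
    rwa [h2] at h1
  obtain ⟨P, hP⟩ : ∃ P : Polynomial ℝ,
      P = ∏ j ∈ Finset.range m, (1 - Polynomial.C ((1 : ℝ) / (j + 1)) * Polynomial.X) := ⟨_, rfl⟩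
  have hPX : (fun g : G => P.eval (X g : ℝ)) ∈ S := by
    have h1 : (fun g : G => P.eval (X g : ℝ)) =
        ∑ i ∈ Finset.range (P.natDegree + 1), P.coeff i • (fun g : G => (X g : ℝ) ^ i) := by
      funext g
      rw [Polynomial.eval_eq_sum_range, Finset.sum_apply]
      apply Finset.sum_congr rfl
      intro i _
      rw [Pi.smul_apply, smul_eq_mul]
    rw [h1]
    exact Submodule.sum_mem _ (fun i _ => Submodule.smul_mem _ _ (hpow i))
  have h0 := hpow 0
  have h2 := Submodule.sub_mem _ h0 hPX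
  have h3 : (fun g : G => if ∃ x ∈ O, g • x = x then (1 : ℝ) else 0) =
      (fun g : G => (X g : ℝ) ^ 0) - (fun g : G => P.eval (X g : ℝ)) := by
    funext g
    rw [Pi.sub_apply, pow_zero, hP, bind_poly m (X g) (hXm g)]
    by_cases h4 : ∃ x ∈ O, g • x = x
    · have h5 : ¬ X g = 0 := fun h6 => (hX0 g).mp h6 h4
      rw [if_pos h4, if_neg h5, sub_zero]
    · have h5 : X g = 0 := (hX0 g).mpr h4
      rw [if_neg h4, if_pos h5, sub_self]
  rw [h3]
  exact h2

end Pool.Agent.H42.PC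

end BInd

section BFr
namespace Pool.Agent.H42.PC

open NumberField IsDedekindDomain

variable {K L : Type} [Field K] [NumberField K] [Field L] [NumberField L] [Algebra K L]
  [IsGalois K L]

theorem BFr_int_ext {g : L ≃ₐ[K] L} (h : ∀ x : 𝓞 L, g • x = x) : g = 1 := by
  apply AlgEquiv.ext
  intro x
  obtain ⟨a, b, hb, rfl⟩ := IsFractionRing.div_surjective (A := 𝓞 L) x
  have key : ∀ y : 𝓞 L, g (algebraMap (𝓞 L) L y) = algebraMap (𝓞 L) L y := by
    intro y
    have h1 := congrArg (algebraMap (𝓞 L) L) (h y)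
    exact h1
  rw [map_div₀, key, key]
  rfl

theorem un_finite : {v : HeightOneSpectrum (𝓞 K) | ¬ Un K L v}.Finite := by
  classical
  have hx : ∀ g : L ≃ₐ[K] L, g ≠ 1 → ∃ x : 𝓞 L, g • x - x ≠ 0 := by
    intro g hg
    by_contra hcon
    push Not at hcon
    exact hg (BFr_int_ext fun x => sub_eq_zero.1 (hcon x))
  choose! xg hxg using hx
  have hW : (⋃ g : L ≃ₐ[K] L, {w : HeightOneSpectrum (𝓞 L) |
      g ≠ 1 ∧ w.asIdeal ∣ Ideal.span {g • xg g - xg g}}).Finite := by
    apply Set.finite_iUnion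
    intro g
    by_cases hg : g = 1
    · refine (Set.finite_empty).subset ?_
      rintro w ⟨hw, -⟩
      exact absurd hg hw
    · refine (Ideal.finite_factors (I := Ideal.span {g • xg g - xg g}) ?_).subset ?_
      · rw [Ne, Ideal.zero_eq_bot, Ideal.span_singleton_eq_bot]
        exact hxg g hg
      · rintro w ⟨-, hw⟩
        exact hw
  have him := hW.image (fun w => w.asIdeal.under (𝓞 K))
  refine Set.Finite.of_finite_image (f := fun v : HeightOneSpectrum (𝓞 K) => v.asIdeal)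
    (him.subset ?_) ?_
  · rintro _ ⟨v, hv, rfl⟩
    simp only [Set.mem_setOf_eq, Un] at hv
    push Not at hv
    obtain ⟨w, hw, g, hg, hg1⟩ := hv
    refine ⟨w, ?_, hw.over.symm⟩
    rw [Set.mem_iUnion]
    refine ⟨g, hg1, ?_⟩
    rw [Ideal.dvd_span_singleton]
    exact hg _
  · intro v _ v' _ h
    exact HeightOneSpectrum.ext h

theorem BFr_over_exists (v : HeightOneSpectrum (𝓞 K)) :
    ∃ w : HeightOneSpectrum (𝓞 L), w.asIdeal.LiesOver v.asIdeal := by
  have hp := v.isPrime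
  obtain ⟨Q, -, hQ, hQv⟩ := Ideal.exists_ideal_over_prime_of_isIntegral (S := 𝓞 L) v.asIdeal ⊥ (by
    rw [Ideal.comap_bot_of_injective _ (FaithfulSMul.algebraMap_injective (𝓞 K) (𝓞 L))]
    exact bot_le)
  refine ⟨⟨Q, hQ, ?_⟩, ⟨hQv.symm⟩⟩
  rintro rfl
  rw [Ideal.comap_bot_of_injective _ (FaithfulSMul.algebraMap_injective (𝓞 K) (𝓞 L))] at hQv
  exact v.ne_bot hQv.symm

theorem fr_exists (v : HeightOneSpectrum (𝓞 K)) : ∃ g : L ≃ₐ[K] L, IsFr K L v g := by
  obtain ⟨w, hw⟩ := BFr_over_exists (K := K) (L := L) v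
  have hp := w.isPrime
  have : Finite (𝓞 L ⧸ w.asIdeal) := Ideal.finiteQuotientOfFreeOfNeBot _ w.ne_bot
  obtain ⟨σ, hσ⟩ := IsArithFrobAt.exists_of_isInvariant (𝓞 K) (L ≃ₐ[K] L) w.asIdeal
  exact ⟨σ, w, hw, hσ⟩

open scoped Pointwise in
theorem BFr_smul_ne_bot (w : HeightOneSpectrum (𝓞 L)) (τ : L ≃ₐ[K] L) : τ • w.asIdeal ≠ ⊥ := by
  intro h
  apply w.ne_bot
  have h1 : τ⁻¹ • (τ • w.asIdeal) = τ⁻¹ • (⊥ : Ideal (𝓞 L)) := by rw [h]
  rw [inv_smul_smul] at h1
  rw [h1, Ideal.pointwise_smul_def, Ideal.map_bot]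

open scoped Pointwise in
theorem fr_conj {v : HeightOneSpectrum (𝓞 K)} (hv : Un K L v) {g h : L ≃ₐ[K] L}
    (hg : IsFr K L v g) (hh : IsFr K L v h) : ∃ τ : L ≃ₐ[K] L, τ * g * τ⁻¹ = h := by
  obtain ⟨w, hw, hgw⟩ := hg
  obtain ⟨w', hw', hhw⟩ := hh
  have hp := w.isPrime
  have hp' := w'.isPrime
  obtain ⟨τ, hτ⟩ := Algebra.IsInvariant.exists_smul_of_under_eq (𝓞 K) (𝓞 L) (L ≃ₐ[K] L)
    w.asIdeal w'.asIdeal (hw.over.symm.trans hw'.over)
  refine ⟨τ, ?_⟩
  have h1 := hgw.conj τ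
  rw [← hτ] at h1
  have h2 := IsArithFrobAt.mul_inv_mem_inertia h1 hhw
  have h3 : τ * g * τ⁻¹ * h⁻¹ = 1 := hv w' hw' _ (fun x => h2 x)
  exact mul_inv_eq_one.1 h3

open scoped Pointwise in
theorem fr_conj' {v : HeightOneSpectrum (𝓞 K)} {g : L ≃ₐ[K] L}
    (hg : IsFr K L v g) (τ : L ≃ₐ[K] L) : IsFr K L v (τ * g * τ⁻¹) := by
  obtain ⟨w, hw, hgw⟩ := hg
  have hp := w.isPrime
  refine ⟨⟨τ • w.asIdeal, inferInstance, BFr_smul_ne_bot w τ⟩, ?_, hgw.conj τ⟩
  exact Ideal.LiesOver.smul (h := hw) τ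

end Pool.Agent.H42.PC

end BFr

section BCnt
namespace Pool.Agent.H42.PC

open NumberField IsDedekindDomain

variable {K M : Type} [Field K] [NumberField K] [Field M] [NumberField M] [Algebra K M]

theorem BCnt_card {R S : Type} [CommRing R] [IsDomain R] [CommRing S] [Algebra R S]
    [Module.Finite R S] [Module.Flat R S] (p : Ideal R) [p.IsPrime] :
    (p.primesOver S).Finite ∧ (p.primesOver S).ncard ≤ Module.finrank R S := by
  have hf := Algebra.QuasiFinite.finite_primesOver (S := S) p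
  refine ⟨hf, ?_⟩
  have : Fintype (p.primesOver S) := hf.fintype
  rw [← Ideal.sum_ramification_inertia_eq_finrank p S, ← Nat.card_coe_set_eq,
    Nat.card_eq_fintype_card, Fintype.card_eq_sum_ones]
  refine Finset.sum_le_sum fun q _ => ?_
  have hq := q.2.1
  exact Right.one_le_mul (Ideal.ramificationIdx_pos q.1 R) (Ideal.inertiaDeg_pos q.1 R)

theorem BCnt_prime (v : HeightOneSpectrum (𝓞 K)) : ∃ p : ℕ, p.Prime ∧
    (p : 𝓞 K) ∈ v.asIdeal ∧ p ≤ Ideal.absNorm v.asIdeal := by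
  have hp := v.isPrime
  have h0 : Ideal.absNorm v.asIdeal ≠ 0 := by
    rw [Ne, Ideal.absNorm_eq_zero_iff]
    exact v.ne_bot
  have h1 : ((Ideal.absNorm v.asIdeal : ℕ) : 𝓞 K) ∈ v.asIdeal := Ideal.absNorm_mem _
  have key : ∀ n : ℕ, n ≠ 0 → (n : 𝓞 K) ∈ v.asIdeal → ∃ p : ℕ, p.Prime ∧
      (p : 𝓞 K) ∈ v.asIdeal ∧ p ≤ n := by
    intro n
    induction n using Nat.strong_induction_on with
    | _ n ih =>
      intro hn hmem
      have hn1 : n ≠ 1 := by
        rintro rfl
        rw [Nat.cast_one] at hmem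
        exact hp.ne_top ((Ideal.eq_top_iff_one _).2 hmem)
      obtain ⟨m, hm⟩ := Nat.minFac_dvd n
      have hpr := Nat.minFac_prime hn1
      have hm0 : m ≠ 0 := by
        rintro rfl
        exact hn (by rw [hm, mul_zero])
      rw [hm, Nat.cast_mul] at hmem
      rcases hp.mem_or_mem hmem with h | h
      · exact ⟨_, hpr, h, Nat.minFac_le (Nat.pos_of_ne_zero hn)⟩
      · have hlt : m < n := by
          have h2 : 2 ≤ n.minFac := hpr.two_le
          have h3 : n.minFac * m = n := hm.symm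
          nlinarith [Nat.pos_of_ne_zero hm0]
        obtain ⟨p, h4, h5, h6⟩ := ih m hlt hm0 h
        exact ⟨p, h4, h5, h6.trans hlt.le⟩
  exact key _ h0 h1

theorem BCnt_over (v : HeightOneSpectrum (𝓞 K)) {p : ℕ} (hp : p.Prime)
    (h : (p : 𝓞 K) ∈ v.asIdeal) : v.asIdeal ∈ (Ideal.span {(p : ℤ)}).primesOver (𝓞 K) := by
  refine ⟨v.isPrime, ⟨?_⟩⟩
  have hp' := v.isPrime
  have hmax : (Ideal.span {(p : ℤ)}).IsMaximal := by
    have h1 : (Ideal.span {(p : ℤ)}).IsPrime := by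
      rw [Ideal.span_singleton_prime (by exact_mod_cast hp.ne_zero)]
      exact Nat.prime_iff_prime_int.1 hp
    exact h1.isMaximal (by rw [Ne, Ideal.span_singleton_eq_bot]; exact_mod_cast hp.ne_zero)
  refine hmax.eq_of_le (Ideal.comap_ne_top _ hp'.ne_top) ?_
  rw [Ideal.span_singleton_le_iff_mem, Ideal.mem_comap]
  simpa using h

theorem BCnt_finite_le {ι α : Type} {s : Set ι} (hs : s.Finite) {f : ι → Set α} {n : ℕ}
    (hf : ∀ i ∈ s, (f i).Finite ∧ (f i).ncard ≤ n) {t : Set α} (ht : t ⊆ ⋃ i ∈ s, f i) :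
    t.Finite ∧ t.ncard ≤ n * s.ncard := by
  have h1 : (⋃ i ∈ s, f i).Finite := hs.biUnion fun i hi => (hf i hi).1
  refine ⟨h1.subset ht, (Set.ncard_le_ncard ht h1).trans ?_⟩
  have h2 := Finset.set_ncard_biUnion_le hs.toFinset f
  simp only [Set.Finite.mem_toFinset] at h2
  refine h2.trans ?_
  rw [Set.ncard_eq_toFinset_card s hs, mul_comm, ← smul_eq_mul]
  refine Finset.sum_le_card_nsmul _ _ _ ?_
  intro i hi
  exact (hf i (by simpa using hi)).2

theorem prc_finite (K : Type) [Field K] [NumberField K] (X : ℕ) :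
    {v : HeightOneSpectrum (𝓞 K) | Ideal.absNorm v.asIdeal ≤ X}.Finite := by
  refine Set.Finite.of_finite_image (f := fun v : HeightOneSpectrum (𝓞 K) => v.asIdeal)
    ((Ideal.finite_setOfPred_absNorm_le (S := 𝓞 K) X).subset ?_) ?_
  · rintro _ ⟨v, hv, rfl⟩
    exact hv
  · intro v _ v' _ h
    exact HeightOneSpectrum.ext h

/-- the prime below -/
theorem BCnt_below (K : Type) {M : Type} [Field K] [NumberField K] [Field M] [NumberField M]
    [Algebra K M] (q : HeightOneSpectrum (𝓞 M)) :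
    ∃ v : HeightOneSpectrum (𝓞 K), q.asIdeal.LiesOver v.asIdeal := by
  have hp := q.isPrime
  refine ⟨⟨q.asIdeal.under (𝓞 K), inferInstance, ?_⟩, ⟨rfl⟩⟩
  intro h
  exact q.ne_bot (Ideal.eq_bot_of_comap_eq_bot h)

/-- the prime below is unique -/
theorem BCnt_below_uniq {v v' : HeightOneSpectrum (𝓞 K)} {q : HeightOneSpectrum (𝓞 M)}
    (h : q.asIdeal.LiesOver v.asIdeal) (h' : q.asIdeal.LiesOver v'.asIdeal) : v = v' :=
  HeightOneSpectrum.ext (h.over.trans h'.over.symm)

theorem over_card (v : HeightOneSpectrum (𝓞 K)) :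
    Nat.card {q : HeightOneSpectrum (𝓞 M) // q.asIdeal.LiesOver v.asIdeal} ≤
      Module.finrank K M := by
  have hp := v.isPrime
  obtain ⟨hf, hc⟩ := BCnt_card (S := 𝓞 M) v.asIdeal
  rw [← IsFractionRing.finrank_eq (𝓞 K) K (𝓞 M) M] at hc
  refine le_trans ?_ hc
  rw [← Nat.card_coe_set_eq]
  have : Finite (v.asIdeal.primesOver (𝓞 M)) := hf
  refine Nat.card_le_card_of_injective (fun q => ⟨q.1.asIdeal, q.1.isPrime, q.2⟩) ?_
  intro q q' h
  exact Subtype.ext (HeightOneSpectrum.ext (congrArg Subtype.val h))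

theorem BCnt_over_fin (v : HeightOneSpectrum (𝓞 K)) :
    {q : HeightOneSpectrum (𝓞 M) | q.asIdeal.LiesOver v.asIdeal}.Finite ∧
    {q : HeightOneSpectrum (𝓞 M) | q.asIdeal.LiesOver v.asIdeal}.ncard ≤ Module.finrank K M := by
  have hp := v.isPrime
  obtain ⟨hf, hc⟩ := BCnt_card (S := 𝓞 M) v.asIdeal
  have hf2 : Finite (v.asIdeal.primesOver (𝓞 M)) := hf
  refine ⟨?_, by
    have h1 := over_card (M := M) v
    rw [← Nat.card_coe_set_eq]
    exact h1⟩
  refine Set.Finite.of_finite_image (f := fun v : HeightOneSpectrum (𝓞 M) => v.asIdeal)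
    (hf.subset ?_) ?_
  · rintro _ ⟨w, hw, rfl⟩
    exact ⟨w.isPrime, hw⟩
  · intro v _ v' _ h
    exact HeightOneSpectrum.ext h

theorem prc_le (S : Set (HeightOneSpectrum (𝓞 K))) (X : ℕ) :
    prc K S X ≤ Module.finrank ℚ K * X := by
  have hs : {p : ℕ | p.Prime ∧ p ≤ X}.Finite := (Set.finite_Iic X).subset fun p hp => hp.2
  have h1 := BCnt_finite_le hs (n := Module.finrank ℚ K)
    (f := fun p => {v : HeightOneSpectrum (𝓞 K) |
      v.asIdeal ∈ (Ideal.span {(p : ℤ)}).primesOver (𝓞 K)})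
    (t := {v | v ∈ S ∧ Ideal.absNorm v.asIdeal ≤ X}) (by
      rintro p ⟨hp, -⟩
      have hpr : (Ideal.span {(p : ℤ)}).IsPrime := by
        rw [Ideal.span_singleton_prime (by exact_mod_cast hp.ne_zero)]
        exact Nat.prime_iff_prime_int.1 hp
      obtain ⟨hf, hc⟩ := BCnt_card (S := 𝓞 K) (Ideal.span {(p : ℤ)})
      rw [RingOfIntegers.rank] at hc
      have hinj : Set.InjOn (fun v : HeightOneSpectrum (𝓞 K) => v.asIdeal)
          {v | v.asIdeal ∈ (Ideal.span {(p : ℤ)}).primesOver (𝓞 K)} :=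
        fun v _ v' _ h => HeightOneSpectrum.ext h
      have hsub : (fun v : HeightOneSpectrum (𝓞 K) => v.asIdeal) ''
          {v | v.asIdeal ∈ (Ideal.span {(p : ℤ)}).primesOver (𝓞 K)} ⊆
          (Ideal.span {(p : ℤ)}).primesOver (𝓞 K) := by
        rintro _ ⟨v, hv, rfl⟩
        exact hv
      refine ⟨Set.Finite.of_finite_image (hf.subset hsub) hinj, ?_⟩
      rw [← Set.ncard_image_of_injOn hinj]
      exact (Set.ncard_le_ncard hsub hf).trans hc) (by
      rintro v ⟨-, hv⟩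
      obtain ⟨p, hp, hmem, hle⟩ := BCnt_prime v
      rw [Set.mem_iUnion₂]
      exact ⟨p, ⟨hp, hle.trans hv⟩, BCnt_over v hp hmem⟩)
  refine h1.2.trans (Nat.mul_le_mul_left _ ?_)
  have h2 : {p : ℕ | p.Prime ∧ p ≤ X} ⊆ Set.Icc 1 X := fun p hp => ⟨hp.1.one_le, hp.2⟩
  refine (Set.ncard_le_ncard h2 (Set.finite_Icc 1 X)).trans ?_
  rw [Set.ncard_eq_toFinset_card']
  simp

theorem norm_sq_le {v : HeightOneSpectrum (𝓞 K)} {q : HeightOneSpectrum (𝓞 M)}
    (h : q.asIdeal.LiesOver v.asIdeal)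
    (hne : Ideal.absNorm q.asIdeal ≠ Ideal.absNorm v.asIdeal) :
    Ideal.absNorm v.asIdeal ^ 2 ≤ Ideal.absNorm q.asIdeal := by
  have hp := q.isPrime
  have h1 := Ideal.absNorm_pow_inertiaDeg v.asIdeal q.asIdeal
  rw [← h1]
  apply Nat.pow_le_pow_right
  · exact Nat.pos_of_ne_zero (by rw [Ne, Ideal.absNorm_eq_zero_iff]; exact v.ne_bot)
  · have h2 := Ideal.inertiaDeg_pos q.asIdeal (𝓞 K)
    rcases Nat.lt_or_ge 1 (q.asIdeal.inertiaDeg (𝓞 K)) with h3 | h3
    · exact h3
    · exfalso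
      apply hne
      rw [← h1]
      have h4 : q.asIdeal.inertiaDeg (𝓞 K) = 1 := le_antisymm h3 h2
      rw [h4, pow_one]

theorem high_le (K : Type) {M : Type} [Field K] [NumberField K] [Field M] [NumberField M]
    [Algebra K M] (X : ℕ) :
    prc M {q | ∀ v : HeightOneSpectrum (𝓞 K), q.asIdeal.LiesOver v.asIdeal →
      Ideal.absNorm q.asIdeal ≠ Ideal.absNorm v.asIdeal} X ≤
      Module.finrank K M * (Module.finrank ℚ K * Nat.sqrt X) := by
  have h1 := BCnt_finite_le (prc_finite K (Nat.sqrt X)) (n := Module.finrank K M)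
    (f := fun v => {q : HeightOneSpectrum (𝓞 M) | q.asIdeal.LiesOver v.asIdeal})
    (t := {q : HeightOneSpectrum (𝓞 M) | (∀ v : HeightOneSpectrum (𝓞 K),
      q.asIdeal.LiesOver v.asIdeal → Ideal.absNorm q.asIdeal ≠ Ideal.absNorm v.asIdeal) ∧
      Ideal.absNorm q.asIdeal ≤ X}) (fun v _ => BCnt_over_fin v) (by
      rintro q ⟨hq, hX⟩
      obtain ⟨v, hv⟩ := BCnt_below K q
      rw [Set.mem_iUnion₂]
      refine ⟨v, ?_, hv⟩
      have h2 := norm_sq_le hv (hq v hv)
      rw [Set.mem_setOf_eq, Nat.le_sqrt, ← pow_two]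
      exact h2.trans hX)
  refine h1.2.trans (Nat.mul_le_mul_left _ ?_)
  have h2 := prc_le (K := K) Set.univ (Nat.sqrt X)
  simpa [prc] using h2

end Pool.Agent.H42.PC

end BCnt

section BDeg
namespace Pool.Agent.H42.PC

open NumberField IsDedekindDomain

variable {K L : Type} [Field K] [NumberField K] [Field L] [NumberField L] [Algebra K L]
  [IsGalois K L]

open scoped Pointwise in
theorem BDeg_rs_ideal (M : IntermediateField K L) (h : L ≃ₐ[M] L) (I : Ideal (𝓞 L)) :
    (h.restrictScalars K) • I = h • I := by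
  ext x
  rw [Ideal.mem_pointwise_smul_iff_inv_smul_mem, Ideal.mem_pointwise_smul_iff_inv_smul_mem]
  rfl

theorem BDeg_rs_mem (M : IntermediateField K L) (h : L ≃ₐ[M] L) :
    h.restrictScalars K ∈ M.fixingSubgroup := by
  rw [IntermediateField.mem_fixingSubgroup_iff]
  intro x hx
  exact h.commutes ⟨x, hx⟩

theorem BDeg_rs_ex (M : IntermediateField K L) {c : L ≃ₐ[K] L} (hc : c ∈ M.fixingSubgroup) :
    ∃ h : L ≃ₐ[M] L, h.restrictScalars K = c :=
  ⟨M.fixingSubgroupEquiv ⟨c, hc⟩, by ext x; rfl⟩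

theorem BDeg_rs_inj (M : IntermediateField K L) :
    Function.Injective (fun h : L ≃ₐ[M] L => h.restrictScalars K) := by
  intro h h' e
  ext x
  exact congrArg (fun f : L ≃ₐ[K] L => f x) e

theorem BDeg_two_le (v : HeightOneSpectrum (𝓞 K)) : 2 ≤ Ideal.absNorm v.asIdeal := by
  have h0 : Ideal.absNorm v.asIdeal ≠ 0 := by
    rw [Ne, Ideal.absNorm_eq_zero_iff]
    exact v.ne_bot
  have h1 : Ideal.absNorm v.asIdeal ≠ 1 := by
    rw [Ne, Ideal.absNorm_eq_one_iff]
    exact v.isPrime.ne_top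
  omega

open scoped Pointwise in
/-- degree one primes: the decomposition group is inside the fixing subgroup -/
theorem BDeg_stab (M : IntermediateField K L) {v : HeightOneSpectrum (𝓞 K)} (hv : Un K L v)
    {q : HeightOneSpectrum (𝓞 M)} (hq : q.asIdeal.LiesOver v.asIdeal)
    (hN : Ideal.absNorm q.asIdeal = Ideal.absNorm v.asIdeal)
    {w : HeightOneSpectrum (𝓞 L)} (hw : w.asIdeal.LiesOver q.asIdeal)
    {g : L ≃ₐ[K] L} (hg : g • w.asIdeal = w.asIdeal) : g ∈ M.fixingSubgroup := by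
  have hwp := w.isPrime
  have hqp := q.isPrime
  have hvp := v.isPrime
  have hwv : w.asIdeal.LiesOver v.asIdeal := Ideal.LiesOver.trans w.asIdeal q.asIdeal v.asIdeal
  have : Finite (𝓞 K ⧸ v.asIdeal) := Ideal.finiteQuotientOfFreeOfNeBot _ v.ne_bot
  have : Finite (𝓞 M ⧸ q.asIdeal) := Ideal.finiteQuotientOfFreeOfNeBot _ q.ne_bot
  have hf1 : q.asIdeal.inertiaDeg (𝓞 K) = 1 := by
    have h1 := Ideal.absNorm_pow_inertiaDeg v.asIdeal q.asIdeal
    rw [hN] at h1
    exact Nat.pow_right_injective (BDeg_two_le v) (by simpa using h1)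
  have hf2 : w.asIdeal.inertiaDeg (𝓞 K) = w.asIdeal.inertiaDeg (𝓞 M) := by
    rw [Ideal.inertiaDeg_tower q.asIdeal w.asIdeal (R := 𝓞 K), hf1, one_mul]
  have hin1 : Nat.card (Ideal.inertia (L ≃ₐ[K] L) w.asIdeal) = 1 := by
    rw [Nat.card_eq_one_iff_unique]
    refine ⟨⟨fun a b => ?_⟩, ⟨1⟩⟩
    rw [Subtype.ext_iff, hv w hwv a.1 (fun x => a.2 x), hv w hwv b.1 (fun x => b.2 x)]
  have hin2 : Nat.card (Ideal.inertia (L ≃ₐ[M] L) w.asIdeal) = 1 := by
    rw [Nat.card_eq_one_iff_unique]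
    refine ⟨⟨fun a b => ?_⟩, ⟨1⟩⟩
    rw [Subtype.ext_iff]
    apply BDeg_rs_inj M
    change a.1.restrictScalars K = b.1.restrictScalars K
    rw [hv w hwv (a.1.restrictScalars K) (fun x => a.2 x),
      hv w hwv (b.1.restrictScalars K) (fun x => b.2 x)]
  have hs1 := Ideal.card_stabilizer_eq_card_inertia_mul_finrank (G := L ≃ₐ[K] L)
    v.asIdeal w.asIdeal
  have hs2 := Ideal.card_stabilizer_eq_card_inertia_mul_finrank (G := L ≃ₐ[M] L)
    q.asIdeal w.asIdeal
  rw [hin1, one_mul, hf2] at hs1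
  rw [hin2, one_mul, ← hs1] at hs2
  let F : MulAction.stabilizer (L ≃ₐ[M] L) w.asIdeal → MulAction.stabilizer (L ≃ₐ[K] L) w.asIdeal :=
    fun h => ⟨h.1.restrictScalars K, by
      rw [MulAction.mem_stabilizer_iff, BDeg_rs_ideal]
      exact MulAction.mem_stabilizer_iff.1 h.2⟩
  have hF : Function.Injective F := by
    intro h h' e
    exact Subtype.ext (BDeg_rs_inj M (congrArg Subtype.val e))
  have hFb : Function.Bijective F := (Nat.bijective_iff_injective_and_card F).2 ⟨hF, hs2⟩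
  obtain ⟨h, hh⟩ := hFb.2 ⟨g, MulAction.mem_stabilizer_iff.2 hg⟩
  have h3 : h.1.restrictScalars K = g := congrArg Subtype.val hh
  rw [← h3]
  exact BDeg_rs_mem M h.1

theorem BDeg_card_le {F : Type*} [Field F] [Finite F] {p : ℕ} (hp : 1 < p)
    (h : ∀ y : F, y - y ^ p = 0) : Nat.card F ≤ p := by
  classical
  have := Fintype.ofFinite F
  rw [Nat.card_eq_fintype_card]
  set q : Polynomial F := Polynomial.X ^ p - Polynomial.X with hq
  have hd : q.natDegree = p := FiniteField.X_pow_card_sub_X_natDegree_eq F hp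
  have hq0 : q ≠ 0 := by
    intro h0
    rw [h0, Polynomial.natDegree_zero] at hd
    omega
  calc Fintype.card F = (Finset.univ : Finset F).card := rfl
    _ ≤ q.roots.toFinset.card := Finset.card_le_card fun y _ => by
        rw [Multiset.mem_toFinset, Polynomial.mem_roots hq0, Polynomial.IsRoot.def, hq,
          Polynomial.eval_sub, Polynomial.eval_pow, Polynomial.eval_X, ← neg_eq_zero, neg_sub]
        exact h y
    _ ≤ q.roots.card := Multiset.toFinset_card_le _
    _ ≤ q.natDegree := Polynomial.card_roots' q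
    _ = p := hd

/-- if the Frobenius is in the fixing subgroup, the prime below has degree one -/
theorem BDeg_norm (M : IntermediateField K L) {v : HeightOneSpectrum (𝓞 K)}
    {q : HeightOneSpectrum (𝓞 M)} (hq : q.asIdeal.LiesOver v.asIdeal)
    {w : HeightOneSpectrum (𝓞 L)} (hw : w.asIdeal.LiesOver q.asIdeal)
    {g : L ≃ₐ[K] L} (hg : IsArithFrobAt (𝓞 K) g w.asIdeal) (hgM : g ∈ M.fixingSubgroup) :
    Ideal.absNorm q.asIdeal = Ideal.absNorm v.asIdeal := by
  have hwp := w.isPrime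
  have hqp := q.isPrime
  have hvp := v.isPrime
  have hwv : w.asIdeal.LiesOver v.asIdeal := Ideal.LiesOver.trans w.asIdeal q.asIdeal v.asIdeal
  have hcard : Nat.card (𝓞 K ⧸ w.asIdeal.under (𝓞 K)) = Ideal.absNorm v.asIdeal := by
    rw [← hwv.over, Ideal.absNorm_apply, Submodule.cardQuot_apply]
  apply le_antisymm
  · rw [Ideal.absNorm_apply q.asIdeal, Submodule.cardQuot_apply]
    have hmax : q.asIdeal.IsMaximal := q.isMaximal
    let _ := Ideal.Quotient.field q.asIdeal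
    have : Finite (𝓞 M ⧸ q.asIdeal) := Ideal.finiteQuotientOfFreeOfNeBot _ q.ne_bot
    refine BDeg_card_le (F := 𝓞 M ⧸ q.asIdeal) (BDeg_two_le v) ?_
    intro y
    obtain ⟨y, rfl⟩ := Ideal.Quotient.mk_surjective y
    rw [← map_pow, ← map_sub, Ideal.Quotient.eq_zero_iff_mem]
    have h1 := hg (algebraMap (𝓞 M) (𝓞 L) y)
    have h2 : (MulSemiringAction.toAlgHom (𝓞 K) (𝓞 L) g) (algebraMap (𝓞 M) (𝓞 L) y) =
        algebraMap (𝓞 M) (𝓞 L) y := by
      apply RingOfIntegers.ext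
      rw [IntermediateField.mem_fixingSubgroup_iff] at hgM
      exact hgM _ y.1.2
    rw [h2, hcard, ← map_pow, ← map_sub] at h1
    rw [hw.over]
    exact h1
  · rw [← Ideal.absNorm_pow_inertiaDeg v.asIdeal q.asIdeal]
    exact Nat.le_self_pow (Ideal.inertiaDeg_pos q.asIdeal (𝓞 K)).ne' _

open scoped Pointwise in
/-- the conjugate prime -/
noncomputable def BDeg_sm (τ : L ≃ₐ[K] L) (w : HeightOneSpectrum (𝓞 L)) :
    HeightOneSpectrum (𝓞 L) :=
  have := w.isPrime
  ⟨τ • w.asIdeal, inferInstance, BFr_smul_ne_bot w τ⟩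

open scoped Pointwise in
theorem degree_one_count (M : IntermediateField K L) {v : HeightOneSpectrum (𝓞 K)}
    (hv : Un K L v) {σ : L ≃ₐ[K] L} (hσ : IsFr K L v σ) :
    Nat.card {q : HeightOneSpectrum (𝓞 M) // q.asIdeal.LiesOver v.asIdeal ∧
      Ideal.absNorm q.asIdeal = Ideal.absNorm v.asIdeal} * Nat.card M.fixingSubgroup =
    Nat.card {x : L ≃ₐ[K] L // x⁻¹ * σ * x ∈ M.fixingSubgroup} := by
  obtain ⟨w, hw, hσw⟩ := hσ
  have hwp := w.isPrime
  -- primes above
  have h1 : ∀ q : {q : HeightOneSpectrum (𝓞 M) // q.asIdeal.LiesOver v.asIdeal ∧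
      Ideal.absNorm q.asIdeal = Ideal.absNorm v.asIdeal},
      ∃ (wq : HeightOneSpectrum (𝓞 L)) (x : L ≃ₐ[K] L), wq.asIdeal.LiesOver q.1.asIdeal ∧
        w.asIdeal = x • wq.asIdeal := by
    intro q
    obtain ⟨wq, hwq⟩ := BFr_over_exists (K := M) (L := L) q.1
    have hwqp := wq.isPrime
    have h2 : wq.asIdeal.LiesOver v.asIdeal := by
      have := q.2.1
      exact Ideal.LiesOver.trans wq.asIdeal q.1.asIdeal v.asIdeal
    obtain ⟨x, hx⟩ := Algebra.IsInvariant.exists_smul_of_under_eq (𝓞 K) (𝓞 L) (L ≃ₐ[K] L)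
      wq.asIdeal w.asIdeal (h2.over.symm.trans hw.over)
    exact ⟨wq, x, hwq, hx⟩
  choose wq xq hwq hxq using h1
  have hxq' : ∀ q, (xq q)⁻¹ • w.asIdeal = (wq q).asIdeal := by
    intro q
    rw [hxq q, inv_smul_smul]
  have hover : ∀ q, ∀ c ∈ M.fixingSubgroup, (c • (wq q).asIdeal).LiesOver q.1.asIdeal := by
    intro q c hc
    obtain ⟨h, rfl⟩ := BDeg_rs_ex M hc
    rw [BDeg_rs_ideal]
    exact Ideal.LiesOver.smul (h := hwq q) h
  rw [← Nat.card_prod]
  apply Nat.card_congr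
  refine Equiv.ofBijective (fun p => ⟨xq p.1 * p.2.1, ?_⟩) ⟨?_, ?_⟩
  · have h2 : IsArithFrobAt (𝓞 K) ((xq p.1)⁻¹ * σ * ((xq p.1)⁻¹)⁻¹)
        ((xq p.1)⁻¹ • w.asIdeal) := hσw.conj _
    rw [inv_inv, hxq'] at h2
    have hp1 := (wq p.1).isPrime
    have h3 := BDeg_stab M hv p.1.2.1 p.1.2.2 (hwq p.1)
      (MulAction.mem_stabilizer_iff.1 h2.mem_stabilizer)
    have h4 := M.fixingSubgroup.mul_mem (M.fixingSubgroup.mul_mem
      (M.fixingSubgroup.inv_mem p.2.2) h3) p.2.2
    have h5 : (xq p.1 * p.2.1)⁻¹ * σ * (xq p.1 * p.2.1) =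
        p.2.1⁻¹ * ((xq p.1)⁻¹ * σ * xq p.1) * p.2.1 := by group
    rw [h5]
    exact h4
  · rintro ⟨q, c⟩ ⟨q', c'⟩ e
    have e1 : xq q * c.1 = xq q' * c'.1 := congrArg Subtype.val e
    have e2 : c.1⁻¹ • (wq q).asIdeal = c'.1⁻¹ • (wq q').asIdeal := by
      rw [← hxq' q, ← hxq' q', smul_smul, smul_smul, ← mul_inv_rev, ← mul_inv_rev, e1]
    have e3 := hover q _ (M.fixingSubgroup.inv_mem c.2)
    have e4 := hover q' _ (M.fixingSubgroup.inv_mem c'.2)
    rw [e2] at e3
    have e5 : q = q' := Subtype.ext (HeightOneSpectrum.ext (e3.over.trans e4.over.symm))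
    subst e5
    have e6 := mul_left_cancel e1
    rw [Prod.mk.injEq]
    exact ⟨rfl, Subtype.ext e6⟩
  · rintro ⟨x, hx⟩
    obtain ⟨q, hq⟩ := BCnt_below M (BDeg_sm x⁻¹ w)
    have hq' : (x⁻¹ • w.asIdeal).LiesOver q.asIdeal := hq
    have hfr : IsArithFrobAt (𝓞 K) (x⁻¹ * σ * x) (x⁻¹ • w.asIdeal) := by
      have := hσw.conj x⁻¹
      rwa [inv_inv] at this
    have hxv : (x⁻¹ • w.asIdeal).LiesOver v.asIdeal := Ideal.LiesOver.smul (h := hw) x⁻¹
    have hqv : q.asIdeal.LiesOver v.asIdeal := Ideal.LiesOver.tower_bot (x⁻¹ • w.asIdeal) _ _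
    have hN := BDeg_norm M hqv hq hfr hx
    have hq1 := (wq ⟨q, hqv, hN⟩).isPrime
    obtain ⟨h, hh⟩ := Algebra.IsInvariant.exists_smul_of_under_eq (𝓞 M) (𝓞 L) (L ≃ₐ[M] L)
      (wq ⟨q, hqv, hN⟩).asIdeal (x⁻¹ • w.asIdeal)
      ((hwq ⟨q, hqv, hN⟩).over.symm.trans hq'.over)
    set q0 : {q : HeightOneSpectrum (𝓞 M) // q.asIdeal.LiesOver v.asIdeal ∧
      Ideal.absNorm q.asIdeal = Ideal.absNorm v.asIdeal} := ⟨q, hqv, hN⟩ with hq0
    have h6 : ((h.restrictScalars K)⁻¹ * (x⁻¹ * xq q0)) • (wq q0).asIdeal =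
        (wq q0).asIdeal := by
      rw [mul_smul, mul_smul, ← hxq q0, hh, ← BDeg_rs_ideal, inv_smul_smul]
    have h7 := BDeg_stab M hv q0.2.1 q0.2.2 (hwq q0) h6
    have h8 := M.fixingSubgroup.mul_mem (BDeg_rs_mem M h) h7
    rw [mul_inv_cancel_left] at h8
    have h9 : (xq q0)⁻¹ * x ∈ M.fixingSubgroup := by
      have := M.fixingSubgroup.inv_mem h8
      rwa [mul_inv_rev, inv_inv] at this
    refine ⟨⟨q0, ⟨_, h9⟩⟩, ?_⟩
    apply Subtype.ext
    change xq q0 * ((xq q0)⁻¹ * x) = x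
    group

end Pool.Agent.H42.PC

end BDeg
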