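import Pool.Agent.H17.PIT.Main
import Pool.Agent.H42.PCM.B1

set_option autoImplicit false

section BAvg
namespace Pool.Agent.H42.PC

open NumberField IsDedekindDomain Filter Topology

variable {K L : Type} [Field K] [NumberField K] [Field L] [NumberField L] [Algebra K L]
  [IsGalois K L]

/-- The prime ideal theorem for `K` (a hypothesis here, proved in part A). -/
def PITh (K : Type) [Field K] [NumberField K] : Prop :=
  Tendsto (fun X : ℕ => (prc K Set.univ X : ℝ) * Real.log X / X) atTop (𝓝 1)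

/-- a choice of Frobenius -/
noncomputable def frb (K L : Type) [Field K] [NumberField K] [Field L] [NumberField L]
    [Algebra K L] [IsGalois K L] (v : HeightOneSpectrum (𝓞 K)) : L ≃ₐ[K] L :=
  Classical.choose (fr_exists (K := K) (L := L) v)

/-- the average of `φ` over the Frobenius elements of the unramified primes of norm at most `X` -/
noncomputable def avg (K L : Type) [Field K] [NumberField K] [Field L] [NumberField L]
    [Algebra K L] [IsGalois K L] (φ : (L ≃ₐ[K] L) → ℝ) (X : ℕ) : ℝ :=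
  (∑ᶠ v ∈ {v : HeightOneSpectrum (𝓞 K) | Un K L v ∧ Ideal.absNorm v.asIdeal ≤ X},
    φ (frb K L v)) / prc K Set.univ X

theorem BAvg_frb (v : HeightOneSpectrum (𝓞 K)) : IsFr K L v (frb K L v) :=
  Classical.choose_spec (fr_exists (K := K) (L := L) v)

/-- degree one primes above `v` -/
def BAvg_F (M : IntermediateField K L) (v : HeightOneSpectrum (𝓞 K)) :
    Set (HeightOneSpectrum (𝓞 M)) :=
  {q | q.asIdeal.LiesOver v.asIdeal ∧ Ideal.absNorm q.asIdeal = Ideal.absNorm v.asIdeal}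

/-- degree one primes above the unramified primes of norm at most `X` -/
def BAvg_A (M : IntermediateField K L) (X : ℕ) : Set (HeightOneSpectrum (𝓞 M)) :=
  ⋃ v ∈ {v : HeightOneSpectrum (𝓞 K) | Un K L v ∧ Ideal.absNorm v.asIdeal ≤ X}, BAvg_F M v

theorem BAvg_unfin (X : ℕ) :
    {v : HeightOneSpectrum (𝓞 K) | Un K L v ∧ Ideal.absNorm v.asIdeal ≤ X}.Finite :=
  (prc_finite K X).subset fun _ hv => hv.2

theorem BAvg_F_fin (M : IntermediateField K L) (v : HeightOneSpectrum (𝓞 K)) :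
    (BAvg_F M v).Finite :=
  (BCnt_over_fin (M := M) v).1.subset fun _ hq => hq.1

theorem BAvg_sum (C : Subgroup (L ≃ₐ[K] L)) (X : ℕ) :
    ∑ᶠ v ∈ {v : HeightOneSpectrum (𝓞 K) | Un K L v ∧ Ideal.absNorm v.asIdeal ≤ X},
      tht C (frb K L v) = ((BAvg_A (IntermediateField.fixedField C) X).ncard : ℝ) := by
  have hfin := BAvg_unfin (K := K) (L := L) X
  unfold BAvg_A
  rw [hfin.ncard_biUnion (fun v _ => BAvg_F_fin _ v), Nat.cast_finsum_mem hfin]
  · refine finsum_mem_congr rfl ?_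
    rintro v ⟨hv, -⟩
    have h1 := degree_one_count (IntermediateField.fixedField C) hv (BAvg_frb v)
    rw [IntermediateField.fixingSubgroup_fixedField] at h1
    have hC : (Nat.card C : ℝ) ≠ 0 := by
      have : Nat.card C ≠ 0 := Nat.card_pos.ne'
      exact_mod_cast this
    unfold tht
    rw [div_eq_iff hC, ← h1, Nat.cast_mul, ← Nat.card_coe_set_eq]
    rfl
  · intro v _ v' _ hne
    rw [Function.onFun, Set.disjoint_left]
    intro q hq hq'
    exact hne (BCnt_below_uniq hq.1 hq'.1)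

theorem BAvg_upp (M : IntermediateField K L) (X : ℕ) :
    (BAvg_A M X).ncard ≤ prc M Set.univ X := by
  unfold prc
  refine Set.ncard_le_ncard ?_ ?_
  · intro q hq
    unfold BAvg_A at hq
    rw [Set.mem_iUnion₂] at hq
    obtain ⟨v, hv, hq⟩ := hq
    exact ⟨trivial, hq.2.le.trans hv.2⟩
  · exact (prc_finite M X).subset fun q hq => hq.2

theorem BAvg_low (M : IntermediateField K L) : ∃ B : ℕ, ∀ X : ℕ, prc M Set.univ X ≤
    (BAvg_A M X).ncard + Module.finrank K M * (Module.finrank ℚ K * Nat.sqrt X) + B := by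
  have hB := BCnt_finite_le (un_finite (K := K) (L := L)) (n := Module.finrank K M)
    (f := fun v => {q : HeightOneSpectrum (𝓞 M) | q.asIdeal.LiesOver v.asIdeal})
    (t := {q : HeightOneSpectrum (𝓞 M) | ∃ v : HeightOneSpectrum (𝓞 K), ¬ Un K L v ∧
      q.asIdeal.LiesOver v.asIdeal}) (fun v _ => BCnt_over_fin v) (by
      rintro q ⟨v, hv, hq⟩
      rw [Set.mem_iUnion₂]
      exact ⟨v, hv, hq⟩)
  refine ⟨{q : HeightOneSpectrum (𝓞 M) | ∃ v : HeightOneSpectrum (𝓞 K), ¬ Un K L v ∧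
      q.asIdeal.LiesOver v.asIdeal}.ncard, fun X => ?_⟩
  have hhigh := high_le K (M := M) X
  unfold prc at hhigh ⊢
  set H := {q : HeightOneSpectrum (𝓞 M) | q ∈ {q : HeightOneSpectrum (𝓞 M) |
    ∀ v : HeightOneSpectrum (𝓞 K), q.asIdeal.LiesOver v.asIdeal →
      Ideal.absNorm q.asIdeal ≠ Ideal.absNorm v.asIdeal} ∧ Ideal.absNorm q.asIdeal ≤ X} with hH
  set B := {q : HeightOneSpectrum (𝓞 M) | ∃ v : HeightOneSpectrum (𝓞 K), ¬ Un K L v ∧
      q.asIdeal.LiesOver v.asIdeal} with hBdef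
  have hHf : H.Finite := (prc_finite M X).subset fun q hq => hq.2
  have hAf : (BAvg_A M X).Finite :=
    (BAvg_unfin (K := K) (L := L) X).biUnion fun v _ => BAvg_F_fin M v
  have hsub : {q : HeightOneSpectrum (𝓞 M) | q ∈ Set.univ ∧ Ideal.absNorm q.asIdeal ≤ X} ⊆
      BAvg_A M X ∪ H ∪ B := by
    rintro q ⟨-, hq⟩
    by_cases h1 : ∀ v : HeightOneSpectrum (𝓞 K), q.asIdeal.LiesOver v.asIdeal →
      Ideal.absNorm q.asIdeal ≠ Ideal.absNorm v.asIdeal
    · left; right
      exact ⟨h1, hq⟩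
    · push Not at h1
      obtain ⟨v, hqv, hN⟩ := h1
      by_cases h2 : Un K L v
      · left; left
        unfold BAvg_A
        rw [Set.mem_iUnion₂]
        exact ⟨v, ⟨h2, hN.symm.le.trans hq⟩, hqv, hN⟩
      · right
        exact ⟨v, h2, hqv⟩
  calc _ ≤ (BAvg_A M X ∪ H ∪ B).ncard := Set.ncard_le_ncard hsub ((hAf.union hHf).union hB.1)
    _ ≤ (BAvg_A M X ∪ H).ncard + B.ncard := Set.ncard_union_le _ _
    _ ≤ (BAvg_A M X).ncard + H.ncard + B.ncard := by
        have := Set.ncard_union_le (BAvg_A M X) H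
        omega
    _ ≤ _ := by omega

theorem BAvg_log : Tendsto (fun X : ℕ => Real.log X / X) atTop (𝓝 0) := by
  have h := Real.isLittleO_log_id_atTop.tendsto_div_nhds_zero
  exact h.comp tendsto_natCast_atTop_atTop

theorem BAvg_sqrt : Tendsto (fun X : ℕ => (Nat.sqrt X : ℝ) * Real.log X / X) atTop (𝓝 0) := by
  have h := (isLittleO_log_rpow_atTop (r := 1 / 2) (by norm_num)).tendsto_div_nhds_zero
  have h2 := h.comp tendsto_natCast_atTop_atTop
  refine squeeze_zero' ?_ ?_ h2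
  · exact Eventually.of_forall fun X => div_nonneg (mul_nonneg (Nat.cast_nonneg _)
      (Real.log_natCast_nonneg X)) (Nat.cast_nonneg _)
  · filter_upwards [eventually_gt_atTop 0] with X hX
    have hX' : (0 : ℝ) < X := by exact_mod_cast hX
    have hs : (Nat.sqrt X : ℝ) ≤ Real.sqrt X := Real.nat_sqrt_le_real_sqrt
    have hs0 : 0 < Real.sqrt X := Real.sqrt_pos.2 hX'
    simp only [Function.comp_apply]
    rw [← Real.sqrt_eq_rpow, div_le_div_iff₀ hX' hs0]
    have h3 : Real.sqrt X * Real.sqrt X = X := Real.mul_self_sqrt hX'.le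
    have h4 : 0 ≤ Real.log X := Real.log_natCast_nonneg X
    calc (Nat.sqrt X : ℝ) * Real.log X * Real.sqrt X
        ≤ Real.sqrt X * Real.log X * Real.sqrt X := by gcongr
      _ = Real.log X * (Real.sqrt X * Real.sqrt X) := by ring
      _ = Real.log X * X := by rw [h3]

theorem BAvg_Atend (M : IntermediateField K L) (hM : PITh M) :
    Tendsto (fun X : ℕ => ((BAvg_A M X).ncard : ℝ) * Real.log X / X) atTop (𝓝 1) := by
  obtain ⟨B, hB⟩ := BAvg_low M
  have h1 : Tendsto (fun X : ℕ => (prc M Set.univ X : ℝ) * Real.log X / X -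
      ((Module.finrank K M * Module.finrank ℚ K : ℕ) : ℝ) *
        ((Nat.sqrt X : ℝ) * Real.log X / X) - B * (Real.log X / X)) atTop (𝓝 1) := by
    have := (hM.sub (BAvg_sqrt.const_mul
      ((Module.finrank K M * Module.finrank ℚ K : ℕ) : ℝ))).sub (BAvg_log.const_mul (B : ℝ))
    simpa using this
  refine tendsto_of_tendsto_of_tendsto_of_le_of_le h1 hM ?_ ?_
  · intro X
    have h2 : (prc M Set.univ X : ℝ) ≤ (BAvg_A M X).ncard +
        ((Module.finrank K M * Module.finrank ℚ K : ℕ) : ℝ) * Nat.sqrt X + B := by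
      have := hB X
      rw [← mul_assoc] at this
      exact_mod_cast this
    have h3 : 0 ≤ Real.log X := Real.log_natCast_nonneg X
    have h4 : (0 : ℝ) ≤ Real.log X / X := div_nonneg h3 (Nat.cast_nonneg _)
    have h5 := mul_le_mul_of_nonneg_right h2 h4
    change (prc M Set.univ X : ℝ) * Real.log X / X -
      ((Module.finrank K M * Module.finrank ℚ K : ℕ) : ℝ) *
        ((Nat.sqrt X : ℝ) * Real.log X / X) - B * (Real.log X / X) ≤
      ((BAvg_A M X).ncard : ℝ) * Real.log X / X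
    have e1 : (prc M Set.univ X : ℝ) * Real.log X / X =
      (prc M Set.univ X : ℝ) * (Real.log X / X) := by ring
    have e2 : ((BAvg_A M X).ncard : ℝ) * Real.log X / X =
      ((BAvg_A M X).ncard : ℝ) * (Real.log X / X) := by ring
    have e3 : ((Nat.sqrt X : ℝ) * Real.log X / X) = (Nat.sqrt X : ℝ) * (Real.log X / X) := by ring
    rw [e1, e2, e3]
    linarith
  · intro X
    have h2 : ((BAvg_A M X).ncard : ℝ) ≤ prc M Set.univ X := by
      exact_mod_cast BAvg_upp M X
    change ((BAvg_A M X).ncard : ℝ) * Real.log X / X ≤ (prc M Set.univ X : ℝ) * Real.log X / X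
    have h3 : 0 ≤ Real.log X := Real.log_natCast_nonneg X
    gcongr

theorem avg_tht (hK : PITh K) (hPIT : ∀ M : IntermediateField K L, PITh M)
    (C : Subgroup (L ≃ₐ[K] L)) : Tendsto (avg K L (tht C)) atTop (𝓝 1) := by
  have h1 := (BAvg_Atend (IntermediateField.fixedField C) (hPIT _)).div hK one_ne_zero
  rw [div_one] at h1
  refine h1.congr' ?_
  filter_upwards [eventually_ge_atTop 2] with X hX
  simp only [Pi.div_apply]
  unfold avg
  rw [BAvg_sum]
  have hX0 : (X : ℝ) ≠ 0 := by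
    have : X ≠ 0 := by omega
    exact_mod_cast this
  have hl : Real.log X ≠ 0 := by
    have : (1 : ℝ) < X := by exact_mod_cast (by omega : 1 < X)
    exact (Real.log_pos this).ne'
  rw [div_div_div_cancel_right₀ hX0, mul_div_mul_right _ _ hl]

end Pool.Agent.H42.PC

end BAvg

section BFin
namespace Pool.Agent.H42.PC

open NumberField IsDedekindDomain Filter Topology

theorem prc_tendsto {K : Type} [Field K] [NumberField K] (hK : PITh K) :
    Tendsto (fun X : ℕ => (prc K Set.univ X : ℝ)) atTop atTop := by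
  have h1 : Tendsto (fun X : ℕ => (X : ℝ) / Real.log X) atTop atTop := by
    have h2 : Tendsto (fun X : ℕ => Real.log X / X) atTop (𝓝[>] 0) := by
      rw [tendsto_nhdsWithin_iff]
      refine ⟨BAvg_log, ?_⟩
      filter_upwards [eventually_gt_atTop 1] with X hX
      have hX' : (1 : ℝ) < X := by exact_mod_cast hX
      exact div_pos (Real.log_pos hX') (by linarith)
    have h3 := h2.inv_tendsto_nhdsGT_zero
    refine h3.congr fun X => ?_
    simp
  have h4 := hK.pos_mul_atTop one_pos h1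
  refine h4.congr' ?_
  filter_upwards [eventually_gt_atTop 1] with X hX
  have hX' : (1 : ℝ) < X := by exact_mod_cast hX
  have hl : Real.log X ≠ 0 := (Real.log_pos hX').ne'
  have hX0 : (X : ℝ) ≠ 0 := by linarith
  field_simp

section BFinAux

variable {K L : Type} [Field K] [NumberField K] [Field L] [NumberField L] [Algebra K L]
  [IsGalois K L]

theorem BFin_add (φ ψ : (L ≃ₐ[K] L) → ℝ) (X : ℕ) :
    avg K L (φ + ψ) X = avg K L φ X + avg K L ψ X := by
  unfold avg
  rw [← add_div, ← finsum_mem_add_distrib (BAvg_unfin X)]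
  rfl

theorem BFin_smul (c : ℝ) (φ : (L ≃ₐ[K] L) → ℝ) (X : ℕ) :
    avg K L (c • φ) X = c * avg K L φ X := by
  unfold avg
  rw [finsum_mem_eq_finite_toFinset_sum _ (BAvg_unfin X),
    finsum_mem_eq_finite_toFinset_sum _ (BAvg_unfin X), ← mul_div_assoc, Finset.mul_sum]
  rfl

/-- functions with the right average -/
noncomputable def BFin_S (K L : Type) [Field K] [NumberField K] [Field L] [NumberField L]
    [Algebra K L] [IsGalois K L] [Fintype (L ≃ₐ[K] L)] : Submodule ℝ ((L ≃ₐ[K] L) → ℝ) where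
  carrier := {φ | Tendsto (avg K L φ) atTop (𝓝 ((∑ g, φ g) / Nat.card (L ≃ₐ[K] L)))}
  add_mem' := by
    intro φ ψ hφ hψ
    simp only [Set.mem_ofPred_eq] at *
    have h := hφ.add hψ
    have e : (∑ g, φ g) / (Nat.card (L ≃ₐ[K] L) : ℝ) + (∑ g, ψ g) / Nat.card (L ≃ₐ[K] L) =
        (∑ g, (φ + ψ) g) / Nat.card (L ≃ₐ[K] L) := by
      simp only [Pi.add_apply]
      rw [Finset.sum_add_distrib, add_div]
    rw [e] at h
    exact h.congr fun X => (BFin_add φ ψ X).symm
  zero_mem' := by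
    simp only [Set.mem_ofPred_eq]
    have h : Tendsto (fun _ : ℕ => (0 : ℝ)) atTop (𝓝 ((∑ g : L ≃ₐ[K] L,
        (0 : (L ≃ₐ[K] L) → ℝ) g) / Nat.card (L ≃ₐ[K] L))) := by
      simp
    refine h.congr fun X => ?_
    unfold avg
    simp
  smul_mem' := by
    intro c φ hφ
    simp only [Set.mem_ofPred_eq] at *
    have h := hφ.const_mul c
    have e : c * ((∑ g, φ g) / (Nat.card (L ≃ₐ[K] L) : ℝ)) =
        (∑ g, (c • φ) g) / Nat.card (L ≃ₐ[K] L) := by
      simp only [Pi.smul_apply, smul_eq_mul]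
      rw [← Finset.mul_sum, mul_div_assoc]
    rw [e] at h
    exact h.congr fun X => (BFin_smul c φ X).symm

end BFinAux

open scoped Classical in
theorem frobenius_density {K L : Type} [Field K] [NumberField K] [Field L] [NumberField L]
    [Algebra K L] [IsGalois K L] (hK : PITh K) (hPIT : ∀ M : IntermediateField K L, PITh M)
    (O : Set L) (hO : O.Finite) (hinv : ∀ g : L ≃ₐ[K] L, ∀ x ∈ O, g • x ∈ O)
    {ε : ℝ} (hε : 0 < ε) :
    ∀ᶠ X : ℕ in atTop, (prc K {v | ∃ g : L ≃ₐ[K] L, (∃ x ∈ O, g • x = x) ∧ IsFr K L v g} X : ℝ) ≤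
      ((Nat.card {g : L ≃ₐ[K] L // ∃ x ∈ O, g • x = x} : ℝ) / Nat.card (L ≃ₐ[K] L) + ε) *
        prc K Set.univ X := by
  have : Fintype (L ≃ₐ[K] L) := Fintype.ofFinite _
  have hcard : (Nat.card (L ≃ₐ[K] L) : ℝ) ≠ 0 := by
    have : Nat.card (L ≃ₐ[K] L) ≠ 0 := Nat.card_pos.ne'
    exact_mod_cast this
  have hmem := fix_span (BFin_S K L) (fun C => by
    have h1 := avg_tht hK hPIT C
    change Tendsto (avg K L (tht C)) atTop (𝓝 ((∑ g, tht C g) / Nat.card (L ≃ₐ[K] L)))
    rw [tht_mean, div_self hcard]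
    exact h1) O hO hinv
  set φ : (L ≃ₐ[K] L) → ℝ := fun g => if ∃ x ∈ O, g • x = x then (1 : ℝ) else 0 with hφ
  have hlim : Tendsto (avg K L φ) atTop (𝓝 ((∑ g, φ g) / Nat.card (L ≃ₐ[K] L))) := hmem
  have hsum : ∑ g, φ g = (Nat.card {g : L ≃ₐ[K] L // ∃ x ∈ O, g • x = x} : ℝ) := by
    rw [Nat.card_eq_fintype_card, Fintype.card_subtype, hφ, Finset.sum_ite, Finset.sum_const,
      Finset.sum_const_zero, add_zero, nsmul_eq_mul, mul_one]
  rw [hsum] at hlim
  have hP := prc_tendsto hK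
  set c := {v : HeightOneSpectrum (𝓞 K) | ¬ Un K L v}.ncard with hc
  have hTinv : ∀ g τ : L ≃ₐ[K] L, (∃ x ∈ O, g • x = x) → ∃ x ∈ O, (τ * g * τ⁻¹) • x = x := by
    rintro g τ ⟨x, hx, hgx⟩
    refine ⟨τ • x, hinv τ x hx, ?_⟩
    rw [mul_smul, mul_smul, inv_smul_smul, hgx]
  have key : ∀ X : ℕ, prc K Set.univ X ≠ 0 →
      (prc K {v | ∃ g : L ≃ₐ[K] L, (∃ x ∈ O, g • x = x) ∧ IsFr K L v g} X : ℝ) ≤
      c + avg K L φ X * prc K Set.univ X := by
    intro X hX
    have hX' : (prc K Set.univ X : ℝ) ≠ 0 := by exact_mod_cast hX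
    unfold avg
    rw [div_mul_cancel₀ _ hX', finsum_mem_eq_finite_toFinset_sum _ (BAvg_unfin X), hφ,
      Finset.sum_ite, Finset.sum_const, Finset.sum_const_zero, add_zero, nsmul_eq_mul, mul_one]
    have h3 : {v : HeightOneSpectrum (𝓞 K) | v ∈ {v | ∃ g : L ≃ₐ[K] L, (∃ x ∈ O, g • x = x) ∧
        IsFr K L v g} ∧ Ideal.absNorm v.asIdeal ≤ X} ⊆
        {v : HeightOneSpectrum (𝓞 K) | ¬ Un K L v} ∪
        (Finset.filter (fun v => ∃ x ∈ O, frb K L v • x = x)
          (BAvg_unfin (K := K) (L := L) X).toFinset : Set (HeightOneSpectrum (𝓞 K))) := by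
      rintro v ⟨⟨g, hg, hgv⟩, hvX⟩
      by_cases hv : Un K L v
      · right
        rw [Finset.coe_filter]
        refine ⟨(Set.Finite.mem_toFinset _).2 ⟨hv, hvX⟩, ?_⟩
        obtain ⟨τ, hτ⟩ := fr_conj hv hgv (BAvg_frb v)
        rw [← hτ]
        exact hTinv g τ hg
      · left
        exact hv
    have h4 := Set.ncard_le_ncard h3 (un_finite.union (Finset.finite_toSet _))
    have h5 := h4.trans (Set.ncard_union_le _ _)
    rw [Set.ncard_coe_finset] at h5
    unfold prc
    exact_mod_cast h5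
  have hε2 : 0 < ε / 2 := by positivity
  have e1 := hlim.eventually (gt_mem_nhds (lt_add_of_pos_right
    ((Nat.card {g : L ≃ₐ[K] L // ∃ x ∈ O, g • x = x} : ℝ) / Nat.card (L ≃ₐ[K] L)) hε2))
  have e2 := hP.eventually (eventually_ge_atTop ((c : ℝ) / (ε / 2) + 1))
  filter_upwards [e1, e2] with X h1 h2
  have hpos : (0 : ℝ) < prc K Set.univ X := by
    have : (0 : ℝ) ≤ (c : ℝ) / (ε / 2) := by positivity
    linarith
  have h3 := key X (by
    intro h
    rw [h, Nat.cast_zero] at hpos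
    exact lt_irrefl _ hpos)
  have h4 : (c : ℝ) ≤ ε / 2 * prc K Set.univ X := by
    have h5 : (c : ℝ) / (ε / 2) ≤ prc K Set.univ X := by linarith
    rw [div_le_iff₀ hε2] at h5
    linarith
  calc _ ≤ (c : ℝ) + avg K L φ X * prc K Set.univ X := h3
    _ ≤ ε / 2 * prc K Set.univ X +
        ((Nat.card {g : L ≃ₐ[K] L // ∃ x ∈ O, g • x = x} : ℝ) / Nat.card (L ≃ₐ[K] L) + ε / 2) *
          prc K Set.univ X := by
        gcongr
    _ = _ := by ring

end Pool.Agent.H42.PC

end BFin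

section EPit
namespace Pool.Agent.H42.PC

open NumberField IsDedekindDomain Filter Topology

theorem pith (E : Type) [Field E] [NumberField E] : PITh E := by
  unfold PITh
  have h := H17PIT.pit_nat E
  refine h.congr (fun X => ?_)
  have h1 : {p : Ideal (𝓞 E) | p.IsPrime ∧ p ≠ ⊥ ∧ Ideal.absNorm p ≤ X} =
      (fun v : HeightOneSpectrum (𝓞 E) => v.asIdeal) ''
        {v | v ∈ (Set.univ : Set (HeightOneSpectrum (𝓞 E))) ∧ Ideal.absNorm v.asIdeal ≤ X} := by
    ext p
    constructor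
    · rintro ⟨hp1, hp2, hp3⟩
      exact ⟨⟨p, hp1, hp2⟩, ⟨Set.mem_univ _, hp3⟩, rfl⟩
    · rintro ⟨v, ⟨_, hv⟩, rfl⟩
      exact ⟨v.isPrime, v.ne_bot, hv⟩
  have h2 : Function.Injective (fun v : HeightOneSpectrum (𝓞 E) => v.asIdeal) := by
    intro v w hvw
    exact HeightOneSpectrum.ext hvw
  unfold prc
  rw [h1, Set.ncard_image_of_injective _ h2]

end Pool.Agent.H42.PC

end EPit
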